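import Pool.Agent.Work.MP_a2bf38_gt.H.Defs
import Pool.Agent.Work.MP_a2bf38_gt.Fu.MaxP
import Pool.Agent.Work.MP_a2bf38_gt.Fu.TFlow

section

/-!
# Smooth Fano fibrations

`f : M → Y` is a holomorphic submersion with connected fibres of a compact complex manifold `M` of
dimension `k + m` to a complex manifold `Y` of dimension `m`, given by product charts.
-/

open scoped ContDiff ENNReal ComplexOrder
open Set Pool.Agent.ToricKRF Pool.Agent.ToricKRF.G Pool.Agent.KRFS

namespace Pool.Agent.KRFF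

/-- The first `k` coordinates of a point of `ℂ^(k+m)`. -/
def fstC {k m : ℕ} (z : Cn (k + m)) : Cn k :=
  (fun i => z.1 (Fin.castAdd m i), fun i => z.2 (Fin.castAdd m i))

/-- The last `m` coordinates of a point of `ℂ^(k+m)`. -/
def sndC {k m : ℕ} (z : Cn (k + m)) : Cn m :=
  (fun i => z.1 (Fin.natAdd k i), fun i => z.2 (Fin.natAdd k i))

/-- The open polydisc of radius `r`. -/
def opd {k : ℕ} (r : ℝ) : Set (Cn k) := {u | ∀ i, u.1 i ^ 2 + u.2 i ^ 2 < r ^ 2}

/-- The closed polydisc of radius `r`. -/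
def cpd {k : ℕ} (r : ℝ) : Set (Cn k) := {u | ∀ i, u.1 i ^ 2 + u.2 i ^ 2 ≤ r ^ 2}

/-- `f : M → Y` is a submersion with connected fibres.  The charts `b j` of `Y` have the polydisc of
radius `10` as target and `f⁻¹` of the source of `b j` is covered by the charts `e c` with
`pc c = j`, which have the product of polydiscs of radius `10` as target and in which `f` is the
projection to the last `m` coordinates.  The parts of the charts of radius `1` cover everything. -/
structure IsFibration {M Y : Type} [TopologicalSpace M] [TopologicalSpace Y] {k m : ℕ}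
    {κ P : Type} (e : κ → OpenPartialHomeomorph M (Cn (k + m)))
    (b : P → OpenPartialHomeomorph Y (Cn m)) (pc : κ → P) (f : M → Y) : Prop where
  target_base : ∀ j, (b j).target = opd 10
  cover_base : ∀ y, ∃ j, y ∈ (b j).source ∧ b j y ∈ cpd 1
  target : ∀ c, (e c).target = {z | fstC z ∈ opd 10 ∧ sndC z ∈ opd 10}
  proj : ∀ c, ∀ p ∈ (e c).source, f p ∈ (b (pc c)).source ∧ b (pc c) (f p) = sndC (e c p)
  cover : ∀ j, ∀ p, f p ∈ (b j).source →
    ∃ c, pc c = j ∧ p ∈ (e c).source ∧ fstC (e c p) ∈ cpd 1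
  connected : ∀ y, IsPreconnected (f ⁻¹' {y})

/-- The limit class `[ω(0)] - 2πT c_1(M)` is the pull-back of the Kähler class of `Y` with the local
potentials `K j`: there is a volume form `Ω` on `M` with
`ω(0) + T i ∂ ∂bar log Ω = i ∂ ∂bar (K ∘ f)`. -/
structure IsFibreLimit {M : Type} [TopologicalSpace M] {k m : ℕ} {κ P : Type}
    (e : κ → OpenPartialHomeomorph M (Cn (k + m))) (pc : κ → P) (T : ℝ)
    (ψ : κ → ℝ × Cn (k + m) → ℝ) (Ω : κ → Cn (k + m) → ℝ) (K : P → Cn m → ℝ) : Prop where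
  volume : IsVolume e ψ Ω
  smooth : ∀ j, ContDiffOn ℝ ∞ (K j) (opd 10)
  psh : ∀ j, ∀ y ∈ opd 10, ∀ u, u ≠ 0 → 0 < levz (K j) u y
  eq : ∀ c, ∀ z ∈ (e c).target, ∀ u,
    lev (ψ c) u (0, z) + T * levz (fun z => Real.log (Ω c z)) u z =
      levz (fun z => K (pc c) (sndC z)) u z

end Pool.Agent.KRFF

end

section

/-!
# The setup of a Kähler-Ricci flow with semi-positive limit class
-/

open scoped ContDiff ENNReal ComplexOrder
open Set Pool.Agent.ToricKRF Pool.Agent.ToricKRF.G Pool.Agent.KRFS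

namespace Pool.Agent.KRFF

/-- the point `(u, y)` -/
def joinC {k m : ℕ} (u : Cn k) (y : Cn m) : Cn (k + m) :=
  (Fin.append u.1 y.1, Fin.append u.2 y.2)

/-- A Kähler-Ricci flow with a semi-positive form `i ∂ ∂bar Θ` in the limit class. -/
structure Flow (n : ℕ) (M : Type) [TopologicalSpace M] (κ : Type) (T : ℝ) where
  e : κ → OpenPartialHomeomorph M (Cn n)
  ψ : κ → ℝ × Cn n → ℝ
  Ω : κ → Cn n → ℝ
  Θ : κ → Cn n → ℝ
  atlas : IsAtlas e
  krf : IsKRF e T ψ
  vol : IsVolume e ψ Ω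
  smooth : ∀ c, ContDiffOn ℝ ∞ (Θ c) (e c).target
  psh : ∀ c, ∀ z ∈ (e c).target, ∀ u, 0 ≤ levz (Θ c) u z
  theta : ∀ c, ∀ z ∈ (e c).target, ∀ u,
    lev (ψ c) u (0, z) + T * levz (fun z => Real.log (Ω c z)) u z = levz (Θ c) u z

section

variable {n : ℕ} {M : Type} [TopologicalSpace M] {κ : Type} {T : ℝ} (F : Flow n M κ T)

/-- `φ = ψ(t) - ψ(0) - t log Ω` in the chart `c` -/
noncomputable def Flow.phi (c : κ) : ℝ × Cn n → ℝ := fun q =>
  F.ψ c q - F.ψ c (0, q.2) - q.1 * Real.log (F.Ω c q.2)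

/-- `φ' = log (ω(t)^n / Ω)` -/
noncomputable def Flow.dphi (c : κ) : ℝ × Cn n → ℝ := fun q =>
  Real.log (cHess (F.ψ c) q).det.re - Real.log (F.Ω c q.2)

/-- `φ` as a function on `M` -/
noncomputable def Flow.Phi (t : ℝ) (p : M) : ℝ := glob F.atlas F.phi (t, p)

/-- the estimate on which everything depends: `φ(t₀) - φ(t) ≤ C (T - t₀)^a` for `t ≥ t₀` -/
def Flow.Drop (a : ℝ) : Prop := ∃ C : ℝ, 0 ≤ C ∧ ∀ t₀ ∈ Ico 0 T, ∀ t ∈ Ico t₀ T, ∀ p,
  F.Phi t₀ p - F.Phi t p ≤ C * (T - t₀) ^ a

end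

/-- A Kähler-Ricci flow on a fibration. -/
structure Fib (k m : ℕ) (M Y : Type) [TopologicalSpace M] [TopologicalSpace Y] (κ P : Type)
    (T : ℝ) extends Flow (k + m) M κ T where
  b : P → OpenPartialHomeomorph Y (Cn m)
  pc : κ → P
  f : M → Y
  K : P → Cn m → ℝ
  fib : IsFibration e b pc f
  lim : IsFibreLimit e pc T ψ Ω K
  Θ_eq : ∀ c, Θ c = fun z => K (pc c) (sndC z)

/-- the Laplacian -/
noncomputable def lapC (G : ℂ → ℝ) (z : ℂ) : ℝ :=
  D (1 : ℂ) (D (1 : ℂ) G) z + D Complex.I (D Complex.I G) z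

/-- the average over the circle of radius `r` -/
noncomputable def cavg (G : ℂ → ℝ) (r : ℝ) : ℝ :=
  (2 * Real.pi)⁻¹ * ∫ θ in (0 : ℝ)..2 * Real.pi, G (r * Complex.exp (θ * Complex.I))

/-- the point `z + ζ v` -/
def line {n : ℕ} (z v : Cn n) (ζ : ℂ) : Cn n := z + ζ.re • v + ζ.im • J v

end Pool.Agent.KRFF

end

section

/-!
# Fibrations with singular fibres

`f : M → Y` is a holomorphic map from a compact complex manifold of dimension `n` onto a complex
manifold of dimension `m`.  Over the coordinate balls `b j` of `Y` there are semistable models of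
`f`: after the base change `y_i = t_i ^ N_i`, `f` becomes a map `τ` on a space `W` which is given in
the charts of `W` by products of disjoint sets of coordinates.
-/

open scoped ContDiff ENNReal ComplexOrder
open Set Pool.Agent.ToricKRF Pool.Agent.ToricKRF.G Pool.Agent.KRFS Pool.Agent.KRFF

namespace Pool.Agent.KRFG

/-- `f : M → Y` is holomorphic and onto; the charts `b j` of `Y` contain the ball of radius `10` in
their target, and the closed unit balls cover `Y`. -/
structure IsHolMap {M Y : Type} [TopologicalSpace M] [TopologicalSpace Y] {n m : ℕ} {κ P : Type}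
    (e : κ → OpenPartialHomeomorph M (Cn n)) (b : P → OpenPartialHomeomorph Y (Cn m))
    (f : M → Y) : Prop where
  cont : Continuous f
  surj : Function.Surjective f
  holo : ∀ c j, HolOn (fun z => b j (f ((e c).symm z)))
    {z | z ∈ (e c).target ∧ f ((e c).symm z) ∈ (b j).source}
  target : ∀ j, {y | nsq y < 100} ⊆ (b j).target
  cover : ∀ y, ∃ j, y ∈ (b j).source ∧ nsq (b j y) ≤ 1

/-- The product of the coordinates `x_l` with `row l = i`. -/
noncomputable def prow {n m : ℕ} (row : Fin n → Option (Fin m)) (i : Fin m) (x : Cn n) : ℂ :=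
  ∏ l, if row l = some i then cc x l else 1

/-- Semistable models of `f` over the balls `nsq y ≤ 25` of the charts `b j`: a space `W`, the
disjoint union of the parts `lab w = j`, with maps `π : W → M` and `τ : W → ℂ^m` such that
`b j (f (π w))_i = τ(w)_i ^ N_i`.  The points of the fibre of `f` over `y` lift to `τ = t` for every
`t` with `t ^ N = y`, and `τ = t` is connected.  In the charts `a c` of `W`, with the polydisc of
radius `10` as target, `π` is holomorphic, with values in the chart `e (al c)`, and `τ_i` is a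
positive constant times the product of the coordinates `x_l` with `row c l = i`. -/
structure IsModel {M Y W : Type} [TopologicalSpace M] [TopologicalSpace Y] [TopologicalSpace W]
    {n m : ℕ} {κ P ι : Type} (e : κ → OpenPartialHomeomorph M (Cn n))
    (b : P → OpenPartialHomeomorph Y (Cn m)) (f : M → Y) (a : ι → OpenPartialHomeomorph W (Cn n))
    (al : ι → κ) (lab : W → P) (π : W → M) (τ : W → Cn m) (N : P → Fin m → ℕ)
    (pc : ι → P) (s : ι → Fin m → ℝ) (row : ι → Fin n → Option (Fin m)) : Prop where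
  base : ∀ w, f (π w) ∈ (b (lab w)).source ∧
    ∀ i, cc (b (lab w) (f (π w))) i = cc (τ w) i ^ N (lab w) i
  N_pos : ∀ j i, 0 < N j i
  target : ∀ c, (a c).target = opd 10
  lab_eq : ∀ c, ∀ w ∈ (a c).source, lab w = pc c
  s_pos : ∀ c i, 0 < s c i
  row_ne : ∀ c i, ∃ l, row c l = some i
  mono : ∀ c, ∀ w ∈ (a c).source, ∀ i, cc (τ w) i = s c i * prow (row c) i (a c w)
  mem : ∀ c, ∀ w ∈ (a c).source, π w ∈ (e (al c)).source
  holo : ∀ c, HolOn (fun x => e (al c) (π ((a c).symm x))) (opd 10)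
  cover : ∀ w, nsq (b (lab w) (f (π w))) ≤ 25 → ∃ c, w ∈ (a c).source ∧ a c w ∈ cpd 1
  onto : ∀ j p, f p ∈ (b j).source → nsq (b j (f p)) ≤ 25 → ∀ t : Cn m,
    (∀ i, cc t i ^ N j i = cc (b j (f p)) i) → ∃ w, lab w = j ∧ τ w = t ∧ π w = p
  connected : ∀ j t, (∀ i, cc t i ≠ 0) → IsPreconnected {w | lab w = j ∧ τ w = t}

/-- The limit class `[ω(0)] - 2πT c_1(M)` is the pull-back of the Kähler class of `Y` with the local
potentials `K j`: there is a volume form `Ω` on `M` with
`ω(0) + T i ∂ ∂bar log Ω = i ∂ ∂bar (K ∘ f)`. -/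
structure IsLimit {M Y : Type} [TopologicalSpace M] [TopologicalSpace Y] {n m : ℕ} {κ P : Type}
    (e : κ → OpenPartialHomeomorph M (Cn n)) (b : P → OpenPartialHomeomorph Y (Cn m)) (f : M → Y)
    (T : ℝ) (ψ : κ → ℝ × Cn n → ℝ) (Ω : κ → Cn n → ℝ) (K : P → Cn m → ℝ) : Prop where
  volume : IsVolume e ψ Ω
  smooth : ∀ j, ContDiffOn ℝ ∞ (K j) (b j).target
  psh : ∀ j, ∀ y ∈ (b j).target, ∀ u, u ≠ 0 → 0 < levz (K j) u y
  eq : ∀ c j, ∀ z ∈ (e c).target, f ((e c).symm z) ∈ (b j).source → ∀ u,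
    lev (ψ c) u (0, z) + T * levz (fun z => Real.log (Ω c z)) u z =
      levz (fun z => K j (b j (f ((e c).symm z)))) u z

end Pool.Agent.KRFG

end
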