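import Pool.Agent.Work.MP_a2bf38_gt.H.Defs
import Pool.Agent.Work.MP_a2bf38_gt.Fu.I.Defs

section

/-!
# Holomorphic submersions of complex manifolds, in arbitrary charts

`M` and `Y` are complex manifolds with the charts `e c` and `b j`, and `f : M → Y` is a map.
-/

open scoped ContDiff ENNReal ComplexOrder
open Set Pool.Agent.ToricKRF Pool.Agent.ToricKRF.G Pool.Agent.KRFS

namespace Pool.Agent.KRFF

section

variable {M Y : Type} [TopologicalSpace M] [TopologicalSpace Y] {n m : ℕ} {κ P : Type}
  (e : κ → OpenPartialHomeomorph M (Cn n)) (b : P → OpenPartialHomeomorph Y (Cn m)) (f : M → Y)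

/-- the domain of `f` in the charts `e c` and `b j` -/
def cdom (c : κ) (j : P) : Set (Cn n) := {z | z ∈ (e c).target ∧ f ((e c).symm z) ∈ (b j).source}

/-- `f` in the charts `e c` and `b j` -/
def cmap (c : κ) (j : P) (z : Cn n) : Cn m := b j (f ((e c).symm z))

/-- `f : M → Y` is a holomorphic submersion. -/
structure IsSubmersion : Prop where
  continuous : Continuous f
  holo : ∀ c j, HolOn (cmap e b f c j) (cdom e b f c j)
  surj : ∀ c j, ∀ z ∈ cdom e b f c j, Function.Surjective (fderiv ℝ (cmap e b f c j) z)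

/-- `i ∂ ∂bar (K j)` is a Kähler form on `Y`. -/
structure IsKahlerPot (K : P → Cn m → ℝ) : Prop where
  smooth : ∀ j, ContDiffOn ℝ ∞ (K j) (b j).target
  pos : ∀ j, ∀ y ∈ (b j).target, ∀ u, u ≠ 0 → 0 < levz (K j) u y
  compat : ∀ j j', ∀ y ∈ dom b j j', ∀ u,
    levz (K j) u y = levz (K j') (fderiv ℝ (tr b j j') y u) (tr b j j' y)

/-- The limit class `[ω(0)] - 2πT c_1(M)` is the pull-back under `f` of the class of the Kähler form
`i ∂ ∂bar (K j)` of `Y`: there is a volume form `Ω` on `M` with
`ω(0) + T i ∂ ∂bar log Ω = f^* i ∂ ∂bar (K j)`. -/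
structure IsPullbackLimit (T : ℝ) (ψ : κ → ℝ × Cn n → ℝ) (Ω : κ → Cn n → ℝ) (K : P → Cn m → ℝ) :
    Prop where
  volume : IsVolume e ψ Ω
  kahler : IsKahlerPot b K
  eq : ∀ c j, ∀ z ∈ cdom e b f c j, ∀ u,
    lev (ψ c) u (0, z) + T * levz (fun z => Real.log (Ω c z)) u z =
      levz (fun z => K j (cmap e b f c j z)) u z

end

end Pool.Agent.KRFF

end

section

/-!
# Semistable models, local form

`M` and `Y` are complex manifolds with the charts `e c` and `b j`, and `f : M → Y` is a map.
-/

open scoped ContDiff ENNReal ComplexOrder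
open Set Pool.Agent.ToricKRF Pool.Agent.ToricKRF.G Pool.Agent.KRFS Pool.Agent.KRFF

namespace Pool.Agent.KRFG

section

variable {M Y : Type} [TopologicalSpace M] [TopologicalSpace Y] {n m : ℕ} {κ P : Type}
  (e : κ → OpenPartialHomeomorph M (Cn n)) (b : P → OpenPartialHomeomorph Y (Cn m)) (f : M → Y)

/-- `f : M → Y` is holomorphic and onto. -/
structure IsHolOnto : Prop where
  continuous : Continuous f
  surj : Function.Surjective f
  holo : ∀ c j, HolOn (cmap e b f c j) (cdom e b f c j)

/-- A semistable model of `f` at the point `y₀` of `Y`.  With the coordinates `y = b j - b j y₀` of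
`Y` it is a space `W` with maps `π : W → M` and `τ` from `W` to the polydisc of radius `r` in
`ℂ^m`, such that `y_i = τ_i ^ N_i` on `W` and the points of the fibre of `f` over `y` lift to the
fibre of `τ` over every `t` with `t_i ^ N_i = y_i`.  The map `τ` is proper, its fibres over the points
`t` with all `t_i ≠ 0` are connected, and at the points `w` with `τ w = 0` there are coordinates `x`
of `W` with centre `w` such that `π` is holomorphic and `τ_i` is the product of the coordinates `x_l`
with `row l = i`. -/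
structure SemistableAt (y₀ : Y) where
  j : P
  mem : y₀ ∈ (b j).source
  r : ℝ
  r_pos : 0 < r
  W : Type
  top : TopologicalSpace W
  t2 : T2Space W
  π : W → M
  τ : W → Cn m
  N : Fin m → ℕ
  N_pos : ∀ i, 0 < N i
  cont : Continuous τ
  range : ∀ w, τ w ∈ opd r
  base : ∀ w, f (π w) ∈ (b j).source ∧
    ∀ i, cc (b j (f (π w))) i = cc (b j y₀) i + cc (τ w) i ^ N i
  lift : ∀ p, f p ∈ (b j).source → ∀ t ∈ (opd r : Set (Cn m)),
    (∀ i, cc (b j (f p)) i = cc (b j y₀) i + cc t i ^ N i) → ∃ w, τ w = t ∧ π w = p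
  proper : ∀ s, 0 ≤ s → s < r → IsCompact {w | τ w ∈ cpd s}
  connected : ∀ t, (∀ i, cc t i ≠ 0) → IsPreconnected {w | τ w = t}
  chart : ∀ w, τ w = 0 → ∃ (a : OpenPartialHomeomorph W (Cn n)) (c : κ)
    (row : Fin n → Option (Fin m)), w ∈ a.source ∧ a w = 0 ∧ (∀ i, ∃ l, row l = some i) ∧
      (∀ w' ∈ a.source, π w' ∈ (e c).source) ∧
      HolOn (fun x => e c (π (a.symm x))) a.target ∧
      ∀ w' ∈ a.source, ∀ i, cc (τ w') i = prow row i (a w')

end

end Pool.Agent.KRFG

end
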