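import Pool.Agent.Work.MP_a2bf38_gt.Fu.I.GapA
import Pool.Agent.Work.MP_a2bf38_gt.Fu.K.Setup
import Pool.Agent.Work.MP_a2bf38_gt.Fu.H.Gen

section

/-!
# Section 6, preparations: the fibration
-/

open scoped ContDiff ENNReal ComplexOrder Topology
open Set MeasureTheory Filter Pool.Agent.ToricKRF Pool.Agent.ToricKRF.G Pool.Agent.KRFS

namespace Pool.Agent.KRFF

namespace Gap

section Flow

variable {n : ℕ} {M : Type} [TopologicalSpace M] {κ : Type} {T : ℝ} (F : Flow n M κ T)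

theorem smooth_psi_slice (c : κ) {t : ℝ} (ht : t ∈ Ico 0 T) :
    ContDiffOn ℝ ∞ (fun x => F.ψ c (t, x)) (F.e c).target := by
  obtain ⟨U, hU, hsub, hψ⟩ := F.krf.smooth c
  exact hψ.comp (contDiff_const.prodMk contDiff_id).contDiffOn fun x hx => hsub ⟨ht, hx⟩

theorem levz_psi_slice {c : κ} {t : ℝ} (ht : t ∈ Ico 0 T) {z : Cn n} (hz : z ∈ (F.e c).target)
    (u : Cn n) : levz (fun x => F.ψ c (t, x)) u z = lev (F.ψ c) u (t, z) := by
  obtain ⟨U, hU, hsub, hψ⟩ := F.krf.smooth c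
  exact levz_slice hU hψ (hsub ⟨ht, hz⟩) u

theorem lev_psi_pos' {c : κ} {t : ℝ} (ht : t ∈ Ico 0 T) {z : Cn n} (hz : z ∈ (F.e c).target)
    {u : Cn n} (hu : u ≠ 0) : 0 < lev (F.ψ c) u (t, z) := by
  obtain ⟨U, hU, hsub, hψ⟩ := F.krf.smooth c
  exact lev_pos hU hψ (hsub ⟨ht, hz⟩) (F.krf.pos c t ht z hz) hu

theorem levz_zero_dir (f : Cn n → ℝ) (z : Cn n) : levz f 0 z = 0 := by
  have h : J (0 : Cn n) = 0 := by
    apply Prod.ext <;> simp [J]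
  unfold levz
  rw [h]
  simp [D]

theorem lev_psi_nonneg {c : κ} {t : ℝ} (ht : t ∈ Ico 0 T) {z : Cn n} (hz : z ∈ (F.e c).target)
    (u : Cn n) : 0 ≤ lev (F.ψ c) u (t, z) := by
  by_cases hu : u = 0
  · rw [hu, ← levz_psi_slice F ht hz, levz_zero_dir]
  · exact (lev_psi_pos' F ht hz hu).le

theorem det_pos' {c : κ} {t : ℝ} (ht : t ∈ Ico 0 T) {z : Cn n} (hz : z ∈ (F.e c).target) :
    0 < (cHess (F.ψ c) (t, z)).det.re := by
  have h := (F.krf.pos c t ht z hz).det_pos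
  exact (Complex.lt_def.1 h).1

/-- constants of the initial data on a compact part of a chart -/
theorem exists_const_on (hT : 0 < T) (c : κ) {A : Set (Cn n)} (hA : IsCompact A)
    (hAt : A ⊆ (F.e c).target) : ∃ C : ℝ, 0 ≤ C ∧ ∀ z ∈ A,
      (∀ u, nsq u ≤ C * lev (F.ψ c) u (0, z)) ∧ (∀ u, lev (F.ψ c) u (0, z) ≤ C * nsq u) ∧
      F.Ω c z ≤ C := by
  have h0 : (0 : ℝ) ∈ Ico 0 T := ⟨le_rfl, hT⟩
  have key : ∃ C : ℝ, 0 ≤ C ∧ ∀ z ∈ A, z ∈ (F.e c).target →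
      (∀ u, nsq u ≤ C * lev (F.ψ c) u (0, z)) ∧ (∀ u, lev (F.ψ c) u (0, z) ≤ C * nsq u) ∧
      F.Ω c z ≤ C := by
    refine hA.induction_on (p := fun S : Set (Cn n) => ∃ C : ℝ, 0 ≤ C ∧
      ∀ z ∈ S, z ∈ (F.e c).target →
      (∀ u, nsq u ≤ C * lev (F.ψ c) u (0, z)) ∧ (∀ u, lev (F.ψ c) u (0, z) ≤ C * nsq u) ∧
      F.Ω c z ≤ C) ?_ ?_ ?_ ?_
    · exact ⟨0, le_rfl, fun z hz => absurd hz (notMem_empty _)⟩
    · rintro S S' hSS' ⟨C, hC, h⟩
      exact ⟨C, hC, fun z hz => h z (hSS' hz)⟩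
    · rintro S S' ⟨C, hC, h⟩ ⟨C', hC', h'⟩
      refine ⟨max C C', hC.trans (le_max_left _ _), fun z hz hzt => ?_⟩
      have hnn := lev_psi_nonneg F h0 hzt
      rcases hz with hz | hz
      · obtain ⟨h1, h2, h3⟩ := h z hz hzt
        exact ⟨fun u => (h1 u).trans (mul_le_mul_of_nonneg_right (le_max_left _ _) (hnn u)),
          fun u => (h2 u).trans (mul_le_mul_of_nonneg_right (le_max_left _ _) (nsq_nonneg u)),
          h3.trans (le_max_left _ _)⟩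
      · obtain ⟨h1, h2, h3⟩ := h' z hz hzt
        exact ⟨fun u => (h1 u).trans (mul_le_mul_of_nonneg_right (le_max_right _ _) (hnn u)),
          fun u => (h2 u).trans (mul_le_mul_of_nonneg_right (le_max_right _ _) (nsq_nonneg u)),
          h3.trans (le_max_right _ _)⟩
    · intro x hx
      have hxt := hAt hx
      have hs0 := smooth_psi_slice F c h0
      have hn : ContDiffOn ℝ ∞ (nsq (n := n)) (F.e c).target := contDiff_nsq'.contDiffOn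
      obtain ⟨C, hC, hev⟩ := Bd.levz_le_local (F.e c).open_target hn hs0 hxt
        (fun y hy u hu => by
          rw [levz_psi_slice F h0 hy]
          exact lev_psi_pos' F h0 hy hu)
      obtain ⟨C', hC', hev'⟩ := Bd.levz_le_local (F.e c).open_target hs0 hn hxt
        (fun y hy u hu => by
          rw [levz_nsq']
          exact nsq_pos hu)
      have hc : ContinuousAt (F.Ω c) x :=
        (F.vol.smooth c).continuousOn.continuousAt ((F.e c).open_target.mem_nhds hxt)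
      have hev'' : ∀ᶠ z in 𝓝 x, F.Ω c z < |F.Ω c x| + 1 :=
        hc.eventually_lt_const (by linarith [le_abs_self (F.Ω c x)])
      obtain ⟨W, hW, hWs⟩ := (hev.and (hev'.and hev'')).exists_mem
      refine ⟨W, mem_nhdsWithin_of_mem_nhds hW, max C (max C' (|F.Ω c x| + 1)),
        hC.trans (le_max_left _ _), fun z hz hzt => ?_⟩
      obtain ⟨h1, h2, h3⟩ := hWs z hz
      have hnn := lev_psi_nonneg F h0 hzt
      refine ⟨fun u => ?_, fun u => ?_, ?_⟩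
      · have := h1 u
        rw [levz_nsq', levz_psi_slice F h0 hzt] at this
        exact this.trans (mul_le_mul_of_nonneg_right (le_max_left _ _) (hnn u))
      · have := h2 u
        rw [levz_nsq', levz_psi_slice F h0 hzt] at this
        exact this.trans (mul_le_mul_of_nonneg_right
          ((le_max_left _ _).trans (le_max_right _ _)) (nsq_nonneg u))
      · exact h3.le.trans ((le_max_right _ _).trans (le_max_right _ _))
  obtain ⟨C, hC, h⟩ := key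
  exact ⟨C, hC, fun z hz => h z hz (hAt hz)⟩

end Flow

theorem exists_finite {κ : Type} [Finite κ] {Q : κ → ℝ → Prop}
    (h : ∀ c, ∃ C : ℝ, Q c C) (hm : ∀ c C C', C ≤ C' → Q c C → Q c C') :
    ∃ C : ℝ, 0 < C ∧ ∀ c, Q c C := by
  choose C hC using h
  obtain ⟨B, hB⟩ := (finite_range C).bddAbove
  refine ⟨max B 1, lt_of_lt_of_le one_pos (le_max_right _ _), fun c => ?_⟩
  exact hm c _ _ ((hB ⟨c, rfl⟩).trans (le_max_left _ _)) (hC c)

section Fib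

variable {k m : ℕ} {M Y : Type} [TopologicalSpace M] [TopologicalSpace Y] {κ P : Type} {T : ℝ}
  (F : Fib k m M Y κ P T)

theorem mem_target {c : κ} {z : Cn (k + m)} :
    z ∈ (F.e c).target ↔ fstC z ∈ opd (k := k) 10 ∧ sndC z ∈ opd (k := m) 10 := by
  rw [F.fib.target c]
  rfl

theorem slab_subset {a b : ℝ} (ha : 0 ≤ a) (ha' : a < 10) (hb : 0 ≤ b) (hb' : b < 10) (c : κ) :
    slab k m a b ⊆ (F.e c).target := fun _ hz =>
  (mem_target F).2 ⟨cpd_subset_opd ha ha' hz.1, cpd_subset_opd hb hb' hz.2⟩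

theorem f_eq {c : κ} {p : M} (hp : p ∈ (F.e c).source) :
    F.f p = (F.b (F.pc c)).symm (sndC (F.e c p)) := by
  obtain ⟨h1, h2⟩ := F.fib.proj c p hp
  rw [← h2, (F.b (F.pc c)).left_inv h1]

theorem f_symm {c : κ} {z : Cn (k + m)} (hz : z ∈ (F.e c).target) :
    F.f ((F.e c).symm z) = (F.b (F.pc c)).symm (sndC z) := by
  rw [f_eq F ((F.e c).map_target hz), (F.e c).right_inv hz]

theorem f_continuous : Continuous F.f := by
  rw [continuous_iff_continuousAt]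
  intro p
  obtain ⟨c, hc⟩ := F.atlas.cover p
  obtain ⟨h1, h2⟩ := F.fib.proj c p hc
  have h3 : sndC (F.e c p) ∈ (F.b (F.pc c)).target := by
    rw [← h2]
    exact (F.b (F.pc c)).map_source h1
  have h4 : ContinuousAt (fun q => (F.b (F.pc c)).symm (sndC (F.e c q))) p :=
    ContinuousAt.comp (f := fun q => sndC (F.e c q)) (g := (F.b (F.pc c)).symm)
      ((F.b (F.pc c)).continuousAt_symm h3)
      (continuous_sndC.continuousAt.comp ((F.e c).continuousAt hc))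
  refine h4.congr ?_
  filter_upwards [(F.e c).open_source.mem_nhds hc] with q hq
  exact (f_eq F hq).symm

/-- the limit form vanishes on the fibres -/
theorem levz_theta {c : κ} {z : Cn (k + m)} (hz : z ∈ (F.e c).target) (w : Cn k) :
    levz (F.Θ c) (joinC w 0) z = 0 := by
  rw [F.Θ_eq c]
  have h := levz_comp (isOpen_opd 10) (F.lim.smooth (F.pc c)) (F.e c).open_target
    (holOn_sndC _) hz ((mem_target F).1 hz).2 (joinC w 0)
  rw [h, fderiv_sndC, sndC_joinC, levz_zero_dir]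

/-- the constants on the parts of radius `9` of the charts -/
theorem exists_const_slab [Finite κ] (hT : 0 < T) : ∃ C : ℝ, 0 < C ∧ ∀ c, ∀ z ∈ slab k m 9 9,
      (∀ u, nsq u ≤ C * lev (F.ψ c) u (0, z)) ∧ (∀ u, lev (F.ψ c) u (0, z) ≤ C * nsq u) ∧
      F.Ω c z ≤ C := by
  have h0 : (0 : ℝ) ∈ Ico 0 T := ⟨le_rfl, hT⟩
  refine exists_finite (Q := fun c C => ∀ z ∈ slab k m 9 9,
      (∀ u, nsq u ≤ C * lev (F.ψ c) u (0, z)) ∧ (∀ u, lev (F.ψ c) u (0, z) ≤ C * nsq u) ∧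
      F.Ω c z ≤ C) (fun c => ?_) ?_
  · obtain ⟨C, -, h⟩ := exists_const_on F.toFlow hT c (isCompact_slab 9 9)
      (slab_subset F (by norm_num) (by norm_num) (by norm_num) (by norm_num) c)
    exact ⟨C, h⟩
  · intro c C C' hCC' h z hz
    have hzt := slab_subset F (by norm_num) (by norm_num) (by norm_num) (by norm_num) c hz
    obtain ⟨h1, h2, h3⟩ := h z hz
    exact ⟨fun u => (h1 u).trans (mul_le_mul_of_nonneg_right hCC'
        (lev_psi_nonneg F.toFlow h0 hzt u)),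
      fun u => (h2 u).trans (mul_le_mul_of_nonneg_right hCC' (nsq_nonneg u)), h3.trans hCC'⟩

/-- the maximum point of a continuous function on a fibre -/
theorem exists_max_fibre [CompactSpace M] [T1Space Y] {g : M → ℝ} (hg : Continuous g) (x : M) :
    ∃ q, F.f q = F.f x ∧ ∀ x', F.f x' = F.f q → g x' ≤ g q := by
  have hcl : IsClosed (F.f ⁻¹' {F.f x}) := isClosed_singleton.preimage (f_continuous F)
  obtain ⟨q, hq, hmax⟩ := hcl.isCompact.exists_isMaxOn ⟨x, rfl⟩ hg.continuousOn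
  exact ⟨q, hq, fun x' hx' => hmax (show F.f x' = F.f x from hx'.trans hq)⟩

end Fib

end Gap

end Pool.Agent.KRFF

end

section

/-!
# The function `hB` on the complex lines, and the lower bound for the Kähler form of the base
-/

open scoped ContDiff ComplexOrder Topology
open Set MeasureTheory Filter Pool.Agent.ToricKRF Pool.Agent.ToricKRF.G Pool.Agent.KRFS
  Pool.Agent.KRFF

namespace Pool.Agent.KRFG

namespace HB

/-! ### Laplacians -/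

section lap

theorem lapC_add {f g : ℂ → ℝ} {z : ℂ} (hf : ContDiffAt ℝ 2 f z) (hg : ContDiffAt ℝ 2 g z) :
    lapC (fun x => f x + g x) z = lapC f z + lapC g z := by
  unfold lapC
  rw [LC.D_D_add _ _ hf hg, LC.D_D_add _ _ hf hg]
  ring

theorem lapC_const_mul {f : ℂ → ℝ} {z : ℂ} (c : ℝ) (hf : ContDiffAt ℝ 2 f z) :
    lapC (fun x => c * f x) z = c * lapC f z := by
  unfold lapC
  rw [LC.D_D_const_mul _ _ c hf, LC.D_D_const_mul _ _ c hf]
  ring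

theorem lapC_zero (z : ℂ) : lapC (fun _ => (0 : ℝ)) z = 0 := by
  have h := lapC_const_mul (f := fun _ => (0 : ℝ)) (z := z) 0 contDiffAt_const
  simpa using h

theorem lapC_sum {ι : Type*} (s : Finset ι) {f : ι → ℂ → ℝ} {z : ℂ}
    (hf : ∀ i ∈ s, ContDiffAt ℝ 2 (f i) z) :
    lapC (fun x => ∑ i ∈ s, f i x) z = ∑ i ∈ s, lapC (f i) z := by
  classical
  induction s using Finset.induction_on with
  | empty => simpa using lapC_zero z
  | insert a s ha ih =>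
    have h1 : (fun x => ∑ i ∈ insert a s, f i x) = fun x => f a x + ∑ i ∈ s, f i x := by
      funext x
      rw [Finset.sum_insert ha]
    rw [h1, lapC_add (hf a (Finset.mem_insert_self a s))
      (ContDiffAt.sum fun i hi => hf i (Finset.mem_insert_of_mem hi)), Finset.sum_insert ha,
      ih fun i hi => hf i (Finset.mem_insert_of_mem hi)]

end lap

/-! ### `|a + ζ b|^2` -/

/-- `|a + ζ b|^2` -/
noncomputable def qd (a₁ a₂ b₁ b₂ : ℝ) (ζ : ℂ) : ℝ :=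
  (a₁ + (ζ.re * b₁ - ζ.im * b₂)) ^ 2 + (a₂ + (ζ.re * b₂ + ζ.im * b₁)) ^ 2

/-- the derivative of `qd` in the direction `w` -/
noncomputable def dq (a₁ a₂ b₁ b₂ : ℝ) (w ζ : ℂ) : ℝ :=
  2 * (a₁ + (ζ.re * b₁ - ζ.im * b₂)) * (w.re * b₁ - w.im * b₂) +
    2 * (a₂ + (ζ.re * b₂ + ζ.im * b₁)) * (w.re * b₂ + w.im * b₁)

section

variable {a₁ a₂ b₁ b₂ : ℝ}

theorem contDiff_qd : ContDiff ℝ ∞ (qd a₁ a₂ b₁ b₂) := by
  unfold qd
  have h1 : ContDiff ℝ ∞ fun ζ : ℂ => ζ.re := Complex.reCLM.contDiff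
  have h2 : ContDiff ℝ ∞ fun ζ : ℂ => ζ.im := Complex.imCLM.contDiff
  fun_prop

theorem contDiff_dq (w : ℂ) : ContDiff ℝ ∞ (dq a₁ a₂ b₁ b₂ w) := by
  unfold dq
  have h1 : ContDiff ℝ ∞ fun ζ : ℂ => ζ.re := Complex.reCLM.contDiff
  have h2 : ContDiff ℝ ∞ fun ζ : ℂ => ζ.im := Complex.imCLM.contDiff
  fun_prop

/-- the two coordinates -/
theorem hasFDerivAt_p (ζ : ℂ) : HasFDerivAt (fun ζ : ℂ => a₁ + (ζ.re * b₁ - ζ.im * b₂))
    (b₁ • Complex.reCLM - b₂ • Complex.imCLM) ζ := by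
  have h := ((b₁ • Complex.reCLM - b₂ • Complex.imCLM : ℂ →L[ℝ] ℝ).hasFDerivAt (x := ζ)).const_add a₁
  refine h.congr_of_eventuallyEq (Eventually.of_forall fun x => ?_)
  simp
  ring

theorem hasFDerivAt_q (ζ : ℂ) : HasFDerivAt (fun ζ : ℂ => a₂ + (ζ.re * b₂ + ζ.im * b₁))
    (b₂ • Complex.reCLM + b₁ • Complex.imCLM) ζ := by
  have h := ((b₂ • Complex.reCLM + b₁ • Complex.imCLM : ℂ →L[ℝ] ℝ).hasFDerivAt (x := ζ)).const_add a₂
  refine h.congr_of_eventuallyEq (Eventually.of_forall fun x => ?_)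
  simp
  ring

theorem D_qd (w ζ : ℂ) : D w (qd a₁ a₂ b₁ b₂) ζ = dq a₁ a₂ b₁ b₂ w ζ := by
  have h1 := (hasFDerivAt_p (a₁ := a₁) (b₁ := b₁) (b₂ := b₂) ζ).pow 2
  have h2 := (hasFDerivAt_q (a₂ := a₂) (b₁ := b₁) (b₂ := b₂) ζ).pow 2
  have h3 : HasFDerivAt (qd a₁ a₂ b₁ b₂) _ ζ := h1.add h2
  unfold D dq
  rw [h3.fderiv]
  simp
  ring

theorem D_dq (w ζ : ℂ) : D w (dq a₁ a₂ b₁ b₂ w) ζ =
    2 * (w.re * b₁ - w.im * b₂) ^ 2 + 2 * (w.re * b₂ + w.im * b₁) ^ 2 := by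
  have h1 := ((hasFDerivAt_p (a₁ := a₁) (b₁ := b₁) (b₂ := b₂) ζ).const_mul 2).mul_const
    (w.re * b₁ - w.im * b₂)
  have h2 := ((hasFDerivAt_q (a₂ := a₂) (b₁ := b₁) (b₂ := b₂) ζ).const_mul 2).mul_const
    (w.re * b₂ + w.im * b₁)
  have h3 : HasFDerivAt (dq a₁ a₂ b₁ b₂ w) _ ζ := h1.add h2
  unfold D
  rw [h3.fderiv]
  simp
  ring

theorem lapC_qd (ζ : ℂ) : lapC (qd a₁ a₂ b₁ b₂) ζ = 4 * (b₁ ^ 2 + b₂ ^ 2) := by
  unfold lapC
  have h : ∀ w : ℂ, D w (qd a₁ a₂ b₁ b₂) = dq a₁ a₂ b₁ b₂ w := fun w => funext fun ζ => D_qd w ζ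
  rw [h, h, D_dq, D_dq]
  simp
  ring

theorem qd_zero : qd a₁ a₂ b₁ b₂ 0 = a₁ ^ 2 + a₂ ^ 2 := by simp [qd]

theorem contDiffAt_rpow {ε : ℝ} {ζ : ℂ} (h : qd a₁ a₂ b₁ b₂ ζ ≠ 0) :
    ContDiffAt ℝ ∞ (fun ζ => qd a₁ a₂ b₁ b₂ ζ ^ ε) ζ :=
  contDiff_qd.contDiffAt.rpow_const_of_ne h

theorem D_rpow {ε : ℝ} {ζ : ℂ} (h : qd a₁ a₂ b₁ b₂ ζ ≠ 0) (w : ℂ) :
    D w (fun ζ => qd a₁ a₂ b₁ b₂ ζ ^ ε) ζ =
      ε * (qd a₁ a₂ b₁ b₂ ζ ^ (ε - 1) * dq a₁ a₂ b₁ b₂ w ζ) := by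
  have h1 : DifferentiableAt ℝ (qd a₁ a₂ b₁ b₂) ζ := contDiff_qd.contDiffAt.differentiableAt (by simp)
  have h2 := h1.hasFDerivAt.rpow_const (p := ε) (Or.inl h)
  unfold D
  rw [h2.fderiv]
  have h3 := D_qd (a₁ := a₁) (a₂ := a₂) (b₁ := b₁) (b₂ := b₂) w ζ
  unfold D at h3
  simp only [smul_apply, smul_eq_mul]
  rw [h3]
  ring

theorem lapC_rpow {ε : ℝ} (h : a₁ ^ 2 + a₂ ^ 2 ≠ 0) :
    lapC (fun ζ => qd a₁ a₂ b₁ b₂ ζ ^ ε) 0 =
      4 * ε ^ 2 * (a₁ ^ 2 + a₂ ^ 2) ^ (ε - 1) * (b₁ ^ 2 + b₂ ^ 2) := by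
  have h0 : qd a₁ a₂ b₁ b₂ 0 ≠ 0 := by rw [qd_zero]; exact h
  have hev : ∀ᶠ ζ in 𝓝 (0 : ℂ), qd a₁ a₂ b₁ b₂ ζ ≠ 0 :=
    contDiff_qd.continuous.continuousAt.eventually_ne h0
  have hd1 : DifferentiableAt ℝ (fun ζ => qd a₁ a₂ b₁ b₂ ζ ^ (ε - 1)) 0 :=
    (contDiffAt_rpow h0).differentiableAt (by simp)
  have key : ∀ w : ℂ, D w (D w fun ζ => qd a₁ a₂ b₁ b₂ ζ ^ ε) 0 =
      ε * ((a₁ ^ 2 + a₂ ^ 2) ^ (ε - 1) * (2 * (w.re * b₁ - w.im * b₂) ^ 2 +
        2 * (w.re * b₂ + w.im * b₁) ^ 2) + dq a₁ a₂ b₁ b₂ w 0 *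
        ((ε - 1) * ((a₁ ^ 2 + a₂ ^ 2) ^ (ε - 1 - 1) * dq a₁ a₂ b₁ b₂ w 0))) := by
    intro w
    have h1 : D w (fun ζ => qd a₁ a₂ b₁ b₂ ζ ^ ε) =ᶠ[𝓝 0]
        fun ζ => ε * (qd a₁ a₂ b₁ b₂ ζ ^ (ε - 1) * dq a₁ a₂ b₁ b₂ w ζ) := by
      filter_upwards [hev] with ζ hζ
      exact D_rpow hζ w
    have hd2 : DifferentiableAt ℝ (dq a₁ a₂ b₁ b₂ w) 0 :=
      (contDiff_dq w).contDiffAt.differentiableAt (by simp)
    rw [LC.D_congr w h1, LC.D_const_mul w ε (hd1.fun_mul hd2), LC.D_mul w hd1 hd2, D_dq, D_rpow h0,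
      qd_zero]
  have hpw : (a₁ ^ 2 + a₂ ^ 2) ^ (ε - 1) = (a₁ ^ 2 + a₂ ^ 2) ^ (ε - 1 - 1) * (a₁ ^ 2 + a₂ ^ 2) := by
    have hpos : 0 < a₁ ^ 2 + a₂ ^ 2 := lt_of_le_of_ne (by positivity) (Ne.symm h)
    rw [Real.rpow_sub_one hpos.ne' (ε - 1)]
    field_simp
  unfold lapC
  rw [key, key, hpw]
  simp [dq]
  ring

end

/-! ### `hB` on a line -/

section hB

variable {m : ℕ}

theorem line_fst (y v : Cn m) (ζ : ℂ) (i : Fin m) :
    (line y v ζ).1 i = y.1 i + (ζ.re * v.1 i - ζ.im * v.2 i) := by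
  simp [line, J]
  ring

theorem line_snd (y v : Cn m) (ζ : ℂ) (i : Fin m) :
    (line y v ζ).2 i = y.2 i + (ζ.re * v.2 i + ζ.im * v.1 i) := by
  simp [line, J]
  ring

theorem hB_line_eq (C₁ A ε : ℝ) (y v : Cn m) (ζ : ℂ) : hB C₁ A ε (line y v ζ) =
    ∑ i, (C₁ * qd (y.1 i) (y.2 i) (v.1 i) (v.2 i) ζ ^ ε +
      (-A) * qd (y.1 i) (y.2 i) (v.1 i) (v.2 i) ζ) := by
  have h : nsq (line y v ζ) = ∑ i, qd (y.1 i) (y.2 i) (v.1 i) (v.2 i) ζ := by
    rw [Gap.nsq_eq]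
    refine Finset.sum_congr rfl fun i _ => ?_
    rw [line_fst, line_snd, qd]
  rw [hB, h, Finset.sum_add_distrib, Finset.mul_sum, ← Finset.mul_sum (a := -A)]
  have h2 : ∑ i, C₁ * ((line y v ζ).1 i ^ 2 + (line y v ζ).2 i ^ 2) ^ ε =
      ∑ i, C₁ * qd (y.1 i) (y.2 i) (v.1 i) (v.2 i) ζ ^ ε := by
    refine Finset.sum_congr rfl fun i _ => ?_
    rw [line_fst, line_snd, qd]
  rw [h2]
  ring

theorem ne_of_cc {y : Cn m} {i : Fin m} (h : cc y i ≠ 0) : y.1 i ^ 2 + y.2 i ^ 2 ≠ 0 := by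
  intro h1
  apply h
  have h2 : y.1 i = 0 := by nlinarith [sq_nonneg (y.1 i), sq_nonneg (y.2 i)]
  have h3 : y.2 i = 0 := by nlinarith [sq_nonneg (y.1 i), sq_nonneg (y.2 i)]
  apply Complex.ext <;> simp [cc, h2, h3]

theorem contDiffAt_term (C₁ A ε : ℝ) {y v : Cn m} {i : Fin m} (h : cc y i ≠ 0) :
    ContDiffAt ℝ ∞ (fun ζ => C₁ * qd (y.1 i) (y.2 i) (v.1 i) (v.2 i) ζ ^ ε +
      (-A) * qd (y.1 i) (y.2 i) (v.1 i) (v.2 i) ζ) 0 := by
  have h0 : qd (y.1 i) (y.2 i) (v.1 i) (v.2 i) 0 ≠ 0 := by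
    rw [qd_zero]
    exact ne_of_cc h
  exact (contDiffAt_const.mul (contDiffAt_rpow h0)).add
    (contDiffAt_const.mul contDiff_qd.contDiffAt)

theorem two_le : (2 : WithTop ℕ∞) ≤ ∞ :=
  WithTop.coe_le_coe.2 (le_top : (2 : ℕ∞) ≤ ⊤)

/-- **`hB` on the complex lines** -/
theorem hB_line (C₁ A ε : ℝ) {y v : Cn m} (h0 : ∀ i, cc y i ≠ 0) :
    ContDiffAt ℝ 2 (fun ζ => hB C₁ A ε (line y v ζ)) 0 ∧
      lapC (fun ζ => hB C₁ A ε (line y v ζ)) 0 =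
        4 * C₁ * ε ^ 2 * (∑ i, (y.1 i ^ 2 + y.2 i ^ 2) ^ (ε - 1) * (v.1 i ^ 2 + v.2 i ^ 2)) -
          4 * A * nsq v := by
  have h2 : (2 : WithTop ℕ∞) ≤ ∞ := two_le
  have he : (fun ζ => hB C₁ A ε (line y v ζ)) = fun ζ =>
      ∑ i, (C₁ * qd (y.1 i) (y.2 i) (v.1 i) (v.2 i) ζ ^ ε +
        (-A) * qd (y.1 i) (y.2 i) (v.1 i) (v.2 i) ζ) := funext (hB_line_eq C₁ A ε y v)
  rw [he]
  refine ⟨ContDiffAt.sum fun i _ => (contDiffAt_term C₁ A ε (h0 i)).of_le h2, ?_⟩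
  rw [lapC_sum _ fun i _ => (contDiffAt_term C₁ A ε (h0 i)).of_le h2, Gap.nsq_eq, Finset.mul_sum,
    Finset.mul_sum, ← Finset.sum_sub_distrib]
  refine Finset.sum_congr rfl fun i _ => ?_
  have h3 : qd (y.1 i) (y.2 i) (v.1 i) (v.2 i) 0 ≠ 0 := by
    rw [qd_zero]
    exact ne_of_cc (h0 i)
  have c1 : ContDiffAt ℝ 2 (fun ζ => qd (y.1 i) (y.2 i) (v.1 i) (v.2 i) ζ ^ ε) 0 :=
    (contDiffAt_rpow h3).of_le h2
  have c2 : ContDiffAt ℝ 2 (qd (y.1 i) (y.2 i) (v.1 i) (v.2 i)) 0 :=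
    contDiff_qd.contDiffAt.of_le h2
  rw [lapC_add (contDiffAt_const.mul c1) (contDiffAt_const.mul c2), lapC_const_mul _ c1,
    lapC_const_mul _ c2, lapC_rpow (ne_of_cc (h0 i)), lapC_qd]
  ring

theorem continuous_hB {C₁ A ε : ℝ} (hε : 0 < ε) : Continuous (hB (m := m) C₁ A ε) := by
  unfold hB
  refine (continuous_const.mul (continuous_finsetSum _ fun i _ => ?_)).sub
    (continuous_const.mul Gap.contDiff_nsq'.continuous)
  have h1 : Continuous fun y : Cn m => y.1 i ^ 2 + y.2 i ^ 2 := by fun_prop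
  exact h1.rpow_const fun _ => Or.inr hε.le

theorem hB_lower {C₁ A ε : ℝ} (hC : 0 ≤ C₁) (hA : 0 ≤ A) {y : Cn m} (hy : nsq y ≤ 1) :
    -A ≤ hB C₁ A ε y := by
  unfold hB
  have h1 : 0 ≤ ∑ i, (y.1 i ^ 2 + y.2 i ^ 2) ^ ε :=
    Finset.sum_nonneg fun i _ => Real.rpow_nonneg (by positivity) _
  have h2 := mul_nonneg hC h1
  have h3 := mul_le_mul_of_nonneg_left hy hA
  linarith

theorem hB_upper {C₁ A ε : ℝ} (hε : 0 < ε) (hε1 : ε ≤ 1) (hC : 0 ≤ C₁)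
    (hAC : 2 * m * C₁ < A) {y : Cn m} (h9 : 9 ≤ nsq y) (h16 : nsq y ≤ 16) :
    hB C₁ A ε y < -A := by
  unfold hB
  have h1 : ∀ i : Fin m, (y.1 i ^ 2 + y.2 i ^ 2) ^ ε ≤ 16 := by
    intro i
    have h2 : y.1 i ^ 2 + y.2 i ^ 2 ≤ 16 := (Gap.le_nsq y i).trans h16
    calc (y.1 i ^ 2 + y.2 i ^ 2) ^ ε ≤ (16 : ℝ) ^ ε :=
          Real.rpow_le_rpow (by positivity) h2 hε.le
      _ ≤ (16 : ℝ) ^ (1 : ℝ) := Real.rpow_le_rpow_of_exponent_le (by norm_num) hε1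
      _ = 16 := Real.rpow_one 16
  have h3 : ∑ i : Fin m, (y.1 i ^ 2 + y.2 i ^ 2) ^ ε ≤ m * 16 := by
    refine (Finset.sum_le_sum fun i _ => h1 i).trans ?_
    simp
  have h4 := mul_le_mul_of_nonneg_left h3 hC
  have h5 : 0 ≤ 2 * m * C₁ := by positivity
  have hA : 0 ≤ A := h5.trans hAC.le
  have h6 := mul_le_mul_of_nonneg_left h9 hA
  nlinarith

end hB

/-! ### the lower bound for the Kähler form of the base -/

section lower

variable {n m : ℕ} {M Y W : Type} [TopologicalSpace M] [TopologicalSpace Y]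
  [TopologicalSpace W] {κ P ι : Type} {T : ℝ} (F : Mod n m M Y W κ P ι T)

theorem isCompact_nsq25 : IsCompact {y : Cn m | nsq y ≤ 25} := by
  have hcl : IsClosed {y : Cn m | nsq y ≤ 25} :=
    isClosed_le Gap.contDiff_nsq'.continuous continuous_const
  refine Metric.isCompact_of_isClosed_isBounded hcl ?_
  refine (Metric.isBounded_closedBall (x := (0 : Cn m)) (r := 5)).subset fun y hy => ?_
  have hy' : nsq y ≤ 25 := hy
  rw [mem_closedBall_zero_iff]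
  have h1 : ∀ i, |y.1 i| ≤ 5 := fun i => by
    have := Gap.le_nsq y i
    exact abs_le_of_sq_le_sq' (by nlinarith [sq_nonneg (y.2 i)]) (by norm_num) |> abs_le.2
  have h2 : ∀ i, |y.2 i| ≤ 5 := fun i => by
    have := Gap.le_nsq y i
    exact abs_le_of_sq_le_sq' (by nlinarith [sq_nonneg (y.1 i)]) (by norm_num) |> abs_le.2
  refine max_le ?_ ?_
  · exact (pi_norm_le_iff_of_nonneg (by norm_num)).2 h1
  · exact (pi_norm_le_iff_of_nonneg (by norm_num)).2 h2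

theorem mem_target (j : P) {y : Cn m} (hy : nsq y < 100) : y ∈ (F.b j).target :=
  F.hol.target j hy

theorem levz_K_nonneg (j : P) {y : Cn m} (hy : y ∈ (F.b j).target) (v : Cn m) :
    0 ≤ levz (F.K j) v y := by
  by_cases hv : v = 0
  · rw [hv, Gap.levz_zero_dir]
  · exact (F.lim.psh j y hy v hv).le

theorem exists_lower_one (j : P) : ∃ C : ℝ, ∀ y : Cn m, nsq y ≤ 25 → ∀ v,
    nsq v ≤ C * levz (F.K j) v y := by
  have key : ∃ C : ℝ, ∀ y ∈ {y : Cn m | nsq y ≤ 25}, nsq y ≤ 25 → ∀ v,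
      nsq v ≤ C * levz (F.K j) v y := by
    refine isCompact_nsq25.induction_on (p := fun S : Set (Cn m) => ∃ C : ℝ, ∀ y ∈ S,
      nsq y ≤ 25 → ∀ v, nsq v ≤ C * levz (F.K j) v y) ?_ ?_ ?_ ?_
    · exact ⟨0, fun z hz => absurd hz (notMem_empty _)⟩
    · rintro S S' hSS' ⟨C, h⟩
      exact ⟨C, fun z hz => h z (hSS' hz)⟩
    · rintro S S' ⟨C, h⟩ ⟨C', h'⟩
      refine ⟨max C C', fun z hz hz25 v => ?_⟩
      have hnn := levz_K_nonneg F j (mem_target F j (by linarith : nsq z < 100)) v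
      rcases hz with hz | hz
      · exact (h z hz hz25 v).trans (mul_le_mul_of_nonneg_right (le_max_left _ _) hnn)
      · exact (h' z hz hz25 v).trans (mul_le_mul_of_nonneg_right (le_max_right _ _) hnn)
    · intro x hx
      have hx' : nsq x ≤ 25 := hx
      have hxt : x ∈ (F.b j).target := mem_target F j (by linarith)
      have hn : ContDiffOn ℝ ∞ (nsq (n := m)) (F.b j).target := Gap.contDiff_nsq'.contDiffOn
      obtain ⟨C, hC, hev⟩ := Bd.levz_le_local (F.b j).open_target hn (F.lim.smooth j) hxt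
        (fun y hy u hu => F.lim.psh j y hy u hu)
      obtain ⟨V, hV, hVs⟩ := hev.exists_mem
      refine ⟨V, mem_nhdsWithin_of_mem_nhds hV, C, fun z hz _ v => ?_⟩
      have := hVs z hz v
      rwa [Gap.levz_nsq'] at this
  obtain ⟨C, h⟩ := key
  exact ⟨C, fun y hy => h y hy hy⟩

/-- **uniform positivity of the Kähler form of `Y`** -/
theorem exists_lower [Finite P] : ∃ C : ℝ, 0 < C ∧ ∀ j, ∀ y : Cn m, nsq y ≤ 25 → ∀ v,
    nsq v ≤ C * levz (F.K j) v y := by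
  refine Gap.exists_finite (Q := fun j C => ∀ y : Cn m, nsq y ≤ 25 → ∀ v,
    nsq v ≤ C * levz (F.K j) v y) (fun j => exists_lower_one F j) ?_
  intro j C C' hCC' h y hy v
  have hnn := levz_K_nonneg F j (mem_target F j (by linarith : nsq y < 100)) v
  exact (h y hy v).trans (mul_le_mul_of_nonneg_right hCC' hnn)

end lower

end HB

end Pool.Agent.KRFG

end
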