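import Mathlib
import Pool.Agent.Work.MP_a2bf38_gt.Fu.H.BoundLin
import Pool.Agent.Work.MP_a2bf38_gt.Fu.TFlow
import Pool.Agent.Work.MP_a2bf38_gt.Fu.MaxP

section

/-!
# Determinants of real and complex Hessians: linear algebra
-/

open scoped ComplexOrder
open Matrix

namespace Pool.Agent.KRFS.ABP

section real

variable {ι : Type*} [Fintype ι] [DecidableEq ι]

theorem one_le_det_one_add {X : Matrix ι ι ℝ} (hX : X.PosSemidef) : 1 ≤ (1 + X).det := by
  have hH : (1 + X).IsHermitian := by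
    rw [Matrix.IsHermitian, Matrix.conjTranspose_add, Matrix.conjTranspose_one, hX.isHermitian.eq]
  have h1 : ∀ i, 1 ≤ hH.eigenvalues i := by
    intro i
    set v : ι → ℝ := ⇑(hH.eigenvectorBasis i) with hv
    have h2 : hH.eigenvalues i = (star v ⬝ᵥ (1 + X) *ᵥ v) := hH.eigenvalues_eq i
    have h3 : star v ⬝ᵥ v = 1 := by
      have e1 : inner ℝ (hH.eigenvectorBasis i) (hH.eigenvectorBasis i) = (1 : ℝ) := by
        rw [inner_self_eq_norm_sq_to_K, hH.eigenvectorBasis.orthonormal.1 i]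
        simp
      rw [EuclideanSpace.inner_eq_star_dotProduct, dotProduct_comm] at e1
      exact e1
    have h4 : 0 ≤ star v ⬝ᵥ X *ᵥ v := hX.dotProduct_mulVec_nonneg v
    rw [h2, Matrix.add_mulVec, Matrix.one_mulVec, dotProduct_add, h3]
    linarith
  rw [hH.det_eq_prod_eigenvalues]
  calc (1 : ℝ) = ∏ _i : ι, (1 : ℝ) := by simp
    _ ≤ ∏ i, hH.eigenvalues i := Finset.prod_le_prod (fun _ _ => zero_le_one) fun i _ => h1 i

theorem det_le_det_add {M N : Matrix ι ι ℝ} (hM : M.PosSemidef) (hN : N.PosSemidef) :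
    M.det ≤ (M + N).det := by
  by_cases h0 : M.det = 0
  · rw [h0]
    exact (hM.add hN).det_nonneg
  have hu : IsUnit M := (Matrix.isUnit_iff_isUnit_det _).mpr (isUnit_iff_ne_zero.2 h0)
  open scoped MatrixOrder in
  obtain ⟨y, hy⟩ := CStarAlgebra.nonneg_iff_eq_star_mul_self.mp hM.nonneg
  have hy' : M = y.conjTranspose * y := by
    rw [hy, Matrix.star_eq_conjTranspose]
  have hdet : IsUnit y.conjTranspose.det := by
    have h1 : IsUnit M.det := (Matrix.isUnit_iff_isUnit_det _).mp hu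
    rw [hy', Matrix.det_mul] at h1
    exact isUnit_of_mul_isUnit_left h1
  set K : Matrix ι ι ℝ := (y.conjTranspose)⁻¹ with hK
  have hK1 : K * y.conjTranspose = 1 := Matrix.nonsing_inv_mul _ hdet
  have hK2 : y * K.conjTranspose = 1 := by
    rw [← Matrix.conjTranspose_conjTranspose y, ← Matrix.conjTranspose_mul, hK1,
      Matrix.conjTranspose_one]
  have hK3 : K * M * K.conjTranspose = 1 := by
    rw [hy', ← Matrix.mul_assoc, hK1, Matrix.one_mul, hK2]
  have hX : (K * N * K.conjTranspose).PosSemidef := hN.mul_mul_conjTranspose_same K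
  have h1 := one_le_det_one_add hX
  have h2 : 1 + K * N * K.conjTranspose = K * (M + N) * K.conjTranspose := by
    rw [Matrix.mul_add, Matrix.add_mul, hK3]
  rw [h2, Matrix.det_mul, Matrix.det_mul, Matrix.det_conjTranspose, star_trivial] at h1
  have h3 : K.det * M.det * K.det = 1 := by
    have := congrArg Matrix.det hK3
    rwa [Matrix.det_mul, Matrix.det_mul, Matrix.det_conjTranspose, star_trivial,
      Matrix.det_one] at this
  have h4 : 0 ≤ M.det := hM.det_nonneg
  have h5 : M.det * 1 ≤ M.det * (K.det * (M + N).det * K.det) := mul_le_mul_of_nonneg_left h1 h4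
  calc M.det = M.det * 1 := (mul_one _).symm
    _ ≤ M.det * (K.det * (M + N).det * K.det) := h5
    _ = (K.det * M.det * K.det) * (M + N).det := by ring
    _ = (M + N).det := by rw [h3, one_mul]

end real

section complex

variable {k : ℕ}

/-- the determinant of the real form of a complex matrix -/
theorem det_realForm (P Q : Matrix (Fin k) (Fin k) ℝ) :
    (Matrix.fromBlocks P (-Q) Q P).det =
      Complex.normSq (P.map Complex.ofReal + Complex.I • Q.map Complex.ofReal).det := by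
  set p : Matrix (Fin k) (Fin k) ℂ := P.map Complex.ofReal with hp
  set q : Matrix (Fin k) (Fin k) ℂ := Q.map Complex.ofReal with hq
  have h1 : ((Matrix.fromBlocks P (-Q) Q P).det : ℂ) = (Matrix.fromBlocks p (-q) q p).det := by
    have h := RingHom.map_det Complex.ofRealHom (Matrix.fromBlocks P (-Q) Q P)
    rw [Complex.ofRealHom_eq_coe] at h
    rw [h]
    congr 1
    ext i j
    rcases i with i | i <;> rcases j with j | j <;> simp [p, q]
  have h2 : Matrix.fromBlocks (1 : Matrix (Fin k) (Fin k) ℂ) (Complex.I • 1) 0 1 *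
      Matrix.fromBlocks p (-q) q p * Matrix.fromBlocks 1 (-Complex.I • 1) 0 1 =
      Matrix.fromBlocks (p + Complex.I • q) 0 q (p - Complex.I • q) := by
    rw [Matrix.fromBlocks_multiply, Matrix.fromBlocks_multiply]
    congr 1
    · simp
    · simp only [Matrix.one_mul, Matrix.mul_one, Matrix.smul_mul, Matrix.mul_smul, smul_add,
        smul_smul, neg_smul, Matrix.mul_neg]
      rw [Complex.I_mul_I]
      simp
      abel
    · simp
    · simp [sub_eq_add_neg, add_comm]
  have h3 : (Matrix.fromBlocks p (-q) q p).det =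
      (p + Complex.I • q).det * (p - Complex.I • q).det := by
    have h := congrArg Matrix.det h2
    rw [Matrix.det_mul, Matrix.det_mul, Matrix.det_fromBlocks_zero₂₁, Matrix.det_fromBlocks_zero₂₁,
      Matrix.det_fromBlocks_zero₁₂] at h
    simpa using h
  have h4 : (p - Complex.I • q).det = (starRingEnd ℂ) (p + Complex.I • q).det := by
    have h := RingHom.map_det (starRingEnd ℂ) (p + Complex.I • q)
    rw [h]
    congr 1
    ext i j
    simp [p, q, sub_eq_add_neg]
  apply Complex.ofReal_injective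
  rw [h1, h3, h4, Complex.mul_conj]

/-- The determinant of a real Hessian is bounded by the square of the complex one. -/
theorem det_hess_le {A B C E : Matrix (Fin k) (Fin k) ℝ}
    (hM : (Matrix.fromBlocks A B C E).PosSemidef) :
    (Matrix.fromBlocks A B C E).det ≤ 16 ^ k * Complex.normSq
      (Matrix.of fun i j : Fin k => (⟨(A i j + E i j) / 4, (B i j - C i j) / 4⟩ : ℂ)).det := by
  set Jm : Matrix (Fin k ⊕ Fin k) (Fin k ⊕ Fin k) ℝ := Matrix.fromBlocks 0 (-1) 1 0 with hJ
  have h1 : (Jm.conjTranspose * Matrix.fromBlocks A B C E * Jm).PosSemidef :=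
    hM.conjTranspose_mul_mul_same Jm
  have h2 := det_le_det_add hM h1
  have h3 : Matrix.fromBlocks A B C E + Jm.conjTranspose * Matrix.fromBlocks A B C E * Jm =
      Matrix.fromBlocks (A + E) (-(C - B)) (C - B) (A + E) := by
    rw [hJ, Matrix.fromBlocks_conjTranspose, Matrix.fromBlocks_multiply,
      Matrix.fromBlocks_multiply, Matrix.fromBlocks_add]
    congr 1 <;> simp [sub_eq_add_neg, add_comm]
  rw [h3, det_realForm] at h2
  refine h2.trans (le_of_eq ?_)
  have h4 : (A + E).map Complex.ofReal + Complex.I • (C - B).map Complex.ofReal =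
      ((4 : ℂ) • (Matrix.of fun i j : Fin k =>
        (⟨(A i j + E i j) / 4, (B i j - C i j) / 4⟩ : ℂ))).map (starRingEnd ℂ) := by
    ext i j
    simp only [Matrix.add_apply, Matrix.map_apply, Matrix.smul_apply, Matrix.of_apply,
      Matrix.sub_apply, smul_eq_mul]
    apply Complex.ext
    · simp
      ring
    · simp
      ring
  have h5 : ((A + E).map Complex.ofReal + Complex.I • (C - B).map Complex.ofReal).det =
      (starRingEnd ℂ) ((4 : ℂ) • (Matrix.of fun i j : Fin k =>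
        (⟨(A i j + E i j) / 4, (B i j - C i j) / 4⟩ : ℂ))).det := by
    rw [h4, RingHom.map_det]
    rfl
  rw [h5, Complex.normSq_conj, Matrix.det_smul, Complex.normSq_mul, Fintype.card_fin, map_pow]
  congr 2
  simp
  norm_num

end complex

end Pool.Agent.KRFS.ABP

end

section

/-!
# The contact set of a function on the unit ball of `ℂ^k`
-/

open scoped ContDiff ENNReal ComplexOrder Pointwise
open Set Filter Topology MeasureTheory Matrix Pool.Agent.ToricKRF Pool.Agent.ToricKRF.G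

namespace Pool.Agent.KRFS.ABP

variable {k : ℕ}

theorem haar_Cn (k : ℕ) : (volume : Measure (Cn k)).IsAddHaarMeasure :=
  Measure.prod.instIsAddHaarMeasure (G := Fin k → ℝ) (H := Fin k → ℝ) volume volume

/-- the real scalar product of `ℂ^k` -/
def ip (p z : Cn k) : ℝ := p.1 ⬝ᵥ z.1 + p.2 ⬝ᵥ z.2

theorem ip_self (z : Cn k) : ip z z = nsq z := rfl

theorem ip_sq_le (p z : Cn k) : ip p z ^ 2 ≤ nsq p * nsq z := by
  have h := Finset.sum_mul_sq_le_sq_mul_sq (Finset.univ : Finset (Fin k ⊕ Fin k))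
    (Sum.elim p.1 p.2) (Sum.elim z.1 z.2)
  simpa [ip, nsq, dotProduct, Fintype.sum_sum_type, sq] using h

theorem nsq_smul (r : ℝ) (z : Cn k) : nsq (r • z) = r ^ 2 * nsq z := by
  simp only [nsq, Prod.smul_fst, Prod.smul_snd, smul_dotProduct, dotProduct_smul, smul_eq_mul]
  ring

theorem continuous_nsq : Continuous (nsq : Cn k → ℝ) := by
  unfold nsq dotProduct
  fun_prop

theorem sq_le_nsq₁ (z : Cn k) (i : Fin k) : z.1 i ^ 2 ≤ nsq z := by
  have h1 : z.1 i ^ 2 ≤ z.1 ⬝ᵥ z.1 := by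
    unfold dotProduct
    have := Finset.single_le_sum (f := fun i => z.1 i * z.1 i)
      (fun i _ => mul_self_nonneg _) (Finset.mem_univ i)
    simpa [sq] using this
  have h2 : 0 ≤ z.2 ⬝ᵥ z.2 := Finset.sum_nonneg fun i _ => mul_self_nonneg _
  unfold nsq
  linarith

theorem sq_le_nsq₂ (z : Cn k) (i : Fin k) : z.2 i ^ 2 ≤ nsq z := by
  have h1 : z.2 i ^ 2 ≤ z.2 ⬝ᵥ z.2 := by
    unfold dotProduct
    have := Finset.single_le_sum (f := fun i => z.2 i * z.2 i)
      (fun i _ => mul_self_nonneg _) (Finset.mem_univ i)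
    simpa [sq] using this
  have h2 : 0 ≤ z.1 ⬝ᵥ z.1 := Finset.sum_nonneg fun i _ => mul_self_nonneg _
  unfold nsq
  linarith

theorem norm_le_one_of_nsq {z : Cn k} (hz : nsq z ≤ 1) : ‖z‖ ≤ 1 := by
  rw [Prod.norm_def, max_le_iff]
  constructor <;> rw [pi_norm_le_iff_of_nonneg zero_le_one] <;> intro i <;>
    rw [Real.norm_eq_abs, abs_le_one_iff_mul_self_le_one]
  · nlinarith [sq_le_nsq₁ z i]
  · nlinarith [sq_le_nsq₂ z i]

theorem isCompact_nsq : IsCompact {z : Cn k | nsq z ≤ 1} := by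
  apply Metric.isCompact_of_isClosed_isBounded
  · exact isClosed_le continuous_nsq continuous_const
  · refine (Metric.isBounded_closedBall (x := (0 : Cn k)) (r := 1)).subset fun z hz => ?_
    rw [mem_closedBall_zero_iff]
    exact norm_le_one_of_nsq hz

/-- the gradient -/
noncomputable def grad (v : Cn k → ℝ) (z : Cn k) : Cn k :=
  (fun i => D (Pi.single i 1, 0) v z, fun i => D (0, Pi.single i 1) v z)

theorem D_eq_ip (v : Cn k → ℝ) (u z : Cn k) : D u v z = ip (grad v z) u := by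
  conv_lhs => rw [cn_eq_sum u]
  rw [D_dir_add, D_dir_sum, D_dir_sum]
  simp only [ip, grad, dotProduct]
  congr 1 <;> exact Finset.sum_congr rfl fun i _ => mul_comm _ _

theorem ip_left_injective {p q : Cn k} (h : ∀ u, ip p u = ip q u) : p = q := by
  refine Prod.ext ?_ ?_ <;> funext i
  · have := h (Pi.single i 1, 0)
    simpa [ip] using this
  · have := h (0, Pi.single i 1)
    simpa [ip] using this

theorem contDiff_ip (p : Cn k) : ContDiff ℝ ∞ (ip p) := by
  unfold ip dotProduct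
  fun_prop

theorem D_ip (p u z : Cn k) : D u (ip p) z = ip p u := by
  have h : HasDerivAt (fun s : ℝ => ip p (z + s • u)) (D u (ip p) (z + (0:ℝ) • u)) 0 :=
    hasDerivAt_line ((contDiff_ip p).differentiable (by simp)).differentiableAt
  have h2 : HasDerivAt (fun s : ℝ => ip p (z + s • u)) (ip p u) 0 := by
    have : (fun s : ℝ => ip p (z + s • u)) = fun s => ip p z + s * ip p u := by
      funext s
      simp only [ip, Prod.fst_add, Prod.snd_add, Prod.smul_fst, Prod.smul_snd, dotProduct_add,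
        dotProduct_smul, smul_eq_mul]
      ring
    rw [this]
    simpa using ((hasDerivAt_id (0:ℝ)).mul_const (ip p u)).const_add (ip p z)
  have h3 := h.unique h2
  simpa using h3

section contact

variable {v : Cn k → ℝ} {S : Set (Cn k)} {a : ℝ}

/-- the contact set -/
def contact (v : Cn k → ℝ) (a : ℝ) : Set (Cn k) :=
  {z | nsq z < 1 ∧ v z ≤ a ∧ ∀ u, 0 ≤ D u (D u v) z}

theorem exists_contact (hS : IsOpen S) (hsub : {z : Cn k | nsq z ≤ 1} ⊆ S)
    (hv : ContDiffOn ℝ ∞ v S) (ha : 0 < a) (h0 : v 0 = 0) (hb : ∀ z, nsq z = 1 → a ≤ v z)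
    {p : Cn k} (hp : nsq p < (a / 2) ^ 2) : ∃ z ∈ contact v a, grad v z = p := by
  set w : Cn k → ℝ := fun z => v z - ip p z with hw
  have hcw : ContDiffOn ℝ ∞ w S := hv.sub (contDiff_ip p).contDiffOn
  have hne : {z : Cn k | nsq z ≤ 1}.Nonempty := ⟨0, by simp [nsq]⟩
  obtain ⟨z, hz, hmin⟩ := isCompact_nsq.exists_isMinOn hne (hcw.continuousOn.mono hsub)
  have h1 : w z ≤ 0 := by
    have := hmin (show (0 : Cn k) ∈ {z : Cn k | nsq z ≤ 1} by simp [nsq])
    have e : w 0 = 0 := by simp [hw, h0, ip]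
    rw [← e]
    exact this
  have habs : ip p z < a / 2 := by
    have h2 := ip_sq_le p z
    have h3 : 0 ≤ nsq p := by
      unfold nsq
      exact add_nonneg (Finset.sum_nonneg fun i _ => mul_self_nonneg _)
        (Finset.sum_nonneg fun i _ => mul_self_nonneg _)
    have h4 : nsq p * nsq z ≤ nsq p := mul_le_of_le_one_right h3 hz
    have h5 : ip p z ^ 2 < (a / 2) ^ 2 := (h2.trans h4).trans_lt hp
    exact lt_of_pow_lt_pow_left₀ 2 (by positivity) h5
  have hlt : nsq z < 1 := by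
    rcases (show nsq z ≤ 1 from hz).lt_or_eq with h | h
    · exact h
    · exfalso
      have h2 := hb z h
      have h3 : w z = v z - ip p z := rfl
      linarith
  have hva : v z ≤ a := by
    have h3 : w z = v z - ip p z := rfl
    linarith
  have hzS : z ∈ S := hsub hz
  have hloc : IsLocalMin w z := by
    have hop : IsOpen {z : Cn k | nsq z < 1} := isOpen_lt continuous_nsq continuous_const
    filter_upwards [hop.mem_nhds hlt] with y hy
    exact hmin (le_of_lt hy)
  have hgrad : grad v z = p := by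
    apply ip_left_injective
    intro u
    rw [← D_eq_ip]
    have h2 : D u w z = 0 := by
      unfold D
      rw [hloc.fderiv_eq_zero]
      rfl
    rw [hw, D_sub (diffAt_of_contDiffOn hS hv hzS)
      ((contDiff_ip p).differentiable (by simp)).differentiableAt, D_ip] at h2
    linarith
  refine ⟨z, ⟨hlt, hva, fun u => ?_⟩, hgrad⟩
  have hcd : ContDiffAt ℝ 2 w z := 
    (hcw.contDiffAt (hS.mem_nhds hzS)).of_le (WithTop.coe_le_coe.2 le_top)
  obtain ⟨h2, h3, h4⟩ := line_facts u hcd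
  have h5 : IsLocalMax (fun s : ℝ => -w (z + s • u)) 0 := by
    have hct : Tendsto (fun s : ℝ => z + s • u) (𝓝 0) (𝓝 z) := by
      have : Continuous fun s : ℝ => z + s • u := by fun_prop
      simpa using this.tendsto 0
    have := hct.eventually hloc
    filter_upwards [this] with s hs
    simpa using hs
  have h6 := deriv_deriv_nonpos_of_isLocalMax h2.neg h5
  have h7 : deriv (deriv fun s : ℝ => -w (z + s • u)) 0 =
      -deriv (deriv fun s : ℝ => w (z + s • u)) 0 := by
    have : (deriv fun s : ℝ => -w (z + s • u)) = fun s => -deriv (fun s : ℝ => w (z + s • u)) s := by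
      funext s
      exact deriv.fun_neg
    rw [this, deriv.fun_neg]
  rw [h7, h4] at h6
  have h8 : D u (D u w) z = D u (D u v) z := by
    have h9 : EqOn (D u w) (fun q => D u v q - ip p u) S := by
      intro q hq
      rw [hw, D_sub (diffAt_of_contDiffOn hS hv hq)
        ((contDiff_ip p).differentiable (by simp)).differentiableAt, D_ip]
    rw [D_congr hS h9 u hzS, D_sub (diffAt_of_contDiffOn hS (contDiffOn_D hS hv u) hzS)
      (differentiableAt_const _), D_const, sub_zero]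
  rw [← h8]
  have h10 : D u (D u w) z = fderiv ℝ (fun q => fderiv ℝ w q u) z u := rfl
  rw [h10]
  linarith

theorem measurableSet_contact (hS : IsOpen S) (hsub : {z : Cn k | nsq z ≤ 1} ⊆ S)
    (hv : ContDiffOn ℝ ∞ v S) : MeasurableSet (contact v a) := by
  have hK : IsClosed {z : Cn k | nsq z ≤ 1} := isClosed_le continuous_nsq continuous_const
  have h1 : IsClosed ({z : Cn k | nsq z ≤ 1} ∩ v ⁻¹' Iic a) :=
    (hv.continuousOn.mono hsub).preimage_isClosed_of_isClosed hK isClosed_Iic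
  have h2 : ∀ u : Cn k, IsClosed ({z : Cn k | nsq z ≤ 1} ∩ (D u (D u v)) ⁻¹' Ici 0) := fun u =>
    ((contDiffOn_D hS (contDiffOn_D hS hv u) u).continuousOn.mono
      hsub).preimage_isClosed_of_isClosed hK isClosed_Ici
  have h3 : contact v a = ({z : Cn k | nsq z < 1} ∩ ({z : Cn k | nsq z ≤ 1} ∩ v ⁻¹' Iic a)) ∩
      ⋂ u : Cn k, ({z : Cn k | nsq z ≤ 1} ∩ (D u (D u v)) ⁻¹' Ici 0) := by
    ext z
    simp only [contact, mem_ofPred_eq, mem_inter_iff, mem_preimage, mem_Iic, mem_iInter, mem_Ici]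
    constructor
    · rintro ⟨h, h', h''⟩
      exact ⟨⟨h, h.le, h'⟩, fun u => ⟨h.le, h'' u⟩⟩
    · rintro ⟨⟨h, -, h'⟩, h''⟩
      exact ⟨h, h', fun u => (h'' u).2⟩
  rw [h3]
  exact ((isOpen_lt continuous_nsq continuous_const).measurableSet.inter h1.measurableSet).inter
    (isClosed_iInter h2).measurableSet

/-- the Hessian -/
noncomputable def hess (v : Cn k → ℝ) (z : Cn k) : Matrix (Fin k ⊕ Fin k) (Fin k ⊕ Fin k) ℝ :=
  Matrix.fromBlocks (Matrix.of fun i j => D (Pi.single i 1, 0) (D (Pi.single j 1, 0) v) z)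
    (Matrix.of fun i j => D (Pi.single i 1, 0) (D (0, Pi.single j 1) v) z)
    (Matrix.of fun i j => D (0, Pi.single i 1) (D (Pi.single j 1, 0) v) z)
    (Matrix.of fun i j => D (0, Pi.single i 1) (D (0, Pi.single j 1) v) z)

/-- the basis of `ℂ^k` over `ℝ` -/
noncomputable def bas (k : ℕ) : Module.Basis (Fin k ⊕ Fin k) ℝ (Cn k) :=
  (Pi.basisFun ℝ (Fin k)).prod (Pi.basisFun ℝ (Fin k))

theorem hess_apply (v : Cn k → ℝ) (z : Cn k) (i j : Fin k ⊕ Fin k) :
    hess v z i j = D (bas k i) (D (bas k j) v) z := by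
  rcases i with i | i <;> rcases j with j | j <;> simp [hess, bas]

theorem hess_symm (hS : IsOpen S) (hv : ContDiffOn ℝ ∞ v S) {z : Cn k} (hz : z ∈ S)
    (i j : Fin k ⊕ Fin k) : hess v z i j = hess v z j i := by
  rw [hess_apply, hess_apply, D_comm hS hv hz]

theorem D_D_eq (hS : IsOpen S) (hv : ContDiffOn ℝ ∞ v S) {z : Cn k} (hz : z ∈ S)
    (x : Fin k ⊕ Fin k → ℝ) :
    x ⬝ᵥ hess v z *ᵥ x = D (∑ i, x i • bas k i) (D (∑ i, x i • bas k i) v) z := by
  rw [D_dir_sum]
  simp only [dotProduct, mulVec]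
  refine Finset.sum_congr rfl fun i _ => ?_
  congr 1
  have h1 : D (∑ i, x i • bas k i) v = fun q => ∑ j, x j * D (bas k j) v q := by
    funext q
    exact D_dir_sum _ _ _ _ _
  rw [h1, D_sum _ fun j _ => (diffAt_of_contDiffOn hS (contDiffOn_D hS hv _) hz).const_mul _]
  refine Finset.sum_congr rfl fun j _ => ?_
  rw [D_const_mul _ (diffAt_of_contDiffOn hS (contDiffOn_D hS hv _) hz), hess_apply, mul_comm]

theorem hess_posSemidef (hS : IsOpen S) (hv : ContDiffOn ℝ ∞ v S) {z : Cn k} (hz : z ∈ S)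
    (h : ∀ u, 0 ≤ D u (D u v) z) : (hess v z).PosSemidef := by
  refine Matrix.PosSemidef.of_dotProduct_mulVec_nonneg ?_ fun x => ?_
  · ext i j
    rw [Matrix.conjTranspose_apply, star_trivial]
    exact hess_symm hS hv hz j i
  · rw [star_trivial, D_D_eq hS hv hz]
    exact h _

theorem contDiffOn_snd (hv : ContDiffOn ℝ ∞ v S) :
    ContDiffOn ℝ ∞ (fun q : ℝ × Cn k => v q.2) (Prod.snd ⁻¹' S) :=
  hv.comp contDiff_snd.contDiffOn fun _ h => h

theorem D_snd (hS : IsOpen S) (hv : ContDiffOn ℝ ∞ v S) {q : ℝ × Cn k} (hq : q.2 ∈ S) (w : Cn k) :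
    D ((0 : ℝ), w) (fun q : ℝ × Cn k => v q.2) q = D w v q.2 :=
  D_comp_linear (ContinuousLinearMap.snd ℝ ℝ (Cn k)) (diffAt_of_contDiffOn hS hv hq) (0, w)

theorem D_D_snd (hS : IsOpen S) (hv : ContDiffOn ℝ ∞ v S) {z : Cn k} (hz : z ∈ S) (w w' : Cn k) :
    D ((0 : ℝ), w) (D ((0 : ℝ), w') (fun q : ℝ × Cn k => v q.2)) (0, z) = D w (D w' v) z := by
  have h1 : EqOn (D ((0 : ℝ), w') (fun q : ℝ × Cn k => v q.2)) (fun q => D w' v q.2)
      (Prod.snd ⁻¹' S) := fun q hq => D_snd hS hv hq w'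
  rw [D_congr (hS.preimage continuous_snd) h1 (0, w) (show ((0 : ℝ), z) ∈ Prod.snd ⁻¹' S from hz)]
  exact D_snd hS (contDiffOn_D hS hv w') (q := (0, z)) hz w

theorem cHess_snd (hS : IsOpen S) (hv : ContDiffOn ℝ ∞ v S) {z : Cn k} (hz : z ∈ S) :
    cHess (fun q : ℝ × Cn k => v q.2) (0, z) = Matrix.of fun i j : Fin k =>
      (⟨(hess v z (Sum.inl i) (Sum.inl j) + hess v z (Sum.inr i) (Sum.inr j)) / 4,
        (hess v z (Sum.inl i) (Sum.inr j) - hess v z (Sum.inr i) (Sum.inl j)) / 4⟩ : ℂ) := by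
  ext i j
  simp only [cHess, Matrix.of_apply, da, db, hess, Matrix.fromBlocks_apply₁₁,
    Matrix.fromBlocks_apply₁₂, Matrix.fromBlocks_apply₂₁, Matrix.fromBlocks_apply₂₂]
  rw [D_D_snd hS hv hz, D_D_snd hS hv hz, D_D_snd hS hv hz, D_D_snd hS hv hz]

theorem contDiffOn_grad (hS : IsOpen S) (hv : ContDiffOn ℝ ∞ v S) : ContDiffOn ℝ ∞ (grad v) S := by
  unfold grad
  refine ContDiffOn.prodMk ?_ ?_ <;> rw [contDiffOn_pi] <;> exact fun i => contDiffOn_D hS hv _

theorem det_fderiv_grad (hS : IsOpen S) (hv : ContDiffOn ℝ ∞ v S) {z : Cn k} (hz : z ∈ S) :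
    (fderiv ℝ (grad v) z).det = (hess v z).det := by
  have hd : DifferentiableAt ℝ (grad v) z :=
    ((contDiffOn_grad hS hv).differentiableOn (by simp)).differentiableAt (hS.mem_nhds hz)
  have h1 : ∀ i : Fin k, ∀ u : Cn k, (fderiv ℝ (grad v) z u).1 i =
      D u (D (Pi.single i 1, 0) v) z := by
    intro i u
    have e1 : HasFDerivAt (fun y => (grad v y).1 i)
        ((ContinuousLinearMap.proj i ∘L ContinuousLinearMap.fst ℝ (Fin k → ℝ) (Fin k → ℝ)) ∘L
          fderiv ℝ (grad v) z) z :=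
      ((ContinuousLinearMap.proj i ∘L ContinuousLinearMap.fst ℝ (Fin k → ℝ) (Fin k → ℝ)).hasFDerivAt
        (x := grad v z)).comp z hd.hasFDerivAt
    have e2 : (fun y => (grad v y).1 i) = D (Pi.single i 1, 0) v := rfl
    rw [e2] at e1
    simp only [D] at e1 ⊢
    rw [e1.fderiv]
    rfl
  have h2 : ∀ i : Fin k, ∀ u : Cn k, (fderiv ℝ (grad v) z u).2 i =
      D u (D (0, Pi.single i 1) v) z := by
    intro i u
    have e1 : HasFDerivAt (fun y => (grad v y).2 i)
        ((ContinuousLinearMap.proj i ∘L ContinuousLinearMap.snd ℝ (Fin k → ℝ) (Fin k → ℝ)) ∘L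
          fderiv ℝ (grad v) z) z :=
      ((ContinuousLinearMap.proj i ∘L ContinuousLinearMap.snd ℝ (Fin k → ℝ) (Fin k → ℝ)).hasFDerivAt
        (x := grad v z)).comp z hd.hasFDerivAt
    have e2 : (fun y => (grad v y).2 i) = D (0, Pi.single i 1) v := rfl
    rw [e2] at e1
    simp only [D] at e1 ⊢
    rw [e1.fderiv]
    rfl
  change LinearMap.det ((fderiv ℝ (grad v) z : Cn k →L[ℝ] Cn k) : Cn k →ₗ[ℝ] Cn k) = _
  rw [← LinearMap.det_toMatrix (bas k)]
  congr 1
  ext i j
  rw [LinearMap.toMatrix_apply, hess_symm hS hv hz, hess_apply]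
  rcases i with i | i
  · have : (bas k).repr (((fderiv ℝ (grad v) z : Cn k →L[ℝ] Cn k) : Cn k →ₗ[ℝ] Cn k) (bas k j))
        (Sum.inl i) = (fderiv ℝ (grad v) z (bas k j)).1 i := by
      simp [bas]
    rw [this, h1]
    simp [bas]
  · have : (bas k).repr (((fderiv ℝ (grad v) z : Cn k →L[ℝ] Cn k) : Cn k →ₗ[ℝ] Cn k) (bas k j))
        (Sum.inr i) = (fderiv ℝ (grad v) z (bas k j)).2 i := by
      simp [bas]
    rw [this, h2]
    simp [bas]

/-- the Hessian determinant on the contact set -/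
theorem abs_det_le (hS : IsOpen S) (hsub : {z : Cn k | nsq z ≤ 1} ⊆ S)
    (hv : ContDiffOn ℝ ∞ v S) {L : ℝ}
    (hL : ∀ z, nsq z < 1 → v z ≤ a → (∀ u, 0 ≤ D u (D u v) z) →
      (cHess (fun q : ℝ × Cn k => v q.2) (0, z)).det.re ≤ L) {z : Cn k} (hz : z ∈ contact v a) :
    |(fderiv ℝ (grad v) z).det| ≤ 16 ^ k * L ^ 2 := by
  have hzS : z ∈ S := hsub hz.1.le
  have hpos := hess_posSemidef hS hv hzS hz.2.2
  rw [det_fderiv_grad hS hv hzS, abs_of_nonneg hpos.det_nonneg]
  have h1 := det_hess_le hpos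
  have hU : IsOpen (Prod.snd ⁻¹' S : Set (ℝ × Cn k)) := hS.preimage continuous_snd
  have hU' := contDiffOn_snd hv
  have hzU : ((0 : ℝ), z) ∈ (Prod.snd ⁻¹' S : Set (ℝ × Cn k)) := hzS
  set C := cHess (fun q : ℝ × Cn k => v q.2) (0, z) with hC
  have hCpos : C.PosSemidef := by
    refine Matrix.PosSemidef.of_dotProduct_mulVec_nonneg (cHess_herm hU hU' hzU) fun x => ?_
    rw [Complex.nonneg_iff]
    constructor
    · rw [← Bd.lev_eq_form hU hU' hzU]
      have h2 : ∀ u : Cn k, 0 ≤ lev (fun q : ℝ × Cn k => v q.2) u (0, z) := by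
        intro u
        unfold lev
        rw [D_D_snd hS hv hzS, D_D_snd hS hv hzS]
        have e1 := hz.2.2 u
        have e2 := hz.2.2 (J u)
        positivity
      exact h2 _
    · exact ((cHess_herm hU hU' hzU).im_star_dotProduct_mulVec_self x).symm
  have h3 : 0 ≤ C.det.re := (Complex.nonneg_iff.1 hCpos.det_nonneg).1
  have h4 : C.det.im = 0 := ((Complex.nonneg_iff.1 hCpos.det_nonneg).2).symm
  have h5 : Complex.normSq C.det ≤ L ^ 2 := by
    rw [Complex.normSq_apply, h4, mul_zero, add_zero]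
    have h6 := hL z hz.1 hz.2.1 hz.2.2
    nlinarith
  have h6 : (Matrix.of fun i j : Fin k =>
      (⟨(hess v z (Sum.inl i) (Sum.inl j) + hess v z (Sum.inr i) (Sum.inr j)) / 4,
        (hess v z (Sum.inl i) (Sum.inr j) - hess v z (Sum.inr i) (Sum.inl j)) / 4⟩ : ℂ)) = C :=
    (cHess_snd hS hv hzS).symm
  calc (hess v z).det ≤ 16 ^ k * Complex.normSq C.det := by
        rw [← h6]
        exact h1
    _ ≤ 16 ^ k * L ^ 2 := by gcongr

theorem volume_ball (r : ℝ) (hr : 0 < r) :
    volume {p : Cn k | nsq p < r ^ 2} =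
      ENNReal.ofReal (r ^ (2 * k)) * volume {p : Cn k | nsq p < 1} := by
  have h1 : {p : Cn k | nsq p < r ^ 2} = r • {p : Cn k | nsq p < 1} := by
    ext p
    rw [Set.mem_smul_set_iff_inv_smul_mem₀ hr.ne']
    simp only [mem_ofPred_eq, nsq_smul]
    rw [inv_pow, inv_mul_lt_iff₀ (by positivity), mul_one]
  have := haar_Cn k
  rw [h1, Measure.addHaar_smul]
  congr 2
  rw [Module.finrank_prod, Module.finrank_fin_fun, abs_of_nonneg (by positivity), two_mul]

theorem volume_ball_ne_top : volume {p : Cn k | nsq p < 1} ≠ ⊤ := by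
  have := haar_Cn k
  refine ne_of_lt (lt_of_le_of_lt (measure_mono ?_)
    (isCompact_nsq (k := k)).measure_lt_top)
  exact fun z hz => (show nsq z < 1 from hz).le

theorem volume_ball_pos : 0 < volume {p : Cn k | nsq p < 1} :=
  have := haar_Cn k
  (isOpen_lt continuous_nsq continuous_const).measure_pos volume ⟨0, by simp [nsq]⟩

end contact

/-- **The contact set estimate.** -/
theorem abp (k : ℕ) : ∃ c : ℝ, 0 < c ∧ ∀ (v : Cn k → ℝ) (S : Set (Cn k)), IsOpen S →
    {z : Cn k | nsq z ≤ 1} ⊆ S → ContDiffOn ℝ ∞ v S → ∀ a L : ℝ, 0 < a → 0 < L → v 0 = 0 →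
    (∀ z, nsq z = 1 → a ≤ v z) →
    (∀ z, nsq z < 1 → v z ≤ a → (∀ u, 0 ≤ D u (D u v) z) →
      (cHess (fun q : ℝ × Cn k => v q.2) (0, z)).det.re ≤ L) →
    c * a ^ (2 * k) ≤ L ^ 2 * (volume {z : Cn k | nsq z < 1 ∧ v z ≤ a}).toReal := by
  refine ⟨(volume {p : Cn k | nsq p < 1}).toReal / (2 ^ (2 * k) * 16 ^ k), ?_, ?_⟩
  · have := ENNReal.toReal_pos (volume_ball_pos (k := k)).ne' volume_ball_ne_top
    positivity
  intro v S hS hsub hv a L ha hL0 h0 hb hL
  set V := volume {p : Cn k | nsq p < 1} with hV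
  have h1 : {p : Cn k | nsq p < (a / 2) ^ 2} ⊆ grad v '' contact v a := by
    intro p hp
    obtain ⟨z, hz, rfl⟩ := exists_contact hS hsub hv ha h0 hb hp
    exact ⟨z, hz, rfl⟩
  have h2 : volume (grad v '' contact v a) ≤
      ∫⁻ z in contact v a, ENNReal.ofReal |(fderiv ℝ (grad v) z).det| := by
    have := haar_Cn k
    refine addHaar_image_le_lintegral_abs_det_fderiv volume
      (measurableSet_contact hS hsub hv) fun z hz => ?_
    have hzS : z ∈ S := hsub hz.1.le
    exact (((contDiffOn_grad hS hv).differentiableOn (by simp)).differentiableAt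
      (hS.mem_nhds hzS)).hasFDerivAt.hasFDerivWithinAt
  have h3 : ∫⁻ z in contact v a, ENNReal.ofReal |(fderiv ℝ (grad v) z).det| ≤
      ∫⁻ z in contact v a, ENNReal.ofReal (16 ^ k * L ^ 2) := by
    refine setLIntegral_mono' (measurableSet_contact hS hsub hv) fun z hz => ?_
    exact ENNReal.ofReal_le_ofReal (abs_det_le hS hsub hv hL hz)
  have h4 : contact v a ⊆ {z : Cn k | nsq z < 1 ∧ v z ≤ a} := fun z hz => ⟨hz.1, hz.2.1⟩
  have h5 : volume {z : Cn k | nsq z < 1 ∧ v z ≤ a} ≠ ⊤ :=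
    ne_top_of_le_ne_top (volume_ball_ne_top (k := k)) (measure_mono fun z hz => hz.1)
  have h6 : ENNReal.ofReal ((a / 2) ^ (2 * k)) * V ≤
      ENNReal.ofReal (16 ^ k * L ^ 2) * volume {z : Cn k | nsq z < 1 ∧ v z ≤ a} := by
    rw [← volume_ball (a / 2) (by positivity)]
    refine (measure_mono h1).trans (h2.trans (h3.trans ?_))
    rw [setLIntegral_const]
    gcongr
  have h7 := ENNReal.toReal_mono (ENNReal.mul_ne_top ENNReal.ofReal_ne_top h5) h6
  rw [ENNReal.toReal_mul, ENNReal.toReal_mul, ENNReal.toReal_ofReal (by positivity),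
    ENNReal.toReal_ofReal (by positivity)] at h7
  rw [div_mul_eq_mul_div, div_le_iff₀ (by positivity)]
  rw [div_pow] at h7
  have h8 : a ^ (2 * k) / 2 ^ (2 * k) * V.toReal * 2 ^ (2 * k) = V.toReal * a ^ (2 * k) := by
    field_simp
  calc V.toReal * a ^ (2 * k) = a ^ (2 * k) / 2 ^ (2 * k) * V.toReal * 2 ^ (2 * k) := h8.symm
    _ ≤ 16 ^ k * L ^ 2 * (volume {z : Cn k | nsq z < 1 ∧ v z ≤ a}).toReal * 2 ^ (2 * k) := by
        gcongr
    _ = _ := by ring

end Pool.Agent.KRFS.ABP

end
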