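import Pool.Agent.Work.MP_a2bf38_gt.Fu.H.Gen
import Pool.Agent.Work.MP_a2bf38_gt.Fu.K.Mollify
import Mathlib.Analysis.Complex.Harmonic.MeanValue
import Mathlib.Analysis.InnerProductSpace.Harmonic.Constructions

section

/-!
# The modulus of continuity of the potentials, up to the time `T`

The inputs (exponential bound, `φ` and its upper bound in time, Jensen's formula) are hypotheses
here; `I/Modulus.lean` inserts them.
-/

open scoped ContDiff ENNReal ComplexOrder Topology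
open Set MeasureTheory Filter Pool.Agent.ToricKRF Pool.Agent.ToricKRF.G Pool.Agent.KRFS

namespace Pool.Agent.KRFF

/-- monotonicity of circle averages -/
theorem cavg_le {G G' : ℂ → ℝ} {r K : ℝ}
    (hG : Continuous fun θ : ℝ => G (r * Complex.exp (θ * Complex.I)))
    (hG' : Continuous fun θ : ℝ => G' (r * Complex.exp (θ * Complex.I)))
    (h : ∀ θ : ℝ, G (r * Complex.exp (θ * Complex.I)) ≤
      G' (r * Complex.exp (θ * Complex.I)) + K) : cavg G r ≤ cavg G' r + K := by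
  have h2 : (0 : ℝ) < 2 * Real.pi := by positivity
  have h1 : ∫ θ in (0 : ℝ)..2 * Real.pi, G (r * Complex.exp (θ * Complex.I)) ≤
      ∫ θ in (0 : ℝ)..2 * Real.pi, (G' (r * Complex.exp (θ * Complex.I)) + K) :=
    intervalIntegral.integral_mono_on h2.le (hG.intervalIntegrable _ _)
      ((hG'.add continuous_const).intervalIntegrable _ _) fun θ _ => h θ
  rw [intervalIntegral.integral_add (hG'.intervalIntegrable _ _)
    (continuous_const.intervalIntegrable _ _), intervalIntegral.integral_const, smul_eq_mul,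
    sub_zero] at h1
  unfold cavg
  calc (2 * Real.pi)⁻¹ * ∫ θ in (0 : ℝ)..2 * Real.pi, G (r * Complex.exp (θ * Complex.I))
      ≤ (2 * Real.pi)⁻¹ * ((∫ θ in (0 : ℝ)..2 * Real.pi, G' (r * Complex.exp (θ * Complex.I))) +
          2 * Real.pi * K) := mul_le_mul_of_nonneg_left h1 (inv_nonneg.2 h2.le)
    _ = _ := by rw [mul_add, inv_mul_cancel_left₀ h2.ne']

theorem norm_circle {r : ℝ} (hr : 0 ≤ r) (θ : ℝ) : ‖(r : ℂ) * Complex.exp (θ * Complex.I)‖ = r := by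
  rw [norm_mul, Complex.norm_exp_ofReal_mul_I, mul_one, Complex.norm_real, Real.norm_of_nonneg hr]

section

variable {n : ℕ} {M : Type} [TopologicalSpace M] {κ : Type} {T : ℝ} (F : Flow n M κ T)

theorem Flow.modulus_aux {a : ℝ} (ha : 0 < a) (ha1 : a ≤ 1)
    (hd : F.Drop a) (c : κ) {A : Set (Cn n)}
    (hA : IsCompact A) (hAt : A ⊆ (F.e c).target)
    (hexp' : ∃ C : ℝ, 0 ≤ C ∧ ∀ t ∈ Ico 0 T, ∀ z ∈ A, ∀ u,
      lev (F.ψ c) u (t, z) ≤ Real.exp (C / (T - t)) * nsq u)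
    (hPhi : ∀ t ∈ Ico 0 T, ∀ p ∈ (F.e c).source, F.Phi t p = F.phi c (t, F.e c p))
    (hmono' : ∃ C : ℝ, 0 ≤ C ∧
      ∀ t₀ ∈ Ico 0 T, ∀ t ∈ Ico t₀ T, ∀ p, F.Phi t p ≤ F.Phi t₀ p + C * (t - t₀))
    (hcavg : ∀ {G : ℂ → ℝ} {R B : ℝ}, ContDiffOn ℝ ∞ G (Metric.ball 0 R) →
      (∀ z ∈ Metric.ball (0 : ℂ) R, lapC G z ≤ 4 * B) → ∀ {r : ℝ}, r ∈ Ico 0 R →
      cavg G r - G 0 ≤ B * r ^ 2) :
    ∃ C : ℝ, 0 ≤ C ∧ ∀ t ∈ Ico 0 T, ∀ z v : Cn n, nsq v ≤ 1 →
      (∀ ζ : ℂ, ‖ζ‖ ≤ 1 / 2 → line z v ζ ∈ A) → ∀ r ∈ Ioc (0 : ℝ) (1 / 4),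
      cavg (fun ζ => F.ψ c (t, line z v ζ)) r - F.ψ c (t, z) ≤
        C * Real.log (1 / r) ^ (-a) := by
  by_cases hT : 0 < T
  swap
  · exact ⟨0, le_rfl, fun t ht => absurd (ht.1.trans_lt ht.2) hT⟩
  obtain ⟨Ce, hCe, hexp⟩ := hexp'
  obtain ⟨Cm, hCm, hmono⟩ := hmono'
  obtain ⟨Cd, hCd, hdrop⟩ := hd
  obtain ⟨U, hU, hsub, hsm⟩ := F.krf.smooth c
  have hΩc : ContinuousOn (fun w => Real.log (F.Ω c w)) A := by
    refine ContinuousOn.log ((F.vol.smooth c).continuousOn.mono hAt) fun w hw => ?_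
    exact (F.vol.pos c w (hAt hw)).ne'
  obtain ⟨B, hB⟩ := hA.exists_bound_of_continuousOn hΩc
  set B' : ℝ := max B 0 with hB'
  have hBb : ∀ w ∈ A, |Real.log (F.Ω c w)| ≤ B' := fun w hw => (hB w hw).trans (le_max_left _ _)
  have hB0 : 0 ≤ B' := le_max_right _ _
  set C₁ : ℝ := Ce + 1 with hC₁
  have hC₁0 : 0 < C₁ := by linarith
  refine ⟨Real.exp (Ce / T) + (Cm + 2 * B') * C₁ + Cd * C₁ ^ a, by positivity, ?_⟩
  intro t ht z v hv hline r hr
  set L : ℝ := Real.log (1 / r) with hL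
  have hr0 : 0 < r := hr.1
  have h4r : 4 ≤ 1 / r := by
    rw [le_div_iff₀ hr0]; linarith [hr.2]
  have hL1 : 1 ≤ L := by
    rw [hL, Real.le_log_iff_exp_le (by positivity)]
    exact (Real.exp_one_lt_d9.le.trans (by norm_num)).trans h4r
  have hL0 : 0 < L := by linarith
  have hexpL : Real.exp L = 1 / r := Real.exp_log (by positivity)
  have hLa : r ≤ L ^ (-a) := by
    have h1 : L ^ a ≤ L := by
      calc L ^ a ≤ L ^ (1 : ℝ) := Real.rpow_le_rpow_of_exponent_le hL1 ha1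
        _ = L := Real.rpow_one L
    have h2 : L ≤ 1 / r := by
      rw [← hexpL]
      exact (Real.add_one_le_exp L).trans' (by linarith)
    rw [Real.rpow_neg hL0.le]
    rw [le_inv_comm₀ hr0 (Real.rpow_pos_of_pos hL0 a), ← one_div]
    exact h1.trans h2
  have hL1a : L⁻¹ ≤ L ^ (-a) := by
    rw [← Real.rpow_neg_one]
    exact Real.rpow_le_rpow_of_exponent_le hL1 (by linarith)
  set s : ℝ := min T (C₁ / L) with hs
  have hs0 : 0 < s := lt_min hT (by positivity)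
  have hsT : s ≤ T := min_le_left _ _
  have hsL : s ≤ C₁ / L := min_le_right _ _
  set t₀ : ℝ := T - s with ht₀
  have ht₀m : t₀ ∈ Ico 0 T := ⟨by linarith, by linarith⟩
  -- points
  have hzA : z ∈ A := by
    have := hline 0 (by simp)
    rwa [line_zero] at this
  have hcirc : ∀ θ : ℝ, line z v (r * Complex.exp (θ * Complex.I)) ∈ A := fun θ =>
    hline _ (by rw [norm_circle hr0.le]; linarith [hr.2])
  have hcont : ∀ t' ∈ Ico 0 T, Continuous fun θ : ℝ =>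
      F.ψ c (t', line z v (r * Complex.exp (θ * Complex.I))) := by
    intro t' ht'
    have h1 : Continuous fun θ : ℝ => (t', line z v (r * Complex.exp (θ * Complex.I))) := by
      refine continuous_const.prodMk ((contDiff_line z v).continuous.comp ?_)
      fun_prop
    exact hsm.continuousOn.comp_continuous h1 fun θ => hsub ⟨ht', hAt (hcirc θ)⟩
  -- early times
  have hearly : ∀ t' ∈ Icc 0 t₀, cavg (fun ζ => F.ψ c (t', line z v ζ)) r - F.ψ c (t', z) ≤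
      Real.exp (Ce / T) * r := by
    intro t' ht'
    have ht'm : t' ∈ Ico 0 T := ⟨ht'.1, ht'.2.trans_lt ht₀m.2⟩
    have hball : ∀ ζ ∈ Metric.ball (0 : ℂ) (1 / 2), line z v ζ ∈ A := fun ζ hζ =>
      hline ζ (by rw [mem_ball_zero_iff] at hζ; exact hζ.le)
    have hG : ContDiffOn ℝ ∞ (fun ζ => F.ψ c (t', line z v ζ)) (Metric.ball 0 (1 / 2)) := by
      refine hsm.comp (f := fun ζ => (t', line z v ζ))
        (contDiffOn_const.prodMk (contDiff_line z v).contDiffOn) ?_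
      intro ζ hζ
      exact hsub ⟨ht'm, hAt (hball ζ hζ)⟩
    have key := hcavg (B := Real.exp (Ce / T) / r) hG (fun ζ hζ => by
      rw [lapC_line hU hsm (hsub ⟨ht'm, hAt (hball ζ hζ)⟩)]
      have h1 := hexp t' ht'm _ (hball ζ hζ) v
      have h2 : Real.exp (Ce / (T - t')) ≤ Real.exp (Ce / T) / r := by
        have h3 : Ce / (T - t') ≤ Ce / T + L := by
          have h4 : s ≤ T - t' := by linarith [ht'.2]
          have h5 : Ce / (T - t') ≤ Ce / s := by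
            apply div_le_div_of_nonneg_left hCe hs0 h4
          refine h5.trans ?_
          rcases min_cases T (C₁ / L) with h6 | h6
          · rw [hs, h6.1]; linarith
          · rw [hs, h6.1, div_div_eq_mul_div, div_le_iff₀ hC₁0]
            have h7 : 0 ≤ Ce / T := by positivity
            nlinarith
        calc Real.exp (Ce / (T - t')) ≤ Real.exp (Ce / T + L) := Real.exp_le_exp.2 h3
          _ = _ := by rw [Real.exp_add, hexpL, mul_one_div]
      have h3 : Real.exp (Ce / (T - t')) * nsq v ≤ Real.exp (Ce / T) / r := by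
        calc Real.exp (Ce / (T - t')) * nsq v ≤ Real.exp (Ce / (T - t')) * 1 :=
              mul_le_mul_of_nonneg_left hv (Real.exp_pos _).le
          _ ≤ _ := by rw [mul_one]; exact h2
      linarith) (r := r) ⟨hr0.le, by linarith [hr.2]⟩
    simp only [line_zero] at key
    refine key.trans (le_of_eq ?_)
    field_simp
  have hE : Real.exp (Ce / T) * r ≤ Real.exp (Ce / T) * L ^ (-a) :=
    mul_le_mul_of_nonneg_left hLa (Real.exp_pos _).le
  have hLa0 : 0 ≤ L ^ (-a) := Real.rpow_nonneg hL0.le _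
  rcases le_or_gt t t₀ with htt | htt
  · refine (hearly t ⟨ht.1, htt⟩).trans (hE.trans ?_)
    apply mul_le_mul_of_nonneg_right _ hLa0
    have : 0 ≤ (Cm + 2 * B') * C₁ + Cd * C₁ ^ a := by positivity
    linarith
  · -- late times
    have hphi : ∀ t' ∈ Ico 0 T, ∀ w ∈ A, F.Phi t' ((F.e c).symm w) =
        F.ψ c (t', w) - F.ψ c (0, w) - t' * Real.log (F.Ω c w) := by
      intro t' ht' w hw
      rw [hPhi t' ht' _ ((F.e c).map_target (hAt hw)), (F.e c).right_inv (hAt hw)]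
      rfl
    have hup : ∀ w ∈ A, F.ψ c (t, w) ≤ F.ψ c (t₀, w) + (Cm + B') * (t - t₀) := by
      intro w hw
      have h1 := hmono t₀ ht₀m t ⟨htt.le, ht.2⟩ ((F.e c).symm w)
      rw [hphi t ht w hw, hphi t₀ ht₀m w hw] at h1
      have h2 := (abs_le.1 (hBb w hw)).2
      have h3 : (t - t₀) * Real.log (F.Ω c w) ≤ (t - t₀) * B' :=
        mul_le_mul_of_nonneg_left h2 (by linarith)
      nlinarith
    have hlow : F.ψ c (t₀, z) - B' * (t - t₀) - Cd * s ^ a ≤ F.ψ c (t, z) := by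
      have h1 := hdrop t₀ ht₀m t ⟨htt.le, ht.2⟩ ((F.e c).symm z)
      rw [hphi t ht z hzA, hphi t₀ ht₀m z hzA, show T - t₀ = s by rw [ht₀]; ring] at h1
      have h2 := (abs_le.1 (hBb z hzA)).1
      have h3 : (t - t₀) * (-B') ≤ (t - t₀) * Real.log (F.Ω c z) :=
        mul_le_mul_of_nonneg_left h2 (by linarith)
      nlinarith
    have h1 := cavg_le (hcont t ht) (hcont t₀ ht₀m)
      (G := fun ζ => F.ψ c (t, line z v ζ)) (G' := fun ζ => F.ψ c (t₀, line z v ζ))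
      fun θ => hup _ (hcirc θ)
    have h2 := hearly t₀ ⟨ht₀m.1, le_rfl⟩
    have h3 : t - t₀ ≤ s := by linarith [ht.2]
    have h4 : s ≤ C₁ * L ^ (-a) := by
      refine hsL.trans ?_
      rw [div_eq_mul_inv]
      exact mul_le_mul_of_nonneg_left hL1a hC₁0.le
    have h5 : s ^ a ≤ C₁ ^ a * L ^ (-a) := by
      calc s ^ a ≤ (C₁ / L) ^ a := Real.rpow_le_rpow hs0.le hsL ha.le
        _ = C₁ ^ a * L ^ (-a) := by
          rw [Real.div_rpow hC₁0.le hL0.le, Real.rpow_neg hL0.le, div_eq_mul_inv]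
    have h6 : (Cm + 2 * B') * (t - t₀) ≤ (Cm + 2 * B') * (C₁ * L ^ (-a)) :=
      mul_le_mul_of_nonneg_left (h3.trans h4) (by positivity)
    have h7 : Cd * s ^ a ≤ Cd * (C₁ ^ a * L ^ (-a)) := mul_le_mul_of_nonneg_left h5 hCd
    have h8 : (Real.exp (Ce / T) + (Cm + 2 * B') * C₁ + Cd * C₁ ^ a) * L ^ (-a) =
      Real.exp (Ce / T) * L ^ (-a) + (Cm + 2 * B') * (C₁ * L ^ (-a)) +
        Cd * (C₁ ^ a * L ^ (-a)) := by ring
    rw [h8]
    linarith

end

end Pool.Agent.KRFF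

end

section

/-!
# The three circles theorem for continuous plurisubharmonic functions
-/

open scoped ContDiff ENNReal ComplexOrder Topology
open Set MeasureTheory Filter Pool.Agent.ToricKRF Pool.Agent.ToricKRF.G Pool.Agent.KRFS
  Pool.Agent.KRFF Pool.Agent.KRFG

namespace Pool.Agent.KRFH

namespace Three

theorem nsq_lineL {m : ℕ} (e : Cn m) (ζ : ℂ) : nsq (lineL e ζ) = ‖ζ‖ ^ 2 * nsq e := by
  have h1 : ‖ζ‖ ^ 2 = ζ.re ^ 2 + ζ.im ^ 2 := by
    rw [← Complex.normSq_eq_norm_sq, Complex.normSq_apply]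
    ring
  rw [h1, lineL_apply]
  simp only [nsq, J, dotProduct, Prod.fst_add, Prod.snd_add, Prod.smul_fst, Prod.smul_snd,
    Pi.add_apply, Pi.smul_apply, Pi.neg_apply, smul_eq_mul]
  rw [← Finset.sum_add_distrib, ← Finset.sum_add_distrib, Finset.mul_sum]
  refine Finset.sum_congr rfl fun i _ => ?_
  ring

theorem cavg_harm {H : ℂ → ℝ} {ζ₀ : ℂ} {s : ℝ} (hs : 0 < s)
    (hH : ∀ z ∈ Metric.closedBall ζ₀ s, InnerProductSpace.HarmonicAt H z) :
    cavg (fun ζ => H (ζ₀ + s * ζ)) 1 = H ζ₀ := by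
  have h := InnerProductSpace.HarmonicOnNhd.circleAverage_eq (f := H) (c := ζ₀) (R := s)
    (fun z hz => hH z (by rwa [abs_of_pos hs] at hz))
  rw [← h, Real.circleAverage_def, cavg, smul_eq_mul]
  simp only [circleMap, Complex.ofReal_one, one_mul]

theorem mem_circle {ζ₀ : ℂ} {s : ℝ} (hs : 0 < s) (θ : ℝ) :
    ζ₀ + s * (((1 : ℝ) : ℂ) * Complex.exp (θ * Complex.I)) ∈ Metric.closedBall ζ₀ s := by
  rw [mem_closedBall_iff_norm, add_sub_cancel_left, Complex.ofReal_one, one_mul, norm_mul,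
    Complex.norm_exp_ofReal_mul_I, mul_one, Complex.norm_real, Real.norm_of_nonneg hs.le]

/-- Hadamard's theorem on an annulus. -/
theorem annulus {φ : ℂ → ℝ} {a b A₁ A₃ : ℝ} (ha : 0 < a) (hab : a < b)
    (hφ : ContinuousOn φ (Metric.closedBall 0 b))
    (hsub : ∀ (ζ₀ : ℂ) (s : ℝ), 0 < s → Metric.closedBall ζ₀ s ⊆ Metric.closedBall 0 b →
      φ ζ₀ ≤ cavg (fun ζ => φ (ζ₀ + s * ζ)) 1)
    (h1 : ∀ ζ : ℂ, ‖ζ‖ = a → φ ζ ≤ A₁) (h3 : ∀ ζ : ℂ, ‖ζ‖ = b → φ ζ ≤ A₃) {ζ₁ : ℂ}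
    (h1a : a ≤ ‖ζ₁‖) (h1b : ‖ζ₁‖ ≤ b) :
    φ ζ₁ * Real.log (b / a) ≤ A₁ * Real.log (b / ‖ζ₁‖) + A₃ * Real.log (‖ζ₁‖ / a) := by
  have hb : 0 < b := ha.trans hab
  have hL : 0 < Real.log (b / a) := Real.log_pos ((one_lt_div ha).2 hab)
  -- the harmonic majorant
  set c₁ : ℝ := (A₃ - A₁) / Real.log (b / a) with hc₁
  set c₀ : ℝ := A₁ - c₁ * Real.log a with hc₀
  set h : ℂ → ℝ := fun ζ => c₀ + c₁ * Real.log ‖ζ‖ with hh
  have hlab : Real.log (b / a) = Real.log b - Real.log a := Real.log_div hb.ne' ha.ne'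
  have hval : ∀ ζ : ℂ, a ≤ ‖ζ‖ → h ζ * Real.log (b / a) =
      A₁ * Real.log (b / ‖ζ‖) + A₃ * Real.log (‖ζ‖ / a) := by
    intro ζ hζ
    have h0 : 0 < ‖ζ‖ := ha.trans_le hζ
    rw [Real.log_div hb.ne' h0.ne', Real.log_div h0.ne' ha.ne', hh, hc₀, hc₁, hlab]
    have h2 : Real.log b - Real.log a ≠ 0 := by rw [← hlab]; exact hL.ne'
    field_simp
    ring
  have hha : ∀ ζ : ℂ, ‖ζ‖ = a → h ζ = A₁ := by
    intro ζ hζ
    simp only [hh, hζ, hc₀]
    ring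
  have hhb : ∀ ζ : ℂ, ‖ζ‖ = b → h ζ = A₃ := by
    intro ζ hζ
    have h2 : Real.log b - Real.log a ≠ 0 := by rw [← hlab]; exact hL.ne'
    simp only [hh, hζ, hc₀, hc₁, hlab]
    field_simp
    ring
  rw [← hval ζ₁ h1a]
  refine mul_le_mul_of_nonneg_right ?_ hL.le
  by_contra hcon
  push Not at hcon
  set δ := φ ζ₁ - h ζ₁ with hδ
  have hδ0 : 0 < δ := sub_pos.2 hcon
  set ε := δ / (2 * b ^ 2) with hε
  have hε0 : 0 < ε := by positivity
  have hεb : ε * b ^ 2 < δ := by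
    rw [hε]
    field_simp
    linarith
  set K : Set ℂ := {ζ | a ≤ ‖ζ‖ ∧ ‖ζ‖ ≤ b} with hK
  have hKb : K ⊆ Metric.closedBall 0 b := fun ζ hζ => by
    rw [mem_closedBall_zero_iff]
    exact hζ.2
  have hKc : IsCompact K := by
    refine (isCompact_closedBall (0 : ℂ) b).of_isClosed_subset ?_ hKb
    exact (isClosed_le continuous_const continuous_norm).inter
      (isClosed_le continuous_norm continuous_const)
  have hcont : ContinuousOn (fun ζ : ℂ => φ ζ - h ζ + ε * ‖ζ‖ ^ 2) K := by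
    refine ((hφ.mono hKb).sub ?_).add (by fun_prop)
    refine continuousOn_const.add (continuousOn_const.mul ?_)
    refine ContinuousOn.log (by fun_prop) fun ζ hζ => ?_
    exact (ha.trans_le hζ.1).ne'
  obtain ⟨ζ₀, hζ₀, hmax⟩ := hKc.exists_isMaxOn ⟨ζ₁, h1a, h1b⟩ hcont
  have hm : ∀ ζ ∈ K, φ ζ - h ζ + ε * ‖ζ‖ ^ 2 ≤ φ ζ₀ - h ζ₀ + ε * ‖ζ₀‖ ^ 2 := fun ζ hζ => hmax hζ
  have hbig : δ ≤ φ ζ₀ - h ζ₀ + ε * ‖ζ₀‖ ^ 2 := by
    have := hm ζ₁ ⟨h1a, h1b⟩
    have h2 : 0 ≤ ε * ‖ζ₁‖ ^ 2 := by positivity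
    linarith
  have hn2 : ε * ‖ζ₀‖ ^ 2 ≤ ε * b ^ 2 :=
    mul_le_mul_of_nonneg_left (pow_le_pow_left₀ (norm_nonneg _) hζ₀.2 2) hε0.le
  have hlt1 : a < ‖ζ₀‖ := by
    refine lt_of_le_of_ne hζ₀.1 fun e => ?_
    have h2 := h1 ζ₀ e.symm
    have h4 := hha ζ₀ e.symm
    linarith
  have hlt2 : ‖ζ₀‖ < b := by
    refine lt_of_le_of_ne hζ₀.2 fun e => ?_
    have h2 := h3 ζ₀ e
    have h4 := hhb ζ₀ e
    linarith
  -- a small circle around `ζ₀`
  obtain ⟨s, hs0, hs1, hs2⟩ : ∃ s : ℝ, 0 < s ∧ s < ‖ζ₀‖ - a ∧ s < b - ‖ζ₀‖ := by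
    refine ⟨min (‖ζ₀‖ - a) (b - ‖ζ₀‖) / 2, ?_, ?_, ?_⟩
    · have : 0 < min (‖ζ₀‖ - a) (b - ‖ζ₀‖) := lt_min (sub_pos.2 hlt1) (sub_pos.2 hlt2)
      positivity
    · have : 0 < min (‖ζ₀‖ - a) (b - ‖ζ₀‖) := lt_min (sub_pos.2 hlt1) (sub_pos.2 hlt2)
      have h2 := min_le_left (‖ζ₀‖ - a) (b - ‖ζ₀‖)
      linarith
    · have : 0 < min (‖ζ₀‖ - a) (b - ‖ζ₀‖) := lt_min (sub_pos.2 hlt1) (sub_pos.2 hlt2)
      have h2 := min_le_right (‖ζ₀‖ - a) (b - ‖ζ₀‖)
      linarith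
  have hball : Metric.closedBall ζ₀ s ⊆ K := by
    intro w hw
    rw [mem_closedBall_iff_norm] at hw
    have e1 : ‖ζ₀‖ - ‖w‖ ≤ ‖w - ζ₀‖ := by
      rw [norm_sub_rev]
      exact norm_sub_norm_le _ _
    have e2 : ‖w‖ - ‖ζ₀‖ ≤ ‖w - ζ₀‖ := norm_sub_norm_le _ _
    exact ⟨by linarith, by linarith⟩
  -- the harmonic function
  set H : ℂ → ℝ := fun w => h w - 2 * ε * ((starRingEnd ℂ ζ₀) * w).re with hH
  have hharm : ∀ z ∈ Metric.closedBall ζ₀ s, InnerProductSpace.HarmonicAt H z := by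
    intro z hz
    have hz0 : z ≠ 0 := by
      rintro rfl
      have := (hball hz).1
      rw [norm_zero] at this
      linarith
    have e1 : InnerProductSpace.HarmonicAt (fun w : ℂ => Real.log ‖w‖) z :=
      AnalyticAt.harmonicAt_log_norm (f := fun w => w) (by fun_prop) hz0
    have e2 : InnerProductSpace.HarmonicAt (fun w : ℂ => ((starRingEnd ℂ ζ₀) * w).re) z :=
      AnalyticAt.harmonicAt_re (f := fun w => (starRingEnd ℂ ζ₀) * w) (by fun_prop)
    have e3 : H = (fun _ => c₀) + c₁ • (fun w : ℂ => Real.log ‖w‖) +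
        (-(2 * ε)) • (fun w : ℂ => ((starRingEnd ℂ ζ₀) * w).re) := by
      funext w
      simp only [hH, hh, Pi.add_apply, Pi.smul_apply, smul_eq_mul]
      ring
    rw [e3]
    exact ((InnerProductSpace.harmonicAt_const c₀).add (e1.const_smul)).add e2.const_smul
  have hsq : ∀ w : ℂ, ‖w - ζ₀‖ ^ 2 = ‖w‖ ^ 2 - 2 * ((starRingEnd ℂ ζ₀) * w).re + ‖ζ₀‖ ^ 2 := by
    intro w
    rw [← Complex.normSq_eq_norm_sq, ← Complex.normSq_eq_norm_sq, ← Complex.normSq_eq_norm_sq,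
      Complex.normSq_sub]
    have : (w * (starRingEnd ℂ) ζ₀).re = ((starRingEnd ℂ) ζ₀ * w).re := by rw [mul_comm]
    rw [this]
    ring
  have hH0 : H ζ₀ = h ζ₀ - 2 * ε * ‖ζ₀‖ ^ 2 := by
    have := hsq ζ₀
    rw [sub_self, norm_zero] at this
    simp only [hH]
    nlinarith
  have hcirc : ∀ θ : ℝ, φ (ζ₀ + s * (((1 : ℝ) : ℂ) * Complex.exp (θ * Complex.I))) ≤
      H (ζ₀ + s * (((1 : ℝ) : ℂ) * Complex.exp (θ * Complex.I))) +
        (φ ζ₀ - H ζ₀ - ε * s ^ 2) := by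
    intro θ
    set w := ζ₀ + s * (((1 : ℝ) : ℂ) * Complex.exp (θ * Complex.I)) with hw
    have hws : ‖w - ζ₀‖ = s := by
      rw [hw, add_sub_cancel_left, Complex.ofReal_one, one_mul, norm_mul,
        Complex.norm_exp_ofReal_mul_I, mul_one, Complex.norm_real, Real.norm_of_nonneg hs0.le]
    have e1 := hm w (hball (mem_circle hs0 θ))
    have e2 := hsq w
    rw [hws] at e2
    rw [hH0]
    simp only [hH]
    nlinarith
  have hcb : Metric.closedBall ζ₀ s ⊆ Metric.closedBall 0 b := hball.trans hKb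
  have hc1 : Continuous fun θ : ℝ =>
      φ (ζ₀ + s * (((1 : ℝ) : ℂ) * Complex.exp (θ * Complex.I))) :=
    hφ.comp_continuous (by fun_prop) fun θ => hcb (mem_circle hs0 θ)
  have hc2 : Continuous fun θ : ℝ =>
      H (ζ₀ + s * (((1 : ℝ) : ℂ) * Complex.exp (θ * Complex.I))) := by
    have : ContinuousOn H (Metric.closedBall ζ₀ s) := fun z hz =>
      ((hharm z hz).1.continuousAt).continuousWithinAt
    exact this.comp_continuous (by fun_prop) fun θ => mem_circle hs0 θ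
  have hfin := cavg_le (G := fun ζ => φ (ζ₀ + s * ζ)) (G' := fun ζ => H (ζ₀ + s * ζ)) (r := 1)
    hc1 hc2 hcirc
  rw [cavg_harm hs0 hharm] at hfin
  have hlast := hsub ζ₀ s hs0 hcb
  have : 0 < ε * s ^ 2 := by positivity
  linarith

end Three

open Three in
theorem three_balls {m : ℕ} {u : Cn m → ℝ} {V : Set (Cn m)} (hV : IsOpen V) (hu : PshC u V)
    {x : Cn m} {r₁ r₂ r₃ A₁ A₃ : ℝ} (h0 : 0 < r₁) (h12 : r₁ < r₂) (h23 : r₂ < r₃)
    (hsub : {y | nsq (y - x) ≤ r₃ ^ 2} ⊆ V) (h1 : ∀ y, nsq (y - x) ≤ r₁ ^ 2 → u y ≤ A₁)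
    (h3 : ∀ y, nsq (y - x) ≤ r₃ ^ 2 → u y ≤ A₃) : ∀ y, nsq (y - x) ≤ r₂ ^ 2 →
      u y * Real.log (r₃ / r₁) ≤ A₁ * Real.log (r₃ / r₂) + A₃ * Real.log (r₂ / r₁) := by
  intro y hy
  have hr2 : 0 < r₂ := h0.trans h12
  have hr3 : 0 < r₃ := hr2.trans h23
  have hl1 : 0 < Real.log (r₃ / r₂) := Real.log_pos ((one_lt_div hr2).2 h23)
  have hl2 : 0 < Real.log (r₂ / r₁) := Real.log_pos ((one_lt_div h0).2 h12)
  have hsum : Real.log (r₃ / r₁) = Real.log (r₃ / r₂) + Real.log (r₂ / r₁) := by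
    rw [Real.log_div hr3.ne' h0.ne', Real.log_div hr3.ne' hr2.ne', Real.log_div hr2.ne' h0.ne']
    ring
  have hy3 : u y ≤ A₃ := h3 y (hy.trans (pow_le_pow_left₀ hr2.le h23.le 2))
  rcases le_total A₃ A₁ with hA | hA
  · rw [hsum]
    nlinarith [mul_le_mul_of_nonneg_right (hy3.trans hA) hl1.le,
      mul_le_mul_of_nonneg_right hy3 hl2.le]
  rcases le_or_gt (nsq (y - x)) (r₁ ^ 2) with hy1 | hy1
  · have e1 := h1 y hy1
    rw [hsum]
    nlinarith [mul_le_mul_of_nonneg_right e1 hl1.le, mul_le_mul_of_nonneg_right (e1.trans hA) hl2.le]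
  set e : Cn m := y - x with he
  set ρ : ℝ := Real.sqrt (nsq e) with hρ
  have hn0 : 0 < nsq e := (pow_pos h0 2).trans hy1
  have hρ0 : 0 < ρ := Real.sqrt_pos.2 hn0
  have hρ2 : ρ ^ 2 = nsq e := Real.sq_sqrt hn0.le
  have hρ1 : r₁ < ρ := by
    refine lt_of_pow_lt_pow_left₀ 2 hρ0.le ?_
    rw [hρ2]
    exact hy1
  have hρr : ρ ≤ r₂ := by
    refine le_of_sq_le_sq ?_ hr2.le
    rw [hρ2]
    exact hy
  have hnl : ∀ ζ : ℂ, nsq (line x e ζ - x) = (‖ζ‖ * ρ) ^ 2 := by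
    intro ζ
    rw [line_eq, add_sub_cancel_left, nsq_lineL, mul_pow, hρ2]
  have hmem : ∀ ζ : ℂ, ‖ζ‖ ≤ r₃ / ρ → line x e ζ ∈ V := by
    intro ζ hζ
    refine hsub ?_
    show nsq (line x e ζ - x) ≤ r₃ ^ 2
    rw [hnl]
    refine pow_le_pow_left₀ (by positivity) ?_ 2
    rwa [le_div_iff₀ hρ0] at hζ
  have key := annulus (φ := fun ζ => u (line x e ζ)) (a := r₁ / ρ) (b := r₃ / ρ) (A₁ := A₁)
    (A₃ := A₃) (ζ₁ := 1) (by positivity) (by gcongr; exact h12.trans h23)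
    (hu.1.comp (contDiff_line x e).continuous.continuousOn fun ζ hζ =>
      hmem ζ (mem_closedBall_zero_iff.1 hζ))
    (by
      intro ζ₀ s hs hball
      have h5 := hu.2 (line x e ζ₀) (s • e) (by
        intro ζ hζ
        rw [line_smul, line_eq (line x e ζ₀), ← line_add]
        refine hmem _ (mem_closedBall_zero_iff.1 (hball ?_))
        rw [mem_closedBall_iff_norm, add_sub_cancel_left, norm_mul, Complex.norm_real,
          Real.norm_of_nonneg hs.le]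
        nlinarith [norm_nonneg ζ])
      refine h5.trans_eq ?_
      congr 1
      funext ζ
      rw [line_smul, line_eq (line x e ζ₀), ← line_add])
    (by
      intro ζ hζ
      refine h1 _ ?_
      rw [hnl, hζ, div_mul_cancel₀ _ hρ0.ne'])
    (by
      intro ζ hζ
      refine h3 _ ?_
      rw [hnl, hζ, div_mul_cancel₀ _ hρ0.ne'])
    (by rw [norm_one, div_le_one hρ0]; exact hρ1.le)
    (by rw [norm_one, one_le_div hρ0]; exact hρr.trans h23.le)
  simp only [norm_one] at key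
  have hline : line x e 1 = y := by
    rw [line_eq, lineL_one, he, add_sub_cancel]
  rw [hline, div_div_div_cancel_right₀ hρ0.ne'] at key
  have hk1 : Real.log (r₃ / ρ / 1) = Real.log (r₃ / r₂) + Real.log (r₂ / ρ) := by
    rw [div_one, Real.log_div hr3.ne' hρ0.ne', Real.log_div hr3.ne' hr2.ne',
      Real.log_div hr2.ne' hρ0.ne']
    ring
  have hk2 : Real.log (1 / (r₁ / ρ)) = Real.log (r₂ / r₁) - Real.log (r₂ / ρ) := by
    rw [one_div_div, Real.log_div hρ0.ne' h0.ne', Real.log_div hr2.ne' h0.ne',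
      Real.log_div hr2.ne' hρ0.ne']
    ring
  rw [hk1, hk2] at key
  have hk3 : 0 ≤ Real.log (r₂ / ρ) := Real.log_nonneg ((one_le_div hρ0).2 hρr)
  nlinarith [mul_nonneg hk3 (sub_nonneg.2 hA)]

end Pool.Agent.KRFH

end
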