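import Pool.Agent.Work.MP_a2bf38_gt.Fu.I.Defs

section

/-!
# Biholomorphic maps: the inverse function theorem
-/

open scoped ContDiff ENNReal ComplexOrder Topology
open Set Filter Pool.Agent.ToricKRF Pool.Agent.ToricKRF.G Pool.Agent.KRFS

namespace Pool.Agent.KRFF

/-- a biholomorphic map -/
structure IsBihol {n m : ℕ} (φ : OpenPartialHomeomorph (Cn n) (Cn m)) : Prop where
  holo : HolOn φ φ.source
  symm : HolOn φ.symm φ.target

/-- the inverse of a holomorphic map with invertible derivative is holomorphic -/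
theorem holOn_symm {n : ℕ} (φ : OpenPartialHomeomorph (Cn n) (Cn n)) (h : HolOn φ φ.source)
    (hb : ∀ z ∈ φ.source, Function.Bijective (fderiv ℝ φ z)) : HolOn φ.symm φ.target := by
  have key : ∀ w ∈ φ.target, ∃ E : Cn n ≃L[ℝ] Cn n,
      HasFDerivAt φ (E : Cn n →L[ℝ] Cn n) (φ.symm w) ∧ ∀ u, E (J u) = J (E u) := by
    intro w hw
    have hz := φ.map_target hw
    refine ⟨ContinuousLinearEquiv.ofBijective (fderiv ℝ φ (φ.symm w))
      (LinearMap.ker_eq_bot.2 (hb _ hz).1) (LinearMap.range_eq_top.2 (hb _ hz).2), ?_, fun u => ?_⟩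
    · rw [ContinuousLinearEquiv.coe_ofBijective]
      exact ((h.1.differentiableOn (by simp)).differentiableAt
        (φ.open_source.mem_nhds hz)).hasFDerivAt
    · exact h.2 _ hz u
  refine ⟨fun w hw => ?_, fun w hw u => ?_⟩
  · obtain ⟨E, hE, -⟩ := key w hw
    exact (φ.contDiffAt_symm hw hE
      (h.1.contDiffAt (φ.open_source.mem_nhds (φ.map_target hw)))).contDiffWithinAt
  · obtain ⟨E, hE, hJ⟩ := key w hw
    rw [(φ.hasFDerivAt_symm hw hE).fderiv]
    change E.symm (J u) = J (E.symm u)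
    rw [ContinuousLinearEquiv.symm_apply_eq, hJ, ContinuousLinearEquiv.apply_symm_apply]

theorem exists_bihol {n : ℕ} {G : Cn n → Cn n} {S : Set (Cn n)} (hS : IsOpen S) (hG : HolOn G S)
    {z₀ : Cn n} (hz : z₀ ∈ S) (hb : Function.Bijective (fderiv ℝ G z₀)) :
    ∃ φ : OpenPartialHomeomorph (Cn n) (Cn n), IsBihol φ ∧ z₀ ∈ φ.source ∧ φ.source ⊆ S ∧
      ∀ z, φ z = G z := by
  have hC : ContDiffAt ℝ ∞ G z₀ := hG.1.contDiffAt (hS.mem_nhds hz)
  let E := ContinuousLinearEquiv.ofBijective (fderiv ℝ G z₀)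
    (LinearMap.ker_eq_bot.2 hb.1) (LinearMap.range_eq_top.2 hb.2)
  have hE : HasFDerivAt G (E : Cn n →L[ℝ] Cn n) z₀ := by
    rw [ContinuousLinearEquiv.coe_ofBijective]
    exact (hC.differentiableAt (by simp)).hasFDerivAt
  let φ₀ := hC.toOpenPartialHomeomorph G hE (by simp)
  have hφ₀ : ∀ z, φ₀ z = G z := fun z => rfl
  have hz₀ : z₀ ∈ φ₀.source := hC.mem_toOpenPartialHomeomorph_source hE (by simp)
  -- the points where the derivative is invertible
  have hcont : ContinuousOn (fderiv ℝ G) S :=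
    ((contDiffOn_infty_iff_fderiv_of_isOpen hS).1 hG.1).2.continuousOn
  have hopen : IsOpen (S ∩ fderiv ℝ G ⁻¹' range ((↑) : (Cn n ≃L[ℝ] Cn n) → Cn n →L[ℝ] Cn n)) :=
    hcont.isOpen_inter_preimage hS ContinuousLinearEquiv.isOpen
  let φ := φ₀.restrOpen _ hopen
  have hsrc : φ.source = φ₀.source ∩
      (S ∩ fderiv ℝ G ⁻¹' range ((↑) : (Cn n ≃L[ℝ] Cn n) → Cn n →L[ℝ] Cn n)) :=
    φ₀.restrOpen_source _ hopen
  have hφ : ∀ z, φ z = G z := fun z => rfl
  have hφ' : (φ : Cn n → Cn n) = G := funext hφ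
  have hol : HolOn φ φ.source := by
    rw [hφ']
    have hsub : φ.source ⊆ S := by
      rw [hsrc]
      exact fun z hz => hz.2.1
    exact ⟨hG.1.mono hsub, fun z hz u => hG.2 z (hsub hz) u⟩
  refine ⟨φ, ⟨hol, holOn_symm φ hol ?_⟩, ?_, ?_, hφ⟩
  · intro z hz
    rw [hsrc] at hz
    obtain ⟨E', hE'⟩ := hz.2.2
    rw [hφ', ← hE']
    exact E'.bijective
  · rw [hsrc]
    exact ⟨hz₀, hz, ⟨E, hE.fderiv.symm⟩⟩
  · rw [hsrc]
    exact fun z hz => hz.2.1

end Pool.Agent.KRFF

end

section

/-!
# `ℂ^(k+m)` as a product, for the Lebesgue measure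
-/

open scoped ContDiff ENNReal ComplexOrder
open Set MeasureTheory Pool.Agent.ToricKRF Pool.Agent.ToricKRF.G Pool.Agent.KRFS

namespace Pool.Agent.KRFF

variable {k m : ℕ}

@[simp] theorem joinC_fst_snd (z : Cn (k + m)) : joinC (fstC z) (sndC z) = z := by
  refine Prod.ext ?_ ?_ <;> funext i <;> refine Fin.addCases (fun i => ?_) (fun i => ?_) i <;>
    simp [joinC, fstC, sndC]

@[simp] theorem fstC_joinC (u : Cn k) (y : Cn m) : fstC (joinC u y) = u := by
  refine Prod.ext ?_ ?_ <;> funext i <;> simp [joinC, fstC]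

@[simp] theorem sndC_joinC (u : Cn k) (y : Cn m) : sndC (joinC u y) = y := by
  refine Prod.ext ?_ ?_ <;> funext i <;> simp [joinC, sndC]

theorem continuous_fstC : Continuous (fstC : Cn (k + m) → Cn k) := by
  unfold fstC
  fun_prop

theorem continuous_sndC : Continuous (sndC : Cn (k + m) → Cn m) := by
  unfold sndC
  fun_prop

theorem continuous_joinC : Continuous fun q : Cn k × Cn m => joinC q.1 q.2 := by
  refine Continuous.prodMk ?_ ?_ <;>
  · refine continuous_pi fun i => ?_
    refine Fin.addCases (fun i => ?_) (fun i => ?_) i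
    · simp only [Fin.append_left]
      fun_prop
    · simp only [Fin.append_right]
      fun_prop

/-- splitting of `ℝ^(k+m)` -/
theorem measurePreserving_append :
    MeasurePreserving (fun x : Fin (k + m) → ℝ =>
      ((fun i => x (Fin.castAdd m i), fun i => x (Fin.natAdd k i)) :
        (Fin k → ℝ) × (Fin m → ℝ))) volume volume := by
  have h1 := volume_measurePreserving_piCongrLeft (fun _ : Fin (k + m) => ℝ)
    (finSumFinEquiv (m := k) (n := m))
  have h2 := volume_measurePreserving_sumPiEquivProdPi (fun _ : Fin k ⊕ Fin m => ℝ)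
  have h3 := h2.comp h1.symm
  convert h3 using 1
  funext x
  refine Prod.ext ?_ ?_ <;> funext i <;>
    simp [MeasurableEquiv.piCongrLeft, MeasurableEquiv.sumPiEquivProdPi, Equiv.piCongrLeft,
      Equiv.piCongrLeft']

theorem measurePreserving_middle {α β γ δ : Type*} [MeasureSpace α] [MeasureSpace β]
    [MeasureSpace γ] [MeasureSpace δ] [SigmaFinite (volume : Measure α)]
    [SigmaFinite (volume : Measure β)] [SigmaFinite (volume : Measure γ)]
    [SigmaFinite (volume : Measure δ)] :
    MeasurePreserving (fun q : (α × β) × (γ × δ) => ((q.1.1, q.2.1), (q.1.2, q.2.2)))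
      volume volume := by
  have h1 : MeasurePreserving (fun q : (α × β) × (γ × δ) => (q.1.1, (q.1.2, q.2)))
      volume volume := volume_preserving_prodAssoc
  have h2 : MeasurePreserving (fun q : β × (γ × δ) => ((q.1, q.2.1), q.2.2)) volume volume :=
    (volume_preserving_prodAssoc (α₁ := β) (β₁ := γ) (γ₁ := δ)).symm
  have h3 : MeasurePreserving (fun q : (β × γ) × δ => ((q.1.2, q.1.1), q.2)) volume volume :=
    (Measure.measurePreserving_swap (μ := (volume : Measure β)) (ν := (volume : Measure γ))).prod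
      (MeasurePreserving.id (volume : Measure δ))
  have h4 : MeasurePreserving (fun q : (γ × β) × δ => (q.1.1, (q.1.2, q.2))) volume volume :=
    volume_preserving_prodAssoc
  have h5 : MeasurePreserving (fun q : α × (γ × (β × δ)) => ((q.1, q.2.1), q.2.2))
      volume volume :=
    (volume_preserving_prodAssoc (α₁ := α) (β₁ := γ) (γ₁ := β × δ)).symm
  have h6 := (MeasurePreserving.id (volume : Measure α)).prod (h4.comp (h3.comp h2))
  exact h5.comp (h6.comp h1)

/-- splitting of `ℂ^(k+m)` -/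
theorem measurePreserving_split :
    MeasurePreserving (fun z : Cn (k + m) => ((fstC z, sndC z) : Cn k × Cn m)) volume volume :=
  measurePreserving_middle.comp ((measurePreserving_append (k := k) (m := m)).prod
    (measurePreserving_append (k := k) (m := m)))

theorem isCompact_cpd (r : ℝ) : IsCompact (cpd r : Set (Cn k)) := by
  refine Metric.isCompact_of_isClosed_isBounded ?_ ?_
  · have : (cpd r : Set (Cn k)) = ⋂ i, {u | u.1 i ^ 2 + u.2 i ^ 2 ≤ r ^ 2} := by
      ext u
      simp [cpd]
    rw [this]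
    refine isClosed_iInter fun i => isClosed_le ?_ continuous_const
    fun_prop
  · refine (Metric.isBounded_closedBall (x := (0 : Cn k)) (r := |r|)).subset fun u hu => ?_
    rw [mem_closedBall_zero_iff, Prod.norm_def]
    refine max_le ((pi_norm_le_iff_of_nonneg (abs_nonneg r)).2 fun i => ?_)
      ((pi_norm_le_iff_of_nonneg (abs_nonneg r)).2 fun i => ?_)
    · exact sq_le_sq.1 (by nlinarith [hu i, sq_nonneg (u.2 i)])
    · exact sq_le_sq.1 (by nlinarith [hu i, sq_nonneg (u.1 i)])

theorem volume_cpd_ne_top (r : ℝ) : volume (cpd r : Set (Cn k)) ≠ ⊤ :=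
  (isCompact_cpd r).measure_lt_top.ne

/-- small slices give a small set -/
theorem volume_le_of_slices {S : Set (Cn (k + m))} (hS : MeasurableSet S) {r : ℝ}
    (hsub : ∀ z ∈ S, sndC z ∈ cpd r) {a : ℝ≥0∞}
    (h : ∀ y ∈ cpd (k := m) r, volume {u : Cn k | joinC u y ∈ S} ≤ a) :
    volume S ≤ a * volume (cpd r : Set (Cn m)) := by
  have hj : Continuous fun q : Cn k × Cn m => joinC q.1 q.2 := continuous_joinC
  have hS' : MeasurableSet {q : Cn k × Cn m | joinC q.1 q.2 ∈ S} := hj.measurable hS
  have h1 := measurePreserving_split.measure_preimage hS'.nullMeasurableSet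
  have h2 : (fun z : Cn (k + m) => ((fstC z, sndC z) : Cn k × Cn m)) ⁻¹'
      {q : Cn k × Cn m | joinC q.1 q.2 ∈ S} = S := by
    ext z
    simp
  rw [h2] at h1
  rw [h1, Measure.volume_eq_prod, Measure.prod_apply_symm hS',
    ← setLIntegral_const, ← lintegral_indicator (isCompact_cpd r).measurableSet]
  refine lintegral_mono fun y => ?_
  by_cases hy : y ∈ cpd (k := m) r
  · rw [indicator_of_mem hy]
    exact h y hy
  · rw [indicator_of_notMem hy]
    refine le_of_eq (measure_mono_null (t := ∅) (fun u hu => hy ?_) measure_empty)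
    simpa using hsub _ hu

end Pool.Agent.KRFF

end
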