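import Pool.Agent.Work.MP_a2bf38_gt.Fu.I.Coord
import Pool.Agent.Work.MP_a2bf38_gt.Fu.TFlow
import Pool.Agent.Work.MP_a2bf38_gt.Fu.I.NatDefs
import Pool.Agent.Work.MP_a2bf38_gt.Fu.K.Setup
import Pool.Agent.Work.MP_a2bf38_gt.Fu.I.Split
import Pool.Agent.Work.MP_a2bf38_gt.Fu.G.Chart2

section

/-!
# Complex linear algebra on `ℂ^n = ℝ^n × ℝ^n`
-/

open scoped ContDiff ENNReal ComplexOrder Topology
open Set Filter Pool.Agent.ToricKRF Pool.Agent.ToricKRF.G Pool.Agent.KRFS

namespace Pool.Agent.KRFF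

/-- `ℂ^n` as a complex vector space -/
noncomputable def toCv (n : ℕ) : Cn n ≃ₗ[ℝ] (Fin n → ℂ) where
  toFun := cc
  invFun := fun x => (fun k => (x k).re, fun k => (x k).im)
  map_add' u v := by
    funext k
    apply Complex.ext <;> simp [cc]
  map_smul' c u := by
    funext k
    apply Complex.ext <;> simp [cc]
  left_inv u := rfl
  right_inv x := by
    funext k
    rfl

theorem toCv_J {n : ℕ} (u : Cn n) : toCv n (J u) = Complex.I • toCv n u :=
  funext fun k => cc_J u k

theorem toCv_symm_I {n : ℕ} (x : Fin n → ℂ) :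
    (toCv n).symm (Complex.I • x) = J ((toCv n).symm x) := by
  rw [LinearEquiv.symm_apply_eq, toCv_J, LinearEquiv.apply_symm_apply]

/-- a real linear map which commutes with `J`, as a complex linear map -/
noncomputable def extC {n m : ℕ} (A : Cn n →L[ℝ] Cn m) (hJ : ∀ u, A (J u) = J (A u)) :
    (Fin n → ℂ) →ₗ[ℂ] (Fin m → ℂ) where
  toFun x := toCv m (A ((toCv n).symm x))
  map_add' x y := by simp only [map_add]
  map_smul' c x := by
    have h1 : c • x = c.re • x + c.im • (Complex.I • x) := by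
      funext k
      apply Complex.ext <;> simp [sub_eq_add_neg]
    have h2 : ∀ y : Fin m → ℂ, c • y = c.re • y + c.im • (Complex.I • y) := by
      intro y
      funext k
      apply Complex.ext <;> simp [sub_eq_add_neg]
    rw [h1, map_add, map_smul, map_smul, toCv_symm_I, map_add, map_smul, map_smul, hJ, map_add,
      map_smul, map_smul, toCv_J, RingHom.id_apply, h2]

theorem extC_apply {n m : ℕ} (A : Cn n →L[ℝ] Cn m) (hJ : ∀ u, A (J u) = J (A u))
    (x : Fin n → ℂ) : extC A hJ x = toCv m (A ((toCv n).symm x)) := rfl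

/-- a complex linear map as a real linear map -/
noncomputable def resC {n m : ℕ} (B : (Fin n → ℂ) →ₗ[ℂ] (Fin m → ℂ)) : Cn n →L[ℝ] Cn m :=
  LinearMap.toContinuousLinearMap
    ((toCv m).symm.toLinearMap ∘ₗ (B.restrictScalars ℝ) ∘ₗ (toCv n).toLinearMap)

theorem resC_apply {n m : ℕ} (B : (Fin n → ℂ) →ₗ[ℂ] (Fin m → ℂ)) (u : Cn n) :
    resC B u = (toCv m).symm (B (toCv n u)) := rfl

theorem resC_J {n m : ℕ} (B : (Fin n → ℂ) →ₗ[ℂ] (Fin m → ℂ)) (u : Cn n) :
    resC B (J u) = J (resC B u) := by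
  rw [resC_apply, resC_apply, toCv_J, map_smul, toCv_symm_I]

theorem exists_compl {k m : ℕ} (A : Cn (k + m) →L[ℝ] Cn m) (hA : Function.Surjective A)
    (hJ : ∀ u, A (J u) = J (A u)) : ∃ B : Cn (k + m) →L[ℝ] Cn k, (∀ u, B (J u) = J (B u)) ∧
      Function.Bijective fun u => joinC (B u) (A u) := by
  set A' := extC A hJ with hA'
  have hsurj : Function.Surjective A' := by
    intro y
    obtain ⟨u, hu⟩ := hA ((toCv m).symm y)
    exact ⟨toCv _ u, by rw [hA', extC_apply, LinearEquiv.symm_apply_apply, hu,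
      LinearEquiv.apply_symm_apply]⟩
  have hfin : Module.finrank ℂ (LinearMap.ker A') = Module.finrank ℂ (Fin k → ℂ) := by
    have h1 := LinearMap.finrank_range_add_finrank_ker A'
    rw [LinearMap.range_eq_top.2 hsurj, finrank_top, Module.finrank_fin_fun,
      Module.finrank_fin_fun] at h1
    rw [Module.finrank_fin_fun]
    omega
  obtain ⟨P, hP⟩ := (LinearMap.ker A').subtype.exists_leftInverse_of_injective
    (LinearMap.ker_eq_bot.2 (Submodule.subtype_injective _))
  let E := LinearEquiv.ofFinrankEq (LinearMap.ker A') (Fin k → ℂ) hfin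
  let B := resC (E.toLinearMap ∘ₗ P)
  refine ⟨B, resC_J _, ?_⟩
  let L : Cn (k + m) →ₗ[ℝ] Cn (k + m) :=
    { toFun := fun u => joinC (B u) (A u)
      map_add' := fun u v => by rw [map_add, map_add, joinC_add]
      map_smul' := fun c u => by rw [map_smul, map_smul, joinC_smul, RingHom.id_apply] }
  have hinj : Function.Injective L := by
    rw [injective_iff_map_eq_zero]
    intro u hu
    have h1 : joinC (B u) (A u) = 0 := hu
    have h2 : B u = 0 := by
      rw [← fstC_joinC (B u) (A u), h1]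
      rfl
    have h3 : A u = 0 := by
      rw [← sndC_joinC (B u) (A u), h1]
      rfl
    have h4 : toCv _ u ∈ LinearMap.ker A' := by
      rw [LinearMap.mem_ker, hA', extC_apply, LinearEquiv.symm_apply_apply, h3, map_zero]
    have h5 : P (toCv _ u) = 0 := by
      have h6 : (toCv k).symm (E (P (toCv _ u))) = 0 := h2
      rw [LinearEquiv.map_eq_zero_iff, LinearEquiv.map_eq_zero_iff] at h6
      exact h6
    have h7 : P (toCv _ u) = ⟨toCv _ u, h4⟩ := LinearMap.congr_fun hP ⟨toCv _ u, h4⟩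
    have h8 : toCv _ u = 0 := by
      rw [h5] at h7
      exact (congrArg Subtype.val h7).symm
    exact (LinearEquiv.map_eq_zero_iff _).1 h8
  exact ⟨hinj, LinearMap.injective_iff_surjective.1 hinj⟩

theorem exists_dim {n m : ℕ} (A : Cn n →L[ℝ] Cn m) (hA : Function.Surjective A) :
    ∃ k, n = k + m := by
  have h1 := LinearMap.finrank_le_finrank_of_surjective (f := A.toLinearMap) hA
  rw [Module.finrank_prod, Module.finrank_prod, Module.finrank_fin_fun, Module.finrank_fin_fun]
    at h1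
  exact ⟨n - m, by omega⟩

end Pool.Agent.KRFF

end

section

/-!
# Product charts of a holomorphic submersion
-/

open scoped ContDiff ENNReal ComplexOrder Topology
open Set Filter Pool.Agent.ToricKRF Pool.Agent.ToricKRF.G Pool.Agent.KRFS

namespace Pool.Agent.KRFF

namespace NT

theorem hol_add_smul {n m : ℕ} {H : Cn n → Cn m} {S : Set (Cn n)} (hS : IsOpen S)
    (hH : HolOn H S) (r : ℝ) (c : Cn m) : HolOn (fun z => c + r • H z) S :=
  hol_comp (G := fun w => c + r • w) hS isOpen_univ (hol_scale r c univ) hH (mapsTo_univ _ _)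

/-! ### Boxes -/

section Box

variable {X : Type} [TopologicalSpace X] {n : ℕ}

/-- the affine homeomorphism `w ↦ s (w - y)` -/
noncomputable def affH (y : Cn n) (s : ℝ) (hs : s ≠ 0) : Cn n ≃ₜ Cn n where
  toFun w := s • (w - y)
  invFun w := y + s⁻¹ • w
  left_inv w := by simp [smul_smul, inv_mul_cancel₀ hs]
  right_inv w := by simp [smul_smul, mul_inv_cancel₀ hs]
  continuous_toFun := by fun_prop
  continuous_invFun := by fun_prop

/-- the chart `E`, restricted to the polydisc of radius `R` and centre `y`, and scaled to the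
radius `10` -/
theorem exists_base (E : OpenPartialHomeomorph X (Cn n)) (y : Cn n) {R : ℝ} (hR : 0 < R)
    (h : ∀ w, w - y ∈ opd R → w ∈ E.target) :
    ∃ E' : OpenPartialHomeomorph X (Cn n), E'.target = opd 10 ∧
      (∀ p, p ∈ E'.source ↔ p ∈ E.source ∧ E p - y ∈ opd R) ∧
      (∀ p, E' p = (10 / R) • (E p - y)) ∧
      ∀ w, E'.symm w = E.symm (y + (R / 10) • w) := by
  have hs : 10 / R ≠ 0 := by positivity
  have hopen : IsOpen {w : Cn n | w - y ∈ opd R} := (isOpen_opd R).preimage (by fun_prop)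
  refine ⟨((E.trans (OpenPartialHomeomorph.ofSet _ hopen)).transHomeomorph (affH y _ hs)),
    ?_, ?_, ?_, ?_⟩
  · ext w
    simp only [OpenPartialHomeomorph.transHomeomorph_target, mem_preimage,
      OpenPartialHomeomorph.trans_target, OpenPartialHomeomorph.ofSet_target,
      OpenPartialHomeomorph.ofSet_symm, OpenPartialHomeomorph.ofSet_apply, mem_inter_iff,
      mem_ofPred_eq, id]
    have h1 : (affH y (10 / R) hs).symm w = y + (10 / R)⁻¹ • w := rfl
    rw [h1]
    have h2 : y + (10 / R)⁻¹ • w - y = (10 / R)⁻¹ • w := by abel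
    rw [h2]
    have h3 : (10 / R)⁻¹ • w ∈ (opd R : Set (Cn n)) ↔ w ∈ opd 10 := by
      have h4 := smul_mem_opd (c := (10 / R)⁻¹) (r := 10) (u := w) (by positivity)
      have h5 : (10 / R)⁻¹ * 10 = R := by field_simp
      rw [h5] at h4
      exact h4
    rw [h3]
    constructor
    · exact fun h => h.1
    · intro hw
      refine ⟨hw, h _ ?_⟩
      rw [h2, h3]
      exact hw
  · intro p
    simp
  · intro p
    rfl
  · intro w
    have h1 : (affH y (10 / R) hs).symm w = y + (10 / R)⁻¹ • w := rfl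
    simp only [OpenPartialHomeomorph.transHomeomorph_symm_apply,
      OpenPartialHomeomorph.coe_trans_symm, OpenPartialHomeomorph.ofSet_symm, Function.comp_apply,
      h1]
    rw [show (10 / R)⁻¹ = R / 10 by rw [inv_div]]
    rfl

variable {k m : ℕ}

/-- the affine homeomorphism of a product -/
noncomputable def affP (u : Cn k) (y : Cn m) (s s' : ℝ) (hs : s ≠ 0) (hs' : s' ≠ 0) :
    Cn (k + m) ≃ₜ Cn (k + m) :=
  ((splitE k m).toHomeomorph.trans ((affH u s hs).prodCongr (affH y s' hs'))).trans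
    (splitE k m).symm.toHomeomorph

theorem affP_apply (u : Cn k) (y : Cn m) (s s' : ℝ) (hs : s ≠ 0) (hs' : s' ≠ 0)
    (w : Cn (k + m)) : affP u y s s' hs hs' w = joinC (s • (fstC w - u)) (s' • (sndC w - y)) := rfl

theorem affP_symm_apply (u : Cn k) (y : Cn m) (s s' : ℝ) (hs : s ≠ 0) (hs' : s' ≠ 0)
    (w : Cn (k + m)) :
    (affP u y s s' hs hs').symm w = joinC (u + s⁻¹ • fstC w) (y + s'⁻¹ • sndC w) := rfl

/-- the chart `E`, restricted to a product of polydiscs and scaled to the radius `10` -/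
theorem exists_box (E : OpenPartialHomeomorph X (Cn (k + m))) (u : Cn k) (y : Cn m) {r R : ℝ}
    (hr : 0 < r) (hR : 0 < R)
    (h : ∀ w : Cn (k + m), fstC w - u ∈ opd r → sndC w - y ∈ opd R → w ∈ E.target) :
    ∃ E' : OpenPartialHomeomorph X (Cn (k + m)),
      E'.target = {z | fstC z ∈ (opd 10 : Set (Cn k)) ∧ sndC z ∈ (opd 10 : Set (Cn m))} ∧
      (∀ p, p ∈ E'.source ↔ p ∈ E.source ∧ fstC (E p) - u ∈ opd r ∧ sndC (E p) - y ∈ opd R) ∧
      (∀ p, E' p = joinC ((10 / r) • (fstC (E p) - u)) ((10 / R) • (sndC (E p) - y))) ∧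
      ∀ w, E'.symm w = E.symm (joinC (u + (r / 10) • fstC w) (y + (R / 10) • sndC w)) := by
  have hs : 10 / r ≠ 0 := by positivity
  have hs' : 10 / R ≠ 0 := by positivity
  have hopen : IsOpen {w : Cn (k + m) | fstC w - u ∈ opd r ∧ sndC w - y ∈ opd R} :=
    ((isOpen_opd r).preimage (continuous_fstC.sub continuous_const)).inter
      ((isOpen_opd R).preimage (continuous_sndC.sub continuous_const))
  refine ⟨((E.trans (OpenPartialHomeomorph.ofSet _ hopen)).transHomeomorph
    (affP u y _ _ hs hs')), ?_, ?_, ?_, ?_⟩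
  · ext w
    simp only [OpenPartialHomeomorph.transHomeomorph_target, mem_preimage,
      OpenPartialHomeomorph.trans_target, OpenPartialHomeomorph.ofSet_target,
      OpenPartialHomeomorph.ofSet_symm, OpenPartialHomeomorph.ofSet_apply, mem_inter_iff,
      mem_ofPred_eq, id, affP_symm_apply, fstC_joinC, sndC_joinC]
    have h2 : u + (10 / r)⁻¹ • fstC w - u = (10 / r)⁻¹ • fstC w := by abel
    have h2' : y + (10 / R)⁻¹ • sndC w - y = (10 / R)⁻¹ • sndC w := by abel
    have h3 : (10 / r)⁻¹ • fstC w ∈ (opd r : Set (Cn k)) ↔ fstC w ∈ (opd 10 : Set (Cn k)) := by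
      have h4 := smul_mem_opd (c := (10 / r)⁻¹) (r := 10) (u := (fstC w : Cn k)) (by positivity)
      have h5 : (10 / r)⁻¹ * 10 = r := by field_simp
      rw [h5] at h4
      exact h4
    have h3' : (10 / R)⁻¹ • sndC w ∈ (opd R : Set (Cn m)) ↔ sndC w ∈ (opd 10 : Set (Cn m)) := by
      have h4 := smul_mem_opd (c := (10 / R)⁻¹) (r := 10) (u := (sndC w : Cn m)) (by positivity)
      have h5 : (10 / R)⁻¹ * 10 = R := by field_simp
      rw [h5] at h4
      exact h4
    rw [h2, h2', h3, h3']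
    constructor
    · exact fun h => h.1
    · intro hw
      refine ⟨hw, h _ ?_ ?_⟩
      · rw [fstC_joinC, h2, h3]
        exact hw.1
      · rw [sndC_joinC, h2', h3']
        exact hw.2
  · intro p
    simp
  · intro p
    rfl
  · intro w
    simp only [OpenPartialHomeomorph.transHomeomorph_symm_apply,
      OpenPartialHomeomorph.coe_trans_symm, OpenPartialHomeomorph.ofSet_symm, Function.comp_apply,
      affP_symm_apply]
    rw [show (10 / r)⁻¹ = r / 10 by rw [inv_div], show (10 / R)⁻¹ = R / 10 by rw [inv_div]]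
    rfl

end Box

/-! ### The local product chart -/

section Local

variable {M Y : Type} [TopologicalSpace M] [TopologicalSpace Y] {k m : ℕ} {κ P : Type}
  {e : κ → OpenPartialHomeomorph M (Cn (k + m))} {b : P → OpenPartialHomeomorph Y (Cn m)}
  {f : M → Y}

theorem isOpen_cdom {n : ℕ} {e : κ → OpenPartialHomeomorph M (Cn n)} (hf : Continuous f) (c : κ)
    (j : P) : IsOpen (cdom e b f c j) := by
  have h := (e c).isOpen_inter_preimage_symm ((b j).open_source.preimage hf)
  exact h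

theorem exists_local (he : IsAtlas e) (hf : IsSubmersion e b f) (j : P) (p : M)
    (hp : f p ∈ (b j).source) :
    ∃ (c : κ) (E : OpenPartialHomeomorph M (Cn (k + m))), p ∈ E.source ∧
      E.source ⊆ (e c).source ∧ (∀ q ∈ E.source, f q ∈ (b j).source) ∧
      (∀ q ∈ E.source, sndC (E q) = b j (f q)) ∧
      HolOn (fun w => e c (E.symm w)) E.target ∧
      HolOn (fun z => E ((e c).symm z)) {z | z ∈ (e c).target ∧ (e c).symm z ∈ E.source} := by
  obtain ⟨c, hc⟩ := he.cover p
  set S := cdom e b f c j with hS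
  have hSo : IsOpen S := isOpen_cdom hf.continuous c j
  set z₀ := e c p with hz₀
  have hsymm : (e c).symm z₀ = p := (e c).left_inv hc
  have hz : z₀ ∈ S := ⟨(e c).map_source hc, by rw [hsymm]; exact hp⟩
  obtain ⟨B, hBJ, hB⟩ := exists_compl (fderiv ℝ (cmap e b f c j) z₀) (hf.surj c j z₀ hz)
    (fun u => (hf.holo c j).2 z₀ hz u)
  have hBh : HolOn (fun z => B z) S := by
    have h := hol_affine B hBJ 0 S
    simpa using h
  have hG : HolOn (fun z => joinC (B z) (cmap e b f c j z)) S := hol_join hSo hBh (hf.holo c j)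
  have hG' : ∀ u, fderiv ℝ (fun z => joinC (B z) (cmap e b f c j z)) z₀ u =
      joinC (B u) (fderiv ℝ (cmap e b f c j) z₀ u) := by
    intro u
    have h1 := fderiv_join hSo hBh (hf.holo c j) hz u
    have h2 : fderiv ℝ (fun z => B z) z₀ = B := B.fderiv
    rw [h2] at h1
    exact h1
  obtain ⟨φ, hφ, hzφ, hsub, hφG⟩ := exists_bihol hSo hG hz (by
    have : ⇑(fderiv ℝ (fun z => joinC (B z) (cmap e b f c j z)) z₀) =
        fun u => joinC (B u) (fderiv ℝ (cmap e b f c j) z₀ u) := funext hG'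
    rw [this]
    exact hB)
  refine ⟨c, (e c).trans φ, ?_, ?_, ?_, ?_, ?_, ?_⟩
  · rw [OpenPartialHomeomorph.trans_source]
    exact ⟨hc, hzφ⟩
  · rw [OpenPartialHomeomorph.trans_source]
    exact inter_subset_left
  · intro q hq
    rw [OpenPartialHomeomorph.trans_source] at hq
    have h1 := (hsub hq.2).2
    rwa [(e c).left_inv hq.1] at h1
  · intro q hq
    rw [OpenPartialHomeomorph.trans_source] at hq
    rw [OpenPartialHomeomorph.coe_trans, Function.comp_apply, hφG, sndC_joinC]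
    unfold cmap
    rw [(e c).left_inv hq.1]
  · have h1 : ((e c).trans φ).target ⊆ φ.target := by
      rw [OpenPartialHomeomorph.trans_target]
      exact inter_subset_left
    refine hol_congr ((e c).trans φ).open_target (hol_mono hφ.symm h1) ?_
    intro w hw
    rw [OpenPartialHomeomorph.trans_target] at hw
    simp only [OpenPartialHomeomorph.coe_trans_symm, Function.comp_apply]
    exact (e c).right_inv hw.2
  · have h0 : {z | z ∈ (e c).target ∧ (e c).symm z ∈ ((e c).trans φ).source} =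
        (e c).target ∩ (e c).symm ⁻¹' ((e c).trans φ).source := rfl
    have h2 : IsOpen {z | z ∈ (e c).target ∧ (e c).symm z ∈ ((e c).trans φ).source} := by
      rw [h0]
      exact (e c).isOpen_inter_preimage_symm ((e c).trans φ).open_source
    have h1 : {z | z ∈ (e c).target ∧ (e c).symm z ∈ ((e c).trans φ).source} ⊆ φ.source := by
      rintro z ⟨hz1, hz2⟩
      rw [OpenPartialHomeomorph.trans_source] at hz2
      have h3 := hz2.2
      rwa [mem_preimage, (e c).right_inv hz1] at h3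
    refine hol_congr h2 (hol_mono hφ.holo h1) ?_
    rintro z ⟨hz1, hz2⟩
    simp only [OpenPartialHomeomorph.coe_trans, Function.comp_apply]
    rw [(e c).right_inv hz1]

theorem exists_pos_le {α : Type} (t : Finset α) (r : α → ℝ) (hr : ∀ a, 0 < r a) :
    ∃ R > 0, ∀ a ∈ t, R ≤ r a := by
  classical
  induction t using Finset.induction_on with
  | empty => exact ⟨1, one_pos, by simp⟩
  | insert a s _ ih =>
    obtain ⟨R, hR, h⟩ := ih
    refine ⟨min R (r a), lt_min hR (hr a), fun x hx => ?_⟩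
    rcases Finset.mem_insert.1 hx with rfl | hx
    · exact min_le_right _ _
    · exact (min_le_left _ _).trans (h x hx)

/-- the product charts over a small neighbourhood of the point `y` -/
structure Data (e : κ → OpenPartialHomeomorph M (Cn (k + m)))
    (b : P → OpenPartialHomeomorph Y (Cn m)) (f : M → Y) (y : Y) where
  ι : Type
  fin : Finite ι
  j : P
  B : OpenPartialHomeomorph Y (Cn m)
  E : ι → OpenPartialHomeomorph M (Cn (k + m))
  σ : ι → κ
  target_B : B.target = opd 10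
  mem_B : y ∈ B.source
  B_zero : B y = 0
  sub_B : B.source ⊆ (b j).source
  aff : ∃ (y₀ : Cn m) (r : ℝ), 0 < r ∧ ∀ w ∈ B.target, b j (B.symm w) = y₀ + r • w
  target_E : ∀ i, (E i).target =
    {z | fstC z ∈ (opd 10 : Set (Cn k)) ∧ sndC z ∈ (opd 10 : Set (Cn m))}
  proj : ∀ i, ∀ p ∈ (E i).source, f p ∈ B.source ∧ B (f p) = sndC (E i p)
  cover : ∀ p, f p ∈ B.source → ∃ i, p ∈ (E i).source ∧ fstC (E i p) ∈ (cpd 1 : Set (Cn k))
  sub_E : ∀ i, (E i).source ⊆ (e (σ i)).source
  holo : ∀ i, HolOn (fun w => e (σ i) ((E i).symm w)) (E i).target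
  holo' : ∀ i, HolOn (fun z => E i ((e (σ i)).symm z))
    {z | z ∈ (e (σ i)).target ∧ (e (σ i)).symm z ∈ (E i).source}
  mem_range : ι → y ∈ range f

theorem exists_data [CompactSpace M] [T2Space Y] (he : IsAtlas e)
    (hb : ∀ y, ∃ j, y ∈ (b j).source) (hf : IsSubmersion e b f) (y : Y) :
    Nonempty (Data e b f y) := by
  classical
  obtain ⟨j, hj⟩ := hb y
  have hloc : ∀ p : {p // f p = y}, ∃ (c : κ) (E : OpenPartialHomeomorph M (Cn (k + m))),
      (p : M) ∈ E.source ∧
      E.source ⊆ (e c).source ∧ (∀ q ∈ E.source, f q ∈ (b j).source) ∧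
      (∀ q ∈ E.source, sndC (E q) = b j (f q)) ∧
      HolOn (fun w => e c (E.symm w)) E.target ∧
      HolOn (fun z => E ((e c).symm z)) {z | z ∈ (e c).target ∧ (e c).symm z ∈ E.source} :=
    fun p => exists_local he hf j p.1 (by rw [p.2]; exact hj)
  choose c E hpE hEc hEb hEs hh hh' using hloc
  have hrad : ∀ p : {p // f p = y}, ∃ r > 0, ∀ w : Cn (k + m),
      fstC w - fstC (E p p.1) ∈ (opd r : Set (Cn k)) →
      sndC w - sndC (E p p.1) ∈ (opd r : Set (Cn m)) → w ∈ (E p).target :=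
    fun p => exists_opd_prod (E p).open_target ((E p).map_source (hpE p))
  choose r hr hrE using hrad
  set y₀ := b j y with hy₀
  have hsnd : ∀ p : {p // f p = y}, sndC (E p p.1) = y₀ := fun p => by
    rw [hEs p _ (hpE p), p.2]
  set W : {p // f p = y} → Set M := fun p => (E p).source ∩ (E p) ⁻¹'
    {w | fstC w - fstC (E p p.1) ∈ (opd (r p / 10) : Set (Cn k)) ∧
      sndC w - y₀ ∈ (opd (r p) : Set (Cn m))} with hW
  have hWo : ∀ p, IsOpen (W p) := fun p => (E p).isOpen_inter_preimage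
    (((isOpen_opd _).preimage (continuous_fstC.sub continuous_const)).inter
      ((isOpen_opd _).preimage (continuous_sndC.sub continuous_const)))
  have hpW : ∀ p, (p : M) ∈ W p := fun p => ⟨hpE p, by
    show fstC (E p p.1) - fstC (E p p.1) ∈ _ ∧ sndC (E p p.1) - y₀ ∈ _
    rw [hsnd, sub_self, sub_self]
    exact ⟨zero_mem_opd (by have := hr p; positivity), zero_mem_opd (hr p)⟩⟩
  have hcomp : IsCompact (f ⁻¹' {y}) := (isClosed_singleton.preimage hf.continuous).isCompact
  obtain ⟨t, ht⟩ := hcomp.elim_finite_subcover W hWo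
    (fun p hp => mem_iUnion.2 ⟨⟨p, hp⟩, hpW ⟨p, hp⟩⟩)
  set W' : Set M := ⋃ p ∈ t, W p with hW'
  have hW'o : IsOpen W' := isOpen_biUnion fun p _ => hWo p
  set V : Set Y := (f '' W'ᶜ)ᶜ with hV
  have hVo : IsOpen V := (hW'o.isClosed_compl.isCompact.image hf.continuous).isClosed.isOpen_compl
  have hyV : y ∈ V := by
    rintro ⟨q, hq, hqy⟩
    exact hq (ht hqy)
  have hVW : ∀ p, f p ∈ V → p ∈ W' := by
    intro p hp
    by_contra h
    exact hp ⟨p, h, rfl⟩
  obtain ⟨R₀, hR₀, hR₀V⟩ := exists_opd ((b j).isOpen_inter_preimage_symm hVo)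
    (y := y₀) ⟨(b j).map_source hj, by rw [mem_preimage, hy₀, (b j).left_inv hj]; exact hyV⟩
  obtain ⟨R₁, hR₁, hR₁r⟩ := exists_pos_le t r hr
  set R := min R₀ R₁ with hR
  have hRpos : 0 < R := lt_min hR₀ hR₁
  have hRV : ∀ w : Cn m, w - y₀ ∈ opd R → w ∈ (b j).target ∧ (b j).symm w ∈ V := fun w hw =>
    hR₀V w (opd_mono hRpos.le (min_le_left _ _) hw)
  have hRr : ∀ p ∈ t, R ≤ r p := fun p hp => (min_le_right _ _).trans (hR₁r p hp)
  obtain ⟨B, hBt, hBs, hBv, hBsymm⟩ := exists_base (b j) y₀ hRpos fun w hw => (hRV w hw).1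
  have hbox : ∀ p : {p : {p // f p = y} // p ∈ t}, ∃ E' : OpenPartialHomeomorph M (Cn (k + m)),
      E'.target = {z | fstC z ∈ (opd 10 : Set (Cn k)) ∧ sndC z ∈ (opd 10 : Set (Cn m))} ∧
      (∀ q, q ∈ E'.source ↔ q ∈ (E p).source ∧
        fstC (E p q) - fstC (E p p.1.1) ∈ (opd (r p) : Set (Cn k)) ∧ sndC (E p q) - y₀ ∈ opd R) ∧
      (∀ q, E' q = joinC ((10 / r p) • (fstC (E p q) - fstC (E p p.1.1)))
        ((10 / R) • (sndC (E p q) - y₀))) ∧
      ∀ w, E'.symm w = (E p).symm (joinC (fstC (E p p.1.1) + (r p / 10) • fstC w)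
        (y₀ + (R / 10) • sndC w)) := fun p =>
    exists_box (E p) _ y₀ (hr p) hRpos fun w hw1 hw2 => hrE p w hw1 (by
      rw [hsnd]
      exact opd_mono hRpos.le (hRr p.1 p.2) hw2)
  choose E' hE't hE's hE'v hE'symm using hbox
  refine ⟨⟨{p : {p // f p = y} // p ∈ t}, inferInstance, j, B, E', fun p => c p, hBt, ?_, ?_, ?_,
    ?_, hE't, ?_, ?_, ?_, ?_, ?_, fun p => ⟨p.1.1, p.1.2⟩⟩⟩
  · rw [hBs]
    refine ⟨hj, ?_⟩
    rw [← hy₀, sub_self]
    exact zero_mem_opd hRpos
  · rw [hBv, ← hy₀, sub_self, smul_zero]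
  · intro q hq
    exact ((hBs q).1 hq).1
  · refine ⟨y₀, R / 10, by positivity, fun w hw => ?_⟩
    rw [hBsymm, (b j).right_inv]
    apply (hRV _ _).1
    rw [add_sub_cancel_left]
    have h4 := smul_mem_opd (c := R / 10) (r := 10) (u := w) (by positivity)
    have h5 : R / 10 * 10 = R := by ring
    rw [h5] at h4
    rw [h4, ← hBt]
    exact hw
  · intro i p hp
    rw [hE's] at hp
    obtain ⟨h1, -, h3⟩ := hp
    rw [hEs i p h1] at h3
    refine ⟨(hBs _).2 ⟨hEb i p h1, h3⟩, ?_⟩
    rw [hBv, hE'v, sndC_joinC, hEs i p h1]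
  · intro p hp
    rw [hBs] at hp
    have h1 : p ∈ W' := by
      apply hVW
      have h2 := (hRV _ hp.2).2
      rwa [(b j).left_inv hp.1] at h2
    obtain ⟨q, hq, hpq⟩ := mem_iUnion₂.1 h1
    obtain ⟨h2, h3⟩ := hpq
    have h3' : fstC (E q p) - fstC (E q q.1) ∈ (opd (r q / 10) : Set (Cn k)) := h3.1
    refine ⟨⟨q, hq⟩, (hE's ⟨q, hq⟩ p).2 ⟨h2, ?_, ?_⟩, ?_⟩
    · exact opd_mono (by have := hr q; positivity) (by have := hr q; linarith) h3'
    · rw [hEs q p h2]
      exact hp.2
    · rw [hE'v, fstC_joinC]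
      have h4 := smul_mem_cpd (c := 10 / r q) (r := r q / 10)
        (u := (fstC (E q p) - fstC (E q q.1) : Cn k)) (by have := hr q; positivity)
      have h5 : 10 / r q * (r q / 10) = 1 := by
        have := (hr q).ne'
        field_simp
      rw [h5] at h4
      exact h4.2 (opd_subset_cpd _ h3')
  · intro i q hq
    exact hEc i (((hE's i q).1 hq).1)
  · intro i
    have h1 : (fun w => e (c i) ((E' i).symm w)) = fun w => e (c i) ((E i).symm
        (joinC (fstC (E i i.1.1) + (r i / 10) • fstC w) (y₀ + (R / 10) • sndC w))) := by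
      funext w
      rw [hE'symm]
    show HolOn (fun w => e (c i) ((E' i).symm w)) (E' i).target
    rw [h1]
    have h2 : HolOn (fun w : Cn (k + m) => joinC (fstC (E i i.1.1) + (r i / 10) • fstC w)
        (y₀ + (R / 10) • sndC w)) (E' i).target := by
      refine hol_join (E' i).open_target ?_ ?_
      · exact hol_add_smul (E' i).open_target (hol_fstC _) _ _
      · exact hol_add_smul (E' i).open_target (hol_sndC _) _ _
    refine hol_comp (E' i).open_target (E i).open_target (hh i) h2 ?_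
    intro w hw
    rw [hE't] at hw
    refine hrE i _ ?_ ?_
    · rw [fstC_joinC, add_sub_cancel_left]
      have h4 := smul_mem_opd (c := r i / 10) (r := 10) (u := (fstC w : Cn k))
        (by have := hr i; positivity)
      have h5 : r i / 10 * 10 = r i := by ring
      rw [h5] at h4
      exact h4.2 hw.1
    · rw [hsnd, sndC_joinC, add_sub_cancel_left]
      have h4 := smul_mem_opd (c := R / 10) (r := 10) (u := (sndC w : Cn m))
        (by positivity)
      have h5 : R / 10 * 10 = R := by ring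
      rw [h5] at h4
      exact opd_mono hRpos.le (hRr i.1 i.2) (h4.2 hw.2)
  · intro i
    have h1 : (fun z => E' i ((e (c i)).symm z)) = fun z =>
        joinC ((10 / r i) • (fstC (E i ((e (c i)).symm z)) - fstC (E i i.1.1)))
        ((10 / R) • (sndC (E i ((e (c i)).symm z)) - y₀)) := by
      funext z
      rw [hE'v]
    set D : Set (Cn (k + m)) := {z | z ∈ (e (c i)).target ∧ (e (c i)).symm z ∈ (E' i).source}
      with hD
    have hDo : IsOpen D := (e (c i)).isOpen_inter_preimage_symm (E' i).open_source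
    have h3 : HolOn (fun z => E i ((e (c i)).symm z)) D :=
      hol_mono (hh' i) fun z hz => ⟨hz.1, ((hE's i _).1 hz.2).1⟩
    show HolOn (fun z => E' i ((e (c i)).symm z)) D
    rw [h1]
    refine hol_join hDo ?_ ?_
    · have h4 : (fun z => (10 / r i) • (fstC (E i ((e (c i)).symm z)) - fstC (E i i.1.1))) =
          fun z => (-((10 / r i) • fstC (E i i.1.1)) : Cn k) +
            (10 / r i) • fstC (E i ((e (c i)).symm z)) := by
        funext z
        rw [smul_sub]
        abel
      rw [h4]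
      exact hol_add_smul hDo (hol_comp (G := fstC) hDo isOpen_univ (hol_fstC univ) h3
        (mapsTo_univ _ _)) _ _
    · have h4 : (fun z => (10 / R) • (sndC (E i ((e (c i)).symm z)) - y₀)) =
          fun z => (-((10 / R) • y₀) : Cn m) +
            (10 / R) • sndC (E i ((e (c i)).symm z)) := by
        funext z
        rw [smul_sub]
        abel
      rw [h4]
      exact hol_add_smul hDo (hol_comp (G := sndC) hDo isOpen_univ (hol_sndC univ) h3
        (mapsTo_univ _ _)) _ _

end Local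

end NT

section Top

variable {M Y : Type} [TopologicalSpace M] [CompactSpace M] [TopologicalSpace Y]
  [T2Space Y] {k m : ℕ} {κ P : Type} {e : κ → OpenPartialHomeomorph M (Cn (k + m))}
  {b : P → OpenPartialHomeomorph Y (Cn m)} {f : M → Y}

theorem exists_product_charts (he : IsAtlas e) (hb : IsAtlas b) (hf : IsSubmersion e b f)
    (hconn : ∀ y, IsPreconnected (f ⁻¹' {y})) :
    ∃ (κ' P' : Type) (_ : Finite κ') (e' : κ' → OpenPartialHomeomorph M (Cn (k + m)))
      (b' : P' → OpenPartialHomeomorph Y (Cn m)) (pc : κ' → P') (σ : κ' → κ) (ρ : P' → P),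
      IsFibration e' b' pc f ∧ IsRefinement e e' σ ∧ (∀ j, (b' j).source ⊆ (b (ρ j)).source) ∧
      (∀ j, ∃ (y₀ : Cn m) (r : ℝ), 0 < r ∧ ∀ w ∈ (b' j).target,
        b (ρ j) ((b' j).symm w) = y₀ + r • w) := by
  classical
  have D : ∀ y : Y, NT.Data e b f y := fun y => (NT.exists_data he hb.cover hf y).some
  -- the unit parts
  set U : Y → Set Y := fun y => (D y).B.source ∩ (D y).B ⁻¹' (opd 1) with hU
  have hUo : ∀ y, IsOpen (U y) := fun y => (D y).B.isOpen_inter_preimage (NT.isOpen_opd 1)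
  have hyU : ∀ y, y ∈ U y := fun y => ⟨(D y).mem_B, by
    rw [mem_preimage, (D y).B_zero]
    exact NT.zero_mem_opd one_pos⟩
  obtain ⟨t, ht⟩ := (isCompact_range hf.continuous).elim_finite_subcover U hUo
    (fun y _ => mem_iUnion.2 ⟨y, hyU y⟩)
  -- the index sets
  let P' : Type := {y : Y // y ∈ t ∨ y ∉ range f}
  let κ' : Type := Σ y : {y : Y // y ∈ t}, (D y).ι
  have : ∀ y : {y : Y // y ∈ t}, Finite (D y).ι := fun y => (D y).fin
  have hfin : Finite κ' := inferInstance
  have hinc : ∀ y : {y : Y // y ∈ t}, y.1 ∈ t ∨ y.1 ∉ range f := fun y => Or.inl y.2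
  refine ⟨κ', P', hfin, fun c => (D c.1).E c.2, fun j => (D j.1).B,
    fun c => ⟨c.1.1, hinc c.1⟩, fun c => (D c.1).σ c.2, fun j => (D j.1).j, ?_, ?_, ?_, ?_⟩
  · refine ⟨fun j => (D j.1).target_B, ?_, fun c => (D c.1).target_E c.2, ?_, ?_, hconn⟩
    · intro y
      by_cases hy : y ∈ range f
      · obtain ⟨z, hz, hyz⟩ := mem_iUnion₂.1 (ht hy)
        exact ⟨⟨z, Or.inl hz⟩, hyz.1, NT.opd_subset_cpd _ hyz.2⟩
      · refine ⟨⟨y, Or.inr hy⟩, (D y).mem_B, ?_⟩
        show (D y).B y ∈ cpd 1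
        rw [(D y).B_zero]
        exact NT.zero_mem_cpd 1
    · intro c p hp
      exact (D c.1).proj c.2 p hp
    · intro j p hp
      obtain ⟨i, hi1, hi2⟩ := (D j.1).cover p hp
      rcases j with ⟨y, hy | hy⟩
      · exact ⟨⟨⟨y, hy⟩, i⟩, rfl, hi1, hi2⟩
      · exact absurd ((D y).mem_range i) hy
  · refine ⟨?_, fun c => (D c.1).sub_E c.2, fun c => (D c.1).holo c.2, fun c => (D c.1).holo' c.2⟩
    intro p
    obtain ⟨z, hz, hyz⟩ := mem_iUnion₂.1 (ht (mem_range_self p))
    obtain ⟨i, hi1, -⟩ := (D z).cover p hyz.1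
    exact ⟨⟨⟨z, hz⟩, i⟩, hi1⟩
  · exact fun j => (D j.1).sub_B
  · exact fun j => (D j.1).aff

end Top

end Pool.Agent.KRFF

end

section

/-!
# From local semistable models to the setup
-/

open scoped ContDiff ENNReal ComplexOrder Topology
open Set Filter Pool.Agent.ToricKRF Pool.Agent.ToricKRF.G Pool.Agent.KRFS Pool.Agent.KRFF

namespace Pool.Agent.KRFG

attribute [instance] SemistableAt.top SemistableAt.t2

namespace NK

/-! ### Complex coordinates -/

section Coord

variable {m : ℕ}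

theorem sq_norm_cc (u : Cn m) (i : Fin m) : ‖cc u i‖ ^ 2 = u.1 i ^ 2 + u.2 i ^ 2 := by
  rw [Complex.sq_norm, Complex.normSq_apply]
  simp only [cc]
  ring

theorem mem_opd_iff {r : ℝ} (hr : 0 ≤ r) {u : Cn m} : u ∈ opd r ↔ ∀ i, ‖cc u i‖ < r := by
  refine forall_congr' fun i => ?_
  rw [← sq_norm_cc]
  exact pow_lt_pow_iff_left₀ (norm_nonneg _) hr (by norm_num)

theorem mem_cpd_iff {r : ℝ} (hr : 0 ≤ r) {u : Cn m} : u ∈ cpd r ↔ ∀ i, ‖cc u i‖ ≤ r := by
  refine forall_congr' fun i => ?_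
  rw [← sq_norm_cc]
  exact pow_le_pow_iff_left₀ (norm_nonneg _) hr (by norm_num)

theorem nsq_eq_sum (u : Cn m) : nsq u = ∑ i, ‖cc u i‖ ^ 2 := by
  simp only [sq_norm_cc, nsq, dotProduct, ← Finset.sum_add_distrib]
  exact Finset.sum_congr rfl fun i _ => by ring

theorem norm_cc_le {r : ℝ} (hr : 0 ≤ r) {u : Cn m} (h : nsq u ≤ r ^ 2) (i : Fin m) :
    ‖cc u i‖ ≤ r := by
  rw [nsq_eq_sum] at h
  have h1 := Finset.single_le_sum (f := fun i => ‖cc u i‖ ^ 2) (fun i _ => sq_nonneg _)
    (Finset.mem_univ i)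
  exact le_of_sq_le_sq (h1.trans h) hr

theorem norm_cc_lt {r : ℝ} (hr : 0 ≤ r) {u : Cn m} (h : nsq u < r ^ 2) (i : Fin m) :
    ‖cc u i‖ < r := by
  rw [nsq_eq_sum] at h
  have h1 := Finset.single_le_sum (f := fun i => ‖cc u i‖ ^ 2) (fun i _ => sq_nonneg _)
    (Finset.mem_univ i)
  exact lt_of_pow_lt_pow_left₀ 2 hr (lt_of_le_of_lt h1 h)

theorem nsq_smul (c : ℝ) (u : Cn m) : nsq (c • u) = c ^ 2 * nsq u := by
  simp only [nsq, Prod.smul_fst, Prod.smul_snd, smul_dotProduct, dotProduct_smul, smul_eq_mul]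
  ring

theorem cc_smul (c : ℝ) (u : Cn m) (i : Fin m) : cc (c • u) i = c * cc u i := by
  apply Complex.ext <;> simp [cc]

theorem cc_sub (u v : Cn m) (i : Fin m) : cc (u - v) i = cc u i - cc v i := by
  apply Complex.ext <;> simp [cc]

theorem cc_zero (i : Fin m) : cc (0 : Cn m) i = 0 := by
  apply Complex.ext <;> simp [cc]

theorem cc_ext {u v : Cn m} (h : ∀ i, cc u i = cc v i) : u = v := by
  refine Prod.ext (funext fun i => ?_) (funext fun i => ?_)
  · exact congrArg Complex.re (h i)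
  · exact congrArg Complex.im (h i)

/-- the coordinates multiplied with positive real numbers -/
def scal (σ : Fin m → ℝ) (u : Cn m) : Cn m := (fun i => σ i * u.1 i, fun i => σ i * u.2 i)

theorem cc_scal (σ : Fin m → ℝ) (u : Cn m) (i : Fin m) : cc (scal σ u) i = σ i * cc u i := by
  apply Complex.ext <;> simp [cc, scal]

theorem prow_smul {n : ℕ} (row : Fin n → Option (Fin m)) (i : Fin m) {q : ℝ} (hq : 0 < q) :
    ∃ s > 0, ∀ x : Cn n, prow row i (q • x) = (s : ℝ) * prow row i x := by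
  classical
  refine ⟨∏ l, if row l = some i then q else 1, ?_, fun x => ?_⟩
  · exact Finset.prod_pos fun l _ => by split_ifs <;> [exact hq; exact one_pos]
  · unfold prow
    rw [Complex.ofReal_prod, ← Finset.prod_mul_distrib]
    refine Finset.prod_congr rfl fun l _ => ?_
    split_ifs
    · rw [cc_smul]
    · simp

end Coord

section

variable {M Y : Type} [TopologicalSpace M] [TopologicalSpace Y] {n m : ℕ} {κ P : Type}
  {e : κ → OpenPartialHomeomorph M (Cn n)} {b : P → OpenPartialHomeomorph Y (Cn m)} {f : M → Y}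

/-- a finite part of a semistable model -/
structure LData (e : κ → OpenPartialHomeomorph M (Cn n)) (b : P → OpenPartialHomeomorph Y (Cn m))
    (f : M → Y) (y₀ : Y) where
  S : SemistableAt e b f y₀
  R : ℝ
  R_pos : 0 < R
  sub : ∀ y, nsq (y - b S.j y₀) < R ^ 2 → y ∈ (b S.j).target
  ι : Type
  fin : Fintype ι
  a : ι → OpenPartialHomeomorph S.W (Cn n)
  al : ι → κ
  row : ι → Fin n → Option (Fin m)
  s : ι → Fin m → ℝ
  s_pos : ∀ i k, 0 < s i k
  target : ∀ i, (a i).target = opd 10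
  nonempty : ∀ i, (a i).source.Nonempty
  row_ne : ∀ i k, ∃ l, row i l = some k
  mem : ∀ i, ∀ w ∈ (a i).source, S.π w ∈ (e (al i)).source
  holo : ∀ i, HolOn (fun x => e (al i) (S.π ((a i).symm x))) (opd 10)
  mono : ∀ i, ∀ w ∈ (a i).source, ∀ k, cc (S.τ w) k = s i k * prow (row i) k (a i w)
  cover : ∀ w, (∀ i, ‖cc (S.τ w) i‖ ^ S.N i ≤ R / 2) → ∃ i, w ∈ (a i).source ∧ a i w ∈ cpd 1
  small : ∀ t : Cn m, (∀ i, ‖cc t i‖ ^ S.N i ≤ R / 2) → t ∈ opd S.r

theorem exists_ldata (y₀ : Y) (S : SemistableAt e b f y₀) : Nonempty (LData e b f y₀) := by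
  classical
  have hch : ∀ w : {w // S.τ w = 0}, ∃ (a : OpenPartialHomeomorph S.W (Cn n)) (c : κ)
    (row : Fin n → Option (Fin m)), w.1 ∈ a.source ∧ a w.1 = 0 ∧ (∀ i, ∃ l, row l = some i) ∧
      (∀ w' ∈ a.source, S.π w' ∈ (e c).source) ∧
      HolOn (fun x => e c (S.π (a.symm x))) a.target ∧
      ∀ w' ∈ a.source, ∀ i, cc (S.τ w') i = prow row i (a w') := fun w => S.chart w.1 w.2
  choose a₀ c row hwa ha0 hrow hmem hholo hmono using hch
  have hrad : ∀ w : {w // S.τ w = 0}, ∃ r > 0, ∀ x : Cn n, x - 0 ∈ opd r → x ∈ (a₀ w).target :=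
    fun w => NT.exists_opd (a₀ w).open_target (by rw [← ha0 w]; exact (a₀ w).map_source (hwa w))
  choose r hr hra using hrad
  have hbase := fun w => NT.exists_base (a₀ w) 0 (hr w) (hra w)
  choose a hat has hav hasymm using hbase
  -- the finite cover of `τ = 0`
  set U : {w // S.τ w = 0} → Set S.W := fun w => (a₀ w).source ∩ (a₀ w) ⁻¹' (opd (r w / 10)) with hU
  have hUo : ∀ w, IsOpen (U w) := fun w => (a₀ w).isOpen_inter_preimage (NT.isOpen_opd _)
  have hwU : ∀ w, w.1 ∈ U w := fun w => ⟨hwa w, by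
    rw [mem_preimage, ha0 w]
    exact NT.zero_mem_opd (by have := hr w; positivity)⟩
  have hc1 : IsCompact {w | S.τ w ∈ cpd (S.r / 2)} :=
    S.proper _ (by linarith [S.r_pos]) (by linarith [S.r_pos])
  have hclosed : IsClosed {w | S.τ w = 0} := isClosed_singleton.preimage S.cont
  have hc0 : IsCompact {w | S.τ w = 0} := hc1.of_isClosed_subset hclosed fun w hw => by
    show S.τ w ∈ cpd (S.r / 2)
    rw [show S.τ w = 0 from hw]
    exact NT.zero_mem_cpd _
  obtain ⟨t, ht⟩ := hc0.elim_finite_subcover U hUo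
    (fun w hw => mem_iUnion.2 ⟨⟨w, hw⟩, hwU ⟨w, hw⟩⟩)
  set U' : Set S.W := ⋃ w ∈ t, U w with hU'
  have hU'o : IsOpen U' := isOpen_biUnion fun w _ => hUo w
  -- a neighbourhood of `τ = 0` is covered
  obtain ⟨ε, hε, hεr, hεU⟩ : ∃ ε > 0, ε ≤ S.r / 2 ∧ ∀ w, S.τ w ∈ cpd ε → w ∈ U' := by
    have hC : IsCompact ({w | S.τ w ∈ cpd (S.r / 2)} \ U') := hc1.diff hU'o
    rcases ({w | S.τ w ∈ cpd (S.r / 2)} \ U').eq_empty_or_nonempty with hemp | hne
    · refine ⟨S.r / 2, by have := S.r_pos; positivity, le_rfl, fun w hw => ?_⟩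
      by_contra h
      have : w ∈ {w | S.τ w ∈ cpd (S.r / 2)} \ U' := ⟨hw, h⟩
      rw [hemp] at this
      exact this
    · obtain ⟨w₁, hw₁, hmin⟩ := hC.exists_isMinOn hne (f := fun w => ‖S.τ w‖)
        S.cont.norm.continuousOn
      have hpos : 0 < ‖S.τ w₁‖ := norm_pos_iff.2 fun h => hw₁.2 (ht h)
      refine ⟨min (S.r / 2) (‖S.τ w₁‖ / 2), lt_min (by have := S.r_pos; positivity)
        (by positivity), min_le_left _ _, fun w hw => ?_⟩
      by_contra h
      have hw2 : S.τ w ∈ cpd (S.r / 2) := fun i => (hw i).trans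
        (pow_le_pow_left₀ (le_min (by have := S.r_pos; positivity) (by positivity))
          (min_le_left _ _) 2)
      have h1 : ‖S.τ w₁‖ ≤ ‖S.τ w‖ := hmin ⟨hw2, h⟩
      have h2 : ‖S.τ w‖ ≤ ‖S.τ w₁‖ / 2 := by
        rw [Prod.norm_def, max_le_iff, pi_norm_le_iff_of_nonneg (by positivity),
          pi_norm_le_iff_of_nonneg (by positivity)]
        have h3 : ∀ i, (S.τ w).1 i ^ 2 + (S.τ w).2 i ^ 2 ≤ (‖S.τ w₁‖ / 2) ^ 2 := fun i =>
          (hw i).trans (pow_le_pow_left₀ (le_min (by have := S.r_pos; positivity) (by positivity))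
            (min_le_right _ _) 2)
        refine ⟨fun i => ?_, fun i => ?_⟩
        · rw [Real.norm_eq_abs]
          exact abs_le_of_sq_le_sq (by nlinarith [h3 i, sq_nonneg ((S.τ w).2 i)]) (by positivity)
        · rw [Real.norm_eq_abs]
          exact abs_le_of_sq_le_sq (by nlinarith [h3 i, sq_nonneg ((S.τ w).1 i)]) (by positivity)
      linarith
  -- the radius `R`
  obtain ⟨R₀, hR₀, hR₀b⟩ := NT.exists_opd (b S.j).open_target ((b S.j).map_source S.mem)
  obtain ⟨R₁, hR₁, hR₁N⟩ := NT.exists_pos_le (Finset.univ : Finset (Fin m))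
    (fun i => 2 * ε ^ S.N i) (fun i => by positivity)
  set R := min R₀ R₁ with hR
  have hRpos : 0 < R := lt_min hR₀ hR₁
  have hRN : ∀ t' : Cn m, (∀ i, ‖cc t' i‖ ^ S.N i ≤ R / 2) → t' ∈ cpd ε := by
    intro t' ht'
    rw [mem_cpd_iff hε.le]
    intro i
    have h1 : ‖cc t' i‖ ^ S.N i ≤ ε ^ S.N i := by
      have h2 := hR₁N i (Finset.mem_univ i)
      have h3 : R ≤ R₁ := min_le_right _ _
      linarith [ht' i]
    exact le_of_pow_le_pow_left₀ (S.N_pos i).ne' hε.le h1
  have hs := fun (w : {w : {w // S.τ w = 0} // w ∈ t}) (k : Fin m) =>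
    prow_smul (row w) k (q := r w / 10) (by have := hr w; positivity)
  choose s hspos hss using hs
  refine ⟨⟨S, R, hRpos, ?_, {w : {w // S.τ w = 0} // w ∈ t}, inferInstance, fun w => a w,
    fun w => c w, fun w => row w, s, hspos, fun w => hat w, ?_, fun w => hrow w, ?_, ?_, ?_, ?_,
    ?_⟩⟩
  · intro y hy
    refine hR₀b y ?_
    rw [mem_opd_iff hR₀.le]
    intro i
    exact norm_cc_lt hR₀.le (lt_of_lt_of_le hy (pow_le_pow_left₀ hRpos.le (min_le_left _ _) 2)) i
  · intro w
    refine ⟨w.1.1, (has w _).2 ⟨hwa w, ?_⟩⟩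
    rw [ha0, sub_zero]
    exact NT.zero_mem_opd (hr w)
  · intro w w' hw'
    exact hmem w w' ((has w w').1 hw').1
  · intro w
    have h1 : (fun x => e (c w) (S.π ((a w).symm x))) = fun x =>
        e (c w) (S.π ((a₀ w).symm (0 + (r w / 10) • x))) := by
      funext x
      rw [hasymm]
    rw [h1]
    refine NT.hol_comp (G := fun x => e (c w) (S.π ((a₀ w).symm x))) (NT.isOpen_opd 10)
      (a₀ w).open_target (hholo w) (NT.hol_scale (r w / 10) 0 _) ?_
    intro x hx
    refine hra w _ ?_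
    show (0 : Cn n) + (r w / 10) • x - 0 ∈ opd (r w)
    rw [zero_add, sub_zero]
    have h4 := NT.smul_mem_opd (c := r w / 10) (r := 10) (u := x) (by have := hr w; positivity)
    have h5 : r w / 10 * 10 = r w := by ring
    rw [h5] at h4
    exact h4.2 hx
  · intro w w' hw' k
    rw [hmono w w' ((has w w').1 hw').1 k, ← hss]
    congr 1
    rw [hav, sub_zero, smul_smul]
    have h5 : r w / 10 * (10 / r w) = 1 := by
      have := (hr w).ne'
      field_simp
    rw [h5, one_smul]
  · intro w hw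
    obtain ⟨w', hw', hww'⟩ := mem_iUnion₂.1 (hεU w (hRN _ hw))
    refine ⟨⟨w', hw'⟩, (has w' w).2 ⟨hww'.1, ?_⟩, ?_⟩
    · rw [sub_zero]
      exact NT.opd_mono (by have := hr w'; positivity) (by have := hr w'; linarith) hww'.2
    · rw [hav, sub_zero]
      have h4 := NT.smul_mem_cpd (c := 10 / r w') (r := r w' / 10) (u := a₀ w' w)
        (by have := hr w'; positivity)
      have h5 : 10 / r w' * (r w' / 10) = 1 := by
        have := (hr w').ne'
        field_simp
      rw [h5] at h4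
      exact h4.2 (NT.opd_subset_cpd _ hww'.2)
  · intro t' ht'
    have h1 := hRN t' ht'
    intro i
    refine lt_of_le_of_lt (h1 i) (pow_lt_pow_left₀ (by linarith [S.r_pos]) hε.le (by norm_num))

end

/-! ### The disjoint union of the models -/

section Sum

variable {P' : Type} {W : P' → Type} [∀ j, TopologicalSpace (W j)] {n : ℕ}

/-- a chart of one part of a disjoint union -/
theorem exists_sigma_chart (j : P') (a : OpenPartialHomeomorph (W j) (Cn n))
    (ha : a.source.Nonempty) : ∃ a' : OpenPartialHomeomorph (Σ j, W j) (Cn n),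
      a'.target = a.target ∧ (∀ w, w ∈ a'.source ↔ ∃ w' ∈ a.source, w = ⟨j, w'⟩) ∧
      (∀ w', a' ⟨j, w'⟩ = a w') ∧ ∀ x, a'.symm x = ⟨j, a.symm x⟩ := by
  have : Nonempty (W j) := ⟨ha.some⟩
  set F : OpenPartialHomeomorph (W j) (Σ j, W j) :=
    Topology.IsOpenEmbedding.toOpenPartialHomeomorph (Sigma.mk j)
      Topology.IsOpenEmbedding.sigmaMk with hF
  have hFs : F.source = univ := rfl
  have hFt : F.target = range (Sigma.mk j) := by simp [hF]
  have hFa : ∀ w, F w = ⟨j, w⟩ := fun w => rfl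
  have hFsymm : ∀ w, F.symm ⟨j, w⟩ = w := fun w => by
    have h := F.left_inv (x := w) (by rw [hFs]; trivial)
    rwa [hFa] at h
  refine ⟨F.symm.trans a, ?_, ?_, ?_, ?_⟩
  · rw [OpenPartialHomeomorph.trans_target]
    ext x
    simp [hFs]
  · intro w
    rw [OpenPartialHomeomorph.trans_source, OpenPartialHomeomorph.symm_source, hFt]
    constructor
    · rintro ⟨⟨w', rfl⟩, hw⟩
      rw [mem_preimage, hFsymm] at hw
      exact ⟨w', hw, rfl⟩
    · rintro ⟨w', hw', rfl⟩
      exact ⟨⟨w', rfl⟩, by rw [mem_preimage, hFsymm]; exact hw'⟩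
  · intro w'
    rw [OpenPartialHomeomorph.coe_trans, Function.comp_apply, hFsymm]
  · intro x
    simp [hFa]

end Sum

end NK

section

variable {M Y : Type} [TopologicalSpace M] [TopologicalSpace Y] {n m : ℕ} {κ P : Type}
  {e : κ → OpenPartialHomeomorph M (Cn n)} {b : P → OpenPartialHomeomorph Y (Cn m)} {f : M → Y}

theorem exists_model [CompactSpace M] (hf : IsHolOnto e b f)
    (hmod : ∀ y, Nonempty (SemistableAt e b f y)) :
    ∃ (P' ι W : Type) (_ : Finite P') (_ : Fintype ι) (_ : TopologicalSpace W) (_ : T2Space W)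
      (b' : P' → OpenPartialHomeomorph Y (Cn m)) (ρ : P' → P)
      (a : ι → OpenPartialHomeomorph W (Cn n)) (al : ι → κ) (lab : W → P') (π : W → M)
      (τ : W → Cn m) (N : P' → Fin m → ℕ) (pc : ι → P') (s : ι → Fin m → ℝ)
      (row : ι → Fin n → Option (Fin m)) (y₀ : P' → Cn m) (r : P' → ℝ),
      IsHolMap e b' f ∧ IsModel e b' f a al lab π τ N pc s row ∧ (∀ j, 0 < r j) ∧
      (∀ j, (b' j).source = (b (ρ j)).source) ∧
      (∀ j y, y ∈ (b' j).target → y₀ j + r j • y ∈ (b (ρ j)).target) ∧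
      ∀ j p, b (ρ j) p = y₀ j + r j • b' j p := by
  classical
  have D : ∀ y : Y, NK.LData e b f y := fun y => (NK.exists_ldata y (hmod y).some).some
  -- the unit parts
  set U : Y → Set Y := fun y => (b (D y).S.j).source ∩ (b (D y).S.j) ⁻¹'
    {z | nsq (z - b (D y).S.j y) < ((D y).R / 10) ^ 2} with hU
  have hnsq : Continuous (nsq : Cn m → ℝ) := by
    unfold nsq dotProduct
    fun_prop
  have hUo : ∀ y, IsOpen (U y) := fun y => (b (D y).S.j).isOpen_inter_preimage
    (isOpen_lt (hnsq.comp (by fun_prop)) continuous_const)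
  have hyU : ∀ y, y ∈ U y := fun y => ⟨(D y).S.mem, by
    show nsq (b (D y).S.j y - b (D y).S.j y) < _
    rw [sub_self]
    have h0 : nsq (0 : Cn m) = 0 := by simp [nsq]
    rw [h0]
    have := (D y).R_pos
    positivity⟩
  have hcpt : IsCompact (univ : Set Y) := by
    rw [← hf.surj.range_eq]
    exact isCompact_range hf.continuous
  obtain ⟨t, ht⟩ := hcpt.elim_finite_subcover U hUo
    (fun y _ => mem_iUnion.2 ⟨y, hyU y⟩)
  let P' : Type := {y : Y // y ∈ t}
  let ι : Type := Σ y : P', (D y.1).ι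
  let W : Type := Σ y : P', (D y.1).S.W
  have inst : ∀ y : P', Fintype (D y.1).ι := fun y => (D y.1).fin
  have hs0 : ∀ y : P', 10 / (D y.1).R ≠ 0 := fun y => by
    have := (D y.1).R_pos
    positivity
  set b' : P' → OpenPartialHomeomorph Y (Cn m) := fun y =>
    (b (D y.1).S.j).transHomeomorph (NT.affH (b (D y.1).S.j y.1) (10 / (D y.1).R) (hs0 y)) with hb'
  have hb'a : ∀ (y : P') p, b' y p = (10 / (D y.1).R) • (b (D y.1).S.j p - b (D y.1).S.j y.1) :=
    fun y p => rfl
  have hcharts := fun i : ι => NK.exists_sigma_chart (W := fun y : P' => (D y.1).S.W) i.1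
    ((D i.1.1).a i.2) ((D i.1.1).nonempty i.2)
  choose a hat has haa hasymm using hcharts
  set σ : P' → Fin m → ℝ := fun y i =>
    (10 / (D y.1).R) ^ ((1 : ℝ) / ((D y.1).S.N i : ℝ)) with hσ
  have hRpos : ∀ y : P', 0 < (D y.1).R := fun y => (D y.1).R_pos
  have hσpos : ∀ y i, 0 < σ y i := fun y i => Real.rpow_pos_of_pos (by have := hRpos y; positivity) _
  have hσN : ∀ y i, σ y i ^ (D y.1).S.N i = 10 / (D y.1).R := by
    intro y i
    rw [hσ, ← Real.rpow_natCast, ← Real.rpow_mul (by have := hRpos y; positivity),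
      one_div, inv_mul_cancel₀ (by exact_mod_cast ((D y.1).S.N_pos i).ne'), Real.rpow_one]
  refine ⟨P', ι, W, inferInstance, inferInstance, inferInstance, inferInstance, b',
    fun y => (D y.1).S.j, a, fun i => (D i.1.1).al i.2, fun w => w.1, fun w => (D w.1.1).S.π w.2,
    fun w => NK.scal (σ w.1) ((D w.1.1).S.τ w.2), fun y => (D y.1).S.N, fun i => i.1,
    fun i k => σ i.1 k * (D i.1.1).s i.2 k, fun i => (D i.1.1).row i.2,
    fun y => b (D y.1).S.j y.1, fun y => (D y.1).R / 10, ?_, ?_, ?_, ?_, ?_, ?_⟩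
  · -- the map
    refine ⟨hf.continuous, hf.surj, ?_, ?_, ?_⟩
    · intro c y
      have h1 : (fun z => b' y (f ((e c).symm z))) = fun z =>
          (-((10 / (D y.1).R) • b (D y.1).S.j y.1) : Cn m) +
            (10 / (D y.1).R) • b (D y.1).S.j (f ((e c).symm z)) := by
        funext z
        rw [hb'a, smul_sub]
        abel
      rw [h1]
      exact NT.hol_add_smul (NT.isOpen_cdom hf.continuous c (D y.1).S.j) (hf.holo c (D y.1).S.j) _ _
    · intro y z hz
      show (NT.affH (b (D y.1).S.j y.1) (10 / (D y.1).R) (hs0 y)).symm z ∈ (b (D y.1).S.j).target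
      have h1 : (NT.affH (b (D y.1).S.j y.1) (10 / (D y.1).R) (hs0 y)).symm z =
        b (D y.1).S.j y.1 + (10 / (D y.1).R)⁻¹ • z := rfl
      rw [h1]
      refine (D y.1).sub _ ?_
      rw [add_sub_cancel_left, NK.nsq_smul, inv_div, div_pow]
      have h2 : nsq z < 100 := hz
      have h3 : 0 < (D y.1).R ^ 2 := by have := hRpos y; positivity
      have h4 : (D y.1).R ^ 2 / 10 ^ 2 * nsq z = (D y.1).R ^ 2 * (nsq z / 100) := by ring
      rw [h4]
      nlinarith
    · intro y
      obtain ⟨y', hy', hyy'⟩ := mem_iUnion₂.1 (ht (mem_univ y))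
      refine ⟨⟨y', hy'⟩, hyy'.1, ?_⟩
      rw [hb'a, NK.nsq_smul]
      have h1 : nsq (b (D y').S.j y - b (D y').S.j y') < ((D y').R / 10) ^ 2 := hyy'.2
      have h2 : 0 < (10 / (D y').R) ^ 2 := by have := (D y').R_pos; positivity
      have h3 : (10 / (D y').R) ^ 2 * ((D y').R / 10) ^ 2 = 1 := by
        have := (D y').R_pos.ne'
        field_simp
      calc (10 / (D y').R) ^ 2 * nsq (b (D y').S.j y - b (D y').S.j y')
          ≤ (10 / (D y').R) ^ 2 * ((D y').R / 10) ^ 2 := by gcongr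
        _ = 1 := h3
  · -- the model
    have hscale : ∀ (y : P') (p : Y) (i : Fin m), cc (b' y p) i =
        ((10 / (D y.1).R : ℝ) : ℂ) * (cc (b (D y.1).S.j p) i - cc (b (D y.1).S.j y.1) i) := by
      intro y p i
      rw [hb'a, NK.cc_smul, NK.cc_sub]
    have hσC : ∀ y i, ((σ y i : ℝ) : ℂ) ^ (D y.1).S.N i = ((10 / (D y.1).R : ℝ) : ℂ) := by
      intro y i
      rw [← hσN y i]
      push_cast
      rfl
    have hnorm : ∀ (y : P') (p : Y), nsq (b' y p) ≤ 25 → ∀ t' : Cn m,
        (∀ i, cc (b (D y.1).S.j p) i = cc (b (D y.1).S.j y.1) i + cc t' i ^ (D y.1).S.N i) →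
        ∀ i, ‖cc t' i‖ ^ (D y.1).S.N i ≤ (D y.1).R / 2 := by
      intro y p hp t' ht' i
      have h1 := NK.norm_cc_le (r := 5) (by norm_num) (u := b' y p) (by linarith) i
      rw [hscale, ht' i, add_sub_cancel_left, norm_mul, norm_pow, Complex.norm_real,
        Real.norm_of_nonneg (by have := hRpos y; positivity)] at h1
      have h2 := hRpos y
      rw [div_mul_eq_mul_div, div_le_iff₀ h2] at h1
      linarith
    refine ⟨?_, fun y i => (D y.1).S.N_pos i, ?_, ?_, ?_, ?_, ?_, ?_, ?_, ?_, ?_, ?_⟩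
    · rintro ⟨y, w⟩
      obtain ⟨h1, h2⟩ := (D y.1).S.base w
      refine ⟨h1, fun i => ?_⟩
      show cc (b' y (f ((D y.1).S.π w))) i = cc (NK.scal (σ y) ((D y.1).S.τ w)) i ^ (D y.1).S.N i
      rw [hscale, h2 i, add_sub_cancel_left, NK.cc_scal, mul_pow, hσC]
    · intro i
      rw [hat, (D i.1.1).target]
    · intro i w hw
      obtain ⟨w', -, rfl⟩ := (has i w).1 hw
      rfl
    · intro i k
      exact mul_pos (hσpos _ _) ((D i.1.1).s_pos _ _)
    · intro i k
      exact (D i.1.1).row_ne i.2 k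
    · intro i w hw k
      obtain ⟨w', hw', rfl⟩ := (has i w).1 hw
      show cc (NK.scal (σ i.1) ((D i.1.1).S.τ w')) k = _
      rw [NK.cc_scal, (D i.1.1).mono i.2 w' hw' k, haa]
      push_cast
      ring
    · intro i w hw
      obtain ⟨w', hw', rfl⟩ := (has i w).1 hw
      exact (D i.1.1).mem i.2 w' hw'
    · intro i
      have h1 : (fun x => e ((D i.1.1).al i.2) ((D ((a i).symm x).1.1).S.π ((a i).symm x).2)) =
          fun x => e ((D i.1.1).al i.2) ((D i.1.1).S.π (((D i.1.1).a i.2).symm x)) := by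
        funext x
        rw [hasymm]
      rw [h1]
      exact (D i.1.1).holo i.2
    · rintro ⟨y, w⟩ hw
      have hw' : nsq (b' y (f ((D y.1).S.π w))) ≤ 25 := hw
      obtain ⟨i, hi1, hi2⟩ := (D y.1).cover w
        (hnorm y _ hw' ((D y.1).S.τ w) ((D y.1).S.base w).2)
      refine ⟨⟨y, i⟩, (has ⟨y, i⟩ _).2 ⟨w, hi1, rfl⟩, ?_⟩
      rw [haa]
      exact hi2
    · intro y p hp hp' t' ht'
      set t₀ : Cn m := NK.scal (fun i => (σ y i)⁻¹) t' with ht₀
      have h1 : ∀ i, cc (b (D y.1).S.j (f p)) i = cc (b (D y.1).S.j y.1) i +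
          cc t₀ i ^ (D y.1).S.N i := by
        intro i
        have h2 := ht' i
        rw [hscale] at h2
        rw [ht₀, NK.cc_scal, mul_pow, h2]
        have h3 : ((10 / (D y.1).R : ℝ) : ℂ) ≠ 0 := by
          exact_mod_cast hs0 y
        have h4 : (((σ y i)⁻¹ : ℝ) : ℂ) ^ (D y.1).S.N i = ((10 / (D y.1).R : ℝ) : ℂ)⁻¹ := by
          rw [Complex.ofReal_inv, inv_pow, hσC]
        rw [h4, inv_mul_cancel_left₀ h3]
        ring
      obtain ⟨w, hw1, hw2⟩ := (D y.1).S.lift p hp t₀
        ((D y.1).small t₀ (hnorm y (f p) hp' t₀ h1)) h1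
      refine ⟨⟨y, w⟩, rfl, ?_, hw2⟩
      show NK.scal (σ y) ((D y.1).S.τ w) = t'
      apply NK.cc_ext
      intro i
      rw [hw1, ht₀, NK.cc_scal, NK.cc_scal, ← mul_assoc, ← Complex.ofReal_mul,
        mul_inv_cancel₀ (hσpos y i).ne', Complex.ofReal_one, one_mul]
    · intro y t' ht'
      set t₀ : Cn m := NK.scal (fun i => (σ y i)⁻¹) t' with ht₀
      have h1 : ∀ i, cc t₀ i ≠ 0 := by
        intro i
        rw [ht₀, NK.cc_scal]
        exact mul_ne_zero (by exact_mod_cast (inv_pos.2 (hσpos y i)).ne') (ht' i)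
      have h0 : Continuous fun w : (D y.1).S.W => (⟨y, w⟩ : Σ y : P', (D y.1).S.W) :=
        continuous_sigmaMk (σ := fun y : P' => (D y.1).S.W)
      have h2 := ((D y.1).S.connected t₀ h1).image
        (fun w => (⟨y, w⟩ : Σ y : P', (D y.1).S.W)) h0.continuousOn
      convert h2 using 1
      ext w
      constructor
      · rintro ⟨hw1, hw2⟩
        obtain ⟨y', w⟩ := w
        obtain rfl : y' = y := hw1
        refine ⟨w, ?_, rfl⟩
        have hw3 : NK.scal (σ y') ((D y'.1).S.τ w) = t' := hw2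
        show (D y'.1).S.τ w = t₀
        apply NK.cc_ext
        intro i
        rw [ht₀, ← hw3, NK.cc_scal, NK.cc_scal, ← mul_assoc, ← Complex.ofReal_mul,
          inv_mul_cancel₀ (hσpos y' i).ne', Complex.ofReal_one, one_mul]
      · rintro ⟨w', hw', rfl⟩
        refine ⟨rfl, ?_⟩
        show NK.scal (σ y) ((D y.1).S.τ w') = t'
        apply NK.cc_ext
        intro i
        rw [show (D y.1).S.τ w' = t₀ from hw', ht₀, NK.cc_scal, NK.cc_scal, ← mul_assoc,
          ← Complex.ofReal_mul, mul_inv_cancel₀ (hσpos y i).ne', Complex.ofReal_one, one_mul]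
  · intro y
    have := hRpos y
    positivity
  · intro y
    rfl
  · intro y z hz
    have h1 : (NT.affH (b (D y.1).S.j y.1) (10 / (D y.1).R) (hs0 y)).symm z ∈
      (b (D y.1).S.j).target := hz
    have h2 : (NT.affH (b (D y.1).S.j y.1) (10 / (D y.1).R) (hs0 y)).symm z =
        b (D y.1).S.j y.1 + (10 / (D y.1).R)⁻¹ • z := rfl
    rw [h2, inv_div] at h1
    exact h1
  · intro y p
    rw [hb'a, smul_smul]
    have h3 : (D y.1).R / 10 * (10 / (D y.1).R) = 1 := by
      have := (hRpos y).ne'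
      field_simp
    rw [h3, one_smul]
    abel

end

end Pool.Agent.KRFG

end
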