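import Pool.Agent.Work.MP_a2bf38_gt.Fu.I.Defs
import Pool.Agent.Work.MP_a2bf38_gt.Fu.G.EvolField
import Pool.Agent.Work.MP_a2bf38_gt.Fu.H.BoundLin

/-!
# Bounds for the potentials of a Kähler-Ricci flow with semi-positive limit class
-/

open scoped ContDiff ENNReal ComplexOrder
open Set Filter Topology Pool.Agent.ToricKRF Pool.Agent.ToricKRF.G Pool.Agent.KRFS
open Pool.Agent.KRFS.Bd

namespace Pool.Agent.KRFF

variable {n : ℕ} {M : Type} [TopologicalSpace M] {κ : Type} {T : ℝ} (s : Flow n M κ T)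

/-- `(a0 + a1 t) (log det g - log Ω) + b φ + d t`, `φ = ψ(t) - ψ(0) - t log Ω` -/
noncomputable def Flow.Gc (a0 a1 b d : ℝ) (c : κ) : ℝ × Cn n → ℝ := fun q =>
  (a0 + a1 * q.1) * (Real.log (cHess (s.ψ c) q).det.re - Real.log (s.Ω c q.2)) +
    b * (s.ψ c q - s.ψ c (0, q.2) - q.1 * Real.log (s.Ω c q.2)) + d * q.1

namespace Bd

/-- a good domain of the chart `c` -/
theorem exists_good (c : κ) : ∃ U : Set (ℝ × Cn n), IsOpen U ∧ Ico 0 T ×ˢ (s.e c).target ⊆ U ∧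
    ContDiffOn ℝ ∞ (s.ψ c) U ∧ (∀ q ∈ U, 0 < (cHess (s.ψ c) q).det.re) ∧
    (∀ q ∈ U, ((0 : ℝ), q.2) ∈ U) ∧ ∀ q ∈ U, q.2 ∈ (s.e c).target := by
  obtain ⟨U, hU, hsub, hψ⟩ := s.krf.smooth c
  have hcd : ContDiffOn ℝ ∞ (fun q => (cHess (s.ψ c) q).det.re) U :=
    Complex.reCLM.contDiff.comp_contDiffOn (contDiffOn_det (contDiffOn_cHess hU hψ))
  set U' : Set (ℝ × Cn n) := (U ∩ (fun q => (cHess (s.ψ c) q).det.re) ⁻¹' Ioi 0) ∩
    (Prod.snd ⁻¹' (s.e c).target) with hU'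
  have hU'o : IsOpen U' := (hcd.continuousOn.isOpen_inter_preimage hU isOpen_Ioi).inter
    ((s.e c).open_target.preimage continuous_snd)
  have hsub' : Ico 0 T ×ˢ (s.e c).target ⊆ U' := by
    rintro ⟨t, z⟩ ⟨ht, hz⟩
    exact ⟨⟨hsub ⟨ht, hz⟩, det_re_pos (s.krf.pos c t ht z hz)⟩, hz⟩
  refine ⟨U' ∩ (fun q : ℝ × Cn n => ((0 : ℝ), q.2)) ⁻¹' U', hU'o.inter (hU'o.preimage (by fun_prop)),
    ?_, hψ.mono fun q hq => hq.1.1.1, fun q hq => hq.1.1.2, fun q hq => ⟨hq.2, hq.2⟩,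
    fun q hq => hq.1.2⟩
  rintro ⟨t, z⟩ ⟨ht, hz⟩
  exact ⟨hsub' ⟨ht, hz⟩, hsub' ⟨⟨le_rfl, lt_of_le_of_lt ht.1 ht.2⟩, hz⟩⟩

theorem smooth_logdet {c : κ} {U : Set (ℝ × Cn n)} (hU : IsOpen U) (hψ : ContDiffOn ℝ ∞ (s.ψ c) U)
    (hp : ∀ q ∈ U, 0 < (cHess (s.ψ c) q).det.re) :
    ContDiffOn ℝ ∞ (fun q => Real.log (cHess (s.ψ c) q).det.re) U := by
  have hcd : ContDiffOn ℝ ∞ (fun q => (cHess (s.ψ c) q).det.re) U :=
    Complex.reCLM.contDiff.comp_contDiffOn (contDiffOn_det (contDiffOn_cHess hU hψ))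
  exact hcd.log fun q hq => (hp q hq).ne'

theorem smooth_logOmega (c : κ) :
    ContDiffOn ℝ ∞ (fun z => Real.log (s.Ω c z)) (s.e c).target :=
  (s.vol.smooth c).log fun z hz => (s.vol.pos c z hz).ne'

theorem smooth_Gc (a0 a1 b d : ℝ) {c : κ} {U : Set (ℝ × Cn n)} (hU : IsOpen U)
    (hψ : ContDiffOn ℝ ∞ (s.ψ c) U) (hp : ∀ q ∈ U, 0 < (cHess (s.ψ c) q).det.re)
    (h0 : ∀ q ∈ U, ((0 : ℝ), q.2) ∈ U) (ht : ∀ q ∈ U, q.2 ∈ (s.e c).target) :
    ContDiffOn ℝ ∞ (s.Gc a0 a1 b d c) U := by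
  have hL := smooth_logdet s hU hψ hp
  have hl : ContDiffOn ℝ ∞ (fun q : ℝ × Cn n => Real.log (s.Ω c q.2)) U :=
    (smooth_logOmega s c).comp contDiff_snd.contDiffOn ht
  have hψ0 : ContDiffOn ℝ ∞ (fun q : ℝ × Cn n => s.ψ c (0, q.2)) U :=
    hψ.comp (contDiff_const.prodMk contDiff_snd).contDiffOn h0
  have hfst : ContDiffOn ℝ ∞ (fun q : ℝ × Cn n => q.1) U := contDiff_fst.contDiffOn
  unfold Flow.Gc
  exact (((contDiffOn_const.add (contDiffOn_const.mul hfst)).mul (hL.sub hl)).add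
    (contDiffOn_const.mul ((hψ.sub hψ0).sub (hfst.mul hl)))).add (contDiffOn_const.mul hfst)

/-- the transformation rule of `log det g` -/
theorem logdet_transform {c c' : κ} {z : Cn n} (hz : z ∈ dom s.e c c') : ∃ k : ℝ,
    ∀ t ∈ Ico 0 T, Real.log (cHess (s.ψ c) (t, z)).det.re =
      k + Real.log (cHess (s.ψ c') (t, tr s.e c c' z)).det.re := by
  obtain ⟨U, hU, hsub, hψ, hp, -, -⟩ := exists_good s c
  obtain ⟨U', hU', hsub', hψ', hp', -, -⟩ := exists_good s c'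
  have hz' : tr s.e c c' z ∈ (s.e c').target := (s.e c').map_source hz.2
  refine ⟨Real.log (Complex.normSq (Matrix.of fun k a =>
    cc (fderiv ℝ (tr s.e c c') z ((Pi.single k 1, 0) : Cn n)) a).det), fun t ht => ?_⟩
  have h1 : (t, z) ∈ U := hsub ⟨ht, hz.1⟩
  have h2 : (t, tr s.e c c' z) ∈ U' := hsub' ⟨ht, hz'⟩
  have h3 := det_transform hU hψ hU' hψ' h1 h2 (fderiv ℝ (tr s.e c c') z)
    (fun u => (s.atlas.holo c c').2 z hz u) (s.krf.compat c c' t ht z hz)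
  have h4 := hp _ h1
  have h5 := hp' _ h2
  rw [h3] at h4 ⊢
  refine Real.log_mul ?_ h5.ne'
  intro h6
  rw [h6, zero_mul] at h4
  exact lt_irrefl _ h4

theorem logOmega_transform {c c' : κ} {z : Cn n} (hz : z ∈ dom s.e c c') (hT : 0 < T) :
    Real.log (s.Ω c z) - Real.log (s.Ω c' (tr s.e c c' z)) =
      Real.log (cHess (s.ψ c) (0, z)).det.re -
        Real.log (cHess (s.ψ c') (0, tr s.e c c' z)).det.re := by
  have hz' : tr s.e c c' z ∈ (s.e c').target := (s.e c').map_source hz.2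
  have h1 := congrArg Real.log (s.vol.compat c c' z hz)
  have h0 : (0 : ℝ) ∈ Ico 0 T := ⟨le_rfl, hT⟩
  rw [Real.log_mul (s.vol.pos c z hz.1).ne' (det_re_pos (s.krf.pos c' 0 h0 _ hz')).ne',
    Real.log_mul (s.vol.pos c' _ hz').ne' (det_re_pos (s.krf.pos c 0 h0 _ hz.1)).ne'] at h1
  linarith

theorem phi_transform {c c' : κ} {z : Cn n} (hz : z ∈ dom s.e c c') {t : ℝ} (ht : t ∈ Ico 0 T) :
    s.ψ c (t, z) - s.ψ c (0, z) - t * Real.log (s.Ω c z) =
      s.ψ c' (t, tr s.e c c' z) - s.ψ c' (0, tr s.e c c' z) -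
        t * Real.log (s.Ω c' (tr s.e c c' z)) := by
  obtain ⟨U, hU, hsub, hψ, hp, -, -⟩ := exists_good s c
  obtain ⟨U', hU', hsub', hψ', hp', -, -⟩ := exists_good s c'
  have hz' : tr s.e c c' z ∈ (s.e c').target := (s.e c').map_source hz.2
  obtain ⟨k, hk⟩ := logdet_transform s hz
  have hT : 0 < T := lt_of_le_of_lt ht.1 ht.2
  have h0 : (0 : ℝ) ∈ Ico 0 T := ⟨le_rfl, hT⟩
  have hkk : Real.log (s.Ω c z) - Real.log (s.Ω c' (tr s.e c c' z)) = k := by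
    rw [logOmega_transform s hz hT, hk 0 h0]
    ring
  set z' := tr s.e c c' z with hzz
  have hd : ∀ r ∈ Ico 0 T, HasDerivAt (fun r => s.ψ c (r, z) - s.ψ c' (r, z') - r * k)
      (G.dt (s.ψ c) (r, z) - G.dt (s.ψ c') (r, z') - k) r := by
    intro r hr
    have e1 := hasDerivAt_time (diffAt_of_contDiffOn hU hψ (hsub ⟨hr, hz.1⟩))
    have e2 := hasDerivAt_time (diffAt_of_contDiffOn hU' hψ' (hsub' ⟨hr, hz'⟩))
    have e3 : HasDerivAt (fun r : ℝ => r * k) k r := by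
      simpa using (hasDerivAt_id r).mul_const k
    exact (e1.sub e2).sub e3
  have hzero : ∀ r ∈ Ioo 0 T, G.dt (s.ψ c) (r, z) - G.dt (s.ψ c') (r, z') - k = 0 := by
    intro r hr
    rw [s.krf.flow c r hr z hz.1, s.krf.flow c' r hr z' hz', hk r ⟨hr.1.le, hr.2⟩]
    ring
  rcases ht.1.eq_or_lt with h | h
  · rw [← h]
    ring
  · obtain ⟨r, hr, hr'⟩ := exists_hasDerivAt_eq_slope
      (fun r => s.ψ c (r, z) - s.ψ c' (r, z') - r * k)
      (fun r => G.dt (s.ψ c) (r, z) - G.dt (s.ψ c') (r, z') - k) h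
      (fun r hr => (hd r ⟨hr.1, lt_of_le_of_lt hr.2 ht.2⟩).continuousAt.continuousWithinAt)
      (fun r hr => hd r ⟨hr.1.le, hr.2.trans ht.2⟩)
    rw [hzero r ⟨hr.1, hr.2.trans ht.2⟩] at hr'
    have h2 := hr'.symm
    rw [div_eq_zero_iff] at h2
    rcases h2 with h2 | h2
    · have h3 : Real.log (s.Ω c z) = k + Real.log (s.Ω c' z') := by linarith
      rw [h3]
      linarith
    · exfalso
      linarith

theorem Gc_isFun (a0 a1 b d : ℝ) : IsFun s.e T (s.Gc a0 a1 b d) where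
  smooth c := by
    obtain ⟨U, hU, hsub, hψ, hp, h0, ht⟩ := exists_good s c
    exact ⟨U, hU, hsub, smooth_Gc s a0 a1 b d hU hψ hp h0 ht⟩
  compat c c' t ht z hz := by
    have hT : 0 < T := lt_of_le_of_lt ht.1 ht.2
    obtain ⟨k, hk⟩ := logdet_transform s hz
    have h1 := phi_transform s hz ht
    have h2 := logOmega_transform s hz hT
    have h3 := hk t ht
    have h4 := hk 0 ⟨le_rfl, hT⟩
    have h5 : Real.log (cHess (s.ψ c) (t, z)).det.re - Real.log (s.Ω c z) =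
        Real.log (cHess (s.ψ c') (t, tr s.e c c' z)).det.re -
          Real.log (s.Ω c' (tr s.e c c' z)) := by linarith
    simp only [Flow.Gc]
    rw [h1, h5]

/-- the time derivative of `Gc` -/
theorem dt_Gc (a0 a1 b d : ℝ) {c : κ} {t : ℝ} (ht : t ∈ Ioo 0 T) {z : Cn n}
    (hz : z ∈ (s.e c).target) :
    G.dt (s.Gc a0 a1 b d c) (t, z) = (a1 + b) *
      (Real.log (cHess (s.ψ c) (t, z)).det.re - Real.log (s.Ω c z)) +
      (a0 + a1 * t) * G.dt (fun q => Real.log (cHess (s.ψ c) q).det.re) (t, z) + d := by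
  obtain ⟨U, hU, hsub, hψ, hp, h0, htg⟩ := exists_good s c
  have hm : (t, z) ∈ U := hsub ⟨⟨ht.1.le, ht.2⟩, hz⟩
  have e1 := hasDerivAt_time (diffAt_of_contDiffOn hU (smooth_Gc s a0 a1 b d hU hψ hp h0 htg) hm)
  have e2 := hasDerivAt_time (diffAt_of_contDiffOn hU (smooth_logdet s hU hψ hp) hm)
  have e3 := hasDerivAt_time (diffAt_of_contDiffOn hU hψ hm)
  rw [s.krf.flow c t ht z hz] at e3
  have e4 : HasDerivAt (fun r : ℝ => a0 + a1 * r) a1 t := by
    simpa using ((hasDerivAt_id t).const_mul a1).const_add a0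
  have e5 : HasDerivAt (fun r : ℝ => r * Real.log (s.Ω c z)) (Real.log (s.Ω c z)) t := by
    simpa using (hasDerivAt_id t).mul_const (Real.log (s.Ω c z))
  have e6 : HasDerivAt (fun r : ℝ => d * r) d t := by
    simpa using (hasDerivAt_id t).const_mul d
  have e7 := ((e4.mul (e2.sub_const (Real.log (s.Ω c z)))).add
    (((e3.sub_const (s.ψ c (0, z))).sub e5).const_mul b)).add e6
  have e8 := e1.unique e7
  rw [e8]
  ring

/-- the Levi form of `Gc` -/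
theorem lev_Gc (a0 a1 b d : ℝ) {c : κ} {t : ℝ} (ht : t ∈ Ico 0 T) {z : Cn n}
    (hz : z ∈ (s.e c).target) (u : Cn n) :
    lev (s.Gc a0 a1 b d c) u (t, z) = (a0 + a1 * t) *
      (lev (fun q => Real.log (cHess (s.ψ c) q).det.re) u (t, z) -
        levz (fun z => Real.log (s.Ω c z)) u z) +
      b * (lev (s.ψ c) u (t, z) - lev (s.ψ c) u (0, z) -
        t * levz (fun z => Real.log (s.Ω c z)) u z) := by
  obtain ⟨U, hU, hsub, hψ, hp, h0, htg⟩ := exists_good s c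
  have hm : (t, z) ∈ U := hsub ⟨ht, hz⟩
  have hm0 : (0, z) ∈ U := h0 _ hm
  have hG := smooth_Gc s a0 a1 b d hU hψ hp h0 htg
  have hL := smooth_logdet s hU hψ hp
  rw [← levz_slice hU hG hm, ← levz_slice hU hL hm, ← levz_slice hU hψ hm,
    ← levz_slice hU hψ hm0]
  have hslice : ∀ (f : ℝ × Cn n → ℝ) (r : ℝ), ContDiffOn ℝ ∞ f U → (r, z) ∈ U →
      ContDiffAt ℝ 2 (fun x => f (r, x)) z := by
    intro f r hf hr
    have h1 : ContDiffAt ℝ ∞ f (r, z) := hf.contDiffAt (hU.mem_nhds hr)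
    have h2 : ContDiffAt ℝ ∞ (fun x => f (r, x)) z :=
      ContDiffAt.comp (f := fun x : Cn n => ((r, x) : ℝ × Cn n)) z h1
        (contDiffAt_const.prodMk contDiffAt_id)
    exact h2.of_le (WithTop.coe_le_coe.2 le_top)
  have d1 := hslice _ t hL hm
  have d2 := hslice _ t hψ hm
  have d3 := hslice _ 0 hψ hm0
  have d4 : ContDiffAt ℝ 2 (fun z => Real.log (s.Ω c z)) z :=
    ((smooth_logOmega s c).contDiffAt ((s.e c).open_target.mem_nhds hz)).of_le
      (WithTop.coe_le_coe.2 le_top)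
  have e1 : (fun x => s.Gc a0 a1 b d c (t, x)) = fun x =>
      ((a0 + a1 * t) * (Real.log (cHess (s.ψ c) (t, x)).det.re - Real.log (s.Ω c x)) +
        b * (s.ψ c (t, x) - s.ψ c (0, x) - t * Real.log (s.Ω c x))) + d * t := rfl
  have f1 : ContDiffAt ℝ 2 (fun x => (a0 + a1 * t) *
      (Real.log (cHess (s.ψ c) (t, x)).det.re - Real.log (s.Ω c x))) z :=
    contDiffAt_const.mul (d1.sub d4)
  have f2 : ContDiffAt ℝ 2 (fun x => t * Real.log (s.Ω c x)) z := contDiffAt_const.mul d4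
  have f3 : ContDiffAt ℝ 2 (fun x => b * (s.ψ c (t, x) - s.ψ c (0, x) -
      t * Real.log (s.Ω c x))) z := contDiffAt_const.mul ((d2.sub d3).sub f2)
  rw [e1, levz_add (f1.add f3) contDiffAt_const, levz_add f1 f3,
    levz_const_mul _ (d1.sub d4), levz_sub d1 d4, levz_const_mul _ ((d2.sub d3).sub f2),
    levz_sub (d2.sub d3) f2, levz_sub d2 d3, levz_const_mul _ d4, levz_const, add_zero]

end Bd

namespace Bd

/-- the Levi form of `ψ(0)` -/
theorem levz_psi0 (hT : 0 < T) {c : κ} {z : Cn n} (hz : z ∈ (s.e c).target) (u : Cn n) :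
    levz (fun x => s.ψ c (0, x)) u z = lev (s.ψ c) u (0, z) := by
  obtain ⟨U, hU, hsub, hψ, hp, h0, htg⟩ := exists_good s c
  exact levz_slice hU hψ (hsub ⟨⟨le_rfl, hT⟩, hz⟩) u

theorem smooth_psi0 (hT : 0 < T) (c : κ) :
    ContDiffOn ℝ ∞ (fun x => s.ψ c (0, x)) (s.e c).target := by
  obtain ⟨U, hU, hsub, hψ, hp, h0, htg⟩ := exists_good s c
  exact hψ.comp (contDiff_const.prodMk contDiff_id).contDiffOn
    fun x hx => hsub ⟨⟨le_rfl, hT⟩, hx⟩

theorem lev_psi_pos {c : κ} {t : ℝ} (ht : t ∈ Ico 0 T) {z : Cn n} (hz : z ∈ (s.e c).target)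
    {u : Cn n} (hu : u ≠ 0) : 0 < lev (s.ψ c) u (t, z) := by
  obtain ⟨U, hU, hsub, hψ, hp, h0, htg⟩ := exists_good s c
  exact lev_pos hU hψ (hsub ⟨ht, hz⟩) (s.krf.pos c t ht z hz) hu

/-- the Levi form of `log Ω` in two charts -/
theorem levz_logOmega_transform (hT : 0 < T) {c c' : κ} {z : Cn n} (hz : z ∈ dom s.e c c')
    (u : Cn n) : levz (fun z => Real.log (s.Ω c z)) u z =
      levz (fun z => Real.log (s.Ω c' z)) (fderiv ℝ (tr s.e c c') z u) (tr s.e c c' z) := by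
  have hz' : tr s.e c c' z ∈ (s.e c').target := (s.e c').map_source hz.2
  have ht : T / 2 ∈ Ico 0 T := ⟨by linarith, by linarith⟩
  have h0 : (0 : ℝ) ∈ Ico 0 T := ⟨le_rfl, hT⟩
  set u' := fderiv ℝ (tr s.e c c') z u with hu'
  have h1 := lev_Gc s 0 0 1 0 ht hz.1 u
  have h2 := lev_Gc s 0 0 1 0 ht hz' u'
  have h3 := s.krf.compat c c' (T / 2) ht z hz u
  have h4 := s.krf.compat c c' 0 h0 z hz u
  have hG := Gc_isFun s 0 0 1 0
  obtain ⟨U, hU, hsub, hψ, hp, hU0, htg⟩ := exists_good s c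
  obtain ⟨U', hU', hsub', hψ', hp', hU0', htg'⟩ := exists_good s c'
  have hs1 := smooth_Gc s 0 0 1 0 hU hψ hp hU0 htg
  have hs2 := smooth_Gc s 0 0 1 0 hU' hψ' hp' hU0' htg'
  have h5 : lev (s.Gc 0 0 1 0 c) u (T / 2, z) = lev (s.Gc 0 0 1 0 c') u' (T / 2, tr s.e c c' z) := by
    have hm' : (T / 2, tr s.e c c' z) ∈ U' := hsub' ⟨ht, hz'⟩
    rw [← levz_slice hU hs1 (hsub ⟨ht, hz.1⟩), ← levz_slice hU' hs2 hm']
    have hs3 : ContDiffOn ℝ ∞ (fun x => s.Gc 0 0 1 0 c' (T / 2, x)) (s.e c').target :=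
      hs2.comp (contDiff_const.prodMk contDiff_id).contDiffOn fun x hx => hsub' ⟨ht, hx⟩
    rw [← levz_comp (s.e c').open_target hs3 (isOpen_dom c c') (s.atlas.holo c c') hz hz' u]
    apply levz_congr
    filter_upwards [(isOpen_dom (e := s.e) c c').mem_nhds hz] with x hx
    exact hG.compat c c' (T / 2) ht x hx
  have h6 : T / 2 * levz (fun z => Real.log (s.Ω c z)) u z =
      T / 2 * levz (fun z => Real.log (s.Ω c' z)) u' (tr s.e c c' z) := by
    linarith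
  exact mul_left_cancel₀ (by positivity) h6

/-- the geometric constants of the initial data -/
theorem exists_const [CompactSpace M] (hT : 0 < T) : ∃ C : ℝ, 0 ≤ C ∧
    ∀ c, ∀ z ∈ (s.e c).target,
      (∀ u, levz (fun z => Real.log (s.Ω c z)) u z ≤ C * lev (s.ψ c) u (0, z)) ∧
      Real.log (cHess (s.ψ c) (0, z)).det.re - Real.log (s.Ω c z) ≤ C := by
  have h0 : (0 : ℝ) ∈ Ico 0 T := ⟨le_rfl, hT⟩
  have key : ∃ C : ℝ, 0 ≤ C ∧ ∀ c, ∀ z ∈ (s.e c).target, (s.e c).symm z ∈ (univ : Set M) →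
      (∀ u, levz (fun z => Real.log (s.Ω c z)) u z ≤ C * lev (s.ψ c) u (0, z)) ∧
      Real.log (cHess (s.ψ c) (0, z)).det.re - Real.log (s.Ω c z) ≤ C := by
    refine isCompact_univ.induction_on (p := fun S : Set M => ∃ C : ℝ, 0 ≤ C ∧
      ∀ c, ∀ z ∈ (s.e c).target, (s.e c).symm z ∈ S →
      (∀ u, levz (fun z => Real.log (s.Ω c z)) u z ≤ C * lev (s.ψ c) u (0, z)) ∧
      Real.log (cHess (s.ψ c) (0, z)).det.re - Real.log (s.Ω c z) ≤ C) ?_ ?_ ?_ ?_
    · exact ⟨0, le_rfl, fun c z _ h => absurd h (notMem_empty _)⟩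
    · rintro S S' hSS' ⟨C, hC, h⟩
      exact ⟨C, hC, fun c z hz hzS => h c z hz (hSS' hzS)⟩
    · rintro S S' ⟨C, hC, h⟩ ⟨C', hC', h'⟩
      refine ⟨max C C', hC.trans (le_max_left _ _), fun c z hz hzS => ?_⟩
      have hnn : ∀ u, 0 ≤ lev (s.ψ c) u (0, z) := by
        intro u
        by_cases hu : u = 0
        · rw [hu, ← levz_psi0 s hT hz]
          have := levz_smul (s.e c).open_target (smooth_psi0 s hT c) hz 0 0
          simp only [smul_zero] at this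
          rw [this]
          norm_num
        · exact (lev_psi_pos s h0 hz hu).le
      rcases hzS with hzS | hzS
      · obtain ⟨h1, h2⟩ := h c z hz hzS
        exact ⟨fun u => (h1 u).trans (mul_le_mul_of_nonneg_right (le_max_left _ _) (hnn u)),
          h2.trans (le_max_left _ _)⟩
      · obtain ⟨h1, h2⟩ := h' c z hz hzS
        exact ⟨fun u => (h1 u).trans (mul_le_mul_of_nonneg_right (le_max_right _ _) (hnn u)),
          h2.trans (le_max_right _ _)⟩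
    · intro x _
      obtain ⟨c0, hx⟩ := s.atlas.cover x
      have hz0 : s.e c0 x ∈ (s.e c0).target := (s.e c0).map_source hx
      obtain ⟨C, hC, hev⟩ := levz_le_local (s.e c0).open_target (smooth_logOmega s c0)
        (smooth_psi0 s hT c0) hz0 (fun y hy u hu => by
          rw [levz_psi0 s hT hy]
          exact lev_psi_pos s h0 hy hu)
      obtain ⟨U, hU, hsub, hψ, hp, hU0, htg⟩ := exists_good s c0
      have hct : ContinuousAt (fun z => Real.log (cHess (s.ψ c0) (0, z)).det.re -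
          Real.log (s.Ω c0 z)) (s.e c0 x) := by
        have e1 : ContinuousAt (fun q => Real.log (cHess (s.ψ c0) q).det.re) (0, s.e c0 x) :=
          (smooth_logdet s hU hψ hp).continuousOn.continuousAt (hU.mem_nhds (hsub ⟨h0, hz0⟩))
        have e2 : ContinuousAt (fun z : Cn n => Real.log (cHess (s.ψ c0) (0, z)).det.re)
            (s.e c0 x) :=
          ContinuousAt.comp (f := fun z : Cn n => ((0 : ℝ), z)) (x := s.e c0 x) e1
            (continuousAt_const.prodMk continuousAt_id)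
        exact e2.sub ((smooth_logOmega s c0).continuousOn.continuousAt
          ((s.e c0).open_target.mem_nhds hz0))
      set C1 : ℝ := Real.log (cHess (s.ψ c0) (0, s.e c0 x)).det.re -
          Real.log (s.Ω c0 (s.e c0 x)) with hC1
      have hev2 : ∀ᶠ z in 𝓝 (s.e c0 x), Real.log (cHess (s.ψ c0) (0, z)).det.re -
          Real.log (s.Ω c0 z) < C1 + 1 := hct.eventually_lt_const (by linarith)
      have hev3 : ∀ᶠ y in 𝓝 x, y ∈ (s.e c0).source ∧
          (∀ u, levz (fun z => Real.log (s.Ω c0 z)) u (s.e c0 y) ≤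
            C * levz (fun z => s.ψ c0 (0, z)) u (s.e c0 y)) ∧
          Real.log (cHess (s.ψ c0) (0, s.e c0 y)).det.re - Real.log (s.Ω c0 (s.e c0 y)) <
            C1 + 1 := by
        have hc := (s.e c0).continuousAt hx
        filter_upwards [(s.e c0).open_source.mem_nhds hx, hc.eventually hev, hc.eventually hev2]
          with y h1 h2 h3
        exact ⟨h1, h2, h3⟩
      refine ⟨{y | y ∈ (s.e c0).source ∧
          (∀ u, levz (fun z => Real.log (s.Ω c0 z)) u (s.e c0 y) ≤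
            C * levz (fun z => s.ψ c0 (0, z)) u (s.e c0 y)) ∧
          Real.log (cHess (s.ψ c0) (0, s.e c0 y)).det.re - Real.log (s.Ω c0 (s.e c0 y)) <
            C1 + 1}, mem_nhdsWithin_of_mem_nhds hev3, max C (C1 + 1), hC.trans (le_max_left _ _),
        fun c z hz hzS => ?_⟩
      obtain ⟨h1, h2, h3⟩ := hzS
      have hzd : z ∈ dom s.e c c0 := ⟨hz, h1⟩
      have hz' : tr s.e c c0 z ∈ (s.e c0).target := (s.e c0).map_source hzd.2
      refine ⟨fun u => ?_, ?_⟩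
      · have e1 := h2 (fderiv ℝ (tr s.e c c0) z u)
        have e2 : s.e c0 ((s.e c).symm z) = tr s.e c c0 z := rfl
        rw [e2, levz_psi0 s hT hz', ← s.krf.compat c c0 0 h0 z hzd u,
          ← levz_logOmega_transform s hT hzd u] at e1
        have hnn : 0 ≤ lev (s.ψ c) u (0, z) := by
          by_cases hu : u = 0
          · rw [hu, ← levz_psi0 s hT hz]
            have := levz_smul (s.e c).open_target (smooth_psi0 s hT c) hz 0 0
            simp only [smul_zero] at this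
            rw [this]
            norm_num
          · exact (lev_psi_pos s h0 hz hu).le
        exact e1.trans (mul_le_mul_of_nonneg_right (le_max_left _ _) hnn)
      · have e1 := logOmega_transform s hzd hT
        have e2 : s.e c0 ((s.e c).symm z) = tr s.e c c0 z := rfl
        rw [e2] at h3
        have e3 := le_max_right C (C1 + 1)
        linarith
  obtain ⟨C, hC, h⟩ := key
  exact ⟨C, hC, fun c z hz => h c z hz (mem_univ _)⟩

/-- `φ' ≤ C` where `φ` has nonpositive Levi form -/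
theorem logdet_le {C : ℝ} (hC : 0 ≤ C) {c : κ} {t : ℝ} (ht : t ∈ Ico 0 T) {z : Cn n}
    (hz : z ∈ (s.e c).target)
    (h1 : ∀ u, levz (fun z => Real.log (s.Ω c z)) u z ≤ C * lev (s.ψ c) u (0, z))
    (h2 : Real.log (cHess (s.ψ c) (0, z)).det.re - Real.log (s.Ω c z) ≤ C)
    (h3 : ∀ u, lev (s.Gc 0 0 1 0 c) u (t, z) ≤ 0) :
    Real.log (cHess (s.ψ c) (t, z)).det.re - Real.log (s.Ω c z) ≤
      n * Real.log (1 + T * C) + C := by
  obtain ⟨U, hU, hsub, hψ, hp, hU0, htg⟩ := exists_good s c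
  have hT : 0 < T := lt_of_le_of_lt ht.1 ht.2
  have h0 : (0 : ℝ) ∈ Ico 0 T := ⟨le_rfl, hT⟩
  have hm : (t, z) ∈ U := hsub ⟨ht, hz⟩
  have hm0 : (0, z) ∈ U := hU0 _ hm
  have hnn : ∀ u, 0 ≤ lev (s.ψ c) u (0, z) := by
    intro u
    by_cases hu : u = 0
    · rw [hu, ← levz_psi0 s hT hz]
      have := levz_smul (s.e c).open_target (smooth_psi0 s hT c) hz 0 0
      simp only [smul_zero] at this
      rw [this]
      norm_num
    · exact (lev_psi_pos s h0 hz hu).le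
  have h4 : ∀ u, lev (s.ψ c) u (t, z) ≤ (1 + T * C) * lev (s.ψ c) u (0, z) := by
    intro u
    have e1 := h3 u
    rw [lev_Gc s 0 0 1 0 ht hz u] at e1
    have e2 : t * levz (fun z => Real.log (s.Ω c z)) u z ≤ T * (C * lev (s.ψ c) u (0, z)) := by
      calc t * levz (fun z => Real.log (s.Ω c z)) u z ≤ t * (C * lev (s.ψ c) u (0, z)) :=
            mul_le_mul_of_nonneg_left (h1 u) ht.1
        _ ≤ T * (C * lev (s.ψ c) u (0, z)) :=
            mul_le_mul_of_nonneg_right ht.2.le (mul_nonneg hC (hnn u))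
    linarith
  have h5 := det_le_of_lev_le hU hψ hU hψ hm hm0 (s.krf.pos c t ht z hz) (s.krf.pos c 0 h0 z hz) h4
  have hpos : 0 < 1 + T * C := by positivity
  have h6 : Real.log (cHess (s.ψ c) (t, z)).det.re ≤
      Real.log ((1 + T * C) ^ n * (cHess (s.ψ c) (0, z)).det.re) :=
    Real.log_le_log (hp _ hm) h5
  rw [Real.log_mul (pow_pos hpos n).ne' (hp _ hm0).ne', Real.log_pow] at h6
  linarith

end Bd

open Bd

/-- the evolution of `Gc` -/
theorem Bd.Gc_evol (a0 a1 b d : ℝ) {c : κ} {t : ℝ} (ht : t ∈ Ioo 0 T) {z : Cn n}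
    (hz : z ∈ (s.e c).target) {W : Fin n → Cn n} (hW : IsUFrame (s.ψ c) (t, z) W) :
    G.dt (s.Gc a0 a1 b d c) (t, z) = ∑ k, lev (s.Gc a0 a1 b d c) (W k) (t, z) +
      (a1 + b) * (Real.log (cHess (s.ψ c) (t, z)).det.re - Real.log (s.Ω c z)) + d +
      (a0 + (a1 + b) * t) * ∑ k, levz (fun z => Real.log (s.Ω c z)) (W k) z -
      b * (n - ∑ k, lev (s.ψ c) (W k) (0, z)) := by
  obtain ⟨U, hU, hsub, hψ, hp, hU0, htg⟩ := exists_good s c
  have hV : IsOpen (Ioo 0 T ×ˢ (s.e c).target) := isOpen_Ioo.prod (s.e c).open_target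
  have hVU : Ioo 0 T ×ˢ (s.e c).target ⊆ U := fun q hq => hsub ⟨⟨hq.1.1.le, hq.1.2⟩, hq.2⟩
  have hψV := hψ.mono hVU
  have hposV : ∀ q ∈ Ioo 0 T ×ˢ (s.e c).target, (cHess (s.ψ c) q).PosDef := fun q hq =>
    s.krf.pos c q.1 ⟨hq.1.1.le, hq.1.2⟩ q.2 hq.2
  have hflow : ∀ q ∈ Ioo 0 T ×ˢ (s.e c).target,
      G.dt (s.ψ c) q = Real.log (cHess (s.ψ c) q).det.re := fun q hq =>
    s.krf.flow c q.1 hq.1 q.2 hq.2
  have hm : (t, z) ∈ Ioo 0 T ×ˢ (s.e c).target := ⟨ht, hz⟩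
  have h1 := evol_logdet hV hψV hposV hflow hm hW
  have h2 := trace_frame hV hψV hm hW
  have h3 : ∀ k, lev (s.Gc a0 a1 b d c) (W k) (t, z) = _ := fun k =>
    lev_Gc s a0 a1 b d ⟨ht.1.le, ht.2⟩ hz (W k)
  rw [dt_Gc s a0 a1 b d ht hz, h1]
  simp_rw [h3]
  rw [Finset.sum_add_distrib, ← Finset.mul_sum, ← Finset.mul_sum, Finset.sum_sub_distrib,
    Finset.sum_sub_distrib, Finset.sum_sub_distrib, ← Finset.mul_sum, h2]
  ring

/-- the evolution of `(T - t) φ' + φ + n t` -/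
theorem Bd.Uc_evol {c : κ} {t : ℝ} (ht : t ∈ Ioo 0 T) {z : Cn n} (hz : z ∈ (s.e c).target)
    {W : Fin n → Cn n} (hW : IsUFrame (s.ψ c) (t, z) W) :
    G.dt (s.Gc T (-1) 1 n c) (t, z) = ∑ k, lev (s.Gc T (-1) 1 n c) (W k) (t, z) +
      ∑ k, levz (s.Θ c) (W k) z := by
  simp_rw [← s.theta c z hz]
  rw [Bd.Gc_evol s T (-1) 1 n ht hz hW, Finset.sum_add_distrib, ← Finset.mul_sum]
  ring

/-- `φ ≤ C t` -/
theorem Bd.phi_le [CompactSpace M] {C : ℝ} (hC : 0 ≤ C)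
    (h : ∀ c, ∀ z ∈ (s.e c).target,
      (∀ u, levz (fun z => Real.log (s.Ω c z)) u z ≤ C * lev (s.ψ c) u (0, z)) ∧
      Real.log (cHess (s.ψ c) (0, z)).det.re - Real.log (s.Ω c z) ≤ C) {c : κ} {t : ℝ}
    (ht : t ∈ Ico 0 T) {z : Cn n} (hz : z ∈ (s.e c).target) :
    s.ψ c (t, z) - s.ψ c (0, z) - t * Real.log (s.Ω c z) ≤
      (n * Real.log (1 + T * C) + C) * t := by
  have key := max_principle s.atlas (Gc_isFun s 0 0 1 (-(n * Real.log (1 + T * C) + C))) ht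
    (K := 0) (fun c z hz => by
      simp [Flow.Gc]) (fun c r hr z hz hlev => by
      have hrT : r < T := lt_of_le_of_lt hr.2 ht.2
      have h0 : r ∈ Ico 0 T := ⟨hr.1.le, hrT⟩
      rw [dt_Gc s _ _ _ _ ⟨hr.1, hrT⟩ hz]
      have h1 := logdet_le s hC h0 hz (h c z hz).1 (h c z hz).2 fun u => by
        have h2 := hlev u
        rw [lev_Gc s _ _ _ _ h0 hz] at h2 ⊢
        exact h2
      linarith) c t ⟨ht.1, le_rfl⟩ z hz
  simp only [Flow.Gc] at key
  linarith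

/-- `t φ' ≤ φ + n t` -/
theorem Bd.t_mul_le [CompactSpace M] {c : κ} {t : ℝ} (ht : t ∈ Ico 0 T) {z : Cn n}
    (hz : z ∈ (s.e c).target) :
    t * (Real.log (cHess (s.ψ c) (t, z)).det.re - Real.log (s.Ω c z)) ≤
      s.ψ c (t, z) - s.ψ c (0, z) - t * Real.log (s.Ω c z) + n * t := by
  have key := max_principle s.atlas (Gc_isFun s 0 1 (-1) (-n)) ht
    (K := 0) (fun c z hz => by
      simp [Flow.Gc]) (fun c r hr z hz hlev => by
      have hrT : r < T := lt_of_le_of_lt hr.2 ht.2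
      have h0 : r ∈ Ico 0 T := ⟨hr.1.le, hrT⟩
      have hT : 0 < T := hr.1.trans hrT
      obtain ⟨U, hU, hsub, hψ, hp, hU0, htg⟩ := exists_good s c
      obtain ⟨W, hW, -, -⟩ := exists_uframe hU hψ (hsub ⟨h0, hz⟩) (s.krf.pos c r h0 z hz)
      rw [Bd.Gc_evol s _ _ _ _ ⟨hr.1, hrT⟩ hz hW]
      have h1 : ∑ k, lev (s.Gc 0 1 (-1) (-(n : ℝ)) c) (W k) (r, z) ≤ 0 :=
        Finset.sum_nonpos fun k _ => hlev (W k)
      have h2 : 0 ≤ ∑ k, lev (s.ψ c) (W k) (0, z) := by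
        refine Finset.sum_nonneg fun k _ => ?_
        by_cases hu : W k = 0
        · rw [hu, ← levz_psi0 s hT hz]
          have := levz_smul (s.e c).open_target (smooth_psi0 s hT c) hz 0 0
          simp only [smul_zero] at this
          rw [this]
          norm_num
        · exact (lev_psi_pos s ⟨le_rfl, hT⟩ hz hu).le
      linarith) c t ⟨ht.1, le_rfl⟩ z hz
  simp only [Flow.Gc] at key
  linarith


/-! ### The final statements -/

section Final

variable (F : Flow n M κ T)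

theorem Bd.phi_eq_Gc : F.phi = F.Gc 0 0 1 0 := by
  funext c q
  simp [Flow.phi, Flow.Gc]

theorem Bd.dphi_eq_Gc : F.dphi = F.Gc 1 0 0 0 := by
  funext c q
  simp [Flow.dphi, Flow.Gc]

theorem Flow.phi_isFun : IsFun F.e T F.phi := by
  rw [Bd.phi_eq_Gc]
  exact Bd.Gc_isFun F _ _ _ _

theorem Flow.Phi_eq {c : κ} {t : ℝ} (ht : t ∈ Ico 0 T) {p : M} (hp : p ∈ (F.e c).source) :
    F.Phi t p = F.phi c (t, F.e c p) :=
  glob_eq F.atlas F.phi_isFun ht hp

theorem Flow.Phi_continuousOn :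
    ContinuousOn (fun q : ℝ × M => F.Phi q.1 q.2) (Ico 0 T ×ˢ univ) :=
  glob_continuousOn F.atlas F.phi_isFun

theorem Flow.lev_phi {c : κ} {t : ℝ} (ht : t ∈ Ico 0 T) {z : Cn n} (hz : z ∈ (F.e c).target)
    (u : Cn n) : lev (F.phi c) u (t, z) =
      lev (F.ψ c) u (t, z) - (1 - t / T) * lev (F.ψ c) u (0, z) - t / T * levz (F.Θ c) u z := by
  have hT : T ≠ 0 := (lt_of_le_of_lt ht.1 ht.2).ne'
  rw [Bd.phi_eq_Gc, Bd.lev_Gc F 0 0 1 0 ht hz u, ← F.theta c z hz u]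
  field_simp
  ring

theorem Flow.dt_phi {c : κ} {t : ℝ} (ht : t ∈ Ioo 0 T) {z : Cn n} (hz : z ∈ (F.e c).target) :
    G.dt (F.phi c) (t, z) = F.dphi c (t, z) := by
  rw [Bd.phi_eq_Gc, Bd.dt_Gc F 0 0 1 0 ht hz]
  simp [Flow.dphi]

theorem Bd.dphi_zero_bound [CompactSpace M] (hT : 0 < T) :
    ∃ C : ℝ, 0 ≤ C ∧ ∀ c, ∀ z ∈ (F.e c).target, |F.dphi c (0, z)| ≤ C := by
  have hf : IsFun F.e T F.dphi := by
    rw [Bd.dphi_eq_Gc]
    exact Bd.Gc_isFun F _ _ _ _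
  have h0 : (0 : ℝ) ∈ Ico 0 T := ⟨le_rfl, hT⟩
  have hc : ContinuousOn (fun p : M => glob F.atlas F.dphi (0, p)) univ :=
    (glob_continuousOn F.atlas hf).comp (f := fun p : M => ((0 : ℝ), p)) (by fun_prop)
      fun p _ => ⟨h0, mem_univ _⟩
  obtain ⟨C, hC⟩ := isCompact_univ.exists_bound_of_continuousOn hc
  refine ⟨max C 0, le_max_right _ _, fun c z hz => ?_⟩
  have h1 := hC ((F.e c).symm z) (mem_univ _)
  rw [glob_eq F.atlas hf h0 ((F.e c).map_target hz), (F.e c).right_inv hz,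
    Real.norm_eq_abs] at h1
  exact h1.trans (le_max_left _ _)

/-- `φ ≤ C t` and `φ' ≤ C` -/
theorem Bd.upper [CompactSpace M] : ∃ C : ℝ, 0 ≤ C ∧
    ∀ c, ∀ t ∈ Ico 0 T, ∀ z ∈ (F.e c).target, F.phi c (t, z) ≤ C * t ∧ F.dphi c (t, z) ≤ C := by
  by_cases hT : 0 < T
  swap
  · exact ⟨0, le_rfl, fun c t ht => absurd (lt_of_le_of_lt ht.1 ht.2) hT⟩
  obtain ⟨C, hC, h⟩ := Bd.exists_const F hT
  set C1 : ℝ := n * Real.log (1 + T * C) + C with hC1
  have hlog : 0 ≤ Real.log (1 + T * C) := Real.log_nonneg (by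
    have := mul_nonneg hT.le hC
    linarith)
  have hn : (0 : ℝ) ≤ n := Nat.cast_nonneg n
  have hC1' : C ≤ C1 := by
    have : 0 ≤ n * Real.log (1 + T * C) := mul_nonneg hn hlog
    linarith
  refine ⟨C1 + n, by linarith, fun c t ht z hz => ?_⟩
  have h1 := Bd.phi_le F hC h ht hz
  have h2 := Bd.t_mul_le F ht hz
  rw [← hC1] at h1
  have h1' : F.phi c (t, z) ≤ C1 * t := h1
  refine ⟨?_, ?_⟩
  · have := mul_nonneg hn ht.1
    linarith
  · rcases ht.1.eq_or_lt with h0 | h0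
    · have h3 := (h c z hz).2
      rw [← h0]
      simp only [Flow.dphi]
      linarith
    · refine le_of_mul_le_mul_left ?_ h0
      have h3 : t * F.dphi c (t, z) ≤ F.phi c (t, z) + n * t := h2
      linarith

theorem Flow.dphi_le [CompactSpace M] : ∃ C : ℝ, 0 ≤ C ∧
    ∀ c, ∀ t ∈ Ico 0 T, ∀ z ∈ (F.e c).target, F.dphi c (t, z) ≤ C := by
  obtain ⟨C, hC, h⟩ := Bd.upper F
  exact ⟨C, hC, fun c t ht z hz => (h c t ht z hz).2⟩

/-- used at the minima of `φ` and of its variants -/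
theorem Flow.dphi_ge_of_le [CompactSpace M] : ∃ C : ℝ, 0 ≤ C ∧
    ∀ c, ∀ t ∈ Ico 0 T, ∀ z ∈ (F.e c).target,
      (∀ u, (1 - t / T) * lev (F.ψ c) u (0, z) ≤ lev (F.ψ c) u (t, z)) →
      n * Real.log (1 - t / T) - C ≤ F.dphi c (t, z) := by
  by_cases hT : 0 < T
  swap
  · exact ⟨0, le_rfl, fun c t ht => absurd (lt_of_le_of_lt ht.1 ht.2) hT⟩
  obtain ⟨C, hC, h⟩ := Bd.dphi_zero_bound F hT
  refine ⟨C, hC, fun c t ht z hz hlev => ?_⟩
  obtain ⟨U, hU, hsub, hψ, hp, hU0, htg⟩ := Bd.exists_good F c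
  have hd : 0 < 1 - t / T := by
    have := (div_lt_one hT).2 ht.2
    linarith
  have h0 : (0 : ℝ) ∈ Ico 0 T := ⟨le_rfl, hT⟩
  have hm : (t, z) ∈ U := hsub ⟨ht, hz⟩
  have hm0 : ((0 : ℝ), z) ∈ U := hsub ⟨h0, hz⟩
  have h5 := det_le_of_lev_le hU hψ hU hψ hm0 hm (F.krf.pos c 0 h0 z hz) (F.krf.pos c t ht z hz)
    (C := (1 - t / T)⁻¹) fun u => by
      rw [inv_mul_eq_div, le_div_iff₀ hd, mul_comm]
      exact hlev u
  have h6 := Real.log_le_log (hp _ hm0) h5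
  rw [Real.log_mul (pow_pos (inv_pos.2 hd) n).ne' (hp _ hm).ne', Real.log_pow,
    Real.log_inv] at h6
  have h7 := (abs_le.1 (h c z hz)).1
  simp only [Flow.dphi] at h7 ⊢
  linarith

/-- subtraction from a function of the time -/
theorem Bd.barrier_isFun {f : κ → ℝ × Cn n → ℝ} (hf : IsFun F.e T f) {b : ℝ → ℝ}
    (hb : ContDiffOn ℝ ∞ b (Iio T)) : IsFun F.e T fun c q => b q.1 - f c q where
  smooth c := by
    obtain ⟨U, hU, hsub, hs⟩ := hf.smooth c
    refine ⟨U ∩ Prod.fst ⁻¹' Iio T, hU.inter (isOpen_Iio.preimage continuous_fst),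
      fun q hq => ⟨hsub hq, hq.1.2⟩, ?_⟩
    exact (hb.comp contDiff_fst.contDiffOn fun q hq => hq.2).sub (hs.mono inter_subset_left)
  compat c c' t ht z hz := by
    simp only [hf.compat c c' t ht z hz]

theorem Bd.barrier_dt {f : κ → ℝ × Cn n → ℝ} (hf : IsFun F.e T f) {b : ℝ → ℝ}
    (hb : ContDiffOn ℝ ∞ b (Iio T)) {b' : ℝ} {c : κ} {t : ℝ} (ht : t ∈ Ico 0 T) {z : Cn n}
    (hz : z ∈ (F.e c).target) (hb' : HasDerivAt b b' t) :
    G.dt (fun q => b q.1 - f c q) (t, z) = b' - G.dt (f c) (t, z) := by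
  have h1 := hasDerivAt_time ((((Bd.barrier_isFun F hf hb).contDiffAt ht hz).of_le
    two_le_infty).differentiableAt (by norm_num))
  have h2 := hasDerivAt_time (((hf.contDiffAt ht hz).of_le two_le_infty).differentiableAt
    (by norm_num))
  exact h1.unique (hb'.sub h2)

theorem Bd.barrier_lev {f : κ → ℝ × Cn n → ℝ} (hf : IsFun F.e T f) {b : ℝ → ℝ}
    (hb : ContDiffOn ℝ ∞ b (Iio T)) {c : κ} {t : ℝ} (ht : t ∈ Ico 0 T) {z : Cn n}
    (hz : z ∈ (F.e c).target) (u : Cn n) :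
    lev (fun q => b q.1 - f c q) u (t, z) = -lev (f c) u (t, z) := by
  obtain ⟨U, hU, hsub, hs⟩ := (Bd.barrier_isFun F hf hb).smooth c
  obtain ⟨V, hV, hsub', hs'⟩ := hf.smooth c
  rw [← levz_slice hU hs (hsub ⟨ht, hz⟩), ← levz_slice hV hs' (hsub' ⟨ht, hz⟩)]
  have h1 : ContDiffAt ℝ 2 (fun x => f c (t, x)) z := by
    have h2 : ContDiffAt ℝ ∞ (fun x => f c (t, x)) z :=
      ContDiffAt.comp (f := fun x : Cn n => ((t, x) : ℝ × Cn n)) z (hf.contDiffAt ht hz)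
        (contDiffAt_const.prodMk contDiffAt_id)
    exact h2.of_le two_le_infty
  change levz (fun x => b t - f c (t, x)) u z = _
  rw [levz_sub contDiffAt_const h1, levz_const]
  ring

/-- the barrier `∫_0^t (A log (1 - s / T) - B) ds` -/
noncomputable def Bd.bar (T A B t : ℝ) : ℝ :=
  A * T * ((1 - t / T) - 1 - (1 - t / T) * Real.log (1 - t / T)) - B * t

theorem Bd.one_sub_pos (hT : 0 < T) {t : ℝ} (ht : t < T) : 0 < 1 - t / T := by
  have := (div_lt_one hT).2 ht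
  linarith

theorem Bd.bar_zero (T A B : ℝ) : Bd.bar T A B 0 = 0 := by
  simp [Bd.bar]

theorem Bd.bar_hasDerivAt (hT : 0 < T) (A B : ℝ) {t : ℝ} (ht : t < T) :
    HasDerivAt (Bd.bar T A B) (A * Real.log (1 - t / T) - B) t := by
  have hd := Bd.one_sub_pos hT ht
  have e1 : HasDerivAt (fun t : ℝ => 1 - t / T) (-(1 / T)) t := by
    simpa using ((hasDerivAt_id t).div_const T).const_sub 1
  have e2 := e1.log hd.ne'
  have e3 := ((((e1.sub_const 1).sub (e1.mul e2)).const_mul (A * T)).sub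
    ((hasDerivAt_id t).const_mul B))
  refine e3.congr_deriv ?_
  have e4 : (1 - t / T) * (-(1 / T) / (1 - t / T)) = -(1 / T) := mul_div_cancel₀ _ hd.ne'
  rw [e4]
  field_simp
  ring

theorem Bd.bar_contDiffOn (hT : 0 < T) (A B : ℝ) : ContDiffOn ℝ ∞ (Bd.bar T A B) (Iio T) := by
  have h1 : ContDiffOn ℝ ∞ (fun t : ℝ => 1 - t / T) (Iio T) := by fun_prop
  have h2 : ContDiffOn ℝ ∞ (fun t : ℝ => Real.log (1 - t / T)) (Iio T) :=
    h1.log fun t ht => (Bd.one_sub_pos hT ht).ne'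
  unfold Bd.bar
  exact (contDiffOn_const.mul ((h1.sub contDiffOn_const).sub (h1.mul h2))).sub
    (contDiffOn_const.mul contDiffOn_id)

theorem Bd.le_bar (hT : 0 < T) {A B : ℝ} (hA : 0 ≤ A) (hB : 0 ≤ B) {t : ℝ} (ht : t ∈ Ico 0 T) :
    -((A + B) * T) ≤ Bd.bar T A B t := by
  have hd := Bd.one_sub_pos hT ht.2
  have h1 : 1 - t / T ≤ 1 := by
    have := div_nonneg ht.1 hT.le
    linarith
  have h2 : (1 - t / T) * Real.log (1 - t / T) ≤ 0 :=
    mul_nonpos_of_nonneg_of_nonpos hd.le (Real.log_nonpos hd.le h1)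
  have h3 : -1 ≤ (1 - t / T) - 1 - (1 - t / T) * Real.log (1 - t / T) := by linarith
  have h4 : A * T * (-1) ≤ A * T * ((1 - t / T) - 1 - (1 - t / T) * Real.log (1 - t / T)) :=
    mul_le_mul_of_nonneg_left h3 (by positivity)
  have h5 : B * t ≤ B * T := mul_le_mul_of_nonneg_left ht.2.le hB
  unfold Bd.bar
  linarith

/-- `φ ≥ - C` -/
theorem Bd.lower [CompactSpace M] : ∃ C : ℝ, 0 ≤ C ∧
    ∀ c, ∀ t ∈ Ico 0 T, ∀ z ∈ (F.e c).target, -C ≤ F.phi c (t, z) := by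
  by_cases hT : 0 < T
  swap
  · exact ⟨0, le_rfl, fun c t ht => absurd (lt_of_le_of_lt ht.1 ht.2) hT⟩
  obtain ⟨C, hC, h⟩ := F.dphi_ge_of_le
  have hn : (0 : ℝ) ≤ n := Nat.cast_nonneg n
  refine ⟨(n + C) * T, by positivity, fun c t ht z hz => ?_⟩
  have hb := Bd.bar_contDiffOn hT n C
  have key := max_principle F.atlas (Bd.barrier_isFun F F.phi_isFun hb) ht (K := 0)
    (fun c z hz => by
      rw [Bd.bar_zero]
      simp [Flow.phi]) (fun c r hr z hz hlev => by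
      have hrT : r < T := lt_of_le_of_lt hr.2 ht.2
      have h0 : r ∈ Ico 0 T := ⟨hr.1.le, hrT⟩
      rw [Bd.barrier_dt F F.phi_isFun hb h0 hz (Bd.bar_hasDerivAt hT n C hrT),
        F.dt_phi ⟨hr.1, hrT⟩ hz]
      have h1 := h c r h0 z hz fun u => by
        have h2 := hlev u
        rw [Bd.barrier_lev F F.phi_isFun hb h0 hz, F.lev_phi h0 hz] at h2
        have h3 : 0 ≤ r / T * levz (F.Θ c) u z :=
          mul_nonneg (div_nonneg hr.1.le hT.le) (F.psh c z hz u)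
        linarith
      linarith) c t ⟨ht.1, le_rfl⟩ z hz
  have h2 := Bd.le_bar hT hn hC ht
  simp only at key
  linarith

theorem Flow.Phi_bound [CompactSpace M] :
    ∃ C : ℝ, 0 ≤ C ∧ ∀ t ∈ Ico 0 T, ∀ p, |F.Phi t p| ≤ C := by
  by_cases hT : 0 < T
  swap
  · exact ⟨0, le_rfl, fun t ht => absurd (lt_of_le_of_lt ht.1 ht.2) hT⟩
  obtain ⟨C, hC, h⟩ := Bd.upper F
  obtain ⟨C', hC', h'⟩ := Bd.lower F
  refine ⟨max (C * T) C', le_max_of_le_right hC', fun t ht p => ?_⟩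
  obtain ⟨c, hc⟩ := F.atlas.cover p
  have hz := (F.e c).map_source hc
  rw [F.Phi_eq ht hc, abs_le]
  have h1 := (h c t ht _ hz).1
  have h2 := h' c t ht _ hz
  have h3 : C * t ≤ C * T := mul_le_mul_of_nonneg_left ht.2.le hC
  have h4 := le_max_left (C * T) C'
  have h5 := le_max_right (C * T) C'
  constructor <;> linarith

/-- `(T - t) φ' + φ + n t ≥ - C` -/
theorem Bd.Uc_ge [CompactSpace M] : ∃ C : ℝ, 0 ≤ C ∧
    ∀ c, ∀ t ∈ Ico 0 T, ∀ z ∈ (F.e c).target,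
      -C ≤ (T - t) * F.dphi c (t, z) + F.phi c (t, z) + n * t := by
  by_cases hT : 0 < T
  swap
  · exact ⟨0, le_rfl, fun c t ht => absurd (lt_of_le_of_lt ht.1 ht.2) hT⟩
  obtain ⟨C, hC, h⟩ := Bd.dphi_zero_bound F hT
  refine ⟨T * C, by positivity, fun c t ht z hz => ?_⟩
  have hG : ∀ c q, F.Gc (-T) 1 (-1) (-n) c q = -F.Gc T (-1) 1 n c q := by
    intro c q
    simp only [Flow.Gc]
    ring
  have key := max_principle F.atlas (Bd.Gc_isFun F (-T) 1 (-1) (-n)) ht (K := T * C)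
    (fun c z hz => by
      have h1 := (abs_le.1 (h c z hz)).1
      have h2 : T * (-C) ≤ T * F.dphi c (0, z) := mul_le_mul_of_nonneg_left h1 hT.le
      have h3 : F.Gc (-T) 1 (-1) (-n) c (0, z) = -(T * F.dphi c (0, z)) := by
        simp [Flow.Gc, Flow.dphi]
      rw [h3]
      linarith) (fun c r hr z hz hlev => by
      have hrT : r < T := lt_of_le_of_lt hr.2 ht.2
      have h0 : r ∈ Ico 0 T := ⟨hr.1.le, hrT⟩
      obtain ⟨U, hU, hsub, hψ, hp, hU0, htg⟩ := Bd.exists_good F c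
      obtain ⟨W, hW, -, -⟩ := exists_uframe hU hψ (hsub ⟨h0, hz⟩) (F.krf.pos c r h0 z hz)
      rw [Bd.Gc_evol F _ _ _ _ ⟨hr.1, hrT⟩ hz hW]
      have h1 : ∑ k, lev (F.Gc (-T) 1 (-1) (-(n : ℝ)) c) (W k) (r, z) ≤ 0 :=
        Finset.sum_nonpos fun k _ => hlev (W k)
      have h2 : 0 ≤ ∑ k, levz (F.Θ c) (W k) z := Finset.sum_nonneg fun k _ => F.psh c z hz _
      simp_rw [← F.theta c z hz] at h2
      rw [Finset.sum_add_distrib, ← Finset.mul_sum] at h2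
      linarith) c t ⟨ht.1, le_rfl⟩ z hz
  rw [hG] at key
  have h1 : F.Gc T (-1) 1 n c (t, z) = (T - t) * F.dphi c (t, z) + F.phi c (t, z) + n * t := by
    simp only [Flow.Gc, Flow.dphi, Flow.phi]
    ring
  rw [h1] at key
  linarith

theorem Flow.dphi_ge [CompactSpace M] : ∃ C : ℝ, 0 ≤ C ∧
    ∀ c, ∀ t ∈ Ico 0 T, ∀ z ∈ (F.e c).target, -(C / (T - t)) ≤ F.dphi c (t, z) := by
  by_cases hT : 0 < T
  swap
  · exact ⟨0, le_rfl, fun c t ht => absurd (lt_of_le_of_lt ht.1 ht.2) hT⟩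
  obtain ⟨C, hC, h⟩ := Bd.Uc_ge F
  obtain ⟨C', hC', h'⟩ := Bd.upper F
  have hn : (0 : ℝ) ≤ n := Nat.cast_nonneg n
  refine ⟨C + (C' + n) * T, by positivity, fun c t ht z hz => ?_⟩
  have hd : 0 < T - t := sub_pos.2 ht.2
  have h1 := h c t ht z hz
  have h2 := (h' c t ht z hz).1
  have h3 : (C' + n) * t ≤ (C' + n) * T := mul_le_mul_of_nonneg_left ht.2.le (by linarith)
  rw [neg_le, ← neg_neg (F.dphi c (t, z)), neg_neg, le_div_iff₀ hd]
  linarith

theorem Flow.Phi_mono [CompactSpace M] : ∃ C : ℝ, 0 ≤ C ∧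
    ∀ t₀ ∈ Ico 0 T, ∀ t ∈ Ico t₀ T, ∀ p, F.Phi t p ≤ F.Phi t₀ p + C * (t - t₀) := by
  obtain ⟨C, hC, h⟩ := F.dphi_le
  refine ⟨C, hC, fun t₀ ht₀ t ht p => ?_⟩
  obtain ⟨c, hc⟩ := F.atlas.cover p
  have hz := (F.e c).map_source hc
  have ht' : t ∈ Ico 0 T := ⟨ht₀.1.trans ht.1, ht.2⟩
  rw [F.Phi_eq ht' hc, F.Phi_eq ht₀ hc]
  rcases ht.1.eq_or_lt with h0 | h0
  · rw [← h0]
    simp
  · have hd : ∀ r ∈ Ico 0 T, HasDerivAt (fun r => F.phi c (r, F.e c p))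
        (G.dt (F.phi c) (r, F.e c p)) r := fun r hr =>
      hasDerivAt_time (((F.phi_isFun.contDiffAt hr hz).of_le two_le_infty).differentiableAt
        (by norm_num))
    obtain ⟨r, hr, hr'⟩ := exists_hasDerivAt_eq_slope (fun r => F.phi c (r, F.e c p))
      (fun r => G.dt (F.phi c) (r, F.e c p)) h0
      (fun r hr => (hd r ⟨ht₀.1.trans hr.1, lt_of_le_of_lt hr.2 ht.2⟩).continuousAt.continuousWithinAt)
      (fun r hr => hd r ⟨ht₀.1.trans hr.1.le, hr.2.trans ht.2⟩)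
    have hr0 : r ∈ Ioo 0 T := ⟨lt_of_le_of_lt ht₀.1 hr.1, hr.2.trans ht.2⟩
    rw [F.dt_phi hr0 hz] at hr'
    have h1 := h c r ⟨hr0.1.le, hr0.2⟩ _ hz
    rw [hr', div_le_iff₀ (sub_pos.2 h0)] at h1
    linarith

end Final

end Pool.Agent.KRFF
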