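import Pool.Agent.Work.MP_a2bf38_gt.Fu.H.BoundLin
import Pool.Agent.Work.MP_a2bf38_gt.Fu.I.Coord
import Pool.Agent.Work.MP_a2bf38_gt.Fu.I.FBound
import Pool.Agent.Work.MP_a2bf38_gt.Fu.K.Setup
import Pool.Agent.Work.MP_a2bf38_gt.Fu.G.Chart2
import Pool.Agent.Work.MP_a2bf38_gt.Fu.H.Gen

section

/-!
# The Levi form of `φ_c - (1 - κ) φ_{c'} ∘ section`
-/

open scoped ContDiff ENNReal ComplexOrder Topology
open Set MeasureTheory Filter Pool.Agent.ToricKRF Pool.Agent.ToricKRF.G Pool.Agent.KRFS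

namespace Pool.Agent.KRFF

/-- comparison of two quadratic forms on a compact set -/
theorem quad_le {X V : Type*} [TopologicalSpace X] [NormedAddCommGroup V] [NormedSpace ℝ V]
    [ProperSpace V] {A : Set X} (hA : IsCompact A) (f g : X → V → ℝ)
    (hf : ContinuousOn (fun q : X × V => f q.1 q.2) (A ×ˢ univ))
    (hg : ContinuousOn (fun q : X × V => g q.1 q.2) (A ×ˢ univ))
    (hf2 : ∀ x ∈ A, ∀ r : ℝ, ∀ v, f x (r • v) = r ^ 2 * f x v)
    (hg2 : ∀ x ∈ A, ∀ r : ℝ, ∀ v, g x (r • v) = r ^ 2 * g x v)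
    (hpos : ∀ x ∈ A, ∀ v, v ≠ 0 → 0 < g x v) :
    ∃ C : ℝ, 0 ≤ C ∧ ∀ x ∈ A, ∀ v, f x v ≤ C * g x v := by
  have hK : IsCompact (A ×ˢ Metric.sphere (0 : V) 1) := hA.prod (isCompact_sphere _ _)
  have hne : ∀ v ∈ Metric.sphere (0 : V) 1, v ≠ 0 := by
    intro v hv h
    rw [h] at hv
    simp at hv
  have hsub : A ×ˢ Metric.sphere (0 : V) 1 ⊆ A ×ˢ univ := prod_mono le_rfl (subset_univ _)
  have h1 : ContinuousOn (fun q : X × V => f q.1 q.2 / g q.1 q.2)
      (A ×ˢ Metric.sphere (0 : V) 1) :=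
    (hf.mono hsub).div (hg.mono hsub) fun q hq => (hpos q.1 hq.1 q.2 (hne _ hq.2)).ne'
  obtain ⟨C, hC⟩ := (hK.image_of_continuousOn h1).bddAbove
  refine ⟨max C 0, le_max_right _ _, fun x hx v => ?_⟩
  by_cases hv : v = 0
  · have e1 : f x 0 = 0 := by simpa using hf2 x hx 0 0
    have e2 : g x 0 = 0 := by simpa using hg2 x hx 0 0
    rw [hv, e1, e2, mul_zero]
  · have hr : 0 < ‖v‖ := norm_pos_iff.2 hv
    have h2 : v = ‖v‖ • (‖v‖⁻¹ • v) := by
      rw [smul_smul, mul_inv_cancel₀ hr.ne', one_smul]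
    have h3 : ‖v‖⁻¹ • v ∈ Metric.sphere (0 : V) 1 := by
      rw [mem_sphere_zero_iff_norm, norm_smul, norm_inv, norm_norm, inv_mul_cancel₀ hr.ne']
    have h4 := hC ⟨(x, ‖v‖⁻¹ • v), ⟨hx, h3⟩, rfl⟩
    have h5 := hpos x hx _ (hne _ h3)
    have h6 : f x (‖v‖⁻¹ • v) ≤ max C 0 * g x (‖v‖⁻¹ • v) := by
      rw [← div_le_iff₀ h5]
      exact h4.trans (le_max_left _ _)
    rw [h2, hf2 x hx, hg2 x hx]
    calc ‖v‖ ^ 2 * f x (‖v‖⁻¹ • v) ≤ ‖v‖ ^ 2 * (max C 0 * g x (‖v‖⁻¹ • v)) :=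
          mul_le_mul_of_nonneg_left h6 (by positivity)
      _ = max C 0 * (‖v‖ ^ 2 * g x (‖v‖⁻¹ • v)) := by ring

theorem levz_continuousOn {n : ℕ} {f : Cn n → ℝ} {S : Set (Cn n)} (hS : IsOpen S)
    (hf : ContDiffOn ℝ ∞ f S) :
    ContinuousOn (fun q : Cn n × Cn n => levz f q.2 q.1) (S ×ˢ univ) := by
  rintro ⟨z, u⟩ ⟨hz, -⟩
  exact (Bd.levz_continuousAt hS hf hz u).continuousWithinAt

section Fib

variable {k m : ℕ} {M Y : Type} [TopologicalSpace M] [TopologicalSpace Y] {κ P : Type} {T : ℝ}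
  (F : Fib k m M Y κ P T)

theorem Fib.psi_smooth_slice (c : κ) {t : ℝ} (ht : t ∈ Ico 0 T) :
    ContDiffOn ℝ ∞ (fun z => F.ψ c (t, z)) (F.e c).target := by
  obtain ⟨U, hU, hsub, hs⟩ := F.krf.smooth c
  exact hs.comp (contDiff_const.prodMk contDiff_id).contDiffOn fun z hz => hsub ⟨ht, hz⟩

theorem Fib.phi_smooth_slice (c : κ) {t : ℝ} (ht : t ∈ Ico 0 T) :
    ContDiffOn ℝ ∞ (fun z => F.phi c (t, z)) (F.e c).target := by
  obtain ⟨U, hU, hsub, hs⟩ := F.phi_isFun.smooth c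
  exact hs.comp (contDiff_const.prodMk contDiff_id).contDiffOn fun z hz => hsub ⟨ht, hz⟩

theorem Fib.mem_target {c : κ} {z : Cn (k + m)} (h1 : fstC z ∈ opd 10) (h2 : sndC z ∈ opd 10) :
    z ∈ (F.e c).target := by
  rw [F.fib.target c]
  exact ⟨h1, h2⟩

theorem Fib.join_mem_target {c : κ} {u : Cn k} {y : Cn m} (h1 : u ∈ opd 10) (h2 : y ∈ opd 10) :
    joinC u y ∈ (F.e c).target :=
  F.mem_target (by rwa [fstC_joinC]) (by rwa [sndC_joinC])

/-- the Levi form of `Θ` -/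
theorem Fib.levz_Theta (c : κ) {z : Cn (k + m)} (hz : sndC z ∈ opd 10) (u : Cn (k + m)) :
    levz (F.Θ c) u z = levz (F.K (F.pc c)) (sndC u) (sndC z) := by
  rw [F.Θ_eq c]
  have h := levz_comp (isOpen_opd 10) (F.lim.smooth (F.pc c)) isOpen_univ (holOn_sndC univ)
    (mem_univ z) hz u
  rw [h]
  congr 1
  have : HasFDerivAt (sndC : Cn (k + m) → Cn m) (sndL k m) z := (sndL k m).hasFDerivAt
  rw [this.fderiv]
  rfl

/-- the pull-back of `ω(0)` by a section is bounded by `θ` -/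
theorem Fib.sect_le [Finite κ] (hT : 0 < T) : ∃ C₀ : ℝ, 0 ≤ C₀ ∧ ∀ c, ∀ u₀ ∈ cpd (k := k) 2,
    ∀ y ∈ cpd (k := m) 2, ∀ w : Cn m,
    lev (F.ψ c) (joinC 0 w) (0, joinC u₀ y) ≤ C₀ * levz (F.K (F.pc c)) w y := by
  have h0 : (0 : ℝ) ∈ Ico 0 T := ⟨le_rfl, hT⟩
  have key : ∀ c, ∃ C : ℝ, 0 ≤ C ∧ ∀ x ∈ (cpd (k := k) 2) ×ˢ (cpd (k := m) 2), ∀ w : Cn m,
      levz (fun z => F.ψ c (0, z)) (joinC 0 w) (joinC x.1 x.2) ≤
        C * levz (F.K (F.pc c)) w x.2 := by
    intro c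
    have hso : IsOpen (F.e c).target := (F.e c).open_target
    have hmem : ∀ x ∈ (cpd (k := k) 2) ×ˢ (cpd (k := m) 2), joinC x.1 x.2 ∈ (F.e c).target :=
      fun x hx => F.join_mem_target (cpd_subset_opd (by norm_num) (by norm_num) hx.1)
        (cpd_subset_opd (by norm_num) (by norm_num) hx.2)
    have hmem2 : ∀ x ∈ (cpd (k := k) 2) ×ˢ (cpd (k := m) 2), x.2 ∈ opd (k := m) 10 :=
      fun x hx => cpd_subset_opd (by norm_num) (by norm_num) hx.2
    refine quad_le ((isCompact_cpd 2).prod (isCompact_cpd 2))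
      (fun x w => levz (fun z => F.ψ c (0, z)) (joinC 0 w) (joinC x.1 x.2))
      (fun x w => levz (F.K (F.pc c)) w x.2) ?_ ?_ ?_ ?_ ?_
    · refine (levz_continuousOn hso (F.psi_smooth_slice c h0)).comp
        (f := fun q : (Cn k × Cn m) × Cn m => (joinC q.1.1 q.1.2, joinC (0 : Cn k) q.2)) ?_ ?_
      · refine Continuous.continuousOn ?_
        refine Continuous.prodMk ?_ ?_
        · exact continuous_joinC.comp continuous_fst
        · exact continuous_joinC.comp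
            (by fun_prop : Continuous fun q : (Cn k × Cn m) × Cn m => ((0 : Cn k), q.2))
      · intro q hq
        exact ⟨hmem _ hq.1, mem_univ _⟩
    · refine (levz_continuousOn (isOpen_opd 10) (F.lim.smooth (F.pc c))).comp
        (f := fun q : (Cn k × Cn m) × Cn m => (q.1.2, q.2)) (by fun_prop) ?_
      intro q hq
      exact ⟨hmem2 _ hq.1, mem_univ _⟩
    · intro x hx r w
      have h1 : joinC (0 : Cn k) (r • w) = r • joinC (0 : Cn k) w := by
        rw [← joinC_smul, smul_zero]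
      simp only [h1]
      exact Bd.levz_smul hso (F.psi_smooth_slice c h0) (hmem x hx) r _
    · intro x hx r w
      exact Bd.levz_smul (isOpen_opd 10) (F.lim.smooth (F.pc c)) (hmem2 x hx) r _
    · intro x hx w hw
      exact F.lim.psh (F.pc c) x.2 (hmem2 x hx) w hw
  choose C hC hC' using key
  obtain ⟨B, hB⟩ := (Set.finite_range C).bddAbove
  refine ⟨max B 0, le_max_right _ _, fun c u₀ hu₀ y hy w => ?_⟩
  have h1 : levz (fun z => F.ψ c (0, z)) (joinC 0 w) (joinC u₀ y) ≤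
      C c * levz (F.K (F.pc c)) w y := hC' c (u₀, y) ⟨hu₀, hy⟩ w
  have hy' : y ∈ opd (k := m) 10 := cpd_subset_opd (by norm_num) (by norm_num) hy
  have hm : joinC u₀ y ∈ (F.e c).target :=
    F.join_mem_target (cpd_subset_opd (by norm_num) (by norm_num) hu₀) hy'
  obtain ⟨U, hU, hsub, hs⟩ := F.krf.smooth c
  have h2 : levz (fun z => F.ψ c (0, z)) (joinC 0 w) (joinC u₀ y) =
      lev (F.ψ c) (joinC 0 w) (0, joinC u₀ y) := levz_slice hU hs (hsub ⟨h0, hm⟩) _
  rw [h2] at h1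
  refine h1.trans (mul_le_mul_of_nonneg_right ((hB ⟨c, rfl⟩).trans (le_max_left _ _)) ?_)
  by_cases hw : w = 0
  · rw [hw]
    have := Bd.levz_smul (isOpen_opd 10) (F.lim.smooth (F.pc c)) hy' 0 0
    simp at this
    exact this.ge
  · exact (F.lim.psh (F.pc c) y hy' w hw).le

/-- the function `z ↦ φ_c(s,z) - (1-κ) φ_{c'}(t₀,(u₀,y))` is smooth -/
theorem Fib.sect_smooth (c c' : κ) {s t₀ : ℝ} (hs : s ∈ Ico 0 T) (ht₀ : t₀ ∈ Ico 0 T)
    {u₀ : Cn k} (hu₀ : u₀ ∈ opd (k := k) 10) (a : ℝ) :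
    ContDiffOn ℝ ∞ (fun z => F.phi c (s, z) - a * F.phi c' (t₀, joinC u₀ (sndC z)))
      {z | fstC z ∈ opd 10 ∧ sndC z ∈ opd 10} := by
  refine ContDiffOn.sub ?_ (contDiffOn_const.mul ?_)
  · exact (F.phi_smooth_slice c hs).mono fun z hz => F.mem_target hz.1 hz.2
  · exact (F.phi_smooth_slice c' ht₀).comp (contDiff_sect u₀).contDiffOn
      fun z hz => F.join_mem_target hu₀ hz.2

theorem Fib.sect [Finite κ] : ∃ C₀ : ℝ, 0 ≤ C₀ ∧ ∀ c c', F.pc c = F.pc c' → ∀ u₀ ∈ cpd (k := k) 2,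
    ∀ t₀ ∈ Ico 0 T, T / 2 ≤ t₀ → 2 * C₀ * (1 - t₀ / T) ≤ 1 → ∀ s ∈ Ico t₀ T, ∀ z,
    fstC z ∈ cpd 2 → sndC z ∈ cpd 2 → ∀ u,
    levz (fun z => F.phi c (s, z) -
      (1 - 2 * C₀ * (1 - t₀ / T)) * F.phi c' (t₀, joinC u₀ (sndC z))) u z ≤
      lev (F.ψ c) u (s, z) - (1 - s / T) * lev (F.ψ c) u (0, z) := by
  by_cases hT : 0 < T
  swap
  · exact ⟨0, le_rfl, fun c c' _ u₀ _ t₀ ht₀ => absurd (lt_of_le_of_lt ht₀.1 ht₀.2) hT⟩
  obtain ⟨C₀, hC₀, h⟩ := F.sect_le hT
  refine ⟨C₀, hC₀, fun c c' hcc u₀ hu₀ t₀ ht₀ hT2 hκ s hs z hz1 hz2 u => ?_⟩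
  have h10 : (2 : ℝ) < 10 := by norm_num
  have hs0 : s ∈ Ico 0 T := ⟨ht₀.1.trans hs.1, hs.2⟩
  have hz1' : fstC z ∈ opd 10 := cpd_subset_opd (by norm_num) h10 hz1
  have hz2' : sndC z ∈ opd 10 := cpd_subset_opd (by norm_num) h10 hz2
  have hu₀' : u₀ ∈ opd 10 := cpd_subset_opd (by norm_num) h10 hu₀
  have hzt : z ∈ (F.e c).target := F.mem_target hz1' hz2'
  have hpt : joinC u₀ (sndC z) ∈ (F.e c').target := F.join_mem_target hu₀' hz2'
  obtain ⟨U, hU, hsub, hphi⟩ := F.phi_isFun.smooth c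
  obtain ⟨U', hU', hsub', hphi'⟩ := F.phi_isFun.smooth c'
  set a : ℝ := 1 - 2 * C₀ * (1 - t₀ / T) with ha
  have d1 : ContDiffAt ℝ 2 (fun z => F.phi c (s, z)) z :=
    ((F.phi_smooth_slice c hs0).contDiffAt ((F.e c).open_target.mem_nhds hzt)).of_le two_le_infty
  have d2 : ContDiffAt ℝ 2 (fun z => F.phi c' (t₀, joinC u₀ (sndC z))) z := by
    have e1 : ContDiffAt ℝ ∞ (fun z => F.phi c' (t₀, z)) (joinC u₀ (sndC z)) :=
      (F.phi_smooth_slice c' ht₀).contDiffAt ((F.e c').open_target.mem_nhds hpt)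
    exact (ContDiffAt.comp (f := fun z : Cn (k + m) => joinC u₀ (sndC z)) z e1
      (contDiff_sect u₀).contDiffAt).of_le two_le_infty
  rw [Bd.levz_sub d1 (contDiffAt_const.mul d2), Bd.levz_const_mul _ d2]
  have e3 : levz (fun z => F.phi c (s, z)) u z = lev (F.phi c) u (s, z) :=
    levz_slice hU hphi (hsub ⟨hs0, hzt⟩) u
  have e4 : levz (fun z => F.phi c' (t₀, joinC u₀ (sndC z))) u z =
      lev (F.phi c') (joinC 0 (sndC u)) (t₀, joinC u₀ (sndC z)) := by
    have h5 : levz (fun z => F.phi c' (t₀, z)) (joinC 0 (sndC u)) (joinC u₀ (sndC z)) =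
        lev (F.phi c') (joinC 0 (sndC u)) (t₀, joinC u₀ (sndC z)) :=
      levz_slice hU' hphi' (hsub' ⟨ht₀, hpt⟩) _
    rw [← h5]
    have := levz_comp (F.e c').open_target (F.phi_smooth_slice c' ht₀) isOpen_univ
      (holOn_sect u₀ univ) (mem_univ z) hpt u
    rw [this, (hasFDerivAt_sect u₀ z).fderiv]
    rfl
  rw [e3, e4, F.lev_phi hs0 hzt, F.lev_phi ht₀ hpt, F.levz_Theta c hz2',
    F.levz_Theta c' (by rwa [sndC_joinC]), sndC_joinC, sndC_joinC, ← hcc]
  have h1 := h c' u₀ hu₀ (sndC z) hz2 (sndC u)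
  rw [← hcc] at h1
  set θ : ℝ := levz (F.K (F.pc c)) (sndC u) (sndC z) with hθ
  have hθ0 : 0 ≤ θ := by
    by_cases hw : sndC u = 0
    · rw [hθ, hw]
      have := Bd.levz_smul (isOpen_opd 10) (F.lim.smooth (F.pc c)) hz2' 0 0
      simp at this
      exact this.ge
    · exact (F.lim.psh (F.pc c) _ hz2' _ hw).le
  have hpos : 0 ≤ lev (F.ψ c') (joinC 0 (sndC u)) (t₀, joinC u₀ (sndC z)) := by
    obtain ⟨V, hV, hVs, hVd⟩ := F.krf.smooth c'
    by_cases hw : joinC (0 : Cn k) (sndC u) = 0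
    · have h6 : levz (fun z => F.ψ c' (t₀, z)) 0 (joinC u₀ (sndC z)) =
          lev (F.ψ c') 0 (t₀, joinC u₀ (sndC z)) := levz_slice hV hVd (hVs ⟨ht₀, hpt⟩) _
      rw [hw, ← h6]
      have := Bd.levz_smul (F.e c').open_target (F.psi_smooth_slice c' ht₀) hpt 0 0
      simp at this
      exact this.ge
    · exact (lev_pos hV hVd (hVs ⟨ht₀, hpt⟩) (F.krf.pos c' t₀ ht₀ _ hpt) hw).le
  set A := lev (F.ψ c') (joinC 0 (sndC u)) (t₀, joinC u₀ (sndC z)) with hA
  set B := lev (F.ψ c') (joinC 0 (sndC u)) (0, joinC u₀ (sndC z)) with hB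
  set d : ℝ := 1 - t₀ / T with hd
  have hd0 : 0 ≤ d := by
    rw [hd, sub_nonneg, div_le_one hT]
    exact ht₀.2.le
  have ht₀T : t₀ / T = 1 - d := by rw [hd]; ring
  have hd2 : d ≤ 1 / 2 := by
    have : 1 / 2 ≤ t₀ / T := by
      rw [le_div_iff₀ hT]
      linarith
    linarith
  have hsT : 1 - d ≤ s / T := by
    rw [← ht₀T]
    exact div_le_div_of_nonneg_right hs.1 hT.le
  have ha0 : 0 ≤ a := by
    rw [ha]
    linarith
  have ha1 : a ≤ 1 := by
    rw [ha]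
    have : 0 ≤ 2 * C₀ * d := by positivity
    linarith
  rw [ht₀T]
  have k1 : (1 - d) * θ ≤ s / T * θ := mul_le_mul_of_nonneg_right hsT hθ0
  have k2 : 0 ≤ a * A := mul_nonneg ha0 hpos
  have hBB : 0 ≤ B ∨ B ≤ 0 := le_total 0 B
  have k3 : a * (d * B) ≤ d * (C₀ * θ) := by
    have h2 : d * B ≤ d * (C₀ * θ) := mul_le_mul_of_nonneg_left h1 hd0
    have h3 : 0 ≤ d * (C₀ * θ) := by positivity
    calc a * (d * B) ≤ a * (d * (C₀ * θ)) := mul_le_mul_of_nonneg_left h2 ha0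
      _ ≤ 1 * (d * (C₀ * θ)) := mul_le_mul_of_nonneg_right ha1 h3
      _ = d * (C₀ * θ) := one_mul _
  have k4 : d * (C₀ * θ) ≤ (1 - a) * ((1 - d) * θ) := by
    rw [ha]
    have h2 : 0 ≤ d * (C₀ * θ) * (1 - 2 * d) := by
      have : 0 ≤ 1 - 2 * d := by linarith
      positivity
    nlinarith
  nlinarith

end Fib

end Pool.Agent.KRFF

end

section

/-!
# Local sections over the base, and the charts of `W`
-/

open scoped ContDiff ENNReal ComplexOrder Topology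
open Set Filter Pool.Agent.ToricKRF Pool.Agent.ToricKRF.G Pool.Agent.KRFS
  Pool.Agent.KRFF

namespace Pool.Agent.KRFG

namespace Touch

variable {n m : ℕ}

theorem cc_ofC (z : Fin n → ℂ) (l : Fin n) : cc (ofC z) l = z l := by
  apply Complex.ext <;> simp [cc, ofC]

theorem ofC_cc (x : Cn n) : ofC (fun l => cc x l) = x := rfl

theorem nsq_eq (x : Cn n) : nsq x = ∑ l, Complex.normSq (cc x l) := by
  unfold nsq dotProduct
  rw [← Finset.sum_add_distrib]
  refine Finset.sum_congr rfl fun l _ => ?_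
  rw [Complex.normSq_apply]
  rfl

/-- `ofC` as a continuous linear map -/
noncomputable def ofCL (n : ℕ) : (Fin n → ℂ) →L[ℝ] Cn n where
  toFun := ofC
  map_add' _ _ := rfl
  map_smul' c z := by
    refine Prod.ext ?_ ?_ <;> funext l <;> simp [ofC]
  cont := by
    unfold ofC
    fun_prop

theorem holC_comp {h : ℂ → ℂ} {V : Set ℂ} (hV : IsOpen V) (hd : DifferentiableOn ℂ h V)
    {g : Cn n → ℂ} {S : Set (Cn n)} (hS : IsOpen S) (hg : NF.HolC g S) (hm : MapsTo g S V) :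
    NF.HolC (fun z => h (g z)) S ∧
      ∀ z ∈ S, ∀ u, fderiv ℝ (fun z => h (g z)) z u = deriv h (g z) * fderiv ℝ g z u := by
  have key : ∀ z ∈ S, ∀ u, fderiv ℝ (fun z => h (g z)) z u = deriv h (g z) * fderiv ℝ g z u := by
    intro z hz u
    have h1 : HasDerivAt h (deriv h (g z)) (g z) :=
      (hd.differentiableAt (hV.mem_nhds (hm hz))).hasDerivAt
    have h2 := h1.hasFDerivAt.restrictScalars ℝ
    have h3 := h2.comp z (NF.diffAt hS hg.1 hz).hasFDerivAt
    change fderiv ℝ (h ∘ g) z u = _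
    rw [h3.fderiv]
    simp [mul_comm]
  refine ⟨⟨?_, fun z hz u => ?_⟩, key⟩
  · have h1 : ContDiffOn ℂ ∞ h V := hd.contDiffOn hV
    exact (h1.restrict_scalars ℝ).comp hg.1 hm
  · rw [key z hz, key z hz, hg.2 z hz]
    ring

theorem holOn_ofC {h : Fin n → Cn m → ℂ} {S : Set (Cn m)} (hS : IsOpen S)
    (hh : ∀ l, NF.HolC (h l) S) : HolOn (fun z => ofC fun l => h l z) S ∧
      ∀ z ∈ S, ∀ u l, cc (fderiv ℝ (fun z => (ofC fun l => h l z : Cn n)) z u) l =
        fderiv ℝ (h l) z u := by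
  have hf : ∀ z ∈ S, HasFDerivAt (fun z => (ofC fun l => h l z : Cn n))
      ((ofCL n).comp (ContinuousLinearMap.pi fun l => fderiv ℝ (h l) z)) z := by
    intro z hz
    have h1 : HasFDerivAt (fun z l => h l z) (ContinuousLinearMap.pi fun l => fderiv ℝ (h l) z) z :=
      hasFDerivAt_pi.2 fun l => (NF.diffAt hS (hh l).1 hz).hasFDerivAt
    exact (ofCL n).hasFDerivAt.comp z h1
  have key : ∀ z ∈ S, ∀ u l, cc (fderiv ℝ (fun z => (ofC fun l => h l z : Cn n)) z u) l =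
        fderiv ℝ (h l) z u := by
    intro z hz u l
    rw [(hf z hz).fderiv]
    change cc (ofC fun l => fderiv ℝ (h l) z u) l = _
    rw [cc_ofC]
  refine ⟨⟨?_, fun z hz u => ?_⟩, key⟩
  · have h1 : ContDiffOn ℝ ∞ (fun z l => h l z) S := contDiffOn_pi.2 fun l => (hh l).1
    exact (ofCL n).contDiff.comp_contDiffOn h1
  · rw [← ofC_cc (fderiv ℝ (fun z => (ofC fun l => h l z : Cn n)) z (J u)), ←
      ofC_cc (J (fderiv ℝ (fun z => (ofC fun l => h l z : Cn n)) z u))]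
    congr 1
    funext l
    rw [cc_J, key z hz, key z hz, (hh l).2 z hz]

/-! ### local sections -/

section Sec

variable (row : Fin n → Option (Fin m)) (pl : Fin m → Fin n) (N : Fin m → ℕ) (x : Cn n) (y : Cn m)

/-- the local section over the base -/
noncomputable def sec (y' : Cn m) : Cn n :=
  ofC fun l => cc x l * ∏ i, if l = pl i then (cc y' i / cc y i) ^ ((N i : ℂ)⁻¹) else 1

variable {row pl N x y}

theorem pl_inj (hpl : ∀ i, row (pl i) = some i) {i i' : Fin m} (h : pl i = pl i') : i = i' := by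
  have := hpl i
  rw [h, hpl i'] at this
  exact (Option.some.inj this).symm

theorem cc_sec_pl (hpl : ∀ i, row (pl i) = some i) (y' : Cn m) (i : Fin m) :
    cc (sec pl N x y y') (pl i) = cc x (pl i) * (cc y' i / cc y i) ^ ((N i : ℂ)⁻¹) := by
  rw [sec, cc_ofC, Finset.prod_eq_single i]
  · simp
  · intro i' _ hne
    rw [if_neg]
    intro h
    exact hne (pl_inj hpl h).symm
  · simp

theorem cc_sec_ne {l : Fin n} (hl : ∀ i, l ≠ pl i) (y' : Cn m) :
    cc (sec pl N x y y') l = cc x l := by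
  rw [sec, cc_ofC, Finset.prod_eq_one, mul_one]
  intro i _
  rw [if_neg (hl i)]

theorem prow_sec (hpl : ∀ i, row (pl i) = some i) (y' : Cn m) (i : Fin m) :
    prow row i (sec pl N x y y') = prow row i x * (cc y' i / cc y i) ^ ((N i : ℂ)⁻¹) := by
  unfold prow
  have h1 : ∀ l, (if row l = some i then cc (sec pl N x y y') l else 1) =
      (if row l = some i then cc x l else 1) *
        (if l = pl i then (cc y' i / cc y i) ^ ((N i : ℂ)⁻¹) else 1) := by
    intro l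
    by_cases hl : ∃ i', l = pl i'
    · obtain ⟨i', rfl⟩ := hl
      rw [cc_sec_pl hpl]
      by_cases hii : i' = i
      · subst hii
        rw [if_pos (hpl i'), if_pos (hpl i'), if_pos rfl]
      · rw [if_neg, if_neg, if_neg, mul_one]
        · exact fun h => hii (pl_inj hpl h)
        · rw [hpl i']
          exact fun h => hii (Option.some.inj h)
        · rw [hpl i']
          exact fun h => hii (Option.some.inj h)
    · push Not at hl
      rw [cc_sec_ne hl, if_neg (hl i), mul_one]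
  rw [Finset.prod_congr rfl fun l _ => h1 l, Finset.prod_mul_distrib, Finset.prod_ite_eq']
  simp

/-- the domain of the local section -/
def dS (y : Cn m) : Set (Cn m) := {y' | ∀ i, cc y' i / cc y i ∈ Complex.slitPlane}

theorem isOpen_dS (y : Cn m) : IsOpen (dS y) := by
  unfold dS
  rw [ofPred_forall]
  refine isOpen_iInter_of_finite fun i => ?_
  have hc : Continuous fun y' : Cn m => cc y' i / cc y i := by
    have h1 : (fun y' : Cn m => cc y' i / cc y i) = fun y' => NF.ccL i y' / cc y i := by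
      funext y'
      rw [NF.ccL_apply]
    rw [h1]
    exact (NF.ccL i).continuous.div_const _
  exact Complex.isOpen_slitPlane.preimage hc

theorem mem_dS (hy : ∀ i, cc y i ≠ 0) : y ∈ dS y := by
  intro i
  rw [div_self (hy i)]
  exact Complex.one_mem_slitPlane

theorem holC_cc (S : Set (Cn m)) (i : Fin m) : NF.HolC (fun y' : Cn m => cc y' i) S ∧
    ∀ z u : Cn m, fderiv ℝ (fun y' : Cn m => cc y' i) z u = cc u i := by
  have h1 : (fun y' : Cn m => cc y' i) = fun y' => NF.ccL i y' := by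
    funext y'
    rw [NF.ccL_apply]
  have h2 : ∀ z u : Cn m, fderiv ℝ (fun y' : Cn m => cc y' i) z u = cc u i := by
    intro z u
    rw [h1, (NF.ccL i).fderiv, NF.ccL_apply]
  refine ⟨⟨?_, fun z _ u => ?_⟩, h2⟩
  · rw [h1]
    exact (NF.ccL i).contDiff.contDiffOn
  · rw [h2, h2, cc_J]

/-- the root as a holomorphic function -/
theorem root (i : Fin m) :
    NF.HolC (fun y' : Cn m => (cc y' i / cc y i) ^ ((N i : ℂ)⁻¹)) (dS y) ∧
      ∀ u : Cn m, (∀ i, cc y i ≠ 0) →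
        fderiv ℝ (fun y' : Cn m => (cc y' i / cc y i) ^ ((N i : ℂ)⁻¹)) y u =
          (N i : ℂ)⁻¹ * (cc u i / cc y i) := by
  have hS := isOpen_dS y
  have hg1 : NF.HolC (fun y' : Cn m => cc y' i / cc y i) (dS y) := by
    have := (holC_cc (dS y) i).1.mul hS (NF.HolC.const (cc y i)⁻¹ (dS y))
    exact this
  have hg2 : ∀ z ∈ dS y, ∀ u, fderiv ℝ (fun y' : Cn m => cc y' i / cc y i) z u =
      cc u i / cc y i := by
    intro z hz u
    have h1 : HasFDerivAt (fun y' : Cn m => cc y' i) (fderiv ℝ (fun y' : Cn m => cc y' i) z) z :=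
      (NF.diffAt hS (holC_cc (dS y) i).1.1 hz).hasFDerivAt
    have h2 := (h1.mul_const (cc y i)⁻¹).fderiv
    have h3 : (fun y' : Cn m => cc y' i / cc y i) = fun y' => cc y' i * (cc y i)⁻¹ := rfl
    rw [h3, h2]
    simp only [smul_apply, (holC_cc (dS y) i).2, smul_eq_mul]
    rw [div_eq_mul_inv, mul_comm]
  have hd : DifferentiableOn ℂ (fun w : ℂ => w ^ ((N i : ℂ)⁻¹)) Complex.slitPlane := by
    intro w hw
    exact ((hasDerivAt_id w).cpow_const hw).differentiableAt.differentiableWithinAt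
  obtain ⟨h1, h2⟩ := holC_comp Complex.isOpen_slitPlane hd hS hg1 fun z hz => hz i
  refine ⟨h1, fun u hy => ?_⟩
  rw [h2 y (mem_dS hy) u, hg2 y (mem_dS hy) u, div_self (hy i)]
  have h3 : deriv (fun w : ℂ => w ^ ((N i : ℂ)⁻¹)) 1 = (N i : ℂ)⁻¹ := by
    have := ((hasDerivAt_id (1 : ℂ)).cpow_const (c := (N i : ℂ)⁻¹) Complex.one_mem_slitPlane).deriv
    simp only [id_eq] at this
    rw [this]
    simp
  rw [h3]

theorem sec_holOn : HolOn (sec pl N x y) (dS y) := by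
  have hS := isOpen_dS y
  refine (holOn_ofC hS fun l => ?_).1
  refine (NF.HolC.const (cc x l) (dS y)).mul hS (NF.HolC.prod _ hS fun i => ?_)
  by_cases h : l = pl i
  · simp only [h, if_true]
    exact (root i).1
  · simp only [h, if_false]
    exact NF.HolC.const 1 _

theorem sec_self (hy : ∀ i, cc y i ≠ 0) : sec pl N x y y = x := by
  have h1 : ∀ l, cc (sec pl N x y y) l = cc x l := by
    intro l
    rw [sec, cc_ofC, Finset.prod_eq_one, mul_one]
    intro i _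
    rw [div_self (hy i), Complex.one_cpow]
    simp
  rw [← ofC_cc (sec pl N x y y), ← ofC_cc x]
  congr 1
  funext l
  exact h1 l

theorem cc_fderiv (hy : ∀ i, cc y i ≠ 0) (u : Cn m) (l : Fin n) :
    cc (fderiv ℝ (sec pl N x y) y u) l =
      fderiv ℝ (fun y' => cc (sec pl N x y y') l) y u := by
  have hS := isOpen_dS y
  have h1 := (NF.diffAt hS (sec_holOn (pl := pl) (N := N) (x := x) (y := y)).1 (mem_dS hy)).hasFDerivAt
  have h2 : HasFDerivAt (fun y' => NF.ccL l (sec pl N x y y'))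
      ((NF.ccL l).comp (fderiv ℝ (sec pl N x y) y)) y := (NF.ccL l).hasFDerivAt.comp y h1
  have h3 : (fun y' => cc (sec pl N x y y') l) = fun y' => NF.ccL l (sec pl N x y y') := by
    funext y'
    rw [NF.ccL_apply]
  rw [h3, h2.fderiv, ContinuousLinearMap.comp_apply, NF.ccL_apply]

theorem cc_fderiv_pl (hpl : ∀ i, row (pl i) = some i) (hy : ∀ i, cc y i ≠ 0)
    (u : Cn m) (i : Fin m) : cc (fderiv ℝ (sec pl N x y) y u) (pl i) =
      cc x (pl i) * ((N i : ℂ)⁻¹ * (cc u i / cc y i)) := by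
  rw [cc_fderiv hy]
  have h1 : (fun y' => cc (sec pl N x y y') (pl i)) = fun y' : Cn m =>
      cc x (pl i) * (cc y' i / cc y i) ^ ((N i : ℂ)⁻¹) := by
    funext y'
    rw [cc_sec_pl hpl]
  obtain ⟨h2, h3⟩ := root (y := y) i
  have h4 := (NF.diffAt (isOpen_dS y) h2.1 (mem_dS hy)).hasFDerivAt
  rw [h1, (h4.const_mul (cc x (pl i))).fderiv, smul_apply, h3 u hy, smul_eq_mul]

theorem cc_fderiv_ne (hy : ∀ i, cc y i ≠ 0)
    (u : Cn m) {l : Fin n} (hl : ∀ i, l ≠ pl i) : cc (fderiv ℝ (sec pl N x y) y u) l = 0 := by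
  rw [cc_fderiv hy]
  have h1 : (fun y' => cc (sec pl N x y y') l) = fun _ : Cn m => cc x l := by
    funext y'
    rw [cc_sec_ne hl]
  rw [h1]
  simp

/-- the length of the derivative of the section -/
theorem nsq_fderiv_le (hpl : ∀ i, row (pl i) = some i) (hN : ∀ i, 0 < N i)
    (hy : ∀ i, cc y i ≠ 0) (u : Cn m) {B : Fin m → ℝ}
    (hB : ∀ i, Complex.normSq (cc x (pl i)) ≤ B i * Complex.normSq (cc y i)) :
    nsq (fderiv ℝ (sec pl N x y) y u) ≤ ∑ i, B i * Complex.normSq (cc u i) := by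
  have hB0 : ∀ i, 0 ≤ B i := by
    intro i
    have h1 := hB i
    have h2 : 0 < Complex.normSq (cc y i) := Complex.normSq_pos.2 (hy i)
    have h3 := Complex.normSq_nonneg (cc x (pl i))
    by_contra h
    push Not at h
    nlinarith
  have hterm : ∀ i, Complex.normSq (cc (fderiv ℝ (sec pl N x y) y u) (pl i)) ≤
      B i * Complex.normSq (cc u i) := by
    intro i
    rw [cc_fderiv_pl hpl hy, Complex.normSq_mul, Complex.normSq_mul, Complex.normSq_div]
    have h2 : 0 < Complex.normSq (cc y i) := Complex.normSq_pos.2 (hy i)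
    have h3 : Complex.normSq ((N i : ℂ)⁻¹) ≤ 1 := by
      rw [Complex.normSq_inv, Complex.normSq_natCast]
      refine inv_le_one_of_one_le₀ ?_
      have : (1 : ℝ) ≤ N i := by exact_mod_cast hN i
      nlinarith
    have h4 := Complex.normSq_nonneg (cc u i)
    have h5 := Complex.normSq_nonneg ((N i : ℂ)⁻¹)
    have h6 : Complex.normSq ((N i : ℂ)⁻¹) * (Complex.normSq (cc u i) / Complex.normSq (cc y i)) ≤
        Complex.normSq (cc u i) / Complex.normSq (cc y i) := mul_le_of_le_one_left (by positivity) h3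
    calc _ ≤ B i * Complex.normSq (cc y i) *
          (Complex.normSq (cc u i) / Complex.normSq (cc y i)) :=
          mul_le_mul (hB i) h6 (by positivity) (mul_nonneg (hB0 i) h2.le)
      _ = B i * Complex.normSq (cc u i) := by
          field_simp
  rw [nsq_eq]
  have hsum : ∀ l, Complex.normSq (cc (fderiv ℝ (sec pl N x y) y u) l) ≤
      ∑ i, if l = pl i then B i * Complex.normSq (cc u i) else 0 := by
    intro l
    have hnn : ∀ i ∈ Finset.univ, (0 : ℝ) ≤ if l = pl i then B i * Complex.normSq (cc u i) else 0 := by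
      intro i _
      split_ifs
      · exact mul_nonneg (hB0 i) (Complex.normSq_nonneg _)
      · exact le_rfl
    by_cases hl : ∃ i, l = pl i
    · obtain ⟨i, rfl⟩ := hl
      refine le_trans ?_ (Finset.single_le_sum hnn (Finset.mem_univ i))
      rw [if_pos rfl]
      exact hterm i
    · push Not at hl
      rw [cc_fderiv_ne hy u hl, map_zero]
      exact Finset.sum_nonneg hnn
  refine (Finset.sum_le_sum fun l _ => hsum l).trans ?_
  rw [Finset.sum_comm]
  refine Finset.sum_le_sum fun i _ => ?_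
  rw [Finset.sum_ite_eq']
  simp

end Sec

theorem ext_cc {x x' : Cn n} (h : ∀ l, cc x l = cc x' l) : x = x' := by
  rw [← ofC_cc x, ← ofC_cc x']
  congr 1
  funext l
  exact h l

theorem normSq_cc (x : Cn n) (l : Fin n) : Complex.normSq (cc x l) = x.1 l ^ 2 + x.2 l ^ 2 := by
  rw [Complex.normSq_apply, sq, sq]
  rfl

theorem norm_cc_le_one {x : Cn n} (hx : x ∈ cpd (k := n) 1) (l : Fin n) : ‖cc x l‖ ≤ 1 := by
  have h1 := hx l
  rw [← normSq_cc, Complex.normSq_eq_norm_sq] at h1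
  nlinarith [norm_nonneg (cc x l)]

/-- the smallest coordinate of the row `i` -/
theorem pivot_bound {row : Fin n → Option (Fin m)} {x : Cn n} (hx : x ∈ cpd (k := n) 1)
    {l₀ : Fin n} {i : Fin m} (hmin : ∀ l, row l = some i → ‖cc x l₀‖ ≤ ‖cc x l‖) {s : ℝ}
    (hs : 0 < s) {N D : ℕ} (hD : n * N ≤ D) (hD0 : D ≠ 0) {C₀ : ℝ} (hC₀ : (s ^ N)⁻¹ ≤ C₀) {w : ℂ}
    (hw : (s * prow row i x) ^ N = w) : Complex.normSq (cc x l₀) ≤
      (C₀ ^ 2) ^ ((D : ℝ)⁻¹) * Complex.normSq w ^ ((D : ℝ)⁻¹) := by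
  set a : ℝ := ‖cc x l₀‖ with ha
  have ha0 : 0 ≤ a := norm_nonneg _
  have ha1 : a ≤ 1 := norm_cc_le_one hx l₀
  have h1 : a ^ n ≤ ‖prow row i x‖ := by
    unfold prow
    rw [norm_prod]
    calc a ^ n = ∏ _l : Fin n, a := by simp
      _ ≤ ∏ l, ‖if row l = some i then cc x l else 1‖ := by
        refine Finset.prod_le_prod (fun _ _ => ha0) fun l _ => ?_
        split_ifs with h
        · exact hmin l h
        · rwa [norm_one]
  have h2 : ‖w‖ = s ^ N * ‖prow row i x‖ ^ N := by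
    rw [← hw, norm_pow, norm_mul, Complex.norm_real, Real.norm_eq_abs, abs_of_pos hs, mul_pow]
  have hsN : 0 < s ^ N := pow_pos hs N
  have h3 : a ^ (n * N) ≤ C₀ * ‖w‖ := by
    have e1 : a ^ (n * N) ≤ ‖prow row i x‖ ^ N := by
      rw [pow_mul]
      exact pow_le_pow_left₀ (by positivity) h1 N
    have e2 : ‖prow row i x‖ ^ N = (s ^ N)⁻¹ * ‖w‖ := by
      rw [h2]
      field_simp
    rw [e2] at e1
    exact e1.trans (mul_le_mul_of_nonneg_right hC₀ (norm_nonneg _))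
  have h4 : a ^ D ≤ C₀ * ‖w‖ := (pow_le_pow_of_le_one ha0 ha1 hD).trans h3
  have h5 : (a ^ 2) ^ D ≤ C₀ ^ 2 * Complex.normSq w := by
    rw [← pow_mul, mul_comm 2 D, pow_mul, Complex.normSq_eq_norm_sq, ← mul_pow]
    exact pow_le_pow_left₀ (by positivity) h4 2
  rw [Complex.normSq_eq_norm_sq (cc x l₀), ← ha, ← Real.mul_rpow (sq_nonneg _)
    (Complex.normSq_nonneg _), ← Real.pow_rpow_inv_natCast (sq_nonneg a) hD0]
  exact Real.rpow_le_rpow (by positivity) h5 (by positivity)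

end Touch

open Touch

theorem Touch.phi_slice {n : ℕ} {M : Type} [TopologicalSpace M] {κ : Type}
    {T : ℝ} (F : Flow n M κ T) (c : κ) {t : ℝ} (ht : t ∈ Ico 0 T) :
    ContDiffOn ℝ ∞ (fun z => F.phi c (t, z)) (F.e c).target := by
  obtain ⟨U, hU, hsub, hs⟩ := F.phi_isFun.smooth c
  exact hs.comp (contDiff_const.prodMk contDiff_id).contDiffOn fun z hz => hsub ⟨ht, hz⟩

theorem Touch.psi_slice {n : ℕ} {M : Type} [TopologicalSpace M] {κ : Type}
    {T : ℝ} (F : Flow n M κ T) (c : κ) {t : ℝ} (ht : t ∈ Ico 0 T) :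
    ContDiffOn ℝ ∞ (fun z => F.ψ c (t, z)) (F.e c).target := by
  obtain ⟨U, hU, hsub, hs⟩ := F.krf.smooth c
  exact hs.comp (contDiff_const.prodMk contDiff_id).contDiffOn fun z hz => hsub ⟨ht, hz⟩

section Mod

variable {n m : ℕ} {M Y W : Type} [TopologicalSpace M] [TopologicalSpace Y] [TopologicalSpace W]
  {κ P ι : Type} {T : ℝ} (F : Mod n m M Y W κ P ι T)

/-- the coordinates in `M` of the point `x` of the chart `c` of `W` -/
noncomputable def Mod.Hc (c : ι) (x : Cn n) : Cn n := F.e (F.al c) (F.π ((F.a c).symm x))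

theorem Mod.Hc_holOn (c : ι) : HolOn (F.Hc c) (opd 10) := F.model.holo c

theorem Mod.mem_W {c : ι} {x : Cn n} (hx : x ∈ opd (k := n) 10) :
    (F.a c).symm x ∈ (F.a c).source :=
  (F.a c).map_target (by rwa [F.model.target c])

theorem Mod.a_symm {c : ι} {x : Cn n} (hx : x ∈ opd (k := n) 10) : F.a c ((F.a c).symm x) = x :=
  (F.a c).right_inv (by rwa [F.model.target c])

theorem Mod.pi_mem {c : ι} {x : Cn n} (hx : x ∈ opd (k := n) 10) :
    F.π ((F.a c).symm x) ∈ (F.e (F.al c)).source := F.model.mem c _ (F.mem_W hx)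

theorem Mod.Hc_mem {c : ι} {x : Cn n} (hx : x ∈ opd (k := n) 10) :
    F.Hc c x ∈ (F.e (F.al c)).target := (F.e (F.al c)).map_source (F.pi_mem hx)

theorem Mod.Phi_Hc {c : ι} {x : Cn n} (hx : x ∈ opd (k := n) 10) {t : ℝ} (ht : t ∈ Ico 0 T) :
    F.Phi t (F.π ((F.a c).symm x)) = F.phi (F.al c) (t, F.Hc c x) :=
  F.toFlow.Phi_eq ht (F.pi_mem hx)

/-- the base coordinates in a chart of `W` -/
theorem Mod.base_eq {c : ι} {x : Cn n} (hx : x ∈ opd (k := n) 10) :
    F.f (F.π ((F.a c).symm x)) ∈ (F.b (F.pc c)).source ∧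
      ∀ i, cc (F.b (F.pc c) (F.f (F.π ((F.a c).symm x)))) i =
        (F.s c i * prow (F.row c) i x) ^ F.N (F.pc c) i := by
  have h1 := F.model.base ((F.a c).symm x)
  have h2 := F.model.lab_eq c _ (F.mem_W hx)
  rw [h2] at h1
  refine ⟨h1.1, fun i => ?_⟩
  rw [h1.2 i, F.model.mono c _ (F.mem_W hx) i, F.a_symm hx]

/-- `π^* ω(0)` is bounded in the charts of `W` -/
theorem Mod.omega_le [Finite ι] (hT : 0 < T) : ∃ C : ℝ, 0 ≤ C ∧ ∀ c, ∀ x ∈ cpd (k := n) 1,
    ∀ ξ, lev (F.ψ (F.al c)) (fderiv ℝ (F.Hc c) x ξ) (0, F.Hc c x) ≤ C * nsq ξ := by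
  have h0 : (0 : ℝ) ∈ Ico 0 T := ⟨le_rfl, hT⟩
  have hsub : cpd (k := n) 1 ⊆ opd 10 := cpd_subset_opd (by norm_num) (by norm_num)
  have hsm : ∀ c, ContDiffOn ℝ ∞ (fun x => F.ψ (F.al c) (0, F.Hc c x)) (opd 10) := fun c =>
    (Touch.psi_slice F.toFlow (F.al c) h0).comp (F.Hc_holOn c).1 fun x hx => F.Hc_mem hx
  have key : ∀ c, ∃ C : ℝ, 0 ≤ C ∧ ∀ x ∈ cpd (k := n) 1, ∀ ξ,
      levz (fun x => F.ψ (F.al c) (0, F.Hc c x)) ξ x ≤ C * nsq ξ := by
    intro c
    refine quad_le (isCompact_cpd 1) (fun x ξ => levz (fun x => F.ψ (F.al c) (0, F.Hc c x)) ξ x)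
      (fun _ ξ => nsq ξ) ?_ ?_ ?_ ?_ ?_
    · exact (levz_continuousOn (isOpen_opd 10) (hsm c)).mono
        (prod_mono hsub le_rfl)
    · refine Continuous.continuousOn ?_
      unfold nsq dotProduct
      fun_prop
    · intro x hx r ξ
      exact Bd.levz_smul (isOpen_opd 10) (hsm c) (hsub hx) r ξ
    · intro x hx r ξ
      simp only [nsq, Prod.smul_fst, Prod.smul_snd, dotProduct_smul, smul_dotProduct, smul_eq_mul]
      ring
    · intro x hx ξ hξ
      have h1 : 0 ≤ nsq ξ := by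
        rw [nsq_eq]
        exact Finset.sum_nonneg fun l _ => Complex.normSq_nonneg _
      refine lt_of_le_of_ne h1 fun h => hξ ?_
      rw [nsq_eq] at h
      refine ext_cc fun l => ?_
      have h2 := (Finset.sum_eq_zero_iff_of_nonneg fun l _ => Complex.normSq_nonneg _).1 h.symm l
        (Finset.mem_univ l)
      rw [Complex.normSq_eq_zero.1 h2]
      simp [cc, Complex.ext_iff]
  choose C hC hC' using key
  obtain ⟨B, hB⟩ := (Set.finite_range C).bddAbove
  refine ⟨max B 0, le_max_right _ _, fun c x hx ξ => ?_⟩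
  have h1 := hC' c x hx ξ
  have hm := F.Hc_mem (c := c) (hsub hx)
  obtain ⟨U, hU, hsubU, hs⟩ := F.krf.smooth (F.al c)
  have h2 : levz (fun x => F.ψ (F.al c) (0, F.Hc c x)) ξ x =
      levz (fun z => F.ψ (F.al c) (0, z)) (fderiv ℝ (F.Hc c) x ξ) (F.Hc c x) :=
    levz_comp (F.e (F.al c)).open_target (Touch.psi_slice F.toFlow (F.al c) h0) (isOpen_opd 10)
      (F.Hc_holOn c) (hsub hx) hm ξ
  have h3 : levz (fun z => F.ψ (F.al c) (0, z)) (fderiv ℝ (F.Hc c) x ξ) (F.Hc c x) =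
      lev (F.ψ (F.al c)) (fderiv ℝ (F.Hc c) x ξ) (0, F.Hc c x) :=
    levz_slice hU hs (hsubU ⟨h0, hm⟩) _
  rw [h2, h3] at h1
  have h4 : 0 ≤ nsq ξ := by
    rw [nsq_eq]
    exact Finset.sum_nonneg fun l _ => Complex.normSq_nonneg _
  exact h1.trans (mul_le_mul_of_nonneg_right ((hB ⟨c, rfl⟩).trans (le_max_left _ _)) h4)

end Mod

end Pool.Agent.KRFG

end
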