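import Pool.Agent.Work.MP_a2bf38_gt.Fu.I.Defs

section

/-!
# Circle averages of smooth functions in the plane
-/

open scoped ContDiff ENNReal ComplexOrder Topology
open Set MeasureTheory Filter Pool.Agent.ToricKRF Pool.Agent.ToricKRF.G Pool.Agent.KRFS

namespace Pool.Agent.KRFF

namespace Circ

/-- differentiation under the integral sign -/
theorem hasDerivAt_param {F F' : ℝ → ℝ → ℝ} {I : Set ℝ} (hI : IsOpen I)
    (hF : ContinuousOn (fun q : ℝ × ℝ => F q.1 q.2) (I ×ˢ univ))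
    (hF' : ContinuousOn (fun q : ℝ × ℝ => F' q.1 q.2) (I ×ˢ univ))
    (hd : ∀ r ∈ I, ∀ θ, HasDerivAt (fun r => F r θ) (F' r θ) r) {r : ℝ} (hr : r ∈ I) (a b : ℝ) :
    HasDerivAt (fun r => ∫ θ in a..b, F r θ) (∫ θ in a..b, F' r θ) r := by
  obtain ⟨ρ, hρ, hsub⟩ := Metric.isOpen_iff.1 hI r hr
  have hc : ∀ s ∈ I, Continuous (F s) := fun s hs =>
    hF.comp_continuous (Continuous.prodMk_right s) fun θ => ⟨hs, mem_univ _⟩
  have hc' : ∀ s ∈ I, Continuous (F' s) := fun s hs =>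
    hF'.comp_continuous (Continuous.prodMk_right s) fun θ => ⟨hs, mem_univ _⟩
  have hsub2 : Metric.closedBall r (ρ / 2) ⊆ I :=
    (Metric.closedBall_subset_ball (by linarith)).trans hsub
  have hK : IsCompact (Metric.closedBall r (ρ / 2) ×ˢ uIcc a b) :=
    (isCompact_closedBall _ _).prod isCompact_uIcc
  obtain ⟨C, hC⟩ := hK.exists_bound_of_continuousOn
    (hF'.mono (prod_mono hsub2 (subset_univ _)))
  refine (intervalIntegral.hasDerivAt_integral_of_dominated_loc_of_deriv_le (μ := volume)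
    (bound := fun _ => C) (s := Metric.closedBall r (ρ / 2)) (Metric.closedBall_mem_nhds r
    (by positivity)) ?_ ?_ ?_ ?_ ?_ ?_).2
  · filter_upwards [hI.mem_nhds hr] with s hs
    exact (hc s hs).aestronglyMeasurable
  · exact (hc r hr).intervalIntegrable _ _
  · exact (hc' r hr).aestronglyMeasurable
  · refine Eventually.of_forall fun θ hθ s hs => ?_
    exact hC (s, θ) ⟨hs, uIoc_subset_uIcc hθ⟩
  · exact intervalIntegrable_const
  · exact Eventually.of_forall fun θ _ s hs => hd s (hsub2 hs) θ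

/-- the direction `e^(iθ)` -/
noncomputable def ee (θ : ℝ) : ℂ := Complex.exp (θ * Complex.I)

theorem norm_ee (θ : ℝ) : ‖ee θ‖ = 1 := Complex.norm_exp_ofReal_mul_I θ

theorem continuous_ee : Continuous ee := by
  unfold ee
  fun_prop

theorem hasDerivAt_ee (θ : ℝ) : HasDerivAt ee (Complex.I * ee θ) θ := by
  have h1 : HasDerivAt (fun x : ℝ => (x : ℂ) * Complex.I) (1 * Complex.I) θ :=
    (Complex.ofRealCLM.hasDerivAt (x := θ)).mul_const Complex.I
  have h2 := h1.cexp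
  rw [one_mul, mul_comm] at h2
  exact h2

variable {G : ℂ → ℝ} {R : ℝ} (hG : ContDiffOn ℝ ∞ G (Metric.ball 0 R))

theorem mem_ball {r : ℝ} (hr : r ∈ Ioo (-R) R) (θ : ℝ) : (r : ℂ) * ee θ ∈ Metric.ball (0 : ℂ) R := by
  rw [mem_ball_zero_iff, norm_mul, norm_ee, mul_one, Complex.norm_real, Real.norm_eq_abs]
  exact abs_lt.2 hr

/-- the second derivative -/
noncomputable def G2 (G : ℂ → ℝ) (z : ℂ) : ℂ →L[ℝ] ℂ →L[ℝ] ℝ := fderiv ℝ (fderiv ℝ G) z

theorem one_le_infty : (1 : WithTop ℕ∞) ≤ ((⊤ : ℕ∞) : WithTop ℕ∞) := WithTop.coe_le_coe.2 le_top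

include hG

theorem cont0 : ContinuousOn G (Metric.ball 0 R) := hG.continuousOn

theorem smooth1 : ContDiffOn ℝ ∞ (fderiv ℝ G) (Metric.ball 0 R) :=
  hG.fderiv_of_isOpen Metric.isOpen_ball (by norm_num)

theorem smooth2 : ContDiffOn ℝ ∞ (G2 G) (Metric.ball 0 R) :=
  (smooth1 hG).fderiv_of_isOpen Metric.isOpen_ball (by norm_num)

theorem hasFDeriv0 {z : ℂ} (hz : z ∈ Metric.ball (0 : ℂ) R) :
    HasFDerivAt G (fderiv ℝ G z) z :=
  ((hG.contDiffAt (Metric.isOpen_ball.mem_nhds hz)).differentiableAt (by simp)).hasFDerivAt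

theorem hasFDeriv1 {z : ℂ} (hz : z ∈ Metric.ball (0 : ℂ) R) :
    HasFDerivAt (fderiv ℝ G) (G2 G z) z :=
  (((smooth1 hG).contDiffAt (Metric.isOpen_ball.mem_nhds hz)).differentiableAt
    (by simp)).hasFDerivAt

omit hG in
theorem contP (H : ℂ → ℝ) (hH : ContinuousOn H (Metric.ball 0 R)) :
    ContinuousOn (fun q : ℝ × ℝ => H (q.1 * ee q.2)) (Ioo (-R) R ×ˢ univ) := by
  refine hH.comp (Continuous.continuousOn ?_) fun q hq => mem_ball hq.1 q.2
  exact (Complex.continuous_ofReal.comp continuous_fst).mul (continuous_ee.comp continuous_snd)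

theorem contP1 : ContinuousOn (fun q : ℝ × ℝ => fderiv ℝ G (q.1 * ee q.2) (ee q.2))
    (Ioo (-R) R ×ˢ univ) := by
  have h1 : ContinuousOn (fun q : ℝ × ℝ => fderiv ℝ G (q.1 * ee q.2)) (Ioo (-R) R ×ˢ univ) := by
    refine (smooth1 hG).continuousOn.comp (Continuous.continuousOn ?_)
      fun q hq => mem_ball hq.1 q.2
    exact (Complex.continuous_ofReal.comp continuous_fst).mul (continuous_ee.comp continuous_snd)
  exact h1.clm_apply (continuous_ee.comp continuous_snd).continuousOn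

theorem contP2 {w : ℝ → ℂ} (hw : Continuous w) :
    ContinuousOn (fun q : ℝ × ℝ => G2 G (q.1 * ee q.2) (w q.2) (w q.2))
    (Ioo (-R) R ×ˢ univ) := by
  have h1 : ContinuousOn (fun q : ℝ × ℝ => G2 G (q.1 * ee q.2)) (Ioo (-R) R ×ˢ univ) := by
    refine (smooth2 hG).continuousOn.comp (Continuous.continuousOn ?_)
      fun q hq => mem_ball hq.1 q.2
    exact (Complex.continuous_ofReal.comp continuous_fst).mul (continuous_ee.comp continuous_snd)
  have h2 : ContinuousOn (fun q : ℝ × ℝ => w q.2) (Ioo (-R) R ×ˢ univ) :=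
    (hw.comp continuous_snd).continuousOn
  exact (h1.clm_apply h2).clm_apply h2

omit hG in
theorem hasDerivAt_ray (θ r : ℝ) : HasDerivAt (fun r : ℝ => (r : ℂ) * ee θ) (ee θ) r := by
  have h := (Complex.ofRealCLM.hasDerivAt (x := r)).mul_const (ee θ)
  simpa using h

theorem deriv_r {r : ℝ} (hr : r ∈ Ioo (-R) R) (θ : ℝ) :
    HasDerivAt (fun r : ℝ => G (r * ee θ)) (fderiv ℝ G (r * ee θ) (ee θ)) r :=
  (hasFDeriv0 hG (mem_ball hr θ)).comp_hasDerivAt r (hasDerivAt_ray θ r)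

theorem deriv_rr {r : ℝ} (hr : r ∈ Ioo (-R) R) (θ : ℝ) :
    HasDerivAt (fun r : ℝ => fderiv ℝ G (r * ee θ) (ee θ)) (G2 G (r * ee θ) (ee θ) (ee θ)) r := by
  have h1 := (hasFDeriv1 hG (mem_ball hr θ)).comp_hasDerivAt r (hasDerivAt_ray θ r)
  exact ((ContinuousLinearMap.apply ℝ ℝ (ee θ)).hasFDerivAt.comp_hasDerivAt r h1)

theorem deriv_θ {r : ℝ} (hr : r ∈ Ioo (-R) R) (θ : ℝ) :
    HasDerivAt (fun θ : ℝ => fderiv ℝ G (r * ee θ) (r * (Complex.I * ee θ)))
      (G2 G (r * ee θ) (r * (Complex.I * ee θ)) (r * (Complex.I * ee θ)) -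
        r * fderiv ℝ G (r * ee θ) (ee θ)) θ := by
  have h0 : HasDerivAt (fun θ : ℝ => (r : ℂ) * ee θ) (r * (Complex.I * ee θ)) θ :=
    (hasDerivAt_ee θ).const_mul (r : ℂ)
  have h1 := (hasFDeriv1 hG (mem_ball hr θ)).comp_hasDerivAt θ h0
  have h2 : HasDerivAt (fun θ : ℝ => (r : ℂ) * (Complex.I * ee θ))
      (r * (Complex.I * (Complex.I * ee θ))) θ :=
    ((hasDerivAt_ee θ).const_mul Complex.I).const_mul (r : ℂ)
  have h3 := h1.clm_apply h2
  refine h3.congr_deriv ?_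
  have h4 : (r : ℂ) * (Complex.I * (Complex.I * ee θ)) = -(r • ee θ) := by
    rw [← mul_assoc Complex.I, Complex.I_mul_I, Complex.real_smul]
    ring
  rw [h4, map_neg, Function.comp_apply, ContinuousLinearMap.map_smul, smul_eq_mul]
  ring

/-- the derivative of the circle average -/
noncomputable def cavgD (G : ℂ → ℝ) (r : ℝ) : ℝ :=
  (2 * Real.pi)⁻¹ * ∫ θ in (0 : ℝ)..2 * Real.pi, fderiv ℝ G (r * ee θ) (ee θ)

/-- the second derivative of the circle average -/
noncomputable def cavgDD (G : ℂ → ℝ) (r : ℝ) : ℝ :=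
  (2 * Real.pi)⁻¹ * ∫ θ in (0 : ℝ)..2 * Real.pi, G2 G (r * ee θ) (ee θ) (ee θ)

theorem hasDerivAt_cavg {r : ℝ} (hr : r ∈ Ioo (-R) R) : HasDerivAt (cavg G) (cavgD G r) r := by
  have h := hasDerivAt_param (F := fun r θ => G (r * ee θ))
    (F' := fun r θ => fderiv ℝ G (r * ee θ) (ee θ)) isOpen_Ioo (contP G (cont0 hG))
    (contP1 hG) (fun r hr θ => deriv_r hG hr θ) hr 0 (2 * Real.pi)
  exact h.const_mul (2 * Real.pi)⁻¹

theorem hasDerivAt_cavgD {r : ℝ} (hr : r ∈ Ioo (-R) R) :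
    HasDerivAt (cavgD G) (cavgDD G r) r := by
  have h := hasDerivAt_param (F := fun r θ => fderiv ℝ G (r * ee θ) (ee θ))
    (F' := fun r θ => G2 G (r * ee θ) (ee θ) (ee θ)) isOpen_Ioo (contP1 hG)
    (contP2 hG continuous_ee) (fun r hr θ => deriv_rr hG hr θ) hr 0 (2 * Real.pi)
  exact h.const_mul (2 * Real.pi)⁻¹

theorem lapC_eq {z : ℂ} (hz : z ∈ Metric.ball (0 : ℂ) R) (θ : ℝ) :
    lapC G z = G2 G z (ee θ) (ee θ) + G2 G z (Complex.I * ee θ) (Complex.I * ee θ) := by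
  have h1 : ∀ w : ℂ, D w (D w G) z = G2 G z w w := by
    intro w
    exact D_D_eq ((hG.contDiffAt (Metric.isOpen_ball.mem_nhds hz)).of_le two_le_infty) w w
  have h2 : ee θ = Real.cos θ • (1 : ℂ) + Real.sin θ • Complex.I := by
    rw [ee, Complex.exp_mul_I]
    simp
  have h3 : Complex.I * ee θ = -Real.sin θ • (1 : ℂ) + Real.cos θ • Complex.I := by
    rw [h2]
    apply Complex.ext <;> simp
  rw [h3, h2]
  unfold lapC
  rw [h1, h1]
  simp only [map_add, map_smul, add_apply, smul_apply,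
    smul_eq_mul]
  have h4 := Real.sin_sq_add_cos_sq θ
  linear_combination (-(G2 G z 1 1 + G2 G z Complex.I Complex.I)) * h4

theorem key_identity {r : ℝ} (hr : r ∈ Ioo (-R) R) :
    r * (r * cavgDD G r + cavgD G r) = r * (r * cavg (lapC G) r) := by
  have hpi : (0 : ℝ) < 2 * Real.pi := by positivity
  have hc1 : Continuous fun θ => fderiv ℝ G (r * ee θ) (ee θ) :=
    (contP1 hG).comp_continuous (Continuous.prodMk_right r) fun θ => ⟨hr, mem_univ _⟩
  have hc2 : ∀ {w : ℝ → ℂ}, Continuous w → Continuous fun θ => G2 G (r * ee θ) (w θ) (w θ) :=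
    fun {w} hw => (contP2 hG hw).comp_continuous (Continuous.prodMk_right r)
      fun θ => ⟨hr, mem_univ _⟩
  have hI : Continuous fun θ => Complex.I * ee θ := continuous_const.mul continuous_ee
  have hrI : Continuous fun θ => (r : ℂ) * (Complex.I * ee θ) := continuous_const.mul hI
  -- the integral of a derivative over the circle
  have h1 := intervalIntegral.integral_eq_sub_of_hasDerivAt (a := 0) (b := 2 * Real.pi)
    (fun θ _ => deriv_θ hG hr θ)
    (((hc2 hrI).sub (continuous_const.mul hc1)).intervalIntegrable _ _)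
  have h2 : ee (2 * Real.pi) = ee 0 := by
    simp [ee]
  rw [h2, sub_self] at h1
  have h3 : ∀ θ, G2 G (r * ee θ) (r * (Complex.I * ee θ)) (r * (Complex.I * ee θ)) =
      r ^ 2 * G2 G (r * ee θ) (Complex.I * ee θ) (Complex.I * ee θ) := by
    intro θ
    have e : (r : ℂ) * (Complex.I * ee θ) = r • (Complex.I * ee θ) := Complex.real_smul.symm
    rw [e, ContinuousLinearMap.map_smul, ContinuousLinearMap.map_smul]
    simp only [smul_apply, smul_eq_mul]
    ring
  simp only [h3] at h1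
  have e1 : Continuous fun θ => r ^ 2 * G2 G (r * ee θ) (Complex.I * ee θ) (Complex.I * ee θ) :=
    continuous_const.mul (hc2 hI)
  have e2 : Continuous fun θ => r * fderiv ℝ G (r * ee θ) (ee θ) := continuous_const.mul hc1
  rw [intervalIntegral.integral_sub (e1.intervalIntegrable _ _) (e2.intervalIntegrable _ _),
    intervalIntegral.integral_const_mul, intervalIntegral.integral_const_mul] at h1
  have h4 : ∫ θ in (0 : ℝ)..2 * Real.pi, lapC G (r * ee θ) =
      (∫ θ in (0 : ℝ)..2 * Real.pi, G2 G (r * ee θ) (ee θ) (ee θ)) +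
      ∫ θ in (0 : ℝ)..2 * Real.pi, G2 G (r * ee θ) (Complex.I * ee θ) (Complex.I * ee θ) := by
    rw [← intervalIntegral.integral_add ((hc2 continuous_ee).intervalIntegrable _ _)
      ((hc2 hI).intervalIntegrable _ _)]
    exact intervalIntegral.integral_congr fun θ _ => lapC_eq hG (mem_ball hr θ) θ
  have h5 : cavg (lapC G) r = (2 * Real.pi)⁻¹ * ∫ θ in (0 : ℝ)..2 * Real.pi,
      lapC G (r * ee θ) := rfl
  rw [h5, h4]
  unfold cavgDD cavgD
  linear_combination (-(2 * Real.pi)⁻¹) * h1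

theorem key_identity' {r : ℝ} (hr : r ∈ Ioo (-R) R) (hr0 : r ≠ 0) :
    r * cavgDD G r + cavgD G r = r * cavg (lapC G) r :=
  mul_left_cancel₀ hr0 (key_identity hG hr)

theorem hasDerivAt_mul {r : ℝ} (hr : r ∈ Ioo (-R) R) (hr0 : r ≠ 0) :
    HasDerivAt (fun r => r * cavgD G r) (r * cavg (lapC G) r) r := by
  have h := (hasDerivAt_id r).mul (hasDerivAt_cavgD hG hr)
  refine h.congr_deriv ?_
  rw [← key_identity' hG hr hr0]
  simp
  ring

theorem continuousOn_mul : ContinuousOn (fun r => r * cavgD G r) (Ioo (-R) R) := fun r hr =>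
  (continuousAt_id.mul (hasDerivAt_cavgD hG hr).continuousAt).continuousWithinAt

theorem continuousOn_cavg : ContinuousOn (cavg G) (Ioo (-R) R) := fun r hr =>
  (hasDerivAt_cavg hG hr).continuousAt.continuousWithinAt

omit hG in
theorem Ico_sub {r : ℝ} (hr : r ∈ Ico 0 R) : r ∈ Ioo (-R) R :=
  ⟨by linarith [hr.1, hr.2], hr.2⟩

omit hG in
theorem cavg_zero (G : ℂ → ℝ) : cavg G 0 = G 0 := by
  unfold cavg
  simp only [Complex.ofReal_zero, zero_mul, intervalIntegral.integral_const, sub_zero, smul_eq_mul]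
  rw [inv_mul_cancel_left₀ (by positivity)]

omit hG in
theorem cavg_nonneg {H : ℂ → ℝ} {r : ℝ} (h : ∀ θ : ℝ, 0 ≤ H (r * ee θ)) : 0 ≤ cavg H r :=
  mul_nonneg (by positivity) (intervalIntegral.integral_nonneg (by positivity) fun θ _ => h θ)

theorem continuousOn_lapC : ContinuousOn (lapC G) (Metric.ball 0 R) := by
  have h1 : ContinuousOn (fun z => G2 G z (ee 0) (ee 0) +
      G2 G z (Complex.I * ee 0) (Complex.I * ee 0)) (Metric.ball 0 R) := by
    have h2 := (smooth2 hG).continuousOn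
    exact ((h2.clm_apply continuousOn_const).clm_apply continuousOn_const).add
      ((h2.clm_apply continuousOn_const).clm_apply continuousOn_const)
  exact h1.congr fun z hz => lapC_eq hG hz 0

theorem cavg_lapC_le {r B : ℝ} (hr : r ∈ Ioo (-R) R)
    (h : ∀ z ∈ Metric.ball (0 : ℂ) R, lapC G z ≤ B) : cavg (lapC G) r ≤ B := by
  have hc : Continuous fun θ : ℝ => lapC G (r * ee θ) :=
    (contP (lapC G) (continuousOn_lapC hG)).comp_continuous (Continuous.prodMk_right r)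
      fun θ => ⟨hr, mem_univ _⟩
  have h1 : ∫ θ in (0 : ℝ)..2 * Real.pi, lapC G (r * ee θ) ≤ ∫ θ in (0 : ℝ)..2 * Real.pi, B :=
    intervalIntegral.integral_mono_on (by positivity) (hc.intervalIntegrable _ _)
      intervalIntegrable_const fun θ _ => h _ (mem_ball hr θ)
  rw [intervalIntegral.integral_const, sub_zero, smul_eq_mul] at h1
  have h2 := mul_le_mul_of_nonneg_left h1 (show (0 : ℝ) ≤ (2 * Real.pi)⁻¹ by positivity)
  rw [inv_mul_cancel_left₀ (by positivity)] at h2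
  exact h2

end Circ

open Circ

variable {G : ℂ → ℝ} {R : ℝ} (hG : ContDiffOn ℝ ∞ G (Metric.ball 0 R))
include hG

/-- `r a'(r)` is nondecreasing if `G` is subharmonic. -/
theorem cavgD_monotone (h : ∀ z ∈ Metric.ball (0 : ℂ) R, 0 ≤ lapC G z) :
    MonotoneOn (fun r => r * cavgD G r) (Ico 0 R) := by
  refine monotoneOn_of_deriv_nonneg (convex_Ico 0 R)
    ((continuousOn_mul hG).mono fun r hr => Ico_sub hr) ?_ ?_
  · intro r hr
    rw [interior_Ico] at hr
    exact (hasDerivAt_mul hG (Ico_sub ⟨hr.1.le, hr.2⟩) hr.1.ne').differentiableAt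
      |>.differentiableWithinAt
  · intro r hr
    rw [interior_Ico] at hr
    have hr' := Ico_sub ⟨hr.1.le, hr.2⟩
    rw [(hasDerivAt_mul hG hr' hr.1.ne').deriv]
    exact mul_nonneg hr.1.le (cavg_nonneg fun θ => h _ (mem_ball hr' θ))

theorem mul_cavgD_nonneg (h : ∀ z ∈ Metric.ball (0 : ℂ) R, 0 ≤ lapC G z) {r : ℝ}
    (hr : r ∈ Ico 0 R) : 0 ≤ r * cavgD G r := by
  have := cavgD_monotone hG h (a := 0) (b := r) ⟨le_rfl, hr.1.trans_lt hr.2⟩ hr hr.1
  simpa using this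

/-- The circle averages of a subharmonic function are nondecreasing. -/
theorem cavg_monotone (h : ∀ z ∈ Metric.ball (0 : ℂ) R, 0 ≤ lapC G z) :
    MonotoneOn (cavg G) (Ico 0 R) := by
  refine monotoneOn_of_deriv_nonneg (convex_Ico 0 R)
    ((continuousOn_cavg hG).mono fun r hr => Ico_sub hr) ?_ ?_
  · intro r hr
    rw [interior_Ico] at hr
    exact (hasDerivAt_cavg hG (Ico_sub ⟨hr.1.le, hr.2⟩)).differentiableAt
      |>.differentiableWithinAt
  · intro r hr
    rw [interior_Ico] at hr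
    rw [(hasDerivAt_cavg hG (Ico_sub ⟨hr.1.le, hr.2⟩)).deriv]
    exact nonneg_of_mul_nonneg_right (mul_cavgD_nonneg hG h ⟨hr.1.le, hr.2⟩) hr.1

theorem le_cavg (h : ∀ z ∈ Metric.ball (0 : ℂ) R, 0 ≤ lapC G z) {r : ℝ} (hr : r ∈ Ico 0 R) :
    G 0 ≤ cavg G r := by
  have := cavg_monotone hG h (a := 0) (b := r) ⟨le_rfl, hr.1.trans_lt hr.2⟩ hr hr.1
  rwa [cavg_zero] at this

/-- Jensen's formula, from above -/
theorem cavg_sub_le {B : ℝ} (h : ∀ z ∈ Metric.ball (0 : ℂ) R, lapC G z ≤ 4 * B) {r : ℝ}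
    (hr : r ∈ Ico 0 R) : cavg G r - G 0 ≤ B * r ^ 2 := by
  -- `r a' ≤ 2 B r²`
  have h1 : AntitoneOn (fun r => r * cavgD G r - 2 * B * r ^ 2) (Ico 0 R) := by
    have hd : ∀ s ∈ Ioo 0 R, HasDerivAt (fun r => r * cavgD G r - 2 * B * r ^ 2)
        (s * cavg (lapC G) s - 2 * B * (2 * s)) s := by
      intro s hs
      have e1 := hasDerivAt_mul hG (Ico_sub ⟨hs.1.le, hs.2⟩) hs.1.ne'
      have e2 : HasDerivAt (fun r : ℝ => 2 * B * r ^ 2) (2 * B * (2 * s)) s := by
        have := (hasDerivAt_pow 2 s).const_mul (2 * B)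
        simpa using this
      exact e1.sub e2
    refine antitoneOn_of_deriv_nonpos (convex_Ico 0 R)
      (((continuousOn_mul hG).mono fun r hr => Ico_sub hr).sub (by fun_prop)) ?_ ?_
    · intro s hs
      rw [interior_Ico] at hs
      exact (hd s hs).differentiableAt.differentiableWithinAt
    · intro s hs
      rw [interior_Ico] at hs
      rw [(hd s hs).deriv]
      have := mul_le_mul_of_nonneg_left (cavg_lapC_le hG (Ico_sub ⟨hs.1.le, hs.2⟩) h) hs.1.le
      linarith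
  have h2 : ∀ s ∈ Ioo 0 R, cavgD G s ≤ 2 * B * s := by
    intro s hs
    have h3 := h1 (a := 0) (b := s) ⟨le_rfl, hs.1.trans hs.2⟩ ⟨hs.1.le, hs.2⟩ hs.1.le
    simp only [zero_mul, ne_eq, OfNat.ofNat_ne_zero, not_false_eq_true, zero_pow, mul_zero,
      sub_self] at h3
    have h4 : s * cavgD G s ≤ s * (2 * B * s) := by nlinarith
    exact le_of_mul_le_mul_left h4 hs.1
  have h5 : AntitoneOn (fun r => cavg G r - B * r ^ 2) (Ico 0 R) := by
    have hd : ∀ s ∈ Ioo 0 R, HasDerivAt (fun r => cavg G r - B * r ^ 2)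
        (cavgD G s - B * (2 * s)) s := by
      intro s hs
      have e1 := hasDerivAt_cavg hG (Ico_sub ⟨hs.1.le, hs.2⟩)
      have e2 : HasDerivAt (fun r : ℝ => B * r ^ 2) (B * (2 * s)) s := by
        have := (hasDerivAt_pow 2 s).const_mul B
        simpa using this
      exact e1.sub e2
    refine antitoneOn_of_deriv_nonpos (convex_Ico 0 R)
      (((continuousOn_cavg hG).mono fun r hr => Ico_sub hr).sub (by fun_prop)) ?_ ?_
    · intro s hs
      rw [interior_Ico] at hs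
      exact (hd s hs).differentiableAt.differentiableWithinAt
    · intro s hs
      rw [interior_Ico] at hs
      rw [(hd s hs).deriv]
      linarith [h2 s hs]
  have h6 := h5 (a := 0) (b := r) ⟨le_rfl, hr.1.trans_lt hr.2⟩ hr hr.1
  simp only [cavg_zero, ne_eq, OfNat.ofNat_ne_zero, not_false_eq_true, zero_pow, mul_zero,
    sub_zero] at h6
  linarith

omit hG in
theorem cavg_log {G : ℂ → ℝ} (hG : ContDiffOn ℝ ∞ G (Metric.ball 0 3))
    (h : ∀ z ∈ Metric.ball (0 : ℂ) 3, 0 ≤ lapC G z) (h0 : ∀ z ∈ Metric.ball (0 : ℂ) 3, G z ≤ 0)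
    {s : ℝ} (hs : s ∈ Ioc 0 1) : (1 + Real.log (1 / s)) * cavg G 1 ≤ cavg G s := by
  have hmono := cavgD_monotone hG h
  set q : ℝ := 1 * cavgD G 1 with hq
  have he : Real.exp 1 < 3 := Real.exp_one_lt_d9.trans (by norm_num)
  have he1 : 1 ≤ Real.exp 1 := by
    have := Real.add_one_le_exp (1 : ℝ)
    linarith
  have h1I : (1 : ℝ) ∈ Ico (0 : ℝ) 3 := ⟨by norm_num, by norm_num⟩
  have hd : ∀ r ∈ Ioo (0 : ℝ) 3, HasDerivAt (fun r => cavg G r - q * Real.log r)
      (cavgD G r - q * r⁻¹) r := by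
    intro r hr
    exact (hasDerivAt_cavg hG (Ico_sub ⟨hr.1.le, hr.2⟩)).sub
      ((Real.hasDerivAt_log hr.1.ne').const_mul q)
  have hc : ContinuousOn (fun r => cavg G r - q * Real.log r) (Ioo (0 : ℝ) 3) := fun r hr =>
    (hd r hr).continuousAt.continuousWithinAt
  -- on `[s, 1]`
  have h2 : cavg G 1 - q * Real.log 1 ≤ cavg G s - q * Real.log s := by
    have hanti : AntitoneOn (fun r => cavg G r - q * Real.log r) (Icc s 1) := by
      refine antitoneOn_of_deriv_nonpos (convex_Icc s 1)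
        (hc.mono fun r hr => ⟨hs.1.trans_le hr.1, by linarith [hr.2]⟩) ?_ ?_
      · intro r hr
        rw [interior_Icc] at hr
        exact (hd r ⟨hs.1.trans hr.1, by linarith [hr.2]⟩).differentiableAt.differentiableWithinAt
      · intro r hr
        rw [interior_Icc] at hr
        have hr0 : 0 < r := hs.1.trans hr.1
        rw [(hd r ⟨hr0, by linarith [hr.2]⟩).deriv]
        have h3 := hmono (a := r) (b := 1) ⟨hr0.le, by linarith [hr.2]⟩ h1I hr.2.le
        have h4 : r * cavgD G r ≤ q := h3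
        have h5 : cavgD G r ≤ q * r⁻¹ := by
          rw [← div_eq_mul_inv, le_div_iff₀ hr0, mul_comm]
          exact h4
        linarith
    exact hanti ⟨le_rfl, hs.2⟩ ⟨hs.2, le_rfl⟩ hs.2
  -- on `[1, e]`
  have h3 : cavg G 1 - q * Real.log 1 ≤ cavg G (Real.exp 1) - q * Real.log (Real.exp 1) := by
    have hmon : MonotoneOn (fun r => cavg G r - q * Real.log r) (Icc 1 (Real.exp 1)) := by
      refine monotoneOn_of_deriv_nonneg (convex_Icc 1 (Real.exp 1))
        (hc.mono fun r hr => ⟨by linarith [hr.1], by linarith [hr.2]⟩) ?_ ?_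
      · intro r hr
        rw [interior_Icc] at hr
        exact (hd r ⟨by linarith [hr.1], by linarith [hr.2]⟩).differentiableAt
          |>.differentiableWithinAt
      · intro r hr
        rw [interior_Icc] at hr
        have hr0 : 0 < r := by linarith [hr.1]
        rw [(hd r ⟨hr0, by linarith [hr.2]⟩).deriv]
        have h3 := hmono (a := 1) (b := r) h1I ⟨hr0.le, by linarith [hr.2]⟩ hr.1.le
        have h4 : q ≤ r * cavgD G r := h3
        have h5 : q * r⁻¹ ≤ cavgD G r := by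
          rw [← div_eq_mul_inv, div_le_iff₀ hr0, mul_comm]
          exact h4
        linarith
    exact hmon ⟨le_rfl, he1⟩ ⟨he1, le_rfl⟩ he1
  rw [Real.log_one, mul_zero, sub_zero] at h2 h3
  rw [Real.log_exp, mul_one] at h3
  have h4 : cavg G (Real.exp 1) ≤ 0 := by
    have e1 : cavg (fun z => -G z) (Real.exp 1) = -cavg G (Real.exp 1) := by
      simp only [cavg, intervalIntegral.integral_neg, mul_neg]
    have e2 : 0 ≤ cavg (fun z => -G z) (Real.exp 1) := cavg_nonneg fun θ => by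
      have := h0 _ (mem_ball (R := 3) ⟨by linarith, he⟩ θ)
      linarith
    linarith
  have hlog : Real.log (1 / s) = -Real.log s := by rw [one_div, Real.log_inv]
  have hl0 : 0 ≤ -Real.log s := by
    have := Real.log_nonpos hs.1.le hs.2
    linarith
  rw [hlog]
  have h5 : q ≤ -cavg G 1 := by linarith
  have h6 := mul_le_mul_of_nonneg_right h5 hl0
  linarith

end Pool.Agent.KRFF

end

section

/-!
# The average length of the rays
-/

open scoped ContDiff ENNReal ComplexOrder Topology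
open Set MeasureTheory Filter Pool.Agent.ToricKRF Pool.Agent.ToricKRF.G Pool.Agent.KRFS

namespace Pool.Agent.KRFF

namespace Rad

open Circ

variable {G : ℂ → ℝ}

theorem m_bound {a C : ℝ} (hG : ContDiffOn ℝ ∞ G (Metric.ball 0 (1 / 2)))
    (h : ∀ z ∈ Metric.ball (0 : ℂ) (1 / 2), 0 ≤ lapC G z)
    (hc : ∀ r ∈ Ioc (0 : ℝ) (1 / 4), cavg G r - G 0 ≤ C * Real.log (1 / r) ^ (-a)) {s : ℝ}
    (hs : s ∈ Ioc (0 : ℝ) (1 / 16)) :
    s * cavgD G s ≤ C * (-Real.log s / 2) ^ (-a - 1) := by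
  set q : ℝ := s * cavgD G s with hq
  have hsq : √s ∈ Ioc (0 : ℝ) (1 / 4) := by
    refine ⟨Real.sqrt_pos.2 hs.1, ?_⟩
    rw [Real.sqrt_le_left (by norm_num)]
    have := hs.2
    norm_num at this ⊢
    exact this
  have hss : s ≤ √s := by
    have h1 : √s * √s = s := Real.mul_self_sqrt hs.1.le
    nlinarith [hsq.1, hsq.2]
  have hlog : 0 < -Real.log s / 2 := by
    have h1 : Real.log s < 0 := Real.log_neg hs.1 (by linarith [hs.2])
    linarith
  have hd : ∀ r ∈ Ioo (0 : ℝ) (1 / 2), HasDerivAt (fun r => cavg G r - q * Real.log r)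
      (cavgD G r - q * r⁻¹) r := by
    intro r hr
    exact (hasDerivAt_cavg hG (Ico_sub ⟨hr.1.le, hr.2⟩)).sub
      ((Real.hasDerivAt_log hr.1.ne').const_mul q)
  have hsub : Icc s (√s) ⊆ Ioo (0 : ℝ) (1 / 2) := fun r hr =>
    ⟨hs.1.trans_le hr.1, by linarith [hr.2, hsq.2]⟩
  have h2 : cavg G s - q * Real.log s ≤ cavg G (√s) - q * Real.log (√s) := by
    have hmon : MonotoneOn (fun r => cavg G r - q * Real.log r) (Icc s (√s)) := by
      refine monotoneOn_of_deriv_nonneg (convex_Icc s (√s))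
        (fun r hr => (hd r (hsub hr)).continuousAt.continuousWithinAt) ?_ ?_
      · intro r hr
        rw [interior_Icc] at hr
        exact (hd r (hsub ⟨hr.1.le, hr.2.le⟩)).differentiableAt.differentiableWithinAt
      · intro r hr
        rw [interior_Icc] at hr
        have hr' := hsub ⟨hr.1.le, hr.2.le⟩
        rw [(hd r hr').deriv]
        have h3 := cavgD_monotone hG h (a := s) (b := r) ⟨hs.1.le, by linarith [hs.2]⟩
          ⟨hr'.1.le, hr'.2⟩ hr.1.le
        have h4 : q ≤ r * cavgD G r := h3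
        have h5 : q * r⁻¹ ≤ cavgD G r := by
          rw [← div_eq_mul_inv, div_le_iff₀ hr'.1, mul_comm]
          exact h4
        linarith
    exact hmon ⟨le_rfl, hss⟩ ⟨hss, le_rfl⟩ hss
  have h3 : G 0 ≤ cavg G s := le_cavg hG h ⟨hs.1.le, by linarith [hs.2]⟩
  have h4 := hc (√s) hsq
  rw [one_div, Real.log_inv, Real.log_sqrt hs.1.le, ← neg_div] at h4
  rw [Real.log_sqrt hs.1.le] at h2
  have h5 : q * (-Real.log s / 2) ≤ C * (-Real.log s / 2) ^ (-a) := by linarith
  rw [Real.rpow_sub_one hlog.ne', ← mul_div_assoc, le_div_iff₀ hlog]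
  exact h5

theorem sqrt_le {L t : ℝ} (hL : 0 ≤ L) (ht : 0 < t) : √L ≤ (t * L + 1 / t) / 2 := by
  obtain ⟨y, hy, rfl⟩ : ∃ y : ℝ, 0 ≤ y ∧ y ^ 2 = L := ⟨√L, Real.sqrt_nonneg L, Real.sq_sqrt hL⟩
  rw [Real.sqrt_sq hy]
  have h2 : (t * y - 1) ^ 2 / t ≥ 0 := by positivity
  have h3 : (t * y - 1) ^ 2 / t = t * y ^ 2 - 2 * y + 1 / t := by
    field_simp
    ring
  linarith

theorem P_le (hG : ContDiffOn ℝ ∞ G (Metric.ball 0 (1 / 2)))
    (h : ∀ z ∈ Metric.ball (0 : ℂ) (1 / 2), 0 ≤ lapC G z) {r t : ℝ}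
    (hr : r ∈ Ioo (-(1 / 2) : ℝ) (1 / 2)) (ht : 0 < t) :
    ∫ θ in (0 : ℝ)..2 * Real.pi, √(lapC G (r * ee θ)) ≤
      Real.pi * (t * cavg (lapC G) r + 1 / t) := by
  have hc : Continuous fun θ : ℝ => lapC G (r * ee θ) :=
    (contP (lapC G) (continuousOn_lapC hG)).comp_continuous (Continuous.prodMk_right r)
      fun θ => ⟨hr, mem_univ _⟩
  have h1 : ∫ θ in (0 : ℝ)..2 * Real.pi, √(lapC G (r * ee θ)) ≤
      ∫ θ in (0 : ℝ)..2 * Real.pi, (t * lapC G (r * ee θ) + 1 / t) / 2 := by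
    refine intervalIntegral.integral_mono_on (by positivity) (hc.sqrt.intervalIntegrable _ _)
      ((((continuous_const.mul hc).add continuous_const).div_const 2).intervalIntegrable _ _)
      fun θ _ => sqrt_le (h _ (mem_ball hr θ)) ht
  refine h1.trans_eq ?_
  have hi : IntervalIntegrable (fun θ : ℝ => t * lapC G (r * ee θ)) volume 0 (2 * Real.pi) :=
    (continuous_const.mul hc).intervalIntegrable _ _
  rw [intervalIntegral.integral_div, intervalIntegral.integral_add hi intervalIntegrable_const,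
    intervalIntegral.integral_const_mul, intervalIntegral.integral_const, sub_zero, smul_eq_mul]
  have h2 : cavg (lapC G) r = (2 * Real.pi)⁻¹ * ∫ θ in (0 : ℝ)..2 * Real.pi,
      lapC G (r * ee θ) := rfl
  rw [h2]
  have hpi : Real.pi ≠ 0 := Real.pi_ne_zero
  field_simp

theorem hasDerivAt_neglog_rpow {r : ℝ} (hr : r ∈ Ioo (0 : ℝ) 1) (p : ℝ) :
    HasDerivAt (fun r => (-Real.log r) ^ p) (-r⁻¹ * p * (-Real.log r) ^ (p - 1)) r := by
  have h1 : HasDerivAt (fun r => -Real.log r) (-r⁻¹) r := (Real.hasDerivAt_log hr.1.ne').neg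
  have h2 : -Real.log r ≠ 0 := by
    have := Real.log_neg hr.1 hr.2
    linarith
  exact h1.rpow_const (Or.inl h2)

end Rad

open Circ Rad

theorem radial_bound {a : ℝ} (ha : 0 < a) (C : ℝ) : ∃ C' : ℝ, 0 ≤ C' ∧ ∀ G : ℂ → ℝ,
    ContDiffOn ℝ ∞ G (Metric.ball 0 (1 / 2)) → (∀ z ∈ Metric.ball (0 : ℂ) (1 / 2), 0 ≤ lapC G z) →
    (∀ r ∈ Ioc (0 : ℝ) (1 / 4), cavg G r - G 0 ≤ C * Real.log (1 / r) ^ (-a)) →
    ∫ θ in (0 : ℝ)..2 * Real.pi, ∫ r in (0 : ℝ)..1 / 16,
      √(lapC G (r * Complex.exp (θ * Complex.I))) ≤ C' := by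
  set B : ℝ := |C| * (1 / 2 : ℝ) ^ (-a - 1) with hB
  have hB0 : 0 ≤ B := by positivity
  set K : ℝ := ((1 + a / 2) * B + 1) * (2 / a) with hK
  have hK0 : 0 ≤ K := by positivity
  set ℓ₀ : ℝ := -Real.log (1 / 16) with hℓ₀
  have hℓ₀0 : 0 < ℓ₀ := by
    have := Real.log_neg (show (0 : ℝ) < 1 / 16 by norm_num) (by norm_num)
    linarith
  refine ⟨Real.pi * (ℓ₀ ^ (1 + a / 2) * (B * ℓ₀ ^ (-a - 1)) + K * ℓ₀ ^ (-(a / 2))), by positivity,
    fun G hG h hc0 => ?_⟩
  have hc : ∀ r ∈ Ioc (0 : ℝ) (1 / 4), cavg G r - G 0 ≤ |C| * Real.log (1 / r) ^ (-a) := by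
    intro r hr
    refine (hc0 r hr).trans (mul_le_mul_of_nonneg_right (le_abs_self C) ?_)
    refine Real.rpow_nonneg (Real.log_nonneg ?_) _
    rw [le_div_iff₀ hr.1]
    linarith [hr.2]
  have hm : ∀ s ∈ Ioc (0 : ℝ) (1 / 16), s * cavgD G s ≤ B * (-Real.log s) ^ (-a - 1) := by
    intro s hs
    have h1 := m_bound hG h hc hs
    have h2 : 0 ≤ -Real.log s := by
      have := Real.log_nonpos hs.1.le (by linarith [hs.2])
      linarith
    rw [div_eq_mul_one_div, Real.mul_rpow h2 (by norm_num)] at h1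
    rw [hB]
    linarith
  set F : ℝ → ℝ → ℝ := fun θ r => √(lapC G (r * ee θ)) with hF
  -- integrability
  have hFi : IntegrableOn (Function.uncurry F) (uIoc 0 (2 * Real.pi) ×ˢ uIoc 0 (1 / 16)) := by
    have hFc : ContinuousOn (Function.uncurry F) (uIcc 0 (2 * Real.pi) ×ˢ uIcc 0 (1 / 16)) := by
      have h1 := (contP (lapC G) (continuousOn_lapC hG))
      have h2 : ContinuousOn (fun q : ℝ × ℝ => lapC G (q.2 * ee q.1))
          (uIcc 0 (2 * Real.pi) ×ˢ uIcc 0 (1 / 16)) := by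
        refine h1.comp (f := fun q : ℝ × ℝ => (q.2, q.1)) (by fun_prop) fun q hq => ?_
        have h3 : q.2 ∈ uIcc (0 : ℝ) (1 / 16) := hq.2
        rw [uIcc_of_le (by norm_num)] at h3
        exact ⟨⟨by linarith [h3.1], by linarith [h3.2]⟩, mem_univ _⟩
      exact h2.sqrt
    exact (hFc.integrableOn_compact (isCompact_uIcc.prod isCompact_uIcc)).mono_set
      (prod_mono uIoc_subset_uIcc uIoc_subset_uIcc)
  have hswap := intervalIntegral_intervalIntegral_swap hFi
  set P : ℝ → ℝ := fun r => ∫ θ in (0 : ℝ)..2 * Real.pi, F θ r with hP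
  have hPi : IntegrableOn P (Icc 0 (1 / 16)) := by
    rw [integrableOn_Icc_iff_integrableOn_Ioc]
    have h1 : Integrable (Function.uncurry F) ((volume.restrict (uIoc 0 (2 * Real.pi))).prod
        (volume.restrict (uIoc (0 : ℝ) (1 / 16)))) := by
      rw [Measure.prod_restrict, ← Measure.volume_eq_prod]
      exact hFi
    have h2 := h1.integral_prod_right
    rw [uIoc_of_le (by positivity), uIoc_of_le (by norm_num)] at h2
    refine h2.congr (Eventually.of_forall fun r => ?_)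
    simp only [hP]
    rw [intervalIntegral.integral_of_le (by positivity)]
    rfl
  have hgoal : ∫ θ in (0 : ℝ)..2 * Real.pi, ∫ r in (0 : ℝ)..1 / 16,
      √(lapC G (r * Complex.exp (θ * Complex.I))) = ∫ r in (0 : ℝ)..1 / 16, P r := hswap
  rw [hgoal]
  -- the primitive
  set Ψ : ℝ → ℝ := fun r => Real.pi * ((-Real.log r) ^ (1 + a / 2) * (r * cavgD G r) +
    K * (-Real.log r) ^ (-(a / 2))) with hΨ
  set Ψ' : ℝ → ℝ := fun r => Real.pi * ((-r⁻¹ * (1 + a / 2) * (-Real.log r) ^ (1 + a / 2 - 1) *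
    (r * cavgD G r) + (-Real.log r) ^ (1 + a / 2) * (r * cavg (lapC G) r)) +
    K * (-r⁻¹ * (-(a / 2)) * (-Real.log r) ^ (-(a / 2) - 1))) with hΨ'
  have hderiv : ∀ r ∈ Ioo (0 : ℝ) (1 / 2), HasDerivAt Ψ (Ψ' r) r := by
    intro r hr
    have h1 := hasDerivAt_neglog_rpow (r := r) ⟨hr.1, by linarith [hr.2]⟩ (1 + a / 2)
    have h2 := hasDerivAt_neglog_rpow (r := r) ⟨hr.1, by linarith [hr.2]⟩ (-(a / 2))
    have h3 := hasDerivAt_mul hG (r := r) (Ico_sub ⟨hr.1.le, hr.2⟩) hr.1.ne'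
    exact ((h1.mul h3).add (h2.const_mul K)).const_mul Real.pi
  have hle : ∀ r ∈ Ioc (0 : ℝ) (1 / 16), P r ≤ Ψ' r := by
    intro r hr
    have hr0 := hr.1
    set ℓ : ℝ := -Real.log r with hℓ
    have hℓ0 : 0 < ℓ := by
      have := Real.log_neg hr.1 (by linarith [hr.2])
      linarith
    have h1 := P_le hG h (r := r) (t := r * ℓ ^ (1 + a / 2)) ⟨by linarith, by linarith [hr.2]⟩
      (by positivity)
    refine h1.trans ?_
    rw [hΨ']
    refine mul_le_mul_of_nonneg_left ?_ Real.pi_pos.le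
    have e1 : 1 / (r * ℓ ^ (1 + a / 2)) = r⁻¹ * ℓ ^ (-(a / 2) - 1) := by
      rw [one_div, mul_inv, ← Real.rpow_neg hℓ0.le]
      congr 2
      ring
    have e2 := hm r hr
    rw [← hℓ] at e2
    have e3 : ℓ ^ (1 + a / 2 - 1) * ℓ ^ (-a - 1) = ℓ ^ (-(a / 2) - 1) := by
      rw [← Real.rpow_add hℓ0]
      congr 1
      ring
    have e4 : r⁻¹ * (1 + a / 2) * ℓ ^ (1 + a / 2 - 1) * (r * cavgD G r) ≤
        r⁻¹ * (1 + a / 2) * B * ℓ ^ (-(a / 2) - 1) := by
      calc r⁻¹ * (1 + a / 2) * ℓ ^ (1 + a / 2 - 1) * (r * cavgD G r) ≤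
          r⁻¹ * (1 + a / 2) * ℓ ^ (1 + a / 2 - 1) * (B * ℓ ^ (-a - 1)) :=
            mul_le_mul_of_nonneg_left e2 (by positivity)
        _ = r⁻¹ * (1 + a / 2) * B * (ℓ ^ (1 + a / 2 - 1) * ℓ ^ (-a - 1)) := by ring
        _ = _ := by rw [e3]
    have e5 : K * (a / 2) = (1 + a / 2) * B + 1 := by
      rw [hK]
      field_simp
    rw [e1]
    have e6 : K * (-r⁻¹ * (-(a / 2)) * ℓ ^ (-(a / 2) - 1)) =
        ((1 + a / 2) * B + 1) * (r⁻¹ * ℓ ^ (-(a / 2) - 1)) := by
      rw [← e5]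
      ring
    rw [e6]
    nlinarith
  have hΨ0 : ∀ r ∈ Ioc (0 : ℝ) (1 / 16), 0 ≤ Ψ r := by
    intro r hr
    have h1 : 0 ≤ r * cavgD G r := mul_cavgD_nonneg hG h ⟨hr.1.le, by linarith [hr.2]⟩
    have h2 : 0 ≤ -Real.log r := by
      have := Real.log_nonpos hr.1.le (by linarith [hr.2])
      linarith
    rw [hΨ]
    positivity
  have hδ : ∀ δ ∈ Ioc (0 : ℝ) (1 / 16), ∫ r in δ..1 / 16, P r ≤ Ψ (1 / 16) := by
    intro δ hδ
    have h1 := intervalIntegral.integral_le_sub_of_hasDeriv_right_of_le (g := Ψ) (g' := Ψ')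
      (φ := P) hδ.2 (fun r hr => (hderiv r ⟨hδ.1.trans_le hr.1, by linarith [hr.2]⟩
        ).continuousAt.continuousWithinAt)
      (fun r hr => (hderiv r ⟨hδ.1.trans hr.1, by linarith [hr.2]⟩).hasDerivWithinAt)
      (hPi.mono_set (Icc_subset_Icc_left hδ.1.le))
      (fun r hr => hle r ⟨hδ.1.trans hr.1, hr.2.le⟩)
    have h2 := hΨ0 δ hδ
    linarith
  have hlast : Ψ (1 / 16) ≤
      Real.pi * (ℓ₀ ^ (1 + a / 2) * (B * ℓ₀ ^ (-a - 1)) + K * ℓ₀ ^ (-(a / 2))) := by
    rw [hΨ]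
    refine mul_le_mul_of_nonneg_left ?_ Real.pi_pos.le
    have h1 := hm (1 / 16) ⟨by norm_num, le_rfl⟩
    rw [← hℓ₀] at h1 ⊢
    have h2 := mul_le_mul_of_nonneg_left h1 (show 0 ≤ ℓ₀ ^ (1 + a / 2) by positivity)
    linarith
  have hcont : ContinuousOn (fun x => ∫ t in x..1 / 16, P t) (uIcc 0 (1 / 16)) :=
    intervalIntegral.continuousOn_primitive_interval_left (by
      rwa [uIcc_of_le (by norm_num)])
  refine le_trans ?_ hlast
  have h0 : ContinuousWithinAt (fun x => ∫ t in x..1 / 16, P t) (Ioc 0 (1 / 16)) 0 :=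
    (hcont 0 left_mem_uIcc).mono (by
      rw [uIcc_of_le (by norm_num)]
      exact Ioc_subset_Icc_self)
  have hne : (𝓝[Ioc (0 : ℝ) (1 / 16)] 0).NeBot := by
    rw [← mem_closure_iff_nhdsWithin_neBot, closure_Ioc (by norm_num)]
    exact ⟨le_rfl, by norm_num⟩
  exact le_of_tendsto h0 (by
    filter_upwards [self_mem_nhdsWithin] with δ hδ'
    exact hδ δ hδ')

end Pool.Agent.KRFF

end
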