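import Pool.Agent.Work.MP_a2bf38_gt.Fu.H.Gen
import Pool.Agent.Work.MP_a2bf38_gt.Fu.H.Dist

section

/-!
# The distance of two points of a complex line, by the lengths of rays
-/

open scoped ContDiff ENNReal
open Set Filter Topology MeasureTheory Pool.Agent.ToricKRF Pool.Agent.ToricKRF.G Pool.Agent.KRFS

namespace Pool.Agent.KRFF

variable {M : Type} [TopologicalSpace M] {κ : Type} {n : ℕ}
  {e : κ → OpenPartialHomeomorph M (Cn n)} {ψ : κ → ℝ × Cn n → ℝ} {t : ℝ} {c : κ}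
  {U : Set (ℝ × Cn n)}

theorem line_eq_cln (z v : Cn n) : line z v = cln z v := rfl

theorem line_contDiff (z v : Cn n) : ContDiff ℝ ∞ (line z v) := by
  have : line z v = fun ζ => z + lineL v ζ := funext (line_eq z v)
  rw [this]
  exact contDiff_const.add (lineL v).contDiff

/-- the Laplacian on a complex line -/
theorem lapC_line' {f : ℝ × Cn n → ℝ} (hU : IsOpen U) (hf : ContDiffOn ℝ ∞ f U) (z v : Cn n)
    {ζ : ℂ} (hp : (t, line z v ζ) ∈ U) :
    lapC (fun ζ => f (t, line z v ζ)) ζ = 4 * lev f v (t, line z v ζ) :=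
  lapC_line hU hf hp

/-- a segment of a complex line starting at the origin -/
theorem rdist_ray (hU : IsOpen U) (hψ : ContDiffOn ℝ ∞ (ψ c) U)
    (hsub : ∀ z ∈ (e c).target, (t, z) ∈ U)
    (hnn : ∀ z ∈ (e c).target, ∀ u, 0 ≤ lev (ψ c) u (t, z)) {z v : Cn n} {R : ℝ}
    (hdisc : ∀ ζ : ℂ, ‖ζ‖ ≤ R → line z v ζ ∈ (e c).target) (θ : ℝ) {ρ : ℝ} (hρ0 : 0 ≤ ρ)
    (hρ : ρ ≤ R) :
    rdist e ψ t ((e c).symm z) ((e c).symm (line z v (ρ * Complex.exp (θ * Complex.I)))) ≤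
      ENNReal.ofReal (∫ r in (0 : ℝ)..R,
        √(lapC (fun ζ => ψ c (t, line z v ζ)) (r * Complex.exp (θ * Complex.I)))) := by
  set E := Complex.exp (θ * Complex.I) with hE
  have hEn : ‖E‖ = 1 := Complex.norm_exp_ofReal_mul_I θ
  have hnE : ∀ r ∈ Icc (0 : ℝ) R, ‖(r : ℂ) * E‖ ≤ R := by
    intro r hr
    rw [norm_mul, hEn, mul_one, Complex.norm_real, Real.norm_of_nonneg hr.1]
    exact hr.2
  set γ : ℝ → Cn n := fun s => line z v (((s * ρ : ℝ) : ℂ) * E) with hγ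
  have hγd : ∀ s, HasDerivAt γ (lineL v (ρ * E)) s := by
    intro s
    have k1 : HasDerivAt (fun s : ℝ => (((s * ρ : ℝ) : ℂ) * E)) (ρ * E) s := by
      have := ((hasDerivAt_id s).mul_const ρ).ofReal_comp.mul_const E
      simpa using this
    exact (hasFDerivAt_line z v _).comp_hasDerivAt s k1
  have hmem : ∀ s ∈ Icc (0 : ℝ) 1, s * ρ ∈ Icc (0 : ℝ) R := fun s hs =>
    ⟨mul_nonneg hs.1 hρ0, (mul_le_of_le_one_left hρ0 hs.2).trans hρ⟩
  have hcc : ChartCurve e c γ ((e c).symm z) ((e c).symm (line z v (ρ * E))) := by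
    have m0 : z ∈ (e c).target := by
      have := hdisc 0 (by rw [norm_zero]; exact hρ0.trans hρ)
      rwa [line_zero] at this
    have m1 : line z v (ρ * E) ∈ (e c).target := hdisc _ (hnE ρ ⟨hρ0, hρ⟩)
    refine ⟨?_, fun s hs => hdisc _ (hnE _ (hmem s hs)), ⟨(e c).map_target m0, ?_⟩,
      ⟨(e c).map_target m1, ?_⟩⟩
    · apply ContDiff.contDiffOn
      have k3 : ContDiff ℝ 1 fun s : ℝ => s * ρ := by fun_prop
      have k2 : ContDiff ℝ 1 fun s : ℝ => (((s * ρ : ℝ) : ℂ) * E) :=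
        (Complex.ofRealCLM.contDiff.comp k3).mul contDiff_const
      exact ((line_contDiff z v).of_le (by simp)).comp k2
    · rw [(e c).right_inv m0, hγ]
      simp [line_zero]
    · rw [(e c).right_inv m1, hγ]
      simp
  refine (rdist_le' hcc).trans (ENNReal.ofReal_le_ofReal ?_)
  set g : ℝ → ℝ := fun r => √(lapC (fun ζ => ψ c (t, line z v ζ)) (r * E)) with hg
  have hgl : ∀ r ∈ Icc (0 : ℝ) R, g r = √(4 * lev (ψ c) v (t, line z v (r * E))) := fun r hr => by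
    simp only [hg]
    rw [lapC_line' hU hψ z v (hsub _ (hdisc _ (hnE r hr)))]
  have hgc : ContinuousOn g (Icc 0 R) := by
    refine ContinuousOn.congr ?_ hgl
    refine Real.continuous_sqrt.comp_continuousOn (continuousOn_const.mul ?_)
    have h2 : ContinuousOn (lev (ψ c) v) U := by
      unfold lev
      exact (((contDiffOn_D hU (contDiffOn_D hU hψ _) _).continuousOn).add
        ((contDiffOn_D hU (contDiffOn_D hU hψ _) _).continuousOn)).div_const 4
    refine h2.comp ?_ fun r hr => hsub _ (hdisc _ (hnE r hr))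
    exact (continuous_const.prodMk ((line_contDiff z v).continuous.comp (by fun_prop))).continuousOn
  have hgi : ∀ a b : ℝ, a ∈ Icc (0 : ℝ) R → b ∈ Icc (0 : ℝ) R →
      IntervalIntegrable g volume a b := fun a b ha hb =>
    (hgc.mono (uIcc_subset_Icc ha hb)).intervalIntegrable
  have e1 : clen ψ t c γ ≤ ∫ s in (0 : ℝ)..1, ρ * g (s * ρ) := by
    unfold clen
    have e0 : ∫ s in (0 : ℝ)..1, √(2 * lev (ψ c) (deriv γ s) (t, γ s)) =
        ∫ s in (0 : ℝ)..1, (√2)⁻¹ * (ρ * g (s * ρ)) := by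
      refine intervalIntegral.integral_congr fun s hs => ?_
      rw [uIcc_of_le zero_le_one] at hs
      rw [(hγd s).deriv, lineL_apply, lev_line hU hψ (hsub _ (hdisc _ (hnE _ (hmem s hs)))),
        hgl _ (hmem s hs)]
      have e2 : (ρ * E : ℂ).re ^ 2 + (ρ * E : ℂ).im ^ 2 = ρ ^ 2 := by
        have : ‖(ρ : ℂ) * E‖ = ρ := by
          rw [norm_mul, hEn, mul_one, Complex.norm_real, Real.norm_of_nonneg hρ0]
        nth_rewrite 3 [← this]
        rw [Complex.sq_norm, Complex.normSq_apply]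
        ring
      rw [e2]
      set y := lev (ψ c) v (t, line z v (((s * ρ : ℝ) : ℂ) * E))
      rw [show 2 * (ρ ^ 2 * y) = ρ ^ 2 * (2 * y) by ring, Real.sqrt_mul (by positivity),
        Real.sqrt_sq hρ0, Real.sqrt_mul (by norm_num : (0 : ℝ) ≤ 2) y,
        show (4 : ℝ) * y = 2 ^ 2 * y by ring, Real.sqrt_mul (by positivity),
        Real.sqrt_sq (by norm_num)]
      have h2 : √2 ≠ 0 := by positivity
      have h5 : √2 * √2 = 2 := Real.mul_self_sqrt (by norm_num)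
      calc ρ * (√2 * √y) = (√2)⁻¹ * (ρ * ((√2 * √2) * √y)) := by field_simp
        _ = _ := by rw [h5]
    rw [e0, intervalIntegral.integral_const_mul]
    have h3 : 0 ≤ ∫ s in (0 : ℝ)..1, ρ * g (s * ρ) := by
      apply intervalIntegral.integral_nonneg zero_le_one
      intro s _
      exact mul_nonneg hρ0 (Real.sqrt_nonneg _)
    have h4 : (√2)⁻¹ ≤ 1 := by
      apply inv_le_one_of_one_le₀
      rw [Real.one_le_sqrt]
      norm_num
    nlinarith
  refine e1.trans ?_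
  rw [intervalIntegral.integral_const_mul, intervalIntegral.mul_integral_comp_mul_right, zero_mul,
    one_mul]
  refine intervalIntegral.integral_mono_interval le_rfl hρ0 hρ ?_
    (hgi 0 R ⟨le_rfl, hρ0.trans hρ⟩ ⟨hρ0.trans hρ, le_rfl⟩)
  exact Eventually.of_forall fun θ => Real.sqrt_nonneg _

/-- a good angle -/
theorem exists_good_angle {F : ℝ → ℝ} (hF : Continuous F) (h0 : ∀ θ, 0 ≤ F θ) {C : ℝ} (hC : 0 < C)
    (hi : ∫ θ in (0 : ℝ)..2 * Real.pi, F θ ≤ C) {α : ℝ} (hα : 0 ≤ α)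
    (hα' : α + Real.pi / 6 ≤ 2 * Real.pi) :
    ∃ θ ∈ Icc α (α + Real.pi / 6), F θ ≤ 2 * C := by
  by_contra hcon
  push Not at hcon
  have hpi := Real.pi_gt_three
  have h1 : ∫ θ in α..α + Real.pi / 6, 2 * C ≤ ∫ θ in α..α + Real.pi / 6, F θ :=
    intervalIntegral.integral_mono_on (by linarith) (continuous_const.intervalIntegrable _ _)
      (hF.intervalIntegrable _ _) fun θ hθ => (hcon θ hθ).le
  have h2 : ∫ θ in α..α + Real.pi / 6, F θ ≤ ∫ θ in (0 : ℝ)..2 * Real.pi, F θ :=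
    intervalIntegral.integral_mono_interval hα (by linarith) hα'
      (Eventually.of_forall fun θ => h0 θ) (hF.intervalIntegrable _ _)
  rw [intervalIntegral.integral_const, smul_eq_mul] at h1
  nlinarith

/-- the meeting point of two rays -/
theorem rays_meet {δ θ θ' : ℝ} (hδ : 0 ≤ δ) (hθ : θ ∈ Icc (Real.pi / 6) (Real.pi / 3))
    (hθ' : θ' ∈ Icc (2 * Real.pi / 3) (5 * Real.pi / 6)) :
    ∃ ρ ∈ Icc 0 δ, ∃ ρ' ∈ Icc 0 δ,
      (ρ : ℂ) * Complex.exp (θ * Complex.I) = δ + ρ' * Complex.exp (θ' * Complex.I) := by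
  have hpi := Real.pi_pos
  set s := Real.sin (θ' - θ) with hs
  have h1 : √3 / 2 ≤ s := by
    rw [← Real.sin_pi_div_three, hs]
    have k1 : Real.pi / 3 ≤ θ' - θ := by linarith [hθ.2, hθ'.1]
    have k2 : θ' - θ ≤ 2 * Real.pi / 3 := by linarith [hθ.1, hθ'.2]
    rcases le_total (θ' - θ) (Real.pi / 2) with h | h
    · exact Real.sin_le_sin_of_le_of_le_pi_div_two (by linarith) h k1
    · rw [← Real.sin_pi_sub (θ' - θ)]
      exact Real.sin_le_sin_of_le_of_le_pi_div_two (by linarith) (by linarith) (by linarith)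
  have h3 : (0 : ℝ) < √3 := by positivity
  have hs0 : 0 < s := by linarith
  have h2 : Real.sin θ ≤ √3 / 2 := by
    rw [← Real.sin_pi_div_three]
    exact Real.sin_le_sin_of_le_of_le_pi_div_two (by linarith [hθ.1]) (by linarith) hθ.2
  have h2' : Real.sin θ' ≤ √3 / 2 := by
    rw [← Real.sin_pi_div_three, ← Real.sin_pi_sub θ']
    exact Real.sin_le_sin_of_le_of_le_pi_div_two (by linarith [hθ'.2]) (by linarith)
      (by linarith [hθ'.1])
  have h4 : 0 ≤ Real.sin θ := Real.sin_nonneg_of_nonneg_of_le_pi (by linarith [hθ.1])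
    (by linarith [hθ.2])
  have h4' : 0 ≤ Real.sin θ' := Real.sin_nonneg_of_nonneg_of_le_pi (by linarith [hθ'.1])
    (by linarith [hθ'.2])
  refine ⟨δ * Real.sin θ' / s, ⟨by positivity, ?_⟩, δ * Real.sin θ / s, ⟨by positivity, ?_⟩, ?_⟩
  · rw [div_le_iff₀ hs0]
    exact mul_le_mul_of_nonneg_left (h2'.trans h1) hδ
  · rw [div_le_iff₀ hs0]
    exact mul_le_mul_of_nonneg_left (h2.trans h1) hδ
  · have hsf : s = Real.sin θ' * Real.cos θ - Real.cos θ' * Real.sin θ := by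
      rw [hs, Real.sin_sub]
    rw [Complex.exp_mul_I, Complex.exp_mul_I]
    apply Complex.ext
    · simp only [Complex.mul_re, Complex.add_re, Complex.ofReal_re, Complex.ofReal_im,
        Complex.add_im, Complex.mul_im, Complex.I_re, Complex.I_im, ← Complex.ofReal_cos,
        ← Complex.ofReal_sin]
      field_simp
      rw [hsf]
      ring
    · simp only [Complex.mul_re, Complex.add_re, Complex.ofReal_re, Complex.ofReal_im,
        Complex.add_im, Complex.mul_im, Complex.I_re, Complex.I_im, ← Complex.ofReal_cos,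
        ← Complex.ofReal_sin]
      field_simp
      ring

/-- the radial lengths depend continuously on the angle -/
theorem ray_continuous (hU : IsOpen U) (hψ : ContDiffOn ℝ ∞ (ψ c) U)
    (hsub : ∀ z ∈ (e c).target, (t, z) ∈ U) {z v : Cn n} {R : ℝ} (hR : 0 ≤ R)
    (hdisc : ∀ ζ : ℂ, ‖ζ‖ ≤ R → line z v ζ ∈ (e c).target) :
    Continuous fun θ : ℝ => ∫ r in (0 : ℝ)..R,
      √(lapC (fun ζ => ψ c (t, line z v ζ)) (r * Complex.exp (θ * Complex.I))) := by
  have hn : ∀ (θ r : ℝ), ‖((max 0 (min r R) : ℝ) : ℂ) * Complex.exp (θ * Complex.I)‖ ≤ R := by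
    intro θ r
    rw [norm_mul, Complex.norm_exp_ofReal_mul_I, mul_one, Complex.norm_real,
      Real.norm_of_nonneg (le_max_left _ _)]
    exact max_le hR (min_le_right _ _)
  have h1 : (fun θ : ℝ => ∫ r in (0 : ℝ)..R,
      √(lapC (fun ζ => ψ c (t, line z v ζ)) (r * Complex.exp (θ * Complex.I)))) =
      fun θ : ℝ => ∫ r in (0 : ℝ)..R, √(4 * lev (ψ c) v
        (t, line z v (((max 0 (min r R) : ℝ) : ℂ) * Complex.exp (θ * Complex.I)))) := by
    ext θ
    refine intervalIntegral.integral_congr fun r hr => ?_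
    rw [uIcc_of_le hR] at hr
    have hr' : max 0 (min r R) = r := by
      rw [min_eq_left hr.2, max_eq_right hr.1]
    have := hn θ r
    rw [hr'] at this
    rw [lapC_line' hU hψ z v (hsub _ (hdisc _ this)), hr']
  rw [h1]
  apply intervalIntegral.continuous_parametric_intervalIntegral_of_continuous'
  have h2 : ContinuousOn (lev (ψ c) v) U := by
    unfold lev
    exact (((contDiffOn_D hU (contDiffOn_D hU hψ _) _).continuousOn).add
      ((contDiffOn_D hU (contDiffOn_D hU hψ _) _).continuousOn)).div_const 4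
  refine Real.continuous_sqrt.comp (continuous_const.mul ?_)
  refine h2.comp_continuous (f := fun q : ℝ × ℝ => ((t, line z v
    (((max 0 (min q.2 R) : ℝ) : ℂ) * Complex.exp (q.1 * Complex.I))) : ℝ × Cn n)) ?_ ?_
  · refine continuous_const.prodMk ((line_contDiff z v).continuous.comp ?_)
    fun_prop
  · intro q
    exact hsub _ (hdisc _ (hn q.1 q.2))

/-- **Two points of a complex line.** -/
theorem rdist_rays (hU : IsOpen U) (hψ : ContDiffOn ℝ ∞ (ψ c) U)
    (hsub : ∀ z ∈ (e c).target, (t, z) ∈ U)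
    (hnn : ∀ z ∈ (e c).target, ∀ u, 0 ≤ lev (ψ c) u (t, z)) {z v : Cn n} {δ R : ℝ} (hδ : 0 ≤ δ)
    (hδR : δ ≤ R) (hdisc : ∀ ζ : ℂ, ‖ζ‖ ≤ R → line z v ζ ∈ (e c).target)
    (hdisc' : ∀ ζ : ℂ, ‖ζ‖ ≤ R → line (z + δ • v) v ζ ∈ (e c).target) {C : ℝ} (hC : 0 < C)
    (hi : ∫ θ in (0 : ℝ)..2 * Real.pi, ∫ r in (0 : ℝ)..R,
      √(lapC (fun ζ => ψ c (t, line z v ζ)) (r * Complex.exp (θ * Complex.I))) ≤ C)
    (hi' : ∫ θ in (0 : ℝ)..2 * Real.pi, ∫ r in (0 : ℝ)..R,
      √(lapC (fun ζ => ψ c (t, line (z + δ • v) v ζ)) (r * Complex.exp (θ * Complex.I))) ≤ C) :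
    rdist e ψ t ((e c).symm z) ((e c).symm (z + δ • v)) ≤ ENNReal.ofReal (4 * C) := by
  have hR : 0 ≤ R := hδ.trans hδR
  have hpi := Real.pi_pos
  obtain ⟨θ, hθ, hF⟩ := exists_good_angle (ray_continuous hU hψ hsub hR hdisc)
    (fun θ => intervalIntegral.integral_nonneg hR fun r _ => Real.sqrt_nonneg _) hC hi
    (α := Real.pi / 6) (by positivity) (by linarith)
  obtain ⟨θ', hθ', hF'⟩ := exists_good_angle (ray_continuous hU hψ hsub hR hdisc')
    (fun θ => intervalIntegral.integral_nonneg hR fun r _ => Real.sqrt_nonneg _) hC hi'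
    (α := 2 * Real.pi / 3) (by positivity) (by linarith)
  obtain ⟨ρ, hρ, ρ', hρ', hm⟩ := rays_meet hδ (θ := θ) (θ' := θ')
    ⟨hθ.1, by linarith [hθ.2]⟩ ⟨hθ'.1, by linarith [hθ'.2]⟩
  have k1 := rdist_ray hU hψ hsub hnn hdisc θ hρ.1 (hρ.2.trans hδR)
  have k2 := rdist_ray hU hψ hsub hnn hdisc' θ' hρ'.1 (hρ'.2.trans hδR)
  have e1 : line (z + δ • v) v (ρ' * Complex.exp (θ' * Complex.I)) =
      line z v (ρ * Complex.exp (θ * Complex.I)) := by
    rw [hm, line_eq, line_eq, map_add]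
    have : lineL v (δ : ℂ) = δ • v := by simp [lineL_apply]
    rw [this, add_assoc]
  rw [e1, rdist_comm'] at k2
  refine (rdist_triangle' _ ((e c).symm (line z v (ρ * Complex.exp (θ * Complex.I)))) _).trans
    ((add_le_add k1 k2).trans ?_)
  refine (add_le_add (ENNReal.ofReal_le_ofReal hF) (ENNReal.ofReal_le_ofReal hF')).trans ?_
  rw [← ENNReal.ofReal_add (by positivity) (by positivity)]
  apply ENNReal.ofReal_le_ofReal
  linarith

end Pool.Agent.KRFF

end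

section

/-!
# Two nearby points of the manifold, by the modulus of continuity of the circle averages
-/

open scoped ContDiff ENNReal ComplexOrder
open Set Filter Topology MeasureTheory Pool.Agent.ToricKRF Pool.Agent.ToricKRF.G Pool.Agent.KRFS

namespace Pool.Agent.KRFF

theorem nsq_nonneg {n : ℕ} (v : Cn n) : 0 ≤ nsq v := by
  unfold nsq dotProduct
  exact add_nonneg (Finset.sum_nonneg fun i _ => mul_self_nonneg _)
    (Finset.sum_nonneg fun i _ => mul_self_nonneg _)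

theorem nsq_smul' {n : ℕ} (r : ℝ) (v : Cn n) : nsq (r • v) = r ^ 2 * nsq v := by
  unfold nsq
  simp only [Prod.smul_fst, Prod.smul_snd, smul_dotProduct, dotProduct_smul, smul_eq_mul]
  ring

theorem norm_le_sqrt_nsq {n : ℕ} (v : Cn n) : ‖v‖ ≤ √(nsq v) := by
  apply Real.le_sqrt_of_sq_le
  have key : ∀ x : Fin n → ℝ, ‖x‖ ^ 2 ≤ x ⬝ᵥ x := by
    intro x
    have hs : 0 ≤ x ⬝ᵥ x := Finset.sum_nonneg fun i _ => mul_self_nonneg _
    rw [← Real.sqrt_le_sqrt_iff hs, Real.sqrt_sq (norm_nonneg _)]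
    refine (pi_norm_le_iff_of_nonneg (Real.sqrt_nonneg _)).2 fun i => ?_
    rw [Real.norm_eq_abs, ← Real.sqrt_sq_eq_abs]
    apply Real.sqrt_le_sqrt
    rw [sq]
    exact Finset.single_le_sum (f := fun i => x i * x i) (fun j _ => mul_self_nonneg _)
      (Finset.mem_univ i)
  have h0 : ∀ x : Fin n → ℝ, 0 ≤ x ⬝ᵥ x := fun x => Finset.sum_nonneg fun i _ => mul_self_nonneg _
  rw [Prod.norm_def]
  unfold nsq
  rcases max_choice ‖v.1‖ ‖v.2‖ with h | h
  · rw [h]
    linarith [key v.1, h0 v.2]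
  · rw [h]
    linarith [key v.2, h0 v.1]

theorem nsq_eq_zero_iff {n : ℕ} {v : Cn n} : nsq v = 0 ↔ v = 0 := by
  constructor
  · intro h
    have := norm_le_sqrt_nsq v
    rw [h, Real.sqrt_zero] at this
    exact norm_le_zero_iff.1 this
  · rintro rfl
    simp [nsq]

theorem nsq_continuous {n : ℕ} : Continuous (nsq : Cn n → ℝ) := by
  unfold nsq dotProduct
  fun_prop

variable {n : ℕ} {M : Type} [TopologicalSpace M] {κ : Type} {T : ℝ} (F : Flow n M κ T)

theorem Flow.lev_nonneg (F : Flow n M κ T) {c : κ} {t : ℝ} (ht : t ∈ Ico 0 T) {z : Cn n}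
    (hz : z ∈ (F.e c).target) (u : Cn n) : 0 ≤ lev (F.ψ c) u (t, z) := by
  obtain ⟨U, hU, hsub, hψ⟩ := F.krf.smooth c
  by_cases hu : u = 0
  · subst hu
    have h0 : ∀ g : ℝ × Cn n → ℝ, D ((0 : ℝ), (0 : Cn n)) g (t, z) = 0 := fun g =>
      map_zero (fderiv ℝ g (t, z))
    have hJ : J (0 : Cn n) = 0 := by simp [J]
    simp only [lev]
    rw [hJ, h0]
    simp
  · exact (lev_pos hU hψ (hsub ⟨ht, hz⟩) (F.krf.pos c t ht z hz) hu).le

theorem Flow.two_points_of {a : ℝ}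
    (hmod : ∀ (c : κ) (A : Set (Cn n)), IsCompact A → A ⊆ (F.e c).target →
      ∃ C : ℝ, 0 ≤ C ∧ ∀ t ∈ Ico 0 T, ∀ z v : Cn n, nsq v ≤ 1 →
        (∀ ζ : ℂ, ‖ζ‖ ≤ 1 / 2 → line z v ζ ∈ A) → ∀ r ∈ Ioc (0 : ℝ) (1 / 4),
        cavg (fun ζ => F.ψ c (t, line z v ζ)) r - F.ψ c (t, z) ≤
          C * Real.log (1 / r) ^ (-a))
    (hrad : ∀ C : ℝ, ∃ C' : ℝ, 0 ≤ C' ∧ ∀ G : ℂ → ℝ,
      ContDiffOn ℝ ∞ G (Metric.ball 0 (1 / 2)) →
      (∀ z ∈ Metric.ball (0 : ℂ) (1 / 2), 0 ≤ lapC G z) →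
      (∀ r ∈ Ioc (0 : ℝ) (1 / 4), cavg G r - G 0 ≤ C * Real.log (1 / r) ^ (-a)) →
      ∫ θ in (0 : ℝ)..2 * Real.pi, ∫ r in (0 : ℝ)..1 / 16,
        √(lapC G (r * Complex.exp (θ * Complex.I))) ≤ C')
    (p : M) :
    ∃ C : ℝ, ∀ᶠ q in 𝓝 p, ∀ t ∈ Ico 0 T, rdist F.e F.ψ t p q ≤ ENNReal.ofReal C := by
  obtain ⟨c, hc⟩ := F.atlas.cover p
  set zp := F.e c p with hzp
  have hzt : zp ∈ (F.e c).target := (F.e c).map_source hc
  obtain ⟨R, hR, hRs⟩ := Metric.nhds_basis_closedBall.mem_iff.1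
    ((F.e c).open_target.mem_nhds hzt)
  obtain ⟨C, hC, hmodC⟩ := hmod c (Metric.closedBall zp R) (isCompact_closedBall _ _) hRs
  obtain ⟨C', hC', hradC⟩ := hrad C
  set ε := min 1 (R / 2) with hε
  have hε0 : 0 < ε := lt_min one_pos (by positivity)
  have hε1 : ε ≤ 1 := min_le_left _ _
  have hεR : ε ≤ R / 2 := min_le_right _ _
  refine ⟨4 * (C' + 1), ?_⟩
  have hcont : Tendsto (fun q => √(nsq (F.e c q - zp))) (𝓝 p) (𝓝 0) := by
    have h1 : Tendsto (F.e c) (𝓝 p) (𝓝 zp) := (F.e c).continuousAt hc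
    have h2 : Tendsto (fun q => √(nsq (F.e c q - zp))) (𝓝 p) (𝓝 (√(nsq (zp - zp)))) :=
      (Real.continuous_sqrt.tendsto _).comp ((nsq_continuous.tendsto _).comp (h1.sub_const zp))
    rw [sub_self, nsq_eq_zero_iff.2 rfl, Real.sqrt_zero] at h2
    exact h2
  filter_upwards [(F.e c).open_source.mem_nhds hc,
    hcont.eventually_lt_const (show (0 : ℝ) < ε / 16 by positivity)] with q hq hqε
  intro t ht
  obtain ⟨U, hU, hsub, hψ⟩ := F.krf.smooth c
  have hsub' : ∀ z ∈ (F.e c).target, (t, z) ∈ U := fun z hz => hsub ⟨ht, hz⟩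
  set w := F.e c q - zp with hw
  by_cases hw0 : w = 0
  · have : q = p := (F.e c).injOn hq hc (sub_eq_zero.1 hw0)
    rw [this, rdist_self_of_cover F.atlas.cover]
    exact bot_le
  set N := √(nsq w) with hN
  have hN0 : 0 < N := Real.sqrt_pos.2
    (lt_of_le_of_ne (nsq_nonneg w) fun h => hw0 (nsq_eq_zero_iff.1 h.symm))
  set v := (ε / N) • w with hv
  set δ := N / ε with hδ
  have hδ0 : 0 ≤ δ := by positivity
  have hδ1 : δ ≤ 1 / 16 := by
    rw [hδ, div_le_iff₀ hε0]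
    linarith
  have hnv : nsq v = ε ^ 2 := by
    rw [hv, nsq_smul', div_pow, hN, Real.sq_sqrt (nsq_nonneg w)]
    have : nsq w ≠ 0 := fun h => hw0 (nsq_eq_zero_iff.1 h)
    field_simp
  have hnv1 : nsq v ≤ 1 := by
    rw [hnv]
    exact pow_le_one₀ hε0.le hε1
  have hvn : ‖v‖ ≤ ε := by
    have := norm_le_sqrt_nsq v
    rwa [hnv, Real.sqrt_sq hε0.le] at this
  have hline : ∀ ζ : ℂ, ‖ζ‖ ≤ 1 / 2 → ‖lineL v ζ‖ ≤ ε := by
    intro ζ hζ
    rw [lineL_apply]
    refine (norm_add_le _ _).trans ?_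
    rw [norm_smul ζ.re v, norm_smul ζ.im (J v), norm_J, Real.norm_eq_abs, Real.norm_eq_abs]
    have h1 := (Complex.abs_re_le_norm ζ).trans hζ
    have h2 := (Complex.abs_im_le_norm ζ).trans hζ
    nlinarith [norm_nonneg v, abs_nonneg ζ.re, abs_nonneg ζ.im,
      mul_le_mul h1 hvn (norm_nonneg v) (by norm_num : (0:ℝ) ≤ 1 / 2),
      mul_le_mul h2 hvn (norm_nonneg v) (by norm_num : (0:ℝ) ≤ 1 / 2)]
  have hA : ∀ ζ : ℂ, ‖ζ‖ ≤ 1 / 2 → line zp v ζ ∈ Metric.closedBall zp R := by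
    intro ζ hζ
    rw [Metric.mem_closedBall, dist_eq_norm, line_eq, add_sub_cancel_left]
    linarith [hline ζ hζ]
  have hA' : ∀ ζ : ℂ, ‖ζ‖ ≤ 1 / 2 → line (zp + δ • v) v ζ ∈ Metric.closedBall zp R := by
    intro ζ hζ
    rw [Metric.mem_closedBall, dist_eq_norm, line_eq, add_assoc, add_sub_cancel_left]
    refine (norm_add_le _ _).trans ?_
    rw [norm_smul, Real.norm_of_nonneg hδ0]
    nlinarith [hline ζ hζ, mul_le_mul hδ1 hvn (norm_nonneg v) (by norm_num : (0:ℝ) ≤ 1 / 16)]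
  have hrays : ∀ z : Cn n, (∀ ζ : ℂ, ‖ζ‖ ≤ 1 / 2 → line z v ζ ∈ Metric.closedBall zp R) →
      ∫ θ in (0 : ℝ)..2 * Real.pi, ∫ r in (0 : ℝ)..1 / 16,
        √(lapC (fun ζ => F.ψ c (t, line z v ζ)) (r * Complex.exp (θ * Complex.I))) ≤ C' + 1 := by
    intro z hz
    have hz' : ∀ ζ ∈ Metric.ball (0 : ℂ) (1 / 2), (t, line z v ζ) ∈ U := fun ζ hζ =>
      hsub' _ (hRs (hz ζ (mem_ball_zero_iff.1 hζ).le))
    refine (hradC (fun ζ => F.ψ c (t, line z v ζ)) ?_ ?_ ?_).trans (by linarith)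
    · exact hψ.comp (contDiffOn_const.prodMk (line_contDiff z v).contDiffOn) hz'
    · intro ζ hζ
      rw [lapC_line' hU hψ z v (hz' ζ hζ)]
      have := F.lev_nonneg ht (hRs (hz ζ (mem_ball_zero_iff.1 hζ).le)) v
      positivity
    · intro r hr
      have := hmodC t ht z v hnv1 hz r hr
      simpa only [line_zero] using this
  have h16 : ∀ ζ : ℂ, ‖ζ‖ ≤ 1 / 16 → ‖ζ‖ ≤ 1 / 2 := fun ζ h => h.trans (by norm_num)
  have hfin := rdist_rays hU hψ hsub' (fun z hz u => F.lev_nonneg ht hz u) hδ0 hδ1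
    (fun ζ hζ => hRs (hA ζ (h16 ζ hζ))) (fun ζ hζ => hRs (hA' ζ (h16 ζ hζ)))
    (by positivity : 0 < C' + 1) (hrays zp hA) (hrays (zp + δ • v) hA')
  have e1 : zp + δ • v = F.e c q := by
    rw [hv, smul_smul, hδ, div_mul_div_comm, mul_comm N ε, div_self (by positivity), one_smul, hw]
    abel
  rw [e1, (F.e c).left_inv hq, hzp, (F.e c).left_inv hc] at hfin
  exact hfin

/-- **The diameter is bounded if the distance is bounded locally.** -/
theorem Flow.diam_of_local [CompactSpace M] [ConnectedSpace M]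
    (h : ∀ p, ∃ C : ℝ, ∀ᶠ q in 𝓝 p, ∀ t ∈ Ico 0 T, rdist F.e F.ψ t p q ≤ ENNReal.ofReal C) :
    ⨆ t ∈ Ico 0 T, rdiam F.e F.ψ t < ⊤ := by
  -- the points which can be reached from `p₀` with a bounded cost
  obtain ⟨p₀⟩ : Nonempty M := inferInstance
  set S : Set M := {p | ∃ C : ℝ, ∀ t ∈ Ico 0 T, rdist F.e F.ψ t p₀ p ≤ ENNReal.ofReal C} with hS
  have hopen : IsOpen S := by
    rw [isOpen_iff_mem_nhds]
    rintro p ⟨C, hC⟩
    obtain ⟨C', hC'⟩ := h p
    filter_upwards [hC'] with q hq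
    refine ⟨max C 0 + max C' 0, fun t ht => ?_⟩
    refine (rdist_triangle' p₀ p q).trans ?_
    rw [ENNReal.ofReal_add (le_max_right _ _) (le_max_right _ _)]
    exact add_le_add ((hC t ht).trans (ENNReal.ofReal_le_ofReal (le_max_left _ _)))
      ((hq t ht).trans (ENNReal.ofReal_le_ofReal (le_max_left _ _)))
  have hclosed : IsClosed S := by
    rw [← isOpen_compl_iff, isOpen_iff_mem_nhds]
    intro p hp
    obtain ⟨C', hC'⟩ := h p
    filter_upwards [hC'] with q hq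
    rintro ⟨C, hC⟩
    refine hp ⟨max C 0 + max C' 0, fun t ht => ?_⟩
    refine (rdist_triangle' p₀ q p).trans ?_
    rw [ENNReal.ofReal_add (le_max_right _ _) (le_max_right _ _), rdist_comm' q p]
    exact add_le_add ((hC t ht).trans (ENNReal.ofReal_le_ofReal (le_max_left _ _)))
      ((hq t ht).trans (ENNReal.ofReal_le_ofReal (le_max_left _ _)))
  have hne : S.Nonempty := ⟨p₀, 0, fun t _ => by
    rw [rdist_self_of_cover F.atlas.cover]
    exact bot_le⟩
  have huniv : S = univ := IsClopen.eq_univ ⟨hclosed, hopen⟩ hne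
  -- finitely many neighbourhoods
  choose C hC using h
  obtain ⟨s, -, hs⟩ := isCompact_univ.elim_nhds_subcover
    (fun p => {q | ∀ t ∈ Ico 0 T, rdist F.e F.ψ t p q ≤ ENNReal.ofReal (C p)})
    fun p _ => hC p
  have hreach : ∀ p : M, ∃ C : ℝ, ∀ t ∈ Ico 0 T, rdist F.e F.ψ t p₀ p ≤ ENNReal.ofReal C := by
    intro p
    have : p ∈ S := by rw [huniv]; exact mem_univ p
    exact this
  choose B hB using hreach
  set K : ℝ≥0∞ := ∑ p ∈ s, (ENNReal.ofReal (B p) + ENNReal.ofReal (C p)) with hK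
  have hKt : K < ⊤ := by
    rw [hK]
    exact ENNReal.sum_lt_top.2 fun p _ => ENNReal.add_lt_top.2
      ⟨ENNReal.ofReal_lt_top, ENNReal.ofReal_lt_top⟩
  have hKq : ∀ t ∈ Ico 0 T, ∀ q : M, rdist F.e F.ψ t p₀ q ≤ K := by
    intro t ht q
    obtain ⟨p, hp, hq⟩ := mem_iUnion₂.1 (hs (mem_univ q))
    refine (rdist_triangle' p₀ p q).trans ((add_le_add (hB p t ht) (hq t ht)).trans ?_)
    exact Finset.single_le_sum
      (f := fun p => ENNReal.ofReal (B p) + ENNReal.ofReal (C p)) (fun _ _ => bot_le) hp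
  refine lt_of_le_of_lt (b := K + K) ?_ (ENNReal.add_lt_top.2 ⟨hKt, hKt⟩)
  refine iSup₂_le fun t ht => iSup₂_le fun p q => ?_
  refine (rdist_triangle' p p₀ q).trans (add_le_add ?_ (hKq t ht q))
  rw [rdist_comm']
  exact hKq t ht p

end Pool.Agent.KRFF

end
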