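import Pool.Agent.Work.MP_a2bf38_gt.Fu.I.Coord
import Pool.Agent.Work.MP_a2bf38_gt.Fu.H.BoundLin
import Pool.Agent.Work.MP_a2bf38_gt.Fu.I.FBound
import Pool.Agent.Work.MP_a2bf38_gt.Fu.K.Setup
import Pool.Agent.Work.MP_a2bf38_gt.Fu.I.GapA

section

/-!
# Fibrations: charts, continuity, second order condition
-/

open scoped ContDiff ENNReal ComplexOrder Topology
open Set MeasureTheory Filter Pool.Agent.ToricKRF Pool.Agent.ToricKRF.G Pool.Agent.KRFS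

namespace Pool.Agent.KRFF

/-- second order condition at a local minimum -/
theorem levz_nonneg_of_min {n : ℕ} {h : Cn n → ℝ} {S : Set (Cn n)} (hS : IsOpen S)
    (hh : ContDiffOn ℝ ∞ h S) {z : Cn n} (hz : z ∈ S) (hmin : ∀ᶠ x in 𝓝 z, h z ≤ h x) (u : Cn n) :
    0 ≤ levz h u z := by
  have hn : ContDiffOn ℝ ∞ (fun x => -h x) S := hh.neg
  have h1 : lev (fun q : ℝ × Cn n => -h q.2) u (0, z) = levz (fun x => -h x) u z :=
    lev_snd hS hn hz u
  have h2 : lev (fun q : ℝ × Cn n => -h q.2) u (0, z) ≤ 0 := by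
    refine lev_nonpos_of_max ?_ ?_ u
    · exact ContDiffAt.comp (g := fun x => -h x) ((0 : ℝ), z) (hn.contDiffAt (hS.mem_nhds hz))
        contDiffAt_snd
    · filter_upwards [hmin] with x hx
      simpa using hx
  have h3 : levz (fun x => -h x) u z = -levz h u z := by
    have := Bd.levz_const_mul (-1) ((hh.contDiffAt (hS.mem_nhds hz)).of_le two_le_infty) u
    simpa using this
  linarith

section Fib

variable {k m : ℕ} {M Y : Type} [TopologicalSpace M] [TopologicalSpace Y] {κ P : Type} {T : ℝ}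
  (F : Fib k m M Y κ P T)

theorem Fib.exists_chart {x x' : M} (h : F.f x = F.f x') : ∃ c c', F.pc c = F.pc c' ∧
    x ∈ (F.e c).source ∧ x' ∈ (F.e c').source ∧ fstC (F.e c x) ∈ cpd 1 ∧
    fstC (F.e c' x') ∈ cpd 1 ∧ sndC (F.e c x) ∈ cpd 1 ∧
    sndC (F.e c' x') = sndC (F.e c x) := by
  obtain ⟨j, hj, hj1⟩ := F.fib.cover_base (F.f x)
  obtain ⟨c, hc, hx, hx1⟩ := F.fib.cover j x hj
  obtain ⟨c', hc', hx', hx1'⟩ := F.fib.cover j x' (h ▸ hj)
  have h1 := (F.fib.proj c x hx).2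
  have h2 := (F.fib.proj c' x' hx').2
  rw [hc] at h1
  rw [hc', ← h] at h2
  exact ⟨c, c', hc.trans hc'.symm, hx, hx', hx1, hx1', h1 ▸ hj1, h2.symm.trans h1⟩

theorem Fib.continuous_f : Continuous F.f := by
  rw [continuous_iff_continuousAt]
  intro p
  obtain ⟨c, -, -, hc, -⟩ := F.exists_chart (x := p) (x' := p) rfl
  have h1 : ∀ q ∈ (F.e c).source, F.f q = (F.b (F.pc c)).symm (sndC (F.e c q)) := by
    intro q hq
    obtain ⟨h2, h3⟩ := F.fib.proj c q hq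
    rw [← h3, (F.b (F.pc c)).left_inv h2]
  have h2 : ContinuousAt (fun q => (F.b (F.pc c)).symm (sndC (F.e c q))) p := by
    obtain ⟨h3, h4⟩ := F.fib.proj c p hc
    have h5 : sndC (F.e c p) ∈ (F.b (F.pc c)).target := by
      rw [← h4]
      exact (F.b (F.pc c)).map_source h3
    have h6 := (F.b (F.pc c)).continuousAt_symm h5
    exact ContinuousAt.comp (f := fun q => sndC (F.e c q)) (x := p) h6
      ((continuous_sndC.continuousAt).comp ((F.e c).continuousAt hc))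
  refine h2.congr ?_
  filter_upwards [(F.e c).open_source.mem_nhds hc] with q hq
  exact (h1 q hq).symm

theorem opd_mono {r s : ℝ} (hr : 0 ≤ r) (h : r ≤ s) : (opd r : Set (Cn k)) ⊆ opd s :=
  fun _ hu i => (hu i).trans_le (pow_le_pow_left₀ hr h 2)

theorem cpd_mono {r s : ℝ} (hr : 0 ≤ r) (h : r ≤ s) : (cpd r : Set (Cn k)) ⊆ cpd s :=
  fun _ hu i => (hu i).trans (pow_le_pow_left₀ hr h 2)

/-- Both points move with the base point. -/
theorem Fib.move {c c' : κ} (hcc : F.pc c = F.pc c') {z : Cn (k + m)} (hz : z ∈ (F.e c).target)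
    {u₀ : Cn k} (hu : u₀ ∈ opd 10) :
    joinC u₀ (sndC z) ∈ (F.e c').target ∧
      F.f ((F.e c).symm z) = F.f ((F.e c').symm (joinC u₀ (sndC z))) := by
  have h1 : joinC u₀ (sndC z) ∈ (F.e c').target := by
    rw [F.fib.target] at hz ⊢
    exact ⟨by simpa [fstC_joinC] using hu, by simpa [sndC_joinC] using hz.2⟩
  refine ⟨h1, ?_⟩
  have hp := (F.e c).map_target hz
  have hp' := (F.e c').map_target h1
  obtain ⟨h2, h3⟩ := F.fib.proj c _ hp
  obtain ⟨h4, h5⟩ := F.fib.proj c' _ hp'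
  rw [(F.e c).right_inv hz] at h3
  rw [(F.e c').right_inv h1, sndC_joinC] at h5
  rw [← hcc] at h4 h5
  exact (F.b (F.pc c)).injOn h2 h4 (h3.trans h5.symm)

end Fib

end Pool.Agent.KRFF

end

section

/-!
# The main step of the estimate `φ(t₀) - φ(t) ≤ C (T - t₀)^(1/2)` for fibrations
-/

open scoped ContDiff ENNReal ComplexOrder Topology
open Set MeasureTheory Filter Pool.Agent.ToricKRF Pool.Agent.ToricKRF.G Pool.Agent.KRFS

namespace Pool.Agent.KRFF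

section barrier

/-- the barrier -/
noncomputable def barr (n : ℕ) (T C t₀ s : ℝ) : ℝ :=
  (C + 1) * (s - t₀) + n * T * (((1 - s / T) * Real.log (1 - s / T) - (1 - s / T)) -
    ((1 - t₀ / T) * Real.log (1 - t₀ / T) - (1 - t₀ / T)))

theorem barr_self (n : ℕ) (T C t₀ : ℝ) : barr n T C t₀ t₀ = 0 := by
  simp [barr]

theorem hasDerivAt_barr (n : ℕ) {T C t₀ s : ℝ} (hT : 0 < T) (hs : s < T) :
    HasDerivAt (barr n T C t₀) (C + 1 - n * Real.log (1 - s / T)) s := by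
  have hd : 0 < 1 - s / T := by
    rw [sub_pos, div_lt_one hT]
    exact hs
  have h1 : HasDerivAt (fun s : ℝ => 1 - s / T) (-(1 / T)) s := by
    simpa using ((hasDerivAt_id s).div_const T).const_sub 1
  have h2 := ((h1.mul (h1.log hd.ne')).sub h1).sub_const
    ((1 - t₀ / T) * Real.log (1 - t₀ / T) - (1 - t₀ / T))
  have h3 := (((hasDerivAt_id s).sub_const t₀).const_mul (C + 1)).add (h2.const_mul (n * T))
  refine h3.congr_deriv ?_
  rw [mul_div_cancel₀ _ hd.ne']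
  field_simp
  ring

theorem barr_le (n : ℕ) {T C t₀ t : ℝ} (hT : 0 < T) (hC : 0 ≤ C) (h0 : 0 ≤ t₀) (h : t₀ ≤ t)
    (ht : t < T) : barr n T C t₀ t ≤ ((C + 1 + n) * √T + 2 * n * √T) * √(T - t₀) := by
  have hd : 0 < 1 - t / T := by
    rw [sub_pos, div_lt_one hT]
    exact ht
  have hd0 : 0 < 1 - t₀ / T := by
    rw [sub_pos, div_lt_one hT]
    linarith
  have hd1 : 1 - t / T ≤ 1 := by
    have : 0 ≤ t / T := div_nonneg (h0.trans h) hT.le
    linarith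
  set d := 1 - t / T with hdd
  set d₀ := 1 - t₀ / T with hdd0
  have e0 : T - t₀ = T * d₀ := by
    rw [hdd0]
    field_simp
  have h1 : d * Real.log d ≤ 0 := mul_nonpos_of_nonneg_of_nonpos hd.le (Real.log_nonpos hd.le hd1)
  have h2 : t - t₀ ≤ T * d₀ := by linarith
  have hs : √(T - t₀) = √T * √d₀ := by
    rw [e0, Real.sqrt_mul hT.le]
  have hsT : √T * √T = T := Real.mul_self_sqrt hT.le
  have hsd : √d₀ * √d₀ = d₀ := Real.mul_self_sqrt hd0.le
  have hpd : 0 < √d₀ := Real.sqrt_pos.2 hd0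
  have hd01 : d₀ ≤ 1 := by
    have : 0 ≤ t₀ / T := div_nonneg h0 hT.le
    linarith
  have hsd1 : √d₀ ≤ 1 := Real.sqrt_le_one.2 hd01
  -- `- d₀ log d₀ ≤ 2 √d₀`
  have h3 : -(d₀ * Real.log d₀) ≤ 2 * √d₀ := by
    have h4 : Real.log d₀ = 2 * Real.log √d₀ := by
      rw [Real.log_sqrt hd0.le]
      ring
    have h5 : -Real.log √d₀ ≤ (√d₀)⁻¹ := by
      rw [← Real.log_inv]
      have := Real.log_le_sub_one_of_pos (inv_pos.2 hpd)
      linarith
    have h6 : d₀ * (√d₀)⁻¹ = √d₀ := by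
      nth_rw 1 [← hsd]
      field_simp
    rw [h4]
    have h7 := mul_le_mul_of_nonneg_left h5 hd0.le
    rw [h6] at h7
    linarith
  have h8 : d₀ ≤ √d₀ := by nlinarith
  have h9 : (0 : ℝ) ≤ n := n.cast_nonneg
  rw [hs]
  unfold barr
  rw [← hdd, ← hdd0]
  have e1 : (C + 1) * (t - t₀) ≤ (C + 1) * (T * √d₀) :=
    mul_le_mul_of_nonneg_left (h2.trans (mul_le_mul_of_nonneg_left h8 hT.le)) (by linarith)
  have e2 : (d * Real.log d - d) - (d₀ * Real.log d₀ - d₀) ≤ √d₀ + 2 * √d₀ := by linarith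
  have e3 := mul_le_mul_of_nonneg_left e2 (show 0 ≤ n * T by positivity)
  have e4 : ((C + 1 + n) * √T + 2 * n * √T) * (√T * √d₀) =
      (C + 1) * (T * √d₀) + n * T * (√d₀ + 2 * √d₀) := by
    linear_combination ((C + 1 + n) * √d₀ + 2 * n * √d₀) * hsT
  rw [e4]
  exact add_le_add e1 e3

end barrier

theorem nonpos_of_left_min {g : ℝ → ℝ} {g' s t₀ : ℝ} (hg : HasDerivAt g g' s) (h0 : t₀ < s)
    (hmin : ∀ r ∈ Icc t₀ s, g s ≤ g r) : g' ≤ 0 := by
  have h1 := deriv_nonneg_of_left_max (g := fun r : ℝ => -g (s + r)) (a := 0) (c := t₀ - s)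
    (by linarith) (by
      have : HasDerivAt (fun r : ℝ => s + r) 1 0 := by simpa using (hasDerivAt_id (0 : ℝ)).const_add s
      have hg' : HasDerivAt g g' (s + 0) := by simpa using hg
      exact (hg'.comp 0 this).neg.differentiableAt) (by
      intro r hr
      have := hmin (s + r) ⟨by linarith [hr.1], by linarith [hr.2]⟩
      simpa using this)
  have h2 : HasDerivAt (fun r : ℝ => -g (s + r)) (-(g' * 1)) 0 := by
    have : HasDerivAt (fun r : ℝ => s + r) 1 0 := by simpa using (hasDerivAt_id (0 : ℝ)).const_add s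
    have hg' : HasDerivAt g g' (s + 0) := by simpa using hg
    exact (hg'.comp 0 this).neg
  rw [h2.deriv] at h1
  linarith

section Fib

variable {k m : ℕ} {M Y : Type} [TopologicalSpace M] [CompactSpace M]
  [TopologicalSpace Y] [T2Space Y] {κ P : Type} {T : ℝ} (F : Fib k m M Y κ P T)

/-- The main step: `φ(t) - (1 - 2 C₀ (1 - t₀/T)) φ(t₀)` is bounded from below by its minimum over
pairs of points of the same fibre at the time `t₀`. -/
theorem Fib.drop_step {C₀ C₁ : ℝ}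
    (h1 : ∀ c, ∀ t ∈ Ico 0 T, ∀ z ∈ (F.e c).target,
      (∀ u, (1 - t / T) * lev (F.ψ c) u (0, z) ≤ lev (F.ψ c) u (t, z)) →
      (k + m : ℕ) * Real.log (1 - t / T) - C₁ ≤ F.dphi c (t, z))
    (hsect : ∀ c c', F.pc c = F.pc c' → ∀ u₀ ∈ cpd (k := k) 2,
      ∀ t₀ ∈ Ico 0 T, T / 2 ≤ t₀ → 2 * C₀ * (1 - t₀ / T) ≤ 1 → ∀ s ∈ Ico t₀ T, ∀ z,
      fstC z ∈ cpd 2 → sndC z ∈ cpd 2 → ∀ u,
      levz (fun z => F.phi c (s, z) -
        (1 - 2 * C₀ * (1 - t₀ / T)) * F.phi c' (t₀, joinC u₀ (sndC z))) u z ≤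
        lev (F.ψ c) u (s, z) - (1 - s / T) * lev (F.ψ c) u (0, z))
    {t₀ t A : ℝ} (ht₀ : t₀ ∈ Ico 0 T) (h2 : T / 2 ≤ t₀) (h3 : 2 * C₀ * (1 - t₀ / T) ≤ 1)
    (ht : t ∈ Ico t₀ T)
    (hA : ∀ x x', F.f x = F.f x' →
      A ≤ F.Phi t₀ x - (1 - 2 * C₀ * (1 - t₀ / T)) * F.Phi t₀ x') (p : M) :
    A ≤ F.Phi t p - (1 - 2 * C₀ * (1 - t₀ / T)) * F.Phi t₀ p + barr (k + m) T C₁ t₀ t := by
  have hT : 0 < T := ht₀.1.trans_lt ht₀.2
  set κ' : ℝ := 1 - 2 * C₀ * (1 - t₀ / T) with hκ'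
  have hsub : ∀ s ∈ Icc t₀ t, s ∈ Ico 0 T := fun s hs => ⟨ht₀.1.trans hs.1, hs.2.trans_lt ht.2⟩
  -- the compact set
  set Q : Set (ℝ × M × M) := Icc t₀ t ×ˢ {q | F.f q.1 = F.f q.2} with hQ
  have hQc : IsCompact Q := by
    refine isCompact_Icc.prod (IsClosed.isCompact ?_)
    exact isClosed_eq (F.continuous_f.comp continuous_fst) (F.continuous_f.comp continuous_snd)
  set W : ℝ × M × M → ℝ := fun q =>
    F.Phi q.1 q.2.1 - κ' * F.Phi t₀ q.2.2 + barr (k + m) T C₁ t₀ q.1 with hW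
  have hWc : ContinuousOn W Q := by
    have hΦ := F.toFlow.Phi_continuousOn
    have e1 : ContinuousOn (fun q : ℝ × M × M => F.Phi q.1 q.2.1) Q :=
      hΦ.comp (f := fun q : ℝ × M × M => (q.1, q.2.1)) (by fun_prop)
        fun q hq => ⟨hsub _ hq.1, mem_univ _⟩
    have e2 : ContinuousOn (fun q : ℝ × M × M => F.Phi t₀ q.2.2) Q :=
      hΦ.comp (f := fun q : ℝ × M × M => (t₀, q.2.2)) (by fun_prop)
        fun q hq => ⟨ht₀, mem_univ _⟩
    have e3 : ContinuousOn (fun q : ℝ × M × M => barr (k + m) T C₁ t₀ q.1) Q := by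
      have e4 : ContinuousOn (barr (k + m) T C₁ t₀) (Icc t₀ t) := fun s hs =>
        (hasDerivAt_barr (k + m) hT (hsub s hs).2).continuousAt.continuousWithinAt
      exact e4.comp continuousOn_fst fun q hq => hq.1
    exact (e1.sub (continuousOn_const.mul e2)).add e3
  obtain ⟨⟨s, x, x'⟩, ⟨hs, hxx⟩, hmin⟩ := hQc.exists_isMinOn
    ⟨(t, p, p), ⟨⟨ht.1, le_rfl⟩, rfl⟩⟩ hWc
  have hxx' : F.f x = F.f x' := hxx
  have hsI : s ∈ Icc t₀ t := hs
  have hmin' : ∀ r ∈ Icc t₀ t, ∀ y y', F.f y = F.f y' → W (s, x, x') ≤ W (r, y, y') :=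
    fun r hr y y' h => hmin (show (r, y, y') ∈ Q from ⟨hr, h⟩)
  suffices hst : s = t₀ by
    have h4 := hmin' t ⟨ht.1, le_rfl⟩ p p rfl
    have h5 := hA x x' hxx'
    simp only [hW, hst, barr_self] at h4
    linarith
  by_contra hne
  have hlt : t₀ < s := lt_of_le_of_ne hsI.1 (Ne.symm hne)
  obtain ⟨c, c', hcc, hx, hx', hx1, hx1', hy, hyy⟩ := F.exists_chart hxx'
  set z₀ := F.e c x with hz₀
  set u₀ := fstC (F.e c' x') with hu₀
  have hz₀t : z₀ ∈ (F.e c).target := (F.e c).map_source hx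
  have hjoin : joinC u₀ (sndC z₀) = F.e c' x' := by
    rw [← hyy, hu₀, joinC_fst_snd]
  have hsT := hsub s hsI
  have hspos : s ∈ Ioo 0 T := ⟨ht₀.1.trans_lt hlt, hsT.2⟩
  have hu10 : u₀ ∈ opd (k := k) 10 := cpd_subset_opd (by norm_num) (by norm_num) hx1'
  -- the Levi form
  have hlev : ∀ u, (1 - s / T) * lev (F.ψ c) u (0, z₀) ≤ lev (F.ψ c) u (s, z₀) := by
    intro u
    have h6 := hsect c c' hcc u₀ (cpd_mono (by norm_num) (by norm_num) hx1') t₀ ht₀ h2 h3 s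
      ⟨hlt.le, hsT.2⟩ z₀ (cpd_mono (by norm_num) (by norm_num) hx1)
      (cpd_mono (by norm_num) (by norm_num) hy) u
    have h7 : 0 ≤ levz (fun z => F.phi c (s, z) - κ' * F.phi c' (t₀, joinC u₀ (sndC z))) u z₀ := by
      obtain ⟨U, hU, hUs, hφ⟩ := F.toFlow.phi_isFun.smooth c
      obtain ⟨U', hU', hUs', hφ'⟩ := F.toFlow.phi_isFun.smooth c'
      have hd1 : ContDiffOn ℝ ∞ (fun z => F.phi c (s, z)) (F.e c).target :=
        hφ.comp (contDiff_const.prodMk contDiff_id).contDiffOn fun z hz => hUs ⟨hsT, hz⟩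
      have hd2 : ContDiffOn ℝ ∞ (fun z => F.phi c' (t₀, joinC u₀ (sndC z))) (F.e c).target :=
        hφ'.comp (contDiff_const.prodMk (contDiff_sect u₀)).contDiffOn fun z hz =>
          hUs' ⟨ht₀, (F.move hcc hz hu10).1⟩
      refine levz_nonneg_of_min (F.e c).open_target (hd1.sub (contDiffOn_const.mul hd2)) hz₀t ?_ u
      filter_upwards [(F.e c).open_target.mem_nhds hz₀t] with z hz
      obtain ⟨h8, h9⟩ := F.move hcc hz hu10
      have h10 := hmin' s hsI _ _ h9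
      simp only [hW] at h10
      rw [F.toFlow.Phi_eq hsT hx, F.toFlow.Phi_eq ht₀ hx', F.toFlow.Phi_eq hsT
        ((F.e c).map_target hz), F.toFlow.Phi_eq ht₀ ((F.e c').map_target h8),
        (F.e c).right_inv hz, (F.e c').right_inv h8, ← hjoin, ← hz₀] at h10
      linarith
    linarith
  have h11 := h1 c s hsT z₀ hz₀t hlev
  -- the time derivative
  have h12 : HasDerivAt (fun r => F.phi c (r, z₀)) (F.dphi c (s, z₀)) s := by
    rw [← F.toFlow.dt_phi hspos hz₀t]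
    exact Bd.hasDerivAt_time
      ((F.toFlow.phi_isFun.contDiffAt hsT hz₀t).differentiableAt (by simp))
  have h13 := nonpos_of_left_min (h12.add (hasDerivAt_barr (k + m) (C := C₁) (t₀ := t₀) hT hsT.2))
    hlt (by
      intro r hr
      have hrI : r ∈ Icc t₀ t := ⟨hr.1, hr.2.trans hsI.2⟩
      have h14 := hmin' r hrI x x' hxx'
      simp only [hW] at h14
      rw [F.toFlow.Phi_eq hsT hx, F.toFlow.Phi_eq (hsub r hrI) hx, ← hz₀] at h14
      simp only [Pi.add_apply]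
      linarith)
  linarith

end Fib

end Pool.Agent.KRFF

end

section

/-!
# The drop estimate: the local step
-/

open scoped ContDiff ENNReal ComplexOrder Topology
open Set MeasureTheory Filter Pool.Agent.ToricKRF Pool.Agent.ToricKRF.G Pool.Agent.KRFS
  Pool.Agent.KRFF

namespace Pool.Agent.KRFG

section flow

variable {n : ℕ} {M : Type} [TopologicalSpace M] {κ : Type} {T : ℝ} (F : Flow n M κ T)

theorem Flow.dphi_ge_half [CompactSpace M] : ∃ C : ℝ, 0 ≤ C ∧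
    ∀ c, ∀ t ∈ Ico 0 T, ∀ z ∈ (F.e c).target,
      (∀ u, 1 / 2 * (1 - t / T) * lev (F.ψ c) u (0, z) ≤ lev (F.ψ c) u (t, z)) →
      n * Real.log (1 - t / T) - C ≤ F.dphi c (t, z) := by
  by_cases hT : 0 < T
  swap
  · exact ⟨0, le_rfl, fun c t ht => absurd (lt_of_le_of_lt ht.1 ht.2) hT⟩
  obtain ⟨C, hC, h⟩ := KRFF.Bd.dphi_zero_bound F hT
  refine ⟨C + n * Real.log 2, by positivity, fun c t ht z hz hlev => ?_⟩
  obtain ⟨U, hU, hsub, hψ, hp, hU0, htg⟩ := KRFF.Bd.exists_good F c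
  have hd : 0 < 1 - t / T := by
    have := (div_lt_one hT).2 ht.2
    linarith
  have hd2 : 0 < 1 / 2 * (1 - t / T) := by positivity
  have h0 : (0 : ℝ) ∈ Ico 0 T := ⟨le_rfl, hT⟩
  have hm : (t, z) ∈ U := hsub ⟨ht, hz⟩
  have hm0 : ((0 : ℝ), z) ∈ U := hsub ⟨h0, hz⟩
  have h5 := Bd.det_le_of_lev_le hU hψ hU hψ hm0 hm (F.krf.pos c 0 h0 z hz)
    (F.krf.pos c t ht z hz) (C := (1 / 2 * (1 - t / T))⁻¹) fun u => by
      rw [inv_mul_eq_div, le_div_iff₀ hd2, mul_comm]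
      exact hlev u
  have h6 := Real.log_le_log (hp _ hm0) h5
  rw [Real.log_mul (pow_pos (inv_pos.2 hd2) n).ne' (hp _ hm).ne', Real.log_pow,
    Real.log_inv, Real.log_mul (by norm_num) hd.ne', one_div, Real.log_inv] at h6
  have h7 := (abs_le.1 (h c z hz)).1
  simp only [Flow.dphi] at h7 ⊢
  have h8 : (n : ℝ) * -(-Real.log 2 + Real.log (1 - t / T)) =
      n * Real.log 2 - n * Real.log (1 - t / T) := by ring
  rw [h8] at h6
  linarith

end flow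

theorem norm_le_of_nsq_le {n : ℕ} {z : Cn n} {r : ℝ} (hr : 0 ≤ r) (h : nsq z ≤ r ^ 2) :
    ‖z‖ ≤ r := by
  rw [Prod.norm_def]
  refine max_le ((pi_norm_le_iff_of_nonneg hr).2 fun i => ?_)
    ((pi_norm_le_iff_of_nonneg hr).2 fun i => ?_)
  · rw [Real.norm_eq_abs]
    exact abs_le_of_sq_le_sq (by nlinarith [Gap.le_nsq z i, sq_nonneg (z.2 i)]) hr
  · rw [Real.norm_eq_abs]
    exact abs_le_of_sq_le_sq (by nlinarith [Gap.le_nsq z i, sq_nonneg (z.1 i)]) hr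

/-- small closed balls -/
theorem exists_ball {n : ℕ} {z₀ : Cn n} {S : Set (Cn n)} (hS : S ∈ 𝓝 z₀) :
    ∃ r > 0, IsCompact {z : Cn n | nsq (z - z₀) ≤ r ^ 2} ∧ {z : Cn n | nsq (z - z₀) ≤ r ^ 2} ⊆ S := by
  obtain ⟨ρ, hρ, hsub⟩ := Metric.mem_nhds_iff.1 hS
  have h1 : {z : Cn n | nsq (z - z₀) ≤ (ρ / 2) ^ 2} ⊆ Metric.closedBall z₀ (ρ / 2) := by
    intro z hz
    rw [mem_closedBall_iff_norm]
    exact norm_le_of_nsq_le (by positivity) hz
  refine ⟨ρ / 2, by positivity, ?_, h1.trans ((Metric.closedBall_subset_ball (by linarith)).trans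
    hsub)⟩
  refine Metric.isCompact_of_isClosed_isBounded ?_ (Metric.isBounded_closedBall.subset h1)
  exact isClosed_le (Gap.contDiff_nsq'.continuous.comp (by fun_prop)) continuous_const

section Mod

variable {n m : ℕ} {M Y W : Type} [TopologicalSpace M] [TopologicalSpace Y]
  [TopologicalSpace W] {κ P ι : Type} {T : ℝ} (F : Mod n m M Y W κ P ι T)

theorem Mod.drop_local {C₁ : ℝ}
    (h1 : ∀ c, ∀ t ∈ Ico 0 T, ∀ z ∈ (F.e c).target,
      (∀ u, 1 / 2 * (1 - t / T) * lev (F.ψ c) u (0, z) ≤ lev (F.ψ c) u (t, z)) →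
      n * Real.log (1 - t / T) - C₁ ≤ F.dphi c (t, z))
    {t₀ s₀ δ : ℝ} {G : Cn m → ℝ} (ht₀ : t₀ ∈ Ico 0 T) (hs₀ : s₀ ∈ Ioo t₀ T) (hδ : 0 < δ) {j : P}
    {x₀ : M} (hx : F.f x₀ ∈ (F.b j).source) (hy : nsq (F.b j (F.f x₀)) < 16)
    (hG : ∀ ε > 0, ∃ (u' : Cn m → ℝ) (V' : Set (Cn m)), IsOpen V' ∧ {y | nsq y ≤ 16} ⊆ V' ∧
      ContDiffOn ℝ ∞ u' V' ∧ (∀ z ∈ V', ∀ v, 0 ≤ levz u' v z) ∧
      ∀ z ∈ V', |u' z - (G z + t₀ / T * F.K j z)| ≤ ε)
    (hmin : ∀ s ∈ Icc t₀ s₀, ∀ x, F.f x ∈ (F.b j).source → nsq (F.b j (F.f x)) ≤ 16 →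
      F.Phi s₀ x₀ - G (F.b j (F.f x₀)) + barr n T C₁ t₀ s₀ ≤
        F.Phi s x - G (F.b j (F.f x)) + barr n T C₁ t₀ s)
    (hmin0 : ∀ x, F.f x ∈ (F.b j).source → nsq (F.b j (F.f x)) ≤ 16 →
      F.Phi s₀ x₀ - G (F.b j (F.f x₀)) + barr n T C₁ t₀ s₀ + δ ≤
        F.Phi t₀ x - G (F.b j (F.f x))) : False := by
  have hT : 0 < T := ht₀.1.trans_lt ht₀.2
  have h0T : (0 : ℝ) ∈ Ico 0 T := ⟨le_rfl, hT⟩
  have hsub : ∀ s ∈ Icc t₀ s₀, s ∈ Ico 0 T := fun s hs => ⟨ht₀.1.trans hs.1, hs.2.trans_lt hs₀.2⟩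
  have hs₀I : s₀ ∈ Icc t₀ s₀ := ⟨hs₀.1.le, le_rfl⟩
  set w₀ : ℝ := F.Phi s₀ x₀ - G (F.b j (F.f x₀)) + barr n T C₁ t₀ s₀ with hw₀
  obtain ⟨c, hc⟩ := F.atlas.cover x₀
  set z₀ := F.e c x₀ with hz₀
  have hz₀t : z₀ ∈ (F.e c).target := (F.e c).map_source hc
  have hsz₀ : (F.e c).symm z₀ = x₀ := (F.e c).left_inv hc
  set y : Cn n → Cn m := fun z => F.b j (F.f ((F.e c).symm z)) with hydef
  set S₀ : Set (Cn n) := {z | z ∈ (F.e c).target ∧ F.f ((F.e c).symm z) ∈ (F.b j).source} with hS₀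
  have hfs : ContinuousOn (fun z => F.f ((F.e c).symm z)) (F.e c).target :=
    F.hol.cont.comp_continuousOn (F.e c).continuousOn_symm
  have hS₀o : IsOpen S₀ := hfs.isOpen_inter_preimage (F.e c).open_target (F.b j).open_source
  have hyhol : HolOn y S₀ := F.hol.holo c j
  have hz₀S : z₀ ∈ S₀ := ⟨hz₀t, by rw [hsz₀]; exact hx⟩
  have hyz₀ : y z₀ = F.b j (F.f x₀) := by simp only [hydef, hsz₀]
  -- a good ball
  obtain ⟨U, hU, hUs, hψ, hp, hU0, hUt⟩ := KRFF.Bd.exists_good F.toFlow c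
  have hψ0 : ContDiffOn ℝ ∞ (fun x => F.ψ c (0, x)) (F.e c).target :=
    hψ.comp (contDiff_const.prodMk contDiff_id).contDiffOn fun z hz => hUs ⟨h0T, hz⟩
  have hlev0 : ∀ z ∈ (F.e c).target, ∀ u, levz (fun x => F.ψ c (0, x)) u z =
      lev (F.ψ c) u (0, z) := fun z hz u => levz_slice hU hψ (hUs ⟨h0T, hz⟩) u
  have hpos0 : ∀ z ∈ (F.e c).target, ∀ u, u ≠ 0 → 0 < lev (F.ψ c) u (0, z) := fun z hz u hu =>
    lev_pos hU hψ (hUs ⟨h0T, hz⟩) (F.krf.pos c 0 h0T z hz) hu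
  obtain ⟨C₂, hC₂, hev⟩ := Bd.levz_le_local (F.e c).open_target
    (f := fun x => nsq (x - z₀)) (g := fun x => F.ψ c (0, x))
    ((Gap.contDiff_nsq'.comp (contDiff_id.sub contDiff_const)).contDiffOn) hψ0 hz₀t
    (fun z hz u hu => by rw [hlev0 z hz]; exact hpos0 z hz u hu)
  have hev2 : ∀ᶠ z in 𝓝 z₀, z ∈ S₀ := hS₀o.mem_nhds hz₀S
  have hycont : ContinuousOn y S₀ := hyhol.1.continuousOn
  have hev3 : ∀ᶠ z in 𝓝 z₀, nsq (y z) < 16 := by
    have h2 : ContinuousAt (fun z => nsq (y z)) z₀ :=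
      Gap.contDiff_nsq'.continuous.continuousAt.comp (hycont.continuousAt (hS₀o.mem_nhds hz₀S))
    exact h2.eventually_lt_const (by simp only [hyz₀]; exact hy)
  obtain ⟨r, hr, hBc, hBsub⟩ := exists_ball ((hev.and (hev2.and hev3)))
  set B : Set (Cn n) := {z | nsq (z - z₀) ≤ r ^ 2} with hB
  have hBS : ∀ z ∈ B, z ∈ S₀ := fun z hz => (hBsub hz).2.1
  have hBy : ∀ z ∈ B, nsq (y z) < 16 := fun z hz => (hBsub hz).2.2
  have hBq : ∀ z ∈ B, ∀ u, nsq u ≤ C₂ * lev (F.ψ c) u (0, z) := fun z hz u => by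
    have h2 := (hBsub hz).1 u
    rw [Gap.levz_nsq, hlev0 z (hBS z hz).1] at h2
    exact h2
  have hz₀B : z₀ ∈ B := by
    simp only [hB, mem_ofPred_eq, sub_self, Gap.nsq_zero]
    positivity
  have hd₀ : 0 < 1 - s₀ / T := by
    rw [sub_pos, div_lt_one hT]
    exact hs₀.2
  -- the constants
  set σ : ℝ := (1 - s₀ / T) / (2 * (C₂ + 1)) with hσ
  have hσ0 : 0 < σ := by positivity
  have hσC : σ * C₂ ≤ 1 / 2 * (1 - s₀ / T) := by
    rw [hσ, div_mul_eq_mul_div, div_le_iff₀ (by positivity)]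
    nlinarith
  set ε : ℝ := min δ (σ * r ^ 2) / 4 with hε
  have hm0 : 0 < min δ (σ * r ^ 2) := lt_min hδ (by positivity)
  have hε0 : 0 < ε := by positivity
  have hε1 : 2 * ε < δ := by
    have := min_le_left δ (σ * r ^ 2)
    linarith
  have hε2 : 2 * ε < σ * r ^ 2 := by
    have := min_le_right δ (σ * r ^ 2)
    linarith
  obtain ⟨u', V', hV', hsubV, hu', hpsh, hclose⟩ := hG ε hε0
  -- the perturbed function
  set V : ℝ × Cn n → ℝ := fun q => F.phi c q + t₀ / T * F.K j (y q.2) - u' (y q.2) +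
    barr n T C₁ t₀ q.1 + σ * nsq (q.2 - z₀) with hV
  have hWs : ∀ s ∈ Icc t₀ s₀, ∀ z ∈ B,
      F.Phi s ((F.e c).symm z) = F.phi c (s, z) := fun s hs z hz => by
    rw [F.toFlow.Phi_eq (hsub s hs) ((F.e c).map_target (hBS z hz).1),
      (F.e c).right_inv (hBS z hz).1]
  have hlow : ∀ s ∈ Icc t₀ s₀, ∀ z ∈ B, w₀ + σ * nsq (z - z₀) - ε ≤ V (s, z) := by
    intro s hs z hz
    have h2 := hmin s hs ((F.e c).symm z) (hBS z hz).2 (hBy z hz).le
    rw [hWs s hs z hz] at h2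
    have h3 := (abs_le.1 (hclose (y z) (hsubV (hBy z hz).le))).2
    simp only [hV]
    change w₀ ≤ F.phi c (s, z) - G (y z) + barr n T C₁ t₀ s at h2
    linarith
  have hlow0 : ∀ z ∈ B, w₀ + δ - ε ≤ V (t₀, z) := by
    intro z hz
    have h2 := hmin0 ((F.e c).symm z) (hBS z hz).2 (hBy z hz).le
    rw [hWs t₀ ⟨le_rfl, hs₀.1.le⟩ z hz] at h2
    have h3 := (abs_le.1 (hclose (y z) (hsubV (hBy z hz).le))).2
    have h4 : 0 ≤ σ * nsq (z - z₀) := mul_nonneg hσ0.le (Gap.nsq_nonneg _)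
    simp only [hV, barr_self]
    change w₀ + δ ≤ F.phi c (t₀, z) - G (y z) at h2
    linarith
  have hup : V (s₀, z₀) ≤ w₀ + ε := by
    have h2 := (abs_le.1 (hclose (y z₀) (hsubV (hBy z₀ hz₀B).le))).1
    have h3 := hWs s₀ hs₀I z₀ hz₀B
    rw [hsz₀] at h3
    simp only [hV, sub_self, Gap.nsq_zero, mul_zero, add_zero]
    rw [hw₀, h3, ← hyz₀]
    linarith
  -- continuity
  have hyS : ContDiffOn ℝ ∞ y S₀ := hyhol.1
  obtain ⟨Uφ, hUφ, hUφs, hφ⟩ := F.toFlow.phi_isFun.smooth c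
  have hKy : ContDiffOn ℝ ∞ (fun z => F.K j (y z)) S₀ :=
    (F.lim.smooth j).comp hyS fun z hz => (F.b j).map_source hz.2
  set S₁ : Set (Cn n) := S₀ ∩ y ⁻¹' V' with hS₁
  have hS₁o : IsOpen S₁ := hycont.isOpen_inter_preimage hS₀o hV'
  have hBS₁ : B ⊆ S₁ := fun z hz => ⟨hBS z hz, hsubV (hBy z hz).le⟩
  have hu'y : ContDiffOn ℝ ∞ (fun z => u' (y z)) S₁ :=
    hu'.comp (hyS.mono inter_subset_left) fun z hz => hz.2
  have hVc : ContinuousOn V (Icc t₀ s₀ ×ˢ B) := by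
    have e1 : ContinuousOn (fun q : ℝ × Cn n => F.phi c q) (Icc t₀ s₀ ×ˢ B) :=
      hφ.continuousOn.mono fun q hq => hUφs ⟨hsub _ hq.1, (hBS _ hq.2).1⟩
    have e2 : ContinuousOn (fun q : ℝ × Cn n => F.K j (y q.2)) (Icc t₀ s₀ ×ˢ B) :=
      hKy.continuousOn.comp continuousOn_snd fun q hq => hBS _ hq.2
    have e3 : ContinuousOn (fun q : ℝ × Cn n => u' (y q.2)) (Icc t₀ s₀ ×ˢ B) :=
      hu'y.continuousOn.comp continuousOn_snd fun q hq => hBS₁ hq.2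
    have e4 : ContinuousOn (fun q : ℝ × Cn n => barr n T C₁ t₀ q.1) (Icc t₀ s₀ ×ˢ B) := by
      have e5 : ContinuousOn (barr n T C₁ t₀) (Icc t₀ s₀) := fun s hs =>
        (hasDerivAt_barr n hT (hsub s hs).2).continuousAt.continuousWithinAt
      exact e5.comp continuousOn_fst fun q hq => hq.1
    have e6 : Continuous fun q : ℝ × Cn n => σ * nsq (q.2 - z₀) :=
      continuous_const.mul (Gap.contDiff_nsq'.continuous.comp (by fun_prop))
    exact (((e1.add (continuousOn_const.mul e2)).sub e3).add e4).add e6.continuousOn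
  obtain ⟨⟨s₁, z₁⟩, ⟨hs₁, hz₁⟩, hminV⟩ := (isCompact_Icc.prod hBc).exists_isMinOn
    ⟨(s₀, z₀), hs₀I, hz₀B⟩ hVc
  have hs₁I : s₁ ∈ Icc t₀ s₀ := hs₁
  have hz₁B : z₁ ∈ B := hz₁
  have hminV' : ∀ s ∈ Icc t₀ s₀, ∀ z ∈ B, V (s₁, z₁) ≤ V (s, z) := fun s hs z hz =>
    hminV (show (s, z) ∈ Icc t₀ s₀ ×ˢ B from ⟨hs, hz⟩)
  have hle := (hminV' s₀ hs₀I z₀ hz₀B).trans hup
  have hs₁t : t₀ < s₁ := by
    refine lt_of_le_of_ne hs₁I.1 fun h => ?_
    have h2 := hlow0 z₁ hz₁B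
    rw [h] at h2
    linarith
  have hz₁r : nsq (z₁ - z₀) < r ^ 2 := by
    refine lt_of_le_of_ne hz₁B fun h => ?_
    have h2 := hlow s₁ hs₁I z₁ hz₁B
    rw [h] at h2
    linarith
  have hs₁T := hsub s₁ hs₁I
  have hz₁S := hBS z₁ hz₁B
  have hd₁ : 1 - s₀ / T ≤ 1 - s₁ / T := by
    have := div_le_div_of_nonneg_right hs₁I.2 hT.le
    linarith
  -- the Levi form
  have hlev : ∀ u, 1 / 2 * (1 - s₁ / T) * lev (F.ψ c) u (0, z₁) ≤ lev (F.ψ c) u (s₁, z₁) := by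
    intro u
    have hSφ : ContDiffOn ℝ ∞ (fun z => F.phi c (s₁, z)) S₁ :=
      hφ.comp (contDiff_const.prodMk contDiff_id).contDiffOn fun z hz => hUφs ⟨hs₁T, hz.1.1⟩
    have hSn : ContDiffOn ℝ ∞ (fun z => nsq (z - z₀)) S₁ :=
      (Gap.contDiff_nsq'.comp (contDiff_id.sub contDiff_const)).contDiffOn
    have hSK : ContDiffOn ℝ ∞ (fun z => F.K j (y z)) S₁ := hKy.mono inter_subset_left
    have hall : ContDiffOn ℝ ∞ (fun z => F.phi c (s₁, z) + t₀ / T * F.K j (y z) - u' (y z) +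
        barr n T C₁ t₀ s₁ + σ * nsq (z - z₀)) S₁ :=
      (((hSφ.add (contDiffOn_const.mul hSK)).sub hu'y).add contDiffOn_const).add
        (contDiffOn_const.mul hSn)
    have h2 := levz_nonneg_of_min hS₁o hall (hBS₁ hz₁B) (by
      have h3 : ∀ᶠ z in 𝓝 z₁, nsq (z - z₀) < r ^ 2 := by
        have : ContinuousAt (fun z : Cn n => nsq (z - z₀)) z₁ :=
          (Gap.contDiff_nsq'.continuous.comp (by fun_prop)).continuousAt
        exact this.eventually_lt_const hz₁r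
      filter_upwards [h3] with z hz
      exact hminV' s₁ hs₁I z hz.le) u
    have hn : S₁ ∈ 𝓝 z₁ := hS₁o.mem_nhds (hBS₁ hz₁B)
    have a1 : ContDiffAt ℝ 2 (fun z => F.phi c (s₁, z)) z₁ :=
      (hSφ.contDiffAt hn).of_le two_le_infty
    have a2 : ContDiffAt ℝ 2 (fun z => F.K j (y z)) z₁ := (hSK.contDiffAt hn).of_le two_le_infty
    have a3 : ContDiffAt ℝ 2 (fun z => u' (y z)) z₁ := (hu'y.contDiffAt hn).of_le two_le_infty
    have a5 : ContDiffAt ℝ 2 (fun z => nsq (z - z₀)) z₁ := (hSn.contDiffAt hn).of_le two_le_infty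
    have a2' : ContDiffAt ℝ 2 (fun z => t₀ / T * F.K j (y z)) z₁ := contDiffAt_const.mul a2
    have a5' : ContDiffAt ℝ 2 (fun z => σ * nsq (z - z₀)) z₁ := contDiffAt_const.mul a5
    rw [Bd.levz_add (((a1.add a2').sub a3).add contDiffAt_const) a5',
      Bd.levz_add ((a1.add a2').sub a3) contDiffAt_const, Bd.levz_sub (a1.add a2') a3,
      Bd.levz_add a1 a2', Bd.levz_const_mul _ a2, Bd.levz_const_mul _ a5, Bd.levz_const,
      Gap.levz_nsq, levz_slice hUφ hφ (hUφs ⟨hs₁T, hz₁S.1⟩), F.toFlow.lev_phi hs₁T hz₁S.1] at h2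
    -- the form of the base
    have e1 : levz (fun z => F.K j (y z)) u z₁ = levz (F.Θ c) u z₁ := by
      rw [← F.theta c z₁ hz₁S.1 u]
      exact (F.lim.eq c j z₁ hz₁S.1 hz₁S.2 u).symm
    have e2 : 0 ≤ levz (fun z => u' (y z)) u z₁ := by
      rw [levz_comp hV' hu' hS₀o hyhol hz₁S (hBS₁ hz₁B).2]
      exact hpsh _ (hBS₁ hz₁B).2 _
    have e3 : 0 ≤ levz (F.Θ c) u z₁ := F.psh c z₁ hz₁S.1 u
    have e4 : t₀ / T * levz (F.Θ c) u z₁ ≤ s₁ / T * levz (F.Θ c) u z₁ :=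
      mul_le_mul_of_nonneg_right (div_le_div_of_nonneg_right hs₁t.le hT.le) e3
    have e5 : σ * nsq u ≤ 1 / 2 * (1 - s₁ / T) * lev (F.ψ c) u (0, z₁) := by
      have e6 : 0 ≤ lev (F.ψ c) u (0, z₁) := by
        by_cases hu : u = 0
        · rw [hu, ← hlev0 z₁ hz₁S.1]
          have := Bd.levz_smul (F.e c).open_target hψ0 hz₁S.1 0 0
          simp only [smul_zero] at this
          rw [this]
          norm_num
        · exact (hpos0 z₁ hz₁S.1 u hu).le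
      calc σ * nsq u ≤ σ * (C₂ * lev (F.ψ c) u (0, z₁)) :=
            mul_le_mul_of_nonneg_left (hBq z₁ hz₁B u) hσ0.le
        _ = σ * C₂ * lev (F.ψ c) u (0, z₁) := by ring
        _ ≤ 1 / 2 * (1 - s₁ / T) * lev (F.ψ c) u (0, z₁) :=
            mul_le_mul_of_nonneg_right (by linarith) e6
    rw [e1] at h2
    linarith
  have h11 := h1 c s₁ hs₁T z₁ hz₁S.1 hlev
  have hspos : s₁ ∈ Ioo 0 T := ⟨ht₀.1.trans_lt hs₁t, hs₁T.2⟩
  have h12 : HasDerivAt (fun r => F.phi c (r, z₁)) (F.dphi c (s₁, z₁)) s₁ := by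
    rw [← F.toFlow.dt_phi hspos hz₁S.1]
    exact Bd.hasDerivAt_time
      ((F.toFlow.phi_isFun.contDiffAt hs₁T hz₁S.1).differentiableAt (by simp))
  have h13 := nonpos_of_left_min (h12.add (hasDerivAt_barr n (C := C₁) (t₀ := t₀) hT hs₁T.2))
    hs₁t (by
      intro r hr
      have hrI : r ∈ Icc t₀ s₀ := ⟨hr.1, hr.2.trans hs₁I.2⟩
      have h14 := hminV' r hrI z₁ hz₁B
      simp only [hV] at h14
      simp only [Pi.add_apply]
      linarith)
  linarith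

end Mod

end Pool.Agent.KRFG

end
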