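import Pool.Agent.Work.MP_a2bf38_gt.Fu.I.Split
import Pool.Agent.Work.MP_a2bf38_gt.Fu.K.Setup
import Pool.Agent.Work.MP_a2bf38_gt.Fu.I.FBound
import Mathlib.Analysis.Complex.OpenMapping

section

/-!
# Uniform size of the overlaps of the charts
-/

open scoped ContDiff ENNReal ComplexOrder Topology
open Set Filter Pool.Agent.ToricKRF Pool.Agent.ToricKRF.G Pool.Agent.KRFS

namespace Pool.Agent.KRFF

namespace Ov

theorem cpd_mono {k : ℕ} {r R : ℝ} (hr : 0 ≤ r) (h : r ≤ R) :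
    (cpd r : Set (Cn k)) ⊆ cpd R := fun _ hu i =>
  (hu i).trans (by nlinarith)

theorem cpd_subset_opd {k : ℕ} {r R : ℝ} (hr : 0 ≤ r) (h : r < R) :
    (cpd r : Set (Cn k)) ⊆ opd R := fun _ hu i =>
  (hu i).trans_lt (by nlinarith)

theorem isOpen_opd {k : ℕ} (R : ℝ) : IsOpen (opd R : Set (Cn k)) := by
  have h : (opd R : Set (Cn k)) = ⋂ i : Fin k, {u | u.1 i ^ 2 + u.2 i ^ 2 < R ^ 2} := by
    ext u
    simp [opd]
  rw [h]
  exact isOpen_iInter_of_finite fun i => isOpen_lt (by fun_prop) continuous_const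

theorem sq_le₁ {k : ℕ} (z : Cn k) (i : Fin k) : z.1 i ^ 2 ≤ nsq z := by
  have h1 : z.1 i ^ 2 ≤ ∑ j, z.1 j * z.1 j := by
    have := Finset.single_le_sum (f := fun j => z.1 j * z.1 j) (fun j _ => mul_self_nonneg _)
      (Finset.mem_univ i)
    calc z.1 i ^ 2 = z.1 i * z.1 i := by ring
      _ ≤ _ := this
  have h2 : 0 ≤ ∑ j, z.2 j * z.2 j := Finset.sum_nonneg fun j _ => mul_self_nonneg _
  calc z.1 i ^ 2 ≤ ∑ j, z.1 j * z.1 j := h1
    _ ≤ _ := by
      unfold nsq dotProduct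
      linarith

theorem sq_le₂ {k : ℕ} (z : Cn k) (i : Fin k) : z.2 i ^ 2 ≤ nsq z := by
  have h1 : z.2 i ^ 2 ≤ ∑ j, z.2 j * z.2 j := by
    have := Finset.single_le_sum (f := fun j => z.2 j * z.2 j) (fun j _ => mul_self_nonneg _)
      (Finset.mem_univ i)
    calc z.2 i ^ 2 = z.2 i * z.2 i := by ring
      _ ≤ _ := this
  have h2 : 0 ≤ ∑ j, z.1 j * z.1 j := Finset.sum_nonneg fun j _ => mul_self_nonneg _
  calc z.2 i ^ 2 ≤ ∑ j, z.2 j * z.2 j := h1
    _ ≤ _ := by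
      unfold nsq dotProduct
      linarith

theorem dist_joinC_le {k m : ℕ} {z z' : Cn k} (y : Cn m) {r : ℝ} (hr : 0 ≤ r)
    (h : nsq (z' - z) ≤ r ^ 2) : dist (joinC z' y) (joinC z y) ≤ r := by
  have h1 : ∀ i, |z'.1 i - z.1 i| ≤ r := fun i =>
    abs_le_of_sq_le_sq ((sq_le₁ (z' - z) i).trans h) hr
  have h2 : ∀ i, |z'.2 i - z.2 i| ≤ r := fun i =>
    abs_le_of_sq_le_sq ((sq_le₂ (z' - z) i).trans h) hr
  rw [Prod.dist_eq, max_le_iff, dist_pi_le_iff hr, dist_pi_le_iff hr]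
  constructor
  · refine Fin.addCases (fun i => ?_) (fun i => ?_)
    · simp only [joinC, Fin.append_left]
      exact h1 i
    · simp only [joinC, Fin.append_right, dist_self]
      exact hr
  · refine Fin.addCases (fun i => ?_) (fun i => ?_)
    · simp only [joinC, Fin.append_left]
      exact h2 i
    · simp only [joinC, Fin.append_right, dist_self]
      exact hr

end Ov

open Ov

section Fib

variable {k m : ℕ} {M Y : Type} [TopologicalSpace M] [CompactSpace M] [T2Space M]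
  [TopologicalSpace Y] [T2Space Y] {κ P : Type} [Finite κ] {T : ℝ} (F : Fib k m M Y κ P T)

omit [CompactSpace M] [T2Space Y] [Finite κ] in
theorem Fib.overlap_one (c c' : κ) (hcc : F.pc c = F.pc c') : ∃ δ > 0, ∀ q,
    q ∈ (F.e c).source → q ∈ (F.e c').source → fstC (F.e c q) ∈ cpd 1 →
    fstC (F.e c' q) ∈ cpd 1 → sndC (F.e c q) ∈ cpd 2 → ∀ z', ∀ r, 0 ≤ r → r < δ →
    nsq (z' - fstC (F.e c q)) ≤ r ^ 2 →
    (F.e c).symm (joinC z' (sndC (F.e c q))) ∈ (F.e c').source ∧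
      fstC (F.e c' ((F.e c).symm (joinC z' (sndC (F.e c q))))) ∈ cpd 2 := by
  have hcomp : ∀ c : κ, IsCompact ((F.e c).symm '' {z | fstC z ∈ cpd 1 ∧ sndC z ∈ cpd 2}) := by
    intro c
    have h1 : IsCompact {z : Cn (k + m) | fstC z ∈ cpd 1 ∧ sndC z ∈ cpd 2} := by
      have h2 : {z : Cn (k + m) | fstC z ∈ cpd 1 ∧ sndC z ∈ cpd 2} =
          (fun q : Cn k × Cn m => joinC q.1 q.2) '' (cpd 1 ×ˢ cpd 2) := by
        ext z
        constructor
        · rintro ⟨h, h'⟩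
          exact ⟨(fstC z, sndC z), ⟨h, h'⟩, joinC_fst_snd z⟩
        · rintro ⟨⟨u, y⟩, ⟨hu, hy⟩, rfl⟩
          exact ⟨by rwa [fstC_joinC], by rwa [sndC_joinC]⟩
      rw [h2]
      exact ((isCompact_cpd 1).prod (isCompact_cpd 2)).image continuous_joinC
    refine h1.image_of_continuousOn ((F.e c).continuousOn_symm.mono ?_)
    rintro z ⟨h2, h3⟩
    rw [F.fib.target c]
    exact ⟨cpd_subset_opd zero_le_one (by norm_num) h2,
      cpd_subset_opd zero_le_two (by norm_num) h3⟩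
  have hsrc : ∀ c : κ, (F.e c).symm '' {z | fstC z ∈ cpd 1 ∧ sndC z ∈ cpd 2} ⊆
      (F.e c).source := by
    rintro c _ ⟨z, ⟨h2, h3⟩, rfl⟩
    refine (F.e c).map_target ?_
    rw [F.fib.target c]
    exact ⟨cpd_subset_opd zero_le_one (by norm_num) h2,
      cpd_subset_opd zero_le_two (by norm_num) h3⟩
  have hmem : ∀ c : κ, ∀ q, q ∈ (F.e c).source → fstC (F.e c q) ∈ cpd 1 →
      sndC (F.e c q) ∈ cpd 2 →
      q ∈ (F.e c).symm '' {z | fstC z ∈ cpd 1 ∧ sndC z ∈ cpd 2} := fun c q h1 h2 h3 =>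
    ⟨F.e c q, ⟨h2, h3⟩, (F.e c).left_inv h1⟩
  have hK := (hcomp c).inter (hcomp c')
  set Kc := (F.e c).symm '' {z | fstC z ∈ cpd 1 ∧ sndC z ∈ cpd 2} with hKc
  set Kc' := (F.e c').symm '' {z | fstC z ∈ cpd 1 ∧ sndC z ∈ cpd 2} with hKc'
  have hZ : IsCompact (F.e c '' (Kc ∩ Kc')) :=
    hK.image_of_continuousOn ((F.e c).continuousOn.mono (inter_subset_left.trans (hsrc c)))
  set O : Set (Cn (k + m)) := (F.e c).target ∩ (F.e c).symm ⁻¹'
    ((F.e c').source ∩ F.e c' ⁻¹' (fstC ⁻¹' opd 2)) with hO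
  have hOo : IsOpen O := (F.e c).isOpen_inter_preimage_symm
    ((F.e c').isOpen_inter_preimage ((isOpen_opd 2).preimage continuous_fstC))
  have hsub : F.e c '' (Kc ∩ Kc') ⊆ O := by
    rintro _ ⟨q, ⟨hq, hq'⟩, rfl⟩
    have h1 := hsrc c hq
    have h2 := hsrc c' hq'
    refine ⟨(F.e c).map_source h1, ?_⟩
    rw [mem_preimage, (F.e c).left_inv h1]
    refine ⟨h2, ?_⟩
    obtain ⟨z, ⟨hz1, hz2⟩, rfl⟩ := hq'
    have hz : z ∈ (F.e c').target := by
      rw [F.fib.target c']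
      exact ⟨cpd_subset_opd zero_le_one (by norm_num) hz1,
        cpd_subset_opd zero_le_two (by norm_num) hz2⟩
    rw [mem_preimage, mem_preimage, (F.e c').right_inv hz]
    exact cpd_subset_opd zero_le_one (by norm_num) hz1
  obtain ⟨δ, hδ, hδs⟩ := hZ.exists_thickening_subset_open hOo hsub
  refine ⟨δ, hδ, fun q hq hq' h1 h1' h2 z' r hr0 hr hz' => ?_⟩
  have h2' : sndC (F.e c' q) ∈ cpd 2 := by
    have h3 := (F.fib.proj c q hq).2
    have h4 := (F.fib.proj c' q hq').2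
    rw [← hcc] at h4
    rw [← h4, h3]
    exact h2
  have h3 : F.e c q ∈ F.e c '' (Kc ∩ Kc') := ⟨q, ⟨hmem c q hq h1 h2, hmem c' q hq' h1' h2'⟩, rfl⟩
  have h4 : joinC z' (sndC (F.e c q)) ∈ Metric.thickening δ (F.e c '' (Kc ∩ Kc')) := by
    refine Metric.mem_thickening_iff.2 ⟨F.e c q, h3, ?_⟩
    have h5 := dist_joinC_le (sndC (F.e c q)) hr0 hz'
    rw [joinC_fst_snd] at h5
    exact h5.trans_lt hr
  obtain ⟨-, h6, h7⟩ := hδs h4
  refine ⟨h6, fun i => (h7 i).le⟩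

omit [CompactSpace M] [T2Space Y] in
theorem Fib.overlap : ∃ r₀ ∈ Ioc (0 : ℝ) 1, ∀ c c', F.pc c = F.pc c' → ∀ q,
    q ∈ (F.e c).source → q ∈ (F.e c').source → fstC (F.e c q) ∈ cpd 1 →
    fstC (F.e c' q) ∈ cpd 1 → sndC (F.e c q) ∈ cpd 2 → ∀ z',
    nsq (z' - fstC (F.e c q)) ≤ r₀ ^ 2 →
    (F.e c).symm (joinC z' (sndC (F.e c q))) ∈ (F.e c').source ∧
      fstC (F.e c' ((F.e c).symm (joinC z' (sndC (F.e c q))))) ∈ cpd 2 := by
  classical
  have h : ∀ q : κ × κ, ∃ δ > 0, F.pc q.1 = F.pc q.2 → ∀ p,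
      p ∈ (F.e q.1).source → p ∈ (F.e q.2).source → fstC (F.e q.1 p) ∈ cpd 1 →
      fstC (F.e q.2 p) ∈ cpd 1 → sndC (F.e q.1 p) ∈ cpd 2 → ∀ z', ∀ r, 0 ≤ r → r < δ →
      nsq (z' - fstC (F.e q.1 p)) ≤ r ^ 2 →
      (F.e q.1).symm (joinC z' (sndC (F.e q.1 p))) ∈ (F.e q.2).source ∧
        fstC (F.e q.2 ((F.e q.1).symm (joinC z' (sndC (F.e q.1 p))))) ∈ cpd 2 := by
    intro q
    by_cases hq : F.pc q.1 = F.pc q.2
    · obtain ⟨δ, hδ, h⟩ := F.overlap_one q.1 q.2 hq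
      exact ⟨δ, hδ, fun _ => h⟩
    · exact ⟨1, one_pos, fun h => absurd h hq⟩
  choose δ hδ h using h
  have hev : ∀ᶠ r in 𝓝[>] (0 : ℝ), (∀ q, r < δ q) ∧ r < 1 ∧ 0 < r := by
    refine Filter.Eventually.and ?_ (Filter.Eventually.and ?_ self_mem_nhdsWithin)
    · rw [eventually_all]
      intro q
      exact (eventually_lt_nhds (hδ q)).filter_mono nhdsWithin_le_nhds
    · exact (eventually_lt_nhds one_pos).filter_mono nhdsWithin_le_nhds
  obtain ⟨r, hr, hr1, hr0⟩ := hev.exists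
  exact ⟨r, ⟨hr0, hr1.le⟩, fun c c' hcc q h1 h2 h3 h4 h5 z' hz' =>
    h (c, c') hcc q h1 h2 h3 h4 h5 z' r hr0.le (hr (c, c')) hz'⟩

end Fib

end Pool.Agent.KRFF

end

section

/-!
# Uniform size of the overlaps of the charts of the models
-/

open scoped ContDiff ENNReal ComplexOrder Topology
open Set MeasureTheory Filter Pool.Agent.ToricKRF Pool.Agent.ToricKRF.G Pool.Agent.KRFS
  Pool.Agent.KRFF

namespace Pool.Agent.KRFG

namespace Ov

theorem dist_le_of_cpd {k : ℕ} {z z' : Cn k} {r : ℝ} (hr : 0 ≤ r) (h : z' - z ∈ cpd (k := k) r) :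
    dist z' z ≤ r := by
  have h1 : ∀ i, |z'.1 i - z.1 i| ≤ r := fun i =>
    abs_le_of_sq_le_sq (by
      have := h i
      have h2 : (z' - z).1 i = z'.1 i - z.1 i := rfl
      have h3 : (z' - z).2 i = z'.2 i - z.2 i := rfl
      rw [h2, h3] at this
      nlinarith [sq_nonneg (z'.2 i - z.2 i)]) hr
  have h2 : ∀ i, |z'.2 i - z.2 i| ≤ r := fun i =>
    abs_le_of_sq_le_sq (by
      have := h i
      have h2 : (z' - z).1 i = z'.1 i - z.1 i := rfl
      have h3 : (z' - z).2 i = z'.2 i - z.2 i := rfl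
      rw [h2, h3] at this
      nlinarith [sq_nonneg (z'.1 i - z.1 i)]) hr
  rw [Prod.dist_eq, max_le_iff, dist_pi_le_iff hr, dist_pi_le_iff hr]
  exact ⟨h1, h2⟩

end Ov

open Pool.Agent.KRFF.Ov

section Mod

variable {n m : ℕ} {M Y W : Type} [TopologicalSpace M] [CompactSpace M] [T2Space M]
  [TopologicalSpace Y] [T2Space Y] [TopologicalSpace W] [T2Space W] {κ P ι : Type}
  [Finite P] [Fintype ι] {T : ℝ} (F : Mod n m M Y W κ P ι T)

omit [CompactSpace M] [T2Space M] [T2Space Y] [Finite P] [Fintype ι] in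
theorem Mod.overlap_one (c c' : ι) : ∃ δ > 0, ∀ w,
    w ∈ (F.a c).source → w ∈ (F.a c').source → F.a c w ∈ cpd (3 / 2) →
    F.a c' w ∈ cpd (3 / 2) → ∀ x, ∀ r, 0 ≤ r → r < δ → x - F.a c w ∈ cpd (k := n) r →
    (F.a c).symm x ∈ (F.a c').source ∧ F.a c' ((F.a c).symm x) ∈ cpd 2 := by
  have h32 : (0 : ℝ) ≤ 3 / 2 := by norm_num
  have hsub10 : (cpd (3 / 2) : Set (Cn n)) ⊆ opd 10 := cpd_subset_opd h32 (by norm_num)
  have hcomp : ∀ c : ι, IsCompact ((F.a c).symm '' (cpd (3 / 2) : Set (Cn n))) := by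
    intro c
    refine (isCompact_cpd _).image_of_continuousOn ((F.a c).continuousOn_symm.mono ?_)
    rw [F.model.target c]
    exact hsub10
  have hsrc : ∀ c : ι, (F.a c).symm '' (cpd (3 / 2) : Set (Cn n)) ⊆ (F.a c).source := by
    rintro c _ ⟨z, hz, rfl⟩
    refine (F.a c).map_target ?_
    rw [F.model.target c]
    exact hsub10 hz
  have hK := (hcomp c).inter (hcomp c')
  have hZ : IsCompact (F.a c '' ((F.a c).symm '' (cpd (3 / 2) : Set (Cn n)) ∩
      (F.a c').symm '' (cpd (3 / 2) : Set (Cn n)))) :=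
    hK.image_of_continuousOn ((F.a c).continuousOn.mono (inter_subset_left.trans (hsrc c)))
  set O : Set (Cn n) := (F.a c).target ∩ (F.a c).symm ⁻¹'
    ((F.a c').source ∩ F.a c' ⁻¹' opd 2) with hO
  have hOo : IsOpen O := (F.a c).isOpen_inter_preimage_symm
    ((F.a c').isOpen_inter_preimage (isOpen_opd 2))
  have hsub : F.a c '' ((F.a c).symm '' (cpd (3 / 2) : Set (Cn n)) ∩
      (F.a c').symm '' (cpd (3 / 2) : Set (Cn n))) ⊆ O := by
    rintro _ ⟨w, ⟨hw, hw'⟩, rfl⟩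
    have h1 := hsrc c hw
    have h2 := hsrc c' hw'
    refine ⟨(F.a c).map_source h1, ?_⟩
    rw [mem_preimage, (F.a c).left_inv h1]
    refine ⟨h2, ?_⟩
    obtain ⟨z, hz, rfl⟩ := hw'
    have hzt : z ∈ (F.a c').target := by
      rw [F.model.target c']
      exact hsub10 hz
    rw [mem_preimage, (F.a c').right_inv hzt]
    exact cpd_subset_opd h32 (by norm_num) hz
  obtain ⟨δ, hδ, hδs⟩ := hZ.exists_thickening_subset_open hOo hsub
  refine ⟨δ, hδ, fun w hw hw' h1 h1' x r hr0 hr hx => ?_⟩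
  have h3 : F.a c w ∈ F.a c '' ((F.a c).symm '' (cpd (3 / 2) : Set (Cn n)) ∩
      (F.a c').symm '' (cpd (3 / 2) : Set (Cn n))) :=
    ⟨w, ⟨⟨F.a c w, h1, (F.a c).left_inv hw⟩, ⟨F.a c' w, h1', (F.a c').left_inv hw'⟩⟩, rfl⟩
  have h4 : x ∈ Metric.thickening δ (F.a c '' ((F.a c).symm '' (cpd (3 / 2) : Set (Cn n)) ∩
      (F.a c').symm '' (cpd (3 / 2) : Set (Cn n)))) :=
    Metric.mem_thickening_iff.2 ⟨F.a c w, h3, (Ov.dist_le_of_cpd hr0 hx).trans_lt hr⟩
  obtain ⟨-, h6, h7⟩ := hδs h4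
  exact ⟨h6, fun i => (h7 i).le⟩

omit [CompactSpace M] [T2Space M] [T2Space Y] [Finite P] in
/-- the radius of the overlaps -/
theorem Mod.overlap : ∃ r : ℝ, 0 < r ∧ ∀ c c' : ι, ∀ w,
    w ∈ (F.a c).source → w ∈ (F.a c').source → F.a c w ∈ cpd (3 / 2) →
    F.a c' w ∈ cpd (3 / 2) → ∀ x, x - F.a c w ∈ cpd (k := n) r →
    (F.a c).symm x ∈ (F.a c').source ∧ F.a c' ((F.a c).symm x) ∈ cpd 2 := by
  choose δ hδ h using fun q : ι × ι => F.overlap_one q.1 q.2
  have hev : ∀ᶠ r in 𝓝[>] (0 : ℝ), (∀ q, r < δ q) ∧ 0 < r := by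
    refine Filter.Eventually.and ?_ self_mem_nhdsWithin
    rw [eventually_all]
    intro q
    exact (eventually_lt_nhds (hδ q)).filter_mono nhdsWithin_le_nhds
  obtain ⟨r, hr, hr0⟩ := hev.exists
  exact ⟨r, hr0, fun c c' w h1 h2 h3 h4 x hx => h (c, c') w h1 h2 h3 h4 x r hr0.le (hr (c, c')) hx⟩

end Mod

end Pool.Agent.KRFG

end

section

/-!
# The maximum over the fibres is continuous
-/

open scoped ContDiff ENNReal ComplexOrder Topology
open Set Filter Pool.Agent.ToricKRF Pool.Agent.ToricKRF.G Pool.Agent.KRFS Pool.Agent.KRFF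

namespace Pool.Agent.KRFG

namespace Sup

/-- `ζ ↦ (s ∏ (x_l + ζ))^N` is open at `0` -/
theorem one_open {n : ℕ} (R : Finset (Fin n)) (hR : R.Nonempty) {s : ℂ} (hs : s ≠ 0) {N : ℕ}
    (hN : 0 < N) (x : Fin n → ℂ) :
    𝓝 ((s * ∏ l ∈ R, x l) ^ N) ≤ map (fun ζ : ℂ => (s * ∏ l ∈ R, (x l + ζ)) ^ N) (𝓝 0) := by
  set p : Polynomial ℂ :=
    (Polynomial.C s * ∏ l ∈ R, (Polynomial.X + Polynomial.C (x l))) ^ N with hp
  have hev : ∀ ζ, p.eval ζ = (s * ∏ l ∈ R, (x l + ζ)) ^ N := by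
    intro ζ
    rw [hp, Polynomial.eval_pow, Polynomial.eval_mul, Polynomial.eval_C, Polynomial.eval_prod]
    congr 2
    refine Finset.prod_congr rfl fun l _ => ?_
    rw [Polynomial.eval_add, Polynomial.eval_X, Polynomial.eval_C, add_comm]
  have hdeg : p.natDegree = N * R.card := by
    rw [hp, Polynomial.natDegree_pow, Polynomial.natDegree_C_mul hs,
      Polynomial.natDegree_prod_of_monic _ _ fun l _ => Polynomial.monic_X_add_C _]
    simp
  have han : AnalyticAt ℂ (fun ζ => p.eval ζ) 0 := by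
    have h1 : Differentiable ℂ (fun ζ => p.eval ζ) := p.differentiable
    exact h1.analyticAt 0
  rcases han.eventually_constant_or_nhds_le_map_nhds_aux with h | h
  · exfalso
    have h1 : {ζ : ℂ | p.eval ζ = p.eval 0}.Infinite := by
      have h2 : {ζ : ℂ | p.eval ζ = p.eval 0} ∈ 𝓝 (0 : ℂ) := h
      exact infinite_of_mem_nhds _ h2
    have h3 : p = Polynomial.C (p.eval 0) := by
      refine Polynomial.eq_of_infinite_eval_eq _ _ ?_
      simpa only [Polynomial.eval_C] using h1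
    have h4 : p.natDegree = 0 := by
      rw [h3]
      exact Polynomial.natDegree_C _
    rw [hdeg] at h4
    have h5 : 0 < N * R.card := Nat.mul_pos hN (Finset.card_pos.2 hR)
    omega
  · simp only [hev, add_zero] at h
    exact h

variable {n m : ℕ} (row : Fin n → Option (Fin m))

/-- move the coordinates of the row `i` by `ζ i` -/
noncomputable def shift (x : Cn n) (ζ : Fin m → ℂ) : Cn n :=
  ofC fun l => cc x l + ((row l).elim 0 ζ)

theorem cc_ofC {n : ℕ} (z : Fin n → ℂ) (l : Fin n) : cc (ofC z) l = z l := rfl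

theorem ofC_cc {n : ℕ} (x : Cn n) : ofC (cc x) = x := rfl

theorem shift_zero (x : Cn n) : shift row x 0 = x := by
  have h : (fun l => cc x l + ((row l).elim 0 (0 : Fin m → ℂ))) = cc x := by
    funext l
    cases row l <;> simp
  unfold shift
  rw [h, ofC_cc]

theorem continuous_ofC {n : ℕ} : Continuous (ofC : (Fin n → ℂ) → Cn n) := by
  unfold ofC
  fun_prop

theorem shift_continuous (x : Cn n) : Continuous (shift row x) := by
  refine continuous_ofC.comp (continuous_pi fun l => ?_)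
  refine continuous_const.add ?_
  cases row l with
  | none => exact continuous_const
  | some i => exact continuous_apply i

theorem prow_shift (x : Cn n) (ζ : Fin m → ℂ) (i : Fin m) :
    prow row i (shift row x ζ) =
      ∏ l ∈ Finset.univ.filter (fun l => row l = some i), (cc x l + ζ i) := by
  unfold prow
  rw [Finset.prod_filter]
  refine Finset.prod_congr rfl fun l _ => ?_
  by_cases h : row l = some i
  · simp [h, shift, cc_ofC]
  · simp [h]

/-- the map `x ↦ (s_i ∏ x_l)^N_i` is open -/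
theorem prow_open (hrow : ∀ i, ∃ l, row l = some i) {s : Fin m → ℂ} (hs : ∀ i, s i ≠ 0)
    {N : Fin m → ℕ} (hN : ∀ i, 0 < N i) (x : Cn n) :
    𝓝 (ofC fun i => (s i * prow row i x) ^ N i) ≤
      map (fun x => ofC fun i => (s i * prow row i x) ^ N i) (𝓝 x) := by
  set R : Fin m → Finset (Fin n) := fun i => Finset.univ.filter (fun l => row l = some i) with hR
  have h1 : ∀ i, 𝓝 ((s i * prow row i x) ^ N i) ≤
      map (fun ζ : ℂ => (s i * ∏ l ∈ R i, (cc x l + ζ)) ^ N i) (𝓝 0) := by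
    intro i
    have h2 : prow row i x = ∏ l ∈ R i, cc x l := by
      have h3 := prow_shift row x 0 i
      rw [shift_zero] at h3
      simpa using h3
    rw [h2]
    refine one_open (R i) ?_ (hs i) (hN i) _
    obtain ⟨l, hl⟩ := hrow i
    exact ⟨l, by simp [hR, hl]⟩
  intro U hU
  have h3 : {ζ : Fin m → ℂ | (ofC fun i => (s i * ∏ l ∈ R i, (cc x l + ζ i)) ^ N i) ∈ U} ∈
      𝓝 (0 : Fin m → ℂ) := by
    have h4 := (shift_continuous row x).continuousAt (x := 0)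
    rw [ContinuousAt, shift_zero] at h4
    have h5 := h4 hU
    rw [mem_map] at h5
    filter_upwards [h5] with ζ hζ
    have h6 : (ofC fun i => (s i * prow row i (shift row x ζ)) ^ N i) ∈ U := hζ
    simpa only [prow_shift] using h6
  rw [nhds_pi, Filter.mem_pi] at h3
  obtain ⟨I, hI, t, ht, hsub⟩ := h3
  have h4 : (univ : Set (Fin m)).pi
      (fun i => (fun ζ : ℂ => (s i * ∏ l ∈ R i, (cc x l + ζ)) ^ N i) '' t i) ∈
      𝓝 (fun i => (s i * prow row i x) ^ N i) :=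
    set_pi_mem_nhds finite_univ fun i _ => h1 i (image_mem_map (ht i))
  have h5 : Continuous fun y : Cn m => cc y := by
    have h6 : (fun y : Cn m => cc y) = fun y l => ((y.1 l : ℂ) + (y.2 l : ℂ) * Complex.I) := by
      funext y l
      apply Complex.ext <;> simp [cc]
    rw [h6]
    fun_prop
  have h6 := h5.continuousAt (x := ofC fun i => (s i * prow row i x) ^ N i)
  have h7 : {y : Cn m | cc y ∈ (univ : Set (Fin m)).pi
      (fun i => (fun ζ : ℂ => (s i * ∏ l ∈ R i, (cc x l + ζ)) ^ N i) '' t i)} ∈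
      𝓝 (ofC fun i => (s i * prow row i x) ^ N i) := h6 h4
  filter_upwards [h7] with y hy
  choose ζ hζt hζ using fun i => hy i (mem_univ i)
  have h8 := hsub (a := ζ) (fun i _ => hζt i)
  have h9 : (ofC fun i => (s i * ∏ l ∈ R i, (cc x l + ζ i)) ^ N i) = y := by
    have h10 : (fun i => (s i * ∏ l ∈ R i, (cc x l + ζ i)) ^ N i) = cc y := funext hζ
    rw [h10, ofC_cc]
  have h11 : (ofC fun i => (s i * ∏ l ∈ R i, (cc x l + ζ i)) ^ N i) ∈ U := h8
  rwa [h9] at h11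

end Sup

section

variable {n m : ℕ} {M Y W : Type} [TopologicalSpace M] [TopologicalSpace Y] [TopologicalSpace W]
  {κ P ι : Type} {T : ℝ} (F : Mod n m M Y W κ P ι T)

/-- lifting of a point of `M` to the core of a chart of `W` -/
theorem Mod.lift_core (p : M) {j : P} (hj : F.f p ∈ (F.b j).source)
    (h25 : nsq (F.b j (F.f p)) ≤ 25) :
    ∃ w c, F.lab w = j ∧ F.π w = p ∧ w ∈ (F.a c).source ∧ F.a c w ∈ cpd 1 ∧ F.pc c = j := by
  choose t ht using fun i => IsAlgClosed.exists_pow_nat_eq (cc (F.b j (F.f p)) i)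
    (F.model.N_pos j i)
  obtain ⟨w, hw1, hw2, hw3⟩ := F.model.onto j p hj h25 (ofC t) ht
  obtain ⟨c, hc1, hc2⟩ := F.model.cover w (by rw [hw1, hw3]; exact h25)
  exact ⟨w, c, hw1, hw3, hc1, hc2, by rw [← F.model.lab_eq c w hc1, hw1]⟩

/-- `π` in the charts of `W` is continuous -/
theorem Mod.pi_continuousOn (c : ι) : ContinuousOn (fun x => F.π ((F.a c).symm x)) (opd 10) := by
  have h1 : ContinuousOn (fun x => F.e (F.al c) (F.π ((F.a c).symm x))) (opd 10) :=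
    (F.model.holo c).1.continuousOn
  have h2 : ∀ x ∈ opd (k := n) 10, F.π ((F.a c).symm x) ∈ (F.e (F.al c)).source := fun x hx =>
    F.model.mem c _ ((F.a c).map_target (by rw [F.model.target c]; exact hx))
  have h3 := (F.e (F.al c)).continuousOn_symm.comp h1
    (fun x hx => (F.e (F.al c)).map_source (h2 x hx))
  exact h3.congr fun x hx => ((F.e (F.al c)).left_inv (h2 x hx)).symm

/-- the base coordinates of the points of a chart of `W` -/
theorem Mod.base_chart (c : ι) {x : Cn n} (hx : x ∈ opd 10) :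
    F.f (F.π ((F.a c).symm x)) ∈ (F.b (F.pc c)).source ∧
    F.b (F.pc c) (F.f (F.π ((F.a c).symm x))) =
      ofC fun i => ((F.s c i : ℂ) * prow (F.row c) i x) ^ F.N (F.pc c) i := by
  have hx' : x ∈ (F.a c).target := by rw [F.model.target c]; exact hx
  have hw := (F.a c).map_target hx'
  have h1 := F.model.base ((F.a c).symm x)
  rw [F.model.lab_eq c _ hw] at h1
  refine ⟨h1.1, ?_⟩
  have h2 : cc (F.b (F.pc c) (F.f (F.π ((F.a c).symm x)))) =
      fun i => ((F.s c i : ℂ) * prow (F.row c) i x) ^ F.N (F.pc c) i := by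
    funext i
    rw [h1.2 i, F.model.mono c _ hw i, (F.a c).right_inv hx']
  rw [← h2, Sup.ofC_cc]

theorem Mod.f_isOpenMap : IsOpenMap F.f := by
  rw [isOpenMap_iff_nhds_le]
  intro p
  obtain ⟨j, hj, hj1⟩ := F.hol.cover (F.f p)
  obtain ⟨w, c, hw1, hw2, hc1, hc2, hpc⟩ := F.lift_core p hj (by linarith)
  set x₀ := F.a c w with hx₀
  have hx₀t : x₀ ∈ opd (k := n) 10 := Ov.cpd_subset_opd (by norm_num) (by norm_num) hc2
  have hnh : opd (k := n) 10 ∈ 𝓝 x₀ := (Ov.isOpen_opd 10).mem_nhds hx₀t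
  have hw : (F.a c).symm x₀ = w := (F.a c).left_inv hc1
  have h1 : ContinuousAt (fun x => F.π ((F.a c).symm x)) x₀ :=
    (F.pi_continuousOn c).continuousAt hnh
  have h2 : map (fun x => F.π ((F.a c).symm x)) (𝓝 x₀) ≤ 𝓝 p := by
    have h3 := h1
    rw [ContinuousAt, hw, hw2] at h3
    exact h3
  set G : Cn n → Cn m := fun x => ofC fun i => ((F.s c i : ℂ) * prow (F.row c) i x) ^
    F.N (F.pc c) i with hG
  have h3 : F.f ∘ (fun x => F.π ((F.a c).symm x)) =ᶠ[𝓝 x₀] (F.b (F.pc c)).symm ∘ G := by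
    filter_upwards [hnh] with x hx
    obtain ⟨h4, h5⟩ := F.base_chart c hx
    rw [Function.comp_apply, Function.comp_apply, hG]
    simp only
    rw [← h5, (F.b (F.pc c)).left_inv h4]
  have h4 : F.b (F.pc c) (F.f p) = G x₀ := by
    have h5 := (F.base_chart c hx₀t).2
    rw [hw, hw2] at h5
    exact h5
  have hjs : F.f p ∈ (F.b (F.pc c)).source := by rw [hpc]; exact hj
  have h5 : 𝓝 (G x₀) ≤ map G (𝓝 x₀) :=
    Sup.prow_open (F.row c) (F.model.row_ne c)
      (fun i => Complex.ofReal_ne_zero.2 (F.model.s_pos c i).ne') (F.model.N_pos (F.pc c)) x₀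
  calc 𝓝 (F.f p) = map (F.b (F.pc c)).symm (𝓝 (F.b (F.pc c) (F.f p))) :=
        ((F.b (F.pc c)).symm_map_nhds_eq hjs).symm
    _ = map (F.b (F.pc c)).symm (𝓝 (G x₀)) := by rw [h4]
    _ ≤ map (F.b (F.pc c)).symm (map G (𝓝 x₀)) := map_mono h5
    _ = map ((F.b (F.pc c)).symm ∘ G) (𝓝 x₀) := map_map
    _ = map (F.f ∘ (fun x => F.π ((F.a c).symm x))) (𝓝 x₀) := map_congr h3.symm
    _ = map F.f (map (fun x => F.π ((F.a c).symm x)) (𝓝 x₀)) := map_map.symm
    _ ≤ map F.f (𝓝 p) := map_mono h2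

theorem Mod.Phi_continuous {t : ℝ} (ht : t ∈ Ico 0 T) : Continuous (F.Phi t) := by
  rw [← continuousOn_univ]
  exact ContinuousOn.comp (f := fun p : M => (t, p)) F.toFlow.Phi_continuousOn
    (by fun_prop) fun p _ => ⟨ht, mem_univ _⟩

end

section

variable {n m : ℕ} {M Y W : Type} [TopologicalSpace M] [CompactSpace M]
  [TopologicalSpace Y] [T2Space Y] [TopologicalSpace W] {κ P ι : Type} {T : ℝ}
  (F : Mod n m M Y W κ P ι T)

theorem Mod.Mx_spec {t : ℝ} (ht : t ∈ Ico 0 T) (y : Y) :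
    (∃ p, F.f p = y ∧ F.Phi t p = F.Mx t y) ∧ ∀ p, F.f p = y → F.Phi t p ≤ F.Mx t y := by
  have hc : IsCompact (F.f ⁻¹' {y}) := (isClosed_singleton.preimage F.hol.cont).isCompact
  have hne : (F.f ⁻¹' {y}).Nonempty := F.hol.surj y
  obtain ⟨p, hp, hp2⟩ := hc.exists_isMaxOn hne (F.Phi_continuous ht).continuousOn
  have hG : IsGreatest (F.Phi t '' (F.f ⁻¹' {y})) (F.Phi t p) :=
    ⟨mem_image_of_mem _ hp, by
      rintro _ ⟨q, hq, rfl⟩
      exact hp2 hq⟩
  have h1 : F.Mx t y = F.Phi t p := hG.csSup_eq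
  exact ⟨⟨p, hp, h1.symm⟩, fun q hq => by rw [h1]; exact hp2 hq⟩

theorem Mod.Mx_continuous {t : ℝ} (ht : t ∈ Ico 0 T) : Continuous (F.Mx t) := by
  rw [OrderTopology.continuous_iff]
  intro a
  constructor
  · have h1 : F.Mx t ⁻¹' Ioi a = F.f '' (F.Phi t ⁻¹' Ioi a) := by
      ext y
      constructor
      · intro hy
        obtain ⟨p, hp, hp2⟩ := (F.Mx_spec ht y).1
        exact ⟨p, by rw [mem_preimage, hp2]; exact hy, hp⟩
      · rintro ⟨p, hp, rfl⟩
        exact lt_of_lt_of_le hp ((F.Mx_spec ht (F.f p)).2 p rfl)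
    rw [h1]
    exact F.f_isOpenMap _ (isOpen_Ioi.preimage (F.Phi_continuous ht))
  · have h1 : F.Mx t ⁻¹' Iio a = (F.f '' (F.Phi t ⁻¹' Ici a))ᶜ := by
      ext y
      constructor
      · rintro hy ⟨p, hp, rfl⟩
        exact absurd (lt_of_le_of_lt ((F.Mx_spec ht (F.f p)).2 p rfl) hy) (not_lt.2 hp)
      · intro hy
        by_contra hn
        obtain ⟨p, hp, hp2⟩ := (F.Mx_spec ht y).1
        have hn' : a ≤ F.Mx t y := not_lt.1 hn
        exact hy ⟨p, by rw [mem_preimage, hp2]; exact hn', hp⟩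
    rw [h1]
    exact (((isClosed_Ici.preimage (F.Phi_continuous ht)).isCompact.image
      F.hol.cont).isClosed).isOpen_compl

end

end Pool.Agent.KRFG

end
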