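import Pool.Agent.Work.MP_a2bf38_gt.Fu.I.DetLin
import Pool.Agent.Work.MP_a2bf38_gt.Fu.I.FibBasic
import Pool.Agent.Work.MP_a2bf38_gt.Fu.K.Mollify
import Pool.Agent.Work.MP_a2bf38_gt.Fu.I.Overlap
import Pool.Agent.Work.MP_a2bf38_gt.Fu.I.GapB

section

/-!
# The contact set estimate on a ball, for a function whose Levi form is below a metric
-/

open scoped ContDiff ENNReal ComplexOrder Pointwise
open Set Filter Topology MeasureTheory Matrix Pool.Agent.ToricKRF Pool.Agent.ToricKRF.G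
  Pool.Agent.KRFS Pool.Agent.KRFS.ABP

namespace Pool.Agent.KRFF

variable {n : ℕ}

theorem continuous_nsq_sub (z₀ : Cn n) : Continuous fun z : Cn n => nsq (z - z₀) :=
  continuous_nsq.comp (continuous_id.sub continuous_const)

theorem isCompact_nsq_sub (z₀ : Cn n) {r : ℝ} (hr : 0 < r) :
    IsCompact {z : Cn n | nsq (z - z₀) ≤ r ^ 2} := by
  have h1 : {z : Cn n | nsq (z - z₀) ≤ r ^ 2} =
      (fun x : Cn n => z₀ + r • x) '' {x : Cn n | nsq x ≤ 1} := by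
    ext z
    simp only [mem_image, mem_ofPred_eq]
    constructor
    · intro h
      refine ⟨r⁻¹ • (z - z₀), ?_, ?_⟩
      · rw [nsq_smul, inv_pow, inv_mul_le_iff₀ (by positivity), mul_one]
        exact h
      · rw [smul_inv_smul₀ hr.ne']
        abel
    · rintro ⟨x, hx, rfl⟩
      have : z₀ + r • x - z₀ = r • x := by abel
      rw [this, nsq_smul]
      nlinarith [sq_nonneg r]
  rw [h1]
  exact isCompact_nsq.image (by fun_prop)

/-- comparison of the determinants of a semidefinite and of a definite matrix -/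
theorem det_re_le_of_posSemidef {A B : Matrix (Fin n) (Fin n) ℂ} (hA : A.PosSemidef)
    (hB : B.PosDef) (h : ∀ x : Fin n → ℂ, (star x ⬝ᵥ A *ᵥ x).re ≤ (star x ⬝ᵥ B *ᵥ x).re) :
    A.det.re ≤ B.det.re := by
  by_cases h0 : A.det = 0
  · rw [h0, Complex.zero_re]
    exact (Complex.pos_iff.1 hB.det_pos).1.le
  · have hA' : A.PosDef := hA.posDef_iff_det_ne_zero.2 h0
    have := Bd.det_re_le hA' hB (C := 1) fun x => by
      rw [one_mul]
      exact h x
    simpa using this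

section

variable {v : Cn n → ℝ} {V : Set (Cn n)} {z₀ : Cn n} {r ε : ℝ}

/-- the contact set -/
def cset (v : Cn n → ℝ) (z₀ : Cn n) (r b : ℝ) : Set (Cn n) :=
  {z | nsq (z - z₀) < r ^ 2 ∧ v z ≤ b ∧ ∀ u, 0 ≤ D u (D u v) z}

theorem exists_cset (hV : IsOpen V) (hv : ContDiffOn ℝ ∞ v V) (hr : 0 < r) (hε : 0 < ε)
    (hsub : {z : Cn n | nsq (z - z₀) ≤ r ^ 2} ⊆ V)
    (hb : ∀ z, nsq (z - z₀) = r ^ 2 → v z₀ + ε ≤ v z)
    {p : Cn n} (hp : nsq p < (ε / (2 * r)) ^ 2) :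
    ∃ z ∈ cset v z₀ r (v z₀ + ε), grad v z = p := by
  set w : Cn n → ℝ := fun z => v z - ip p z with hw
  have hcw : ContDiffOn ℝ ∞ w V := hv.sub (contDiff_ip p).contDiffOn
  have hz₀ : z₀ ∈ {z : Cn n | nsq (z - z₀) ≤ r ^ 2} := by
    have : nsq (0 : Cn n) = 0 := by simp [nsq]
    simp only [mem_ofPred_eq, sub_self, this]
    positivity
  obtain ⟨z, hz, hmin⟩ := (isCompact_nsq_sub z₀ hr).exists_isMinOn ⟨z₀, hz₀⟩
    (hcw.continuousOn.mono hsub)
  have hip : ip p z - ip p z₀ = ip p (z - z₀) := by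
    simp only [ip, Prod.fst_sub, Prod.snd_sub, dotProduct_sub]
    ring
  have h1 : v z - ip p (z - z₀) ≤ v z₀ := by
    have := hmin hz₀
    have e : w z ≤ w z₀ := this
    simp only [hw] at e
    linarith
  have habs : ip p (z - z₀) < ε / 2 := by
    have h2 := ip_sq_le p (z - z₀)
    have h3 : 0 ≤ nsq p := by
      unfold nsq
      exact add_nonneg (Finset.sum_nonneg fun i _ => mul_self_nonneg _)
        (Finset.sum_nonneg fun i _ => mul_self_nonneg _)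
    have h4 : nsq p * nsq (z - z₀) ≤ nsq p * r ^ 2 := mul_le_mul_of_nonneg_left hz h3
    have h5 : nsq p * r ^ 2 < (ε / (2 * r)) ^ 2 * r ^ 2 := by gcongr
    have h6 : (ε / (2 * r)) ^ 2 * r ^ 2 = (ε / 2) ^ 2 := by
      field_simp
    have h7 : ip p (z - z₀) ^ 2 < (ε / 2) ^ 2 := by
      rw [← h6]
      exact (h2.trans h4).trans_lt h5
    exact lt_of_pow_lt_pow_left₀ 2 (by positivity) h7
  have hlt : nsq (z - z₀) < r ^ 2 := by
    rcases (show nsq (z - z₀) ≤ r ^ 2 from hz).lt_or_eq with h | h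
    · exact h
    · exfalso
      have h2 := hb z h
      linarith
  have hva : v z ≤ v z₀ + ε := by linarith
  have hzS : z ∈ V := hsub hz
  have hloc : IsLocalMin w z := by
    have hop : IsOpen {z : Cn n | nsq (z - z₀) < r ^ 2} :=
      isOpen_lt (continuous_nsq_sub z₀) continuous_const
    filter_upwards [hop.mem_nhds hlt] with y hy
    exact hmin (le_of_lt hy)
  have hgrad : grad v z = p := by
    apply ip_left_injective
    intro u
    rw [← D_eq_ip]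
    have h2 : D u w z = 0 := by
      unfold D
      rw [hloc.fderiv_eq_zero]
      rfl
    rw [hw, D_sub (diffAt_of_contDiffOn hV hv hzS)
      ((contDiff_ip p).differentiable (by simp)).differentiableAt, D_ip] at h2
    linarith
  refine ⟨z, ⟨hlt, hva, fun u => ?_⟩, hgrad⟩
  have hcd : ContDiffAt ℝ 2 w z :=
    (hcw.contDiffAt (hV.mem_nhds hzS)).of_le (WithTop.coe_le_coe.2 le_top)
  obtain ⟨h2, h3, h4⟩ := line_facts u hcd
  have h5 : IsLocalMax (fun s : ℝ => -w (z + s • u)) 0 := by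
    have hct : Tendsto (fun s : ℝ => z + s • u) (𝓝 0) (𝓝 z) := by
      have : Continuous fun s : ℝ => z + s • u := by fun_prop
      simpa using this.tendsto 0
    have := hct.eventually hloc
    filter_upwards [this] with s hs
    simpa using hs
  have h6 := deriv_deriv_nonpos_of_isLocalMax h2.neg h5
  have h7 : deriv (deriv fun s : ℝ => -w (z + s • u)) 0 =
      -deriv (deriv fun s : ℝ => w (z + s • u)) 0 := by
    have : (deriv fun s : ℝ => -w (z + s • u)) = fun s => -deriv (fun s : ℝ => w (z + s • u)) s := by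
      funext s
      exact deriv.fun_neg
    rw [this, deriv.fun_neg]
  rw [h7, h4] at h6
  have h8 : D u (D u w) z = D u (D u v) z := by
    have h9 : EqOn (D u w) (fun q => D u v q - ip p u) V := by
      intro q hq
      rw [hw, D_sub (diffAt_of_contDiffOn hV hv hq)
        ((contDiff_ip p).differentiable (by simp)).differentiableAt, D_ip]
    rw [D_congr hV h9 u hzS, D_sub (diffAt_of_contDiffOn hV (contDiffOn_D hV hv u) hzS)
      (differentiableAt_const _), D_const, sub_zero]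
  rw [← h8]
  have h10 : D u (D u w) z = fderiv ℝ (fun q => fderiv ℝ w q u) z u := rfl
  rw [h10]
  linarith

theorem measurableSet_cset (hV : IsOpen V) (hv : ContDiffOn ℝ ∞ v V)
    (hsub : {z : Cn n | nsq (z - z₀) ≤ r ^ 2} ⊆ V) (b : ℝ) : MeasurableSet (cset v z₀ r b) := by
  have hc := continuous_nsq_sub z₀
  have hK : IsClosed {z : Cn n | nsq (z - z₀) ≤ r ^ 2} := isClosed_le hc continuous_const
  have h1 : IsClosed ({z : Cn n | nsq (z - z₀) ≤ r ^ 2} ∩ v ⁻¹' Iic b) :=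
    (hv.continuousOn.mono hsub).preimage_isClosed_of_isClosed hK isClosed_Iic
  have h2 : ∀ u : Cn n, IsClosed ({z : Cn n | nsq (z - z₀) ≤ r ^ 2} ∩ (D u (D u v)) ⁻¹' Ici 0) :=
    fun u => ((contDiffOn_D hV (contDiffOn_D hV hv u) u).continuousOn.mono
      hsub).preimage_isClosed_of_isClosed hK isClosed_Ici
  have h3 : cset v z₀ r b = ({z : Cn n | nsq (z - z₀) < r ^ 2} ∩
      ({z : Cn n | nsq (z - z₀) ≤ r ^ 2} ∩ v ⁻¹' Iic b)) ∩
      ⋂ u : Cn n, ({z : Cn n | nsq (z - z₀) ≤ r ^ 2} ∩ (D u (D u v)) ⁻¹' Ici 0) := by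
    ext z
    simp only [cset, mem_ofPred_eq, mem_inter_iff, mem_preimage, mem_Iic, mem_iInter, mem_Ici]
    constructor
    · rintro ⟨h, h', h''⟩
      exact ⟨⟨h, h.le, h'⟩, fun u => ⟨h.le, h'' u⟩⟩
    · rintro ⟨⟨h, -, h'⟩, h''⟩
      exact ⟨h, h', fun u => (h'' u).2⟩
  rw [h3]
  exact ((isOpen_lt hc continuous_const).measurableSet.inter h1.measurableSet).inter
    (isClosed_iInter h2).measurableSet

theorem posSemidef_cHess_snd (hV : IsOpen V) (hv : ContDiffOn ℝ ∞ v V) {z : Cn n} (hz : z ∈ V)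
    (h : ∀ u, 0 ≤ D u (D u v) z) :
    (cHess (fun q : ℝ × Cn n => v q.2) (0, z)).PosSemidef := by
  have hU : IsOpen (Prod.snd ⁻¹' V : Set (ℝ × Cn n)) := hV.preimage continuous_snd
  have hU' := contDiffOn_snd hv
  have hzU : ((0 : ℝ), z) ∈ (Prod.snd ⁻¹' V : Set (ℝ × Cn n)) := hz
  refine Matrix.PosSemidef.of_dotProduct_mulVec_nonneg (cHess_herm hU hU' hzU) fun x => ?_
  rw [Complex.nonneg_iff]
  constructor
  · rw [← Bd.lev_eq_form hU hU' hzU]
    have h2 : ∀ u : Cn n, 0 ≤ lev (fun q : ℝ × Cn n => v q.2) u (0, z) := by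
      intro u
      unfold lev
      rw [D_D_snd hV hv hz, D_D_snd hV hv hz]
      have e1 := h u
      have e2 := h (J u)
      positivity
    exact h2 _
  · exact ((cHess_herm hU hU' hzU).im_star_dotProduct_mulVec_self x).symm

theorem lev_snd (hV : IsOpen V) (hv : ContDiffOn ℝ ∞ v V) {z : Cn n} (hz : z ∈ V) (u : Cn n) :
    lev (fun q : ℝ × Cn n => v q.2) u (0, z) = levz v u z := by
  unfold lev levz
  rw [D_D_snd hV hv hz, D_D_snd hV hv hz]

theorem abs_det_le_cset (hV : IsOpen V) (hv : ContDiffOn ℝ ∞ v V)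
    {f : ℝ × Cn n → ℝ} {t D₁ : ℝ} {U : Set (ℝ × Cn n)} (hU : IsOpen U)
    (hf : ContDiffOn ℝ ∞ f U) {z : Cn n} (hzV : z ∈ V) (hzU : (t, z) ∈ U)
    (hpos : (cHess f (t, z)).PosDef) (hD : (cHess f (t, z)).det.re ≤ D₁)
    (hlev : ∀ u, levz v u z ≤ lev f u (t, z)) (hc : ∀ u, 0 ≤ D u (D u v) z) :
    |(fderiv ℝ (grad v) z).det| ≤ 16 ^ n * D₁ ^ 2 := by
  have hps := hess_posSemidef hV hv hzV hc
  rw [det_fderiv_grad hV hv hzV, abs_of_nonneg hps.det_nonneg]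
  have h1 := det_hess_le hps
  have hU2 : IsOpen (Prod.snd ⁻¹' V : Set (ℝ × Cn n)) := hV.preimage continuous_snd
  have hU' := contDiffOn_snd hv
  have hzU' : ((0 : ℝ), z) ∈ (Prod.snd ⁻¹' V : Set (ℝ × Cn n)) := hzV
  set C := cHess (fun q : ℝ × Cn n => v q.2) (0, z) with hC
  have hCpos : C.PosSemidef := posSemidef_cHess_snd hV hv hzV hc
  have h3 : 0 ≤ C.det.re := (Complex.nonneg_iff.1 hCpos.det_nonneg).1
  have h4 : C.det.im = 0 := ((Complex.nonneg_iff.1 hCpos.det_nonneg).2).symm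
  have h7 : C.det.re ≤ D₁ := by
    refine (det_re_le_of_posSemidef hCpos hpos fun x => ?_).trans hD
    rw [← Bd.lev_eq_form hU2 hU' hzU', ← Bd.lev_eq_form hU hf hzU, lev_snd hV hv hzV]
    exact hlev _
  have h5 : Complex.normSq C.det ≤ D₁ ^ 2 := by
    rw [Complex.normSq_apply, h4, mul_zero, add_zero]
    nlinarith
  have h6 : (Matrix.of fun i j : Fin n =>
      (⟨(hess v z (Sum.inl i) (Sum.inl j) + hess v z (Sum.inr i) (Sum.inr j)) / 4,
        (hess v z (Sum.inl i) (Sum.inr j) - hess v z (Sum.inr i) (Sum.inl j)) / 4⟩ : ℂ)) = C :=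
    (cHess_snd hV hv hzV).symm
  calc (hess v z).det ≤ 16 ^ n * Complex.normSq C.det := by
        rw [← h6]
        exact h1
    _ ≤ 16 ^ n * D₁ ^ 2 := by gcongr

end

/-- **The contact set estimate.** -/
theorem abp (n : ℕ) : ∃ C : ℝ, 0 < C ∧ ∀ (v : Cn n → ℝ) (f : ℝ × Cn n → ℝ) (t : ℝ)
    (V : Set (Cn n)) (U : Set (ℝ × Cn n)) (z₀ : Cn n) (r ε D₁ : ℝ),
    IsOpen V → ContDiffOn ℝ ∞ v V → IsOpen U → ContDiffOn ℝ ∞ f U → 0 < r → 0 < ε →
    {z | nsq (z - z₀) ≤ r ^ 2} ⊆ V →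
    (∀ z, nsq (z - z₀) ≤ r ^ 2 → (t, z) ∈ U ∧ (cHess f (t, z)).PosDef ∧
      (cHess f (t, z)).det.re ≤ D₁ ∧ ∀ u, levz v u z ≤ lev f u (t, z)) →
    (∀ z, nsq (z - z₀) = r ^ 2 → v z₀ + ε ≤ v z) →
    ENNReal.ofReal ((ε / r) ^ (2 * n)) ≤ ENNReal.ofReal (C * D₁ ^ 2) *
      volume {z | nsq (z - z₀) ≤ r ^ 2 ∧ v z ≤ v z₀ + ε} := by
  set V₀ := volume {p : Cn n | nsq p < 1} with hV₀
  have hV₀t : V₀ ≠ ⊤ := volume_ball_ne_top
  have hV₀p : 0 < V₀.toReal := ENNReal.toReal_pos (volume_ball_pos (k := n)).ne' hV₀t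
  refine ⟨2 ^ (2 * n) * 16 ^ n / V₀.toReal, by positivity, ?_⟩
  intro v f t V U z₀ r ε D₁ hV hv hU hf hr hε hsub h hb
  have h1 : {p : Cn n | nsq p < (ε / (2 * r)) ^ 2} ⊆ grad v '' cset v z₀ r (v z₀ + ε) := by
    intro p hp
    obtain ⟨z, hz, rfl⟩ := exists_cset hV hv hr hε hsub hb hp
    exact ⟨z, hz, rfl⟩
  have hms := measurableSet_cset hV hv hsub (v z₀ + ε)
  have h2 : volume (grad v '' cset v z₀ r (v z₀ + ε)) ≤
      ∫⁻ z in cset v z₀ r (v z₀ + ε), ENNReal.ofReal |(fderiv ℝ (grad v) z).det| := by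
    have := haar_Cn n
    refine addHaar_image_le_lintegral_abs_det_fderiv volume hms fun z hz => ?_
    have hzV : z ∈ V := hsub hz.1.le
    exact (((contDiffOn_grad hV hv).differentiableOn (by simp)).differentiableAt
      (hV.mem_nhds hzV)).hasFDerivAt.hasFDerivWithinAt
  have h3 : ∫⁻ z in cset v z₀ r (v z₀ + ε), ENNReal.ofReal |(fderiv ℝ (grad v) z).det| ≤
      ∫⁻ z in cset v z₀ r (v z₀ + ε), ENNReal.ofReal (16 ^ n * D₁ ^ 2) := by
    refine setLIntegral_mono' hms fun z hz => ENNReal.ofReal_le_ofReal ?_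
    obtain ⟨e1, e2, e3, e4⟩ := h z hz.1.le
    exact abs_det_le_cset hV hv hU hf (hsub hz.1.le) e1 e2 e3 e4 hz.2.2
  have h4 : cset v z₀ r (v z₀ + ε) ⊆ {z | nsq (z - z₀) ≤ r ^ 2 ∧ v z ≤ v z₀ + ε} :=
    fun z hz => ⟨hz.1.le, hz.2.1⟩
  have h6 : ENNReal.ofReal ((ε / (2 * r)) ^ (2 * n)) * V₀ ≤
      ENNReal.ofReal (16 ^ n * D₁ ^ 2) *
        volume {z | nsq (z - z₀) ≤ r ^ 2 ∧ v z ≤ v z₀ + ε} := by
    rw [← volume_ball (ε / (2 * r)) (by positivity)]
    refine (measure_mono h1).trans (h2.trans (h3.trans ?_))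
    rw [setLIntegral_const]
    gcongr
  have h7 : ENNReal.ofReal ((ε / r) ^ (2 * n)) =
      ENNReal.ofReal (2 ^ (2 * n) / V₀.toReal) * (ENNReal.ofReal ((ε / (2 * r)) ^ (2 * n)) * V₀) := by
    obtain ⟨W, hW⟩ : ∃ W, W = V₀.toReal := ⟨_, rfl⟩
    have hVW : V₀ = ENNReal.ofReal W := by
      rw [hW, ENNReal.ofReal_toReal hV₀t]
    rw [← hW] at hV₀p ⊢
    rw [hVW, ← ENNReal.ofReal_mul (by positivity), ← ENNReal.ofReal_mul (by positivity)]
    congr 1
    have : ε / (2 * r) = (ε / r) / 2 := by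
      field_simp
    rw [this, div_pow (ε / r) 2]
    field_simp
  calc ENNReal.ofReal ((ε / r) ^ (2 * n))
      = ENNReal.ofReal (2 ^ (2 * n) / V₀.toReal) *
          (ENNReal.ofReal ((ε / (2 * r)) ^ (2 * n)) * V₀) := h7
    _ ≤ ENNReal.ofReal (2 ^ (2 * n) / V₀.toReal) * (ENNReal.ofReal (16 ^ n * D₁ ^ 2) *
        volume {z | nsq (z - z₀) ≤ r ^ 2 ∧ v z ≤ v z₀ + ε}) := by gcongr
    _ = _ := by
        rw [← mul_assoc, ← ENNReal.ofReal_mul (by positivity)]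
        congr 2
        ring

end Pool.Agent.KRFF

end

section

/-!
# The drop estimate for fibrations with semistable models
-/

open scoped ContDiff ENNReal ComplexOrder Topology
open Set MeasureTheory Filter Pool.Agent.ToricKRF Pool.Agent.ToricKRF.G Pool.Agent.KRFS
  Pool.Agent.KRFF

namespace Pool.Agent.KRFG

section hB

variable {m : ℕ} {C₁ A ε : ℝ}

theorem isCompact_ball4 : IsCompact {y : Cn m | nsq y ≤ 16} := by
  have := isCompact_nsq_sub (n := m) 0 (r := 4) (by norm_num)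
  simp only [sub_zero] at this
  norm_num at this
  exact this

theorem continuous_nsq0 : Continuous fun y : Cn m => nsq y := by
  have := continuous_nsq_sub (n := m) 0
  simpa using this

theorem continuous_hB (hε : 0 < ε) : Continuous (hB (m := m) C₁ A ε) := by
  unfold hB
  refine (continuous_const.mul (continuous_finsetSum _ fun i _ => ?_)).sub
    (continuous_const.mul continuous_nsq0)
  exact (by fun_prop : Continuous fun y : Cn m => (y.1 i) ^ 2 + (y.2 i) ^ 2).rpow_const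
    fun _ => Or.inr hε.le

theorem hB_bound (C₁ A : ℝ) (hε : 0 < ε) : ∃ B : ℝ, 0 ≤ B ∧ ∀ y : Cn m, nsq y ≤ 16 →
    |hB (m := m) C₁ A ε y| ≤ B := by
  obtain ⟨B, hB'⟩ := (isCompact_ball4 (m := m)).exists_bound_of_continuousOn
    (continuous_hB (m := m) (C₁ := C₁) (A := A) hε).continuousOn
  refine ⟨max B 0, le_max_right _ _, fun y hy => (hB' y hy).trans (le_max_left _ _)⟩

end hB

section Mod

variable {n m : ℕ} {M Y W : Type} [TopologicalSpace M] [CompactSpace M] [T2Space M]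
  [TopologicalSpace Y] [T2Space Y] [TopologicalSpace W] [T2Space W] {κ P ι : Type}
  [Finite P] [Fintype ι] {T : ℝ} (F : Mod n m M Y W κ P ι T)

/-- the part of `M` over the closed ball of radius `4` of the chart `j` -/
def Mod.over (j : P) : Set M := {x | F.f x ∈ (F.b j).source ∧ nsq (F.b j (F.f x)) ≤ 16}

omit [T2Space M] [T2Space W] [Finite P] [Fintype ι] in
theorem Mod.isCompact_over (j : P) : IsCompact (F.over j) := by
  have h1 : {y : Cn m | nsq y ≤ 16} ⊆ (F.b j).target := fun y hy =>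
    F.hol.target j (show nsq y < 100 from lt_of_le_of_lt (show nsq y ≤ 16 from hy) (by norm_num))
  have h2 : IsCompact ((F.b j).symm '' {y : Cn m | nsq y ≤ 16}) :=
    isCompact_ball4.image_of_continuousOn ((F.b j).continuousOn_symm.mono h1)
  have h3 : F.over j = F.f ⁻¹' ((F.b j).symm '' {y : Cn m | nsq y ≤ 16}) := by
    ext x
    constructor
    · rintro ⟨hx, hx'⟩
      exact ⟨_, hx', (F.b j).left_inv hx⟩
    · rintro ⟨y, hy, hyx⟩
      refine ⟨?_, ?_⟩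
      · rw [← hyx]
        exact (F.b j).map_target (h1 hy)
      · rw [← hyx, (F.b j).right_inv (h1 hy)]
        exact hy
  rw [h3]
  exact (h2.isClosed.preimage F.hol.cont).isCompact

/-- **The minimum principle**: the function `φ(s) - G_j + barr` has its minimum over `j`, `x` and
`s ∈ [t₀, t]` at the time `t₀`. -/
theorem Mod.drop_step {C₁ : ℝ}
    (h1 : ∀ c, ∀ t ∈ Ico 0 T, ∀ z ∈ (F.e c).target,
      (∀ u, 1 / 2 * (1 - t / T) * lev (F.ψ c) u (0, z) ≤ lev (F.ψ c) u (t, z)) →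
      n * Real.log (1 - t / T) - C₁ ≤ F.dphi c (t, z))
    {t₀ t a d A : ℝ} {h : Cn m → ℝ} (ht₀ : t₀ ∈ Ico 0 T) (ht : t ∈ Ico t₀ T)
    (ha : 0 < a) (hd : 0 < d) (hc : Continuous h) (hA : ∀ y : Cn m, nsq y ≤ 1 → -A ≤ h y)
    (hA' : ∀ y : Cn m, 9 ≤ nsq y → nsq y ≤ 16 → h y < -A)
    (hG : ∀ j, PshC (fun y => a * (F.Mx t₀ ((F.b j).symm y) + d * h y) + t₀ / T * F.K j y)
      {y : Cn m | nsq y < 25}) {B : ℝ}
    (hB : ∀ j, ∀ x, F.f x ∈ (F.b j).source → nsq (F.b j (F.f x)) ≤ 16 →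
      B ≤ F.Phi t₀ x - a * (F.Mx t₀ (F.f x) + d * h (F.b j (F.f x)))) (j : P) (p : M)
    (hp : F.f p ∈ (F.b j).source) (hp' : nsq (F.b j (F.f p)) ≤ 16) :
    B ≤ F.Phi t p - a * (F.Mx t₀ (F.f p) + d * h (F.b j (F.f p))) + barr n T C₁ t₀ t := by
  have hT : 0 < T := ht₀.1.trans_lt ht₀.2
  have hsub : ∀ s ∈ Icc t₀ t, s ∈ Ico 0 T := fun s hs => ⟨ht₀.1.trans hs.1, hs.2.trans_lt ht.2⟩
  set G : P → Cn m → ℝ := fun j y => a * (F.Mx t₀ ((F.b j).symm y) + d * h y) with hGdef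
  set V : P → ℝ × M → ℝ := fun j q =>
    F.Phi q.1 q.2 - G j (F.b j (F.f q.2)) + barr n T C₁ t₀ q.1 with hV
  have hGV : ∀ j x, F.f x ∈ (F.b j).source →
      G j (F.b j (F.f x)) = a * (F.Mx t₀ (F.f x) + d * h (F.b j (F.f x))) := by
    intro j x hx
    simp only [hGdef]
    rw [(F.b j).left_inv hx]
  -- continuity
  have hVc : ∀ j, ContinuousOn (V j) (Icc t₀ t ×ˢ F.over j) := by
    intro j
    have e1 : ContinuousOn (fun q : ℝ × M => F.Phi q.1 q.2) (Icc t₀ t ×ˢ F.over j) :=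
      F.toFlow.Phi_continuousOn.mono fun q hq => ⟨hsub _ hq.1, mem_univ _⟩
    have e2 : ContinuousOn (fun q : ℝ × M => F.b j (F.f q.2)) (Icc t₀ t ×ˢ F.over j) :=
      (F.b j).continuousOn.comp (F.hol.cont.comp continuous_snd).continuousOn
        fun q hq => hq.2.1
    have e3 : ContinuousOn (fun q : ℝ × M => a * (F.Mx t₀ (F.f q.2) + d * h (F.b j (F.f q.2))))
        (Icc t₀ t ×ˢ F.over j) :=
      continuousOn_const.mul ((((F.Mx_continuous ht₀).comp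
        (F.hol.cont.comp continuous_snd)).continuousOn).add
          (continuousOn_const.mul (hc.comp_continuousOn e2)))
    have e4 : ContinuousOn (fun q : ℝ × M => barr n T C₁ t₀ q.1) (Icc t₀ t ×ˢ F.over j) := by
      have e5 : ContinuousOn (barr n T C₁ t₀) (Icc t₀ t) := fun s hs =>
        (hasDerivAt_barr n hT (hsub s hs).2).continuousAt.continuousWithinAt
      exact e5.comp continuousOn_fst fun q hq => hq.1
    refine ((e1.sub e3).add e4).congr fun q hq => ?_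
    simp only [hV]
    rw [hGV j q.2 hq.2.1]
    rfl
  -- reduction to `V`
  suffices hmain : ∀ j, ∀ q ∈ Icc t₀ t ×ˢ F.over j, B ≤ V j q by
    have h2 := hmain j (t, p) ⟨⟨ht.1, le_rfl⟩, hp, hp'⟩
    simp only [hV] at h2
    rwa [hGV j p hp] at h2
  -- the minimum over the time `t₀` and over all times
  have key : ∀ I : Set ℝ, IsCompact I → I ⊆ Icc t₀ t → t₀ ∈ I → ∃ j, ∃ q ∈ I ×ˢ F.over j,
      ∀ j', ∀ q' ∈ I ×ˢ F.over j', V j q ≤ V j' q' := by
    intro I hI hIs hI0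
    have : Nonempty (ℝ × M) := ⟨(t₀, p)⟩
    set S : Set P := {j | (F.over j).Nonempty} with hS
    have hSn : S.Nonempty := ⟨j, p, hp, hp'⟩
    have h3 : ∀ j ∈ S, ∃ q ∈ I ×ˢ F.over j, ∀ q' ∈ I ×ˢ F.over j, V j q ≤ V j q' := by
      intro j hj
      obtain ⟨x, hx⟩ := hj
      obtain ⟨q, hq, hq'⟩ := (hI.prod (F.isCompact_over j)).exists_isMinOn ⟨(t₀, x), hI0, hx⟩
        ((hVc j).mono (prod_mono hIs Subset.rfl))
      exact ⟨q, hq, fun q' h => hq' h⟩
    choose! w hw hw' using h3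
    obtain ⟨j, hj, hjm⟩ := S.exists_min_image (fun j => V j (w j)) (Set.toFinite S) hSn
    refine ⟨j, w j, hw j hj, fun j' q' hq' => ?_⟩
    have hj' : j' ∈ S := ⟨q'.2, hq'.2⟩
    exact (hjm j' hj').trans (hw' j' hj' q' hq')
  obtain ⟨j₁, ⟨s₀, x₀⟩, ⟨hs₀, hx₀⟩, hm⟩ := key (Icc t₀ t) isCompact_Icc Subset.rfl ⟨le_rfl, ht.1⟩
  obtain ⟨j₂, ⟨s₂, x₂⟩, ⟨hs₂, hx₂⟩, hm₀⟩ := key {t₀} isCompact_singleton
    (singleton_subset_iff.2 ⟨le_rfl, ht.1⟩) rfl
  have hs₂' : s₂ = t₀ := hs₂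
  subst hs₂'
  have hB₂ : B ≤ V j₂ (s₂, x₂) := by
    simp only [hV]
    rw [hGV j₂ x₂ hx₂.1, barr_self, add_zero]
    exact hB j₂ x₂ hx₂.1 hx₂.2
  intro j' q' hq'
  refine le_trans ?_ (hm j' q' hq')
  by_contra hlt
  rw [not_le] at hlt
  have hδ : 0 < V j₂ (s₂, x₂) - V j₁ (s₀, x₀) := by linarith
  have hs₀I : s₀ ∈ Icc s₂ t := hs₀
  -- the minimum is not at the time `t₀`
  have hs : s₂ < s₀ := by
    refine lt_of_le_of_ne hs₀I.1 fun h => ?_
    subst h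
    have := hm₀ j₁ (s₂, x₀) ⟨rfl, hx₀⟩
    linarith
  -- the minimum is over the interior of the ball
  have hx9 : nsq (F.b j₁ (F.f x₀)) < 9 := by
    by_contra h9
    rw [not_lt] at h9
    obtain ⟨j₃, hj₃, hj₃'⟩ := F.hol.cover (F.f x₀)
    have h4 := hm j₃ (s₀, x₀) ⟨hs₀, hj₃, hj₃'.trans (by norm_num)⟩
    simp only [hV] at h4
    rw [hGV j₁ x₀ hx₀.1, hGV j₃ x₀ hj₃] at h4
    have h5 := hA _ hj₃'
    have h6 := hA' _ h9 hx₀.2
    have h7 : d * h (F.b j₁ (F.f x₀)) < d * h (F.b j₃ (F.f x₀)) :=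
      mul_lt_mul_of_pos_left (by linarith) hd
    have h8 := mul_lt_mul_of_pos_left
      (add_lt_add_right h7 (F.Mx s₂ (F.f x₀))) ha
    linarith
  have ho : IsOpen {y : Cn m | nsq y < 25} := isOpen_lt continuous_nsq0 continuous_const
  refine F.drop_local h1 ht₀ ⟨hs, hs₀I.2.trans_lt ht.2⟩ hδ hx₀.1
    (hx9.trans (by norm_num)) (G := G j₁) (fun η hη => ?_) ?_ ?_
  · obtain ⟨u', V', hV'o, hV's, -, hu', hlev, hcl⟩ := pshC_mollify ho (hG j₁) isCompact_ball4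
      (fun y hy => show nsq y < 25 from lt_of_le_of_lt (show nsq y ≤ 16 from hy) (by norm_num)) hη
    exact ⟨u', V', hV'o, hV's, hu', hlev, hcl⟩
  · intro s hsI x hx hx'
    exact hm j₁ (s, x) ⟨⟨hsI.1, hsI.2.trans hs₀I.2⟩, hx, hx'⟩
  · intro x hx hx'
    have h4 := hm₀ j₁ (s₂, x) ⟨rfl, hx, hx'⟩
    simp only [hV, barr_self, add_zero] at h4 ⊢
    linarith

/-- **The drop estimate**: `φ(t₀) - φ(t) ≤ C (T - t₀)^(1/2)` for `t ≥ t₀`. -/
theorem Mod.drop_of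
    (hgap : ∃ C : ℝ, 0 ≤ C ∧ ∀ t ∈ Ico 0 T, ∀ p, F.Mx t (F.f p) - F.Phi t p ≤ C * √(T - t))
    (hbase : ∃ C₁ A C₃ ε d₀ : ℝ, 0 ≤ C₁ ∧ 0 ≤ A ∧ 0 ≤ C₃ ∧ 0 < ε ∧ 0 < d₀ ∧
      (∀ y : Cn m, nsq y ≤ 1 → -A ≤ hB C₁ A ε y) ∧
      (∀ y : Cn m, 9 ≤ nsq y → nsq y ≤ 16 → hB C₁ A ε y < -A) ∧
      ∀ t ∈ Ico 0 T, T - t < d₀ → C₃ * (1 - t / T) ≤ 1 / 2 ∧ ∀ j,
        PshC (fun y => (1 - C₃ * (1 - t / T)) * (F.Mx t ((F.b j).symm y) +
          (1 - t / T) * hB C₁ A ε y) + t / T * F.K j y) {y : Cn m | nsq y < 25}) :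
    F.toFlow.Drop (1 / 2) := by
  rcases le_or_gt T 0 with hT | hT
  · exact ⟨0, le_rfl, fun t₀ ht₀ => absurd (ht₀.1.trans_lt ht₀.2) (not_lt.2 hT)⟩
  obtain ⟨C₁, hC₁, h1⟩ := Flow.dphi_ge_half F.toFlow
  obtain ⟨C₂, hC₂, h2⟩ := F.toFlow.Phi_bound
  obtain ⟨C₃, hC₃, h3⟩ := hgap
  obtain ⟨D₁, A, D₃, ε, δ, hD₁, hA, hD₃, hε, hδ0, hA1, hA9, hbase⟩ := hbase
  obtain ⟨B, hB0, hBd⟩ := hB_bound (m := m) D₁ A hε
  have hsδ : 0 < √δ := Real.sqrt_pos.2 hδ0
  have hsT : 0 < √T := Real.sqrt_pos.2 hT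
  set K₁ : ℝ := C₃ + 2 * C₂ * (D₃ / √T) + 2 * B / √T +
    ((C₁ + 1 + n) * √T + 2 * n * √T) with hK₁
  have hK₁0 : 0 ≤ K₁ := by positivity
  refine ⟨K₁ + 2 * C₂ / √δ, by positivity, fun t₀ ht₀ t ht p => ?_⟩
  rw [← Real.sqrt_eq_rpow]
  have hs0 : 0 ≤ √(T - t₀) := Real.sqrt_nonneg _
  have ht' : t ∈ Ico 0 T := ⟨ht₀.1.trans ht.1, ht.2⟩
  have hb1 := abs_le.1 (h2 t₀ ht₀ p)
  have hb2 := abs_le.1 (h2 t ht' p)
  have hTt : 0 < T - t₀ := sub_pos.2 ht₀.2
  have hMx : ∀ y, |F.Mx t₀ y| ≤ C₂ := by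
    intro y
    obtain ⟨⟨x, -, hx⟩, -⟩ := F.Mx_spec ht₀ y
    rw [← hx]
    exact h2 t₀ ht₀ x
  rcases lt_or_ge (T - t₀) δ with hc | hc
  · -- the good case
    obtain ⟨hq1, hpsh⟩ := hbase t₀ ht₀ hc
    have e1 : (1 - t₀ / T) = (T - t₀) / T := by field_simp
    have hd : 0 < 1 - t₀ / T := by
      rw [e1]
      positivity
    have hds : (1 - t₀ / T) ≤ √(T - t₀) / √T := by
      rw [e1, div_le_div_iff₀ hT hsT]
      have h7 : √(T - t₀) * √(T - t₀) = T - t₀ := Real.mul_self_sqrt hTt.le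
      have h8 : √T * √T = T := Real.mul_self_sqrt hT.le
      have h9 : √(T - t₀) ≤ √T := Real.sqrt_le_sqrt (by linarith [ht₀.1])
      calc (T - t₀) * √T = √(T - t₀) * (√(T - t₀) * √T) := by rw [← mul_assoc, h7]
        _ ≤ √(T - t₀) * (√T * √T) :=
          mul_le_mul_of_nonneg_left (mul_le_mul_of_nonneg_right h9 hsT.le) hs0
        _ = √(T - t₀) * T := by rw [h8]
    set d : ℝ := 1 - t₀ / T with hdd
    set q : ℝ := D₃ * d with hq
    have hq0 : 0 ≤ q := by positivity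
    have hqs : q ≤ D₃ / √T * √(T - t₀) := by
      calc q ≤ D₃ * (√(T - t₀) / √T) := mul_le_mul_of_nonneg_left hds hD₃
        _ = _ := by ring
    have ha : 0 < 1 - q := by linarith
    have hdB : d * B ≤ B / √T * √(T - t₀) := by
      calc d * B ≤ √(T - t₀) / √T * B := mul_le_mul_of_nonneg_right hds hB0
        _ = _ := by ring
    -- estimate of `q * Mx`
    have hqM : ∀ y, |q * F.Mx t₀ y| ≤ D₃ / √T * √(T - t₀) * C₂ := by
      intro y
      rw [abs_mul, abs_of_nonneg hq0]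
      exact mul_le_mul hqs (hMx y) (abs_nonneg _) (by positivity)
    have hdh : ∀ y : Cn m, nsq y ≤ 16 → |(1 - q) * (d * hB D₁ A ε y)| ≤ B / √T * √(T - t₀) := by
      intro y hy
      rw [abs_mul, abs_of_pos ha, abs_mul, abs_of_pos hd]
      calc (1 - q) * (d * |hB D₁ A ε y|) ≤ 1 * (d * B) :=
            mul_le_mul (by linarith) (mul_le_mul_of_nonneg_left (hBd y hy) hd.le) (by positivity)
              (by norm_num)
        _ = d * B := one_mul _
        _ ≤ _ := hdB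
    obtain ⟨j, hj, hj'⟩ := F.hol.cover (F.f p)
    have hj16 : nsq (F.b j (F.f p)) ≤ 16 := hj'.trans (by norm_num)
    have h10 := F.drop_step (a := 1 - q) (d := d) (A := A) (h := hB D₁ A ε)
      (B := -(C₃ * √(T - t₀)) - D₃ / √T * √(T - t₀) * C₂ - B / √T * √(T - t₀))
      h1 ht₀ ht ha hd (continuous_hB hε) hA1 hA9 hpsh (by
      intro j x hx hx16
      have h11 := h3 t₀ ht₀ x
      have h12 := (abs_le.1 (hqM (F.f x))).1
      have h13 := (abs_le.1 (hdh _ hx16)).2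
      have h14 : (1 - q) * (F.Mx t₀ (F.f x) + d * hB D₁ A ε (F.b j (F.f x))) =
        F.Mx t₀ (F.f x) - q * F.Mx t₀ (F.f x) + (1 - q) * (d * hB D₁ A ε (F.b j (F.f x))) := by
        ring
      rw [h14]
      linarith) j p hj hj16
    have h11 := (abs_le.1 (hqM (F.f p))).2
    have h12 := (abs_le.1 (hdh _ hj16)).1
    have h13 := (F.Mx_spec ht₀ (F.f p)).2 p rfl
    have h14 := barr_le n (t₀ := t₀) (t := t) hT hC₁ ht₀.1 ht.1 ht.2
    have h15 : (1 - q) * (F.Mx t₀ (F.f p) + d * hB D₁ A ε (F.b j (F.f p))) =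
        F.Mx t₀ (F.f p) - q * F.Mx t₀ (F.f p) + (1 - q) * (d * hB D₁ A ε (F.b j (F.f p))) := by
        ring
    rw [h15] at h10
    have h17 : 0 ≤ 2 * C₂ / √δ * √(T - t₀) := by positivity
    have h18 : K₁ * √(T - t₀) = C₃ * √(T - t₀) + 2 * (D₃ / √T * √(T - t₀) * C₂) +
        2 * (B / √T * √(T - t₀)) + ((C₁ + 1 + n) * √T + 2 * n * √T) * √(T - t₀) := by
      rw [hK₁]
      ring
    rw [add_mul, h18]
    linarith
  · -- the trivial case
    have h4 : √δ ≤ √(T - t₀) := Real.sqrt_le_sqrt hc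
    have h5 : 2 * C₂ ≤ 2 * C₂ / √δ * √(T - t₀) := by
      rw [div_mul_eq_mul_div, le_div_iff₀ hsδ]
      exact mul_le_mul_of_nonneg_left h4 (by positivity)
    have h6 : 0 ≤ K₁ * √(T - t₀) := by positivity
    rw [add_mul]
    linarith

end Mod

end Pool.Agent.KRFG

end

section

/-!
# The contact set: a finite cover, and the estimate on a ball
-/

open scoped ContDiff ENNReal ComplexOrder Topology
open Set MeasureTheory Filter Pool.Agent.ToricKRF Pool.Agent.ToricKRF.G Pool.Agent.KRFS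
  Pool.Agent.KRFF

namespace Pool.Agent.KRFG

namespace Ct

theorem nsq_add_le {n : ℕ} (a b : Cn n) : nsq (a + b) ≤ 2 * nsq a + 2 * nsq b := by
  rw [Gap.nsq_eq, Gap.nsq_eq, Gap.nsq_eq, Finset.mul_sum, Finset.mul_sum,
    ← Finset.sum_add_distrib]
  refine Finset.sum_le_sum fun i _ => ?_
  simp only [Prod.fst_add, Prod.snd_add, Pi.add_apply]
  nlinarith [sq_nonneg (a.1 i - b.1 i), sq_nonneg (a.2 i - b.2 i)]

/-- a ball of radius `r` around a point of the ball of radius `r` -/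
theorem ball_in {n : ℕ} {x y z : Cn n} {r : ℝ} (h1 : nsq (y - x) ≤ r ^ 2)
    (h2 : nsq (z - y) ≤ r ^ 2) : nsq (z - x) ≤ (2 * r) ^ 2 := by
  have h3 := nsq_add_le (z - y) (y - x)
  rw [sub_add_sub_cancel] at h3
  nlinarith

/-- a finite cover by coordinate balls, such that the balls of twice the radius are in given
neighbourhoods of their centres -/
theorem exists_balls {n : ℕ} {M : Type} [TopologicalSpace M] [CompactSpace M] {κ : Type}
    {e : κ → OpenPartialHomeomorph M (Cn n)} (hcov : ∀ p, ∃ c, p ∈ (e c).source)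
    {G : M → Set M} (hG : ∀ x, G x ∈ 𝓝 x) :
    ∃ (I : Finset M) (c : M → κ) (r : M → ℝ), (∀ x, x ∈ (e (c x)).source) ∧
      (∀ x, 0 < r x ∧ ∀ z, nsq (z - e (c x) x) ≤ (2 * r x) ^ 2 →
        z ∈ (e (c x)).target ∧ (e (c x)).symm z ∈ G x) ∧
      ∀ p, ∃ x ∈ I, p ∈ (e (c x)).source ∧ nsq (e (c x) p - e (c x) x) ≤ r x ^ 2 := by
  choose c hc using hcov
  have h1 : ∀ x, ∃ r > 0, ∀ z, nsq (z - e (c x) x) ≤ (2 * r) ^ 2 →
      z ∈ (e (c x)).target ∧ (e (c x)).symm z ∈ G x := by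
    intro x
    have hS : {z | z ∈ (e (c x)).target ∧ (e (c x)).symm z ∈ G x} ∈ 𝓝 (e (c x) x) := by
      have h2 := (e (c x)).map_source (hc x)
      have h3 := (e (c x)).continuousAt_symm h2
      rw [ContinuousAt, (e (c x)).left_inv (hc x)] at h3
      filter_upwards [(e (c x)).open_target.mem_nhds h2, h3 (hG x)] with z hz hz'
      exact ⟨hz, hz'⟩
    obtain ⟨r, hr, -, hsub⟩ := exists_ball hS
    refine ⟨r / 2, by positivity, fun z hz => hsub ?_⟩
    have h4 : 2 * (r / 2) = r := by ring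
    rw [h4] at hz
    exact hz
  choose r hr hr' using h1
  have h2 : ∀ x, {p | p ∈ (e (c x)).source ∧ nsq (e (c x) p - e (c x) x) ≤ r x ^ 2} ∈ 𝓝 x := by
    intro x
    have h3 := (e (c x)).continuousAt (hc x)
    have h4 : ContinuousAt (fun p => nsq (e (c x) p - e (c x) x)) x :=
      ContinuousAt.comp (f := fun p => e (c x) p - e (c x) x) (g := nsq)
        Gap.contDiff_nsq'.continuous.continuousAt (h3.sub continuousAt_const)
    have h5 : nsq (e (c x) x - e (c x) x) < r x ^ 2 := by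
      rw [sub_self, Gap.nsq_zero]
      have := hr x
      positivity
    filter_upwards [(e (c x)).open_source.mem_nhds (hc x), h4.eventually_lt_const h5] with p hp hp'
    exact ⟨hp, hp'.le⟩
  obtain ⟨I, -, hI⟩ := isCompact_univ.elim_nhds_subcover _ fun x _ => h2 x
  refine ⟨I, c, r, hc, fun x => ⟨hr x, hr' x⟩, fun p => ?_⟩
  have h3 := hI (mem_univ p)
  rw [mem_iUnion₂] at h3
  obtain ⟨x, hx, h4, h5⟩ := h3
  exact ⟨x, hx, h4, h5⟩

end Ct

section Mod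

variable {n m : ℕ} {M Y W : Type} [TopologicalSpace M] [TopologicalSpace Y]
  [TopologicalSpace W] {κ P ι : Type} {T : ℝ} (F : Mod n m M Y W κ P ι T)

theorem Mod.det_le {c : κ} {t : ℝ} (ht : t ∈ Ico 0 T) {z : Cn n} (hz : z ∈ (F.e c).target)
    {Cd C : ℝ} (hd : F.dphi c (t, z) ≤ Cd) (hΩ : F.Ω c z ≤ C) :
    (cHess (F.ψ c) (t, z)).det.re ≤ C * Real.exp Cd := by
  have h1 := Gap.det_pos' F.toFlow ht hz
  have h2 := F.vol.pos c z hz
  have h3 : Real.log (cHess (F.ψ c) (t, z)).det.re ≤ Real.log (F.Ω c z) + Cd := by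
    have : F.dphi c (t, z) = Real.log (cHess (F.ψ c) (t, z)).det.re - Real.log (F.Ω c z) := rfl
    linarith
  have h4 := Real.exp_le_exp.2 h3
  rw [Real.exp_log h1, Real.exp_add, Real.exp_log h2] at h4
  exact h4.trans (mul_le_mul_of_nonneg_right hΩ (Real.exp_pos _).le)

/-- the estimate on a ball -/
theorem Mod.contact_ball {Ca : ℝ} (hCa : 0 < Ca)
    (habp : ∀ (v : Cn n → ℝ) (f : ℝ × Cn n → ℝ) (t : ℝ)
      (V : Set (Cn n)) (U : Set (ℝ × Cn n)) (z₀ : Cn n) (r ε D₁ : ℝ),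
      IsOpen V → ContDiffOn ℝ ∞ v V → IsOpen U → ContDiffOn ℝ ∞ f U → 0 < r → 0 < ε →
      {z | nsq (z - z₀) ≤ r ^ 2} ⊆ V →
      (∀ z, nsq (z - z₀) ≤ r ^ 2 → (t, z) ∈ U ∧ (cHess f (t, z)).PosDef ∧
        (cHess f (t, z)).det.re ≤ D₁ ∧ ∀ u, levz v u z ≤ lev f u (t, z)) →
      (∀ z, nsq (z - z₀) = r ^ 2 → v z₀ + ε ≤ v z) →
      ENNReal.ofReal ((ε / r) ^ (2 * n)) ≤ ENNReal.ofReal (Ca * D₁ ^ 2) *
        volume {z | nsq (z - z₀) ≤ r ^ 2 ∧ v z ≤ v z₀ + ε})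
    {t : ℝ} (ht : t ∈ Ico 0 T) {c : κ} {j : P} {z₀ : Cn n} {r C₁ D₁ : ℝ} (hr : 0 < r)
    (hC₁ : 0 < C₁) (hD₁ : 0 < D₁) {G : Cn m → ℝ}
    (hG : ∀ ε > 0, ∃ (u' : Cn m → ℝ) (V' : Set (Cn m)), IsOpen V' ∧ {y | nsq y ≤ 16} ⊆ V' ∧
      ContDiffOn ℝ ∞ u' V' ∧ (∀ z ∈ V', ∀ v, 0 ≤ levz u' v z) ∧
      ∀ z ∈ V', |u' z - (G z + t / T * F.K j z)| ≤ ε)
    (hball : ∀ z, nsq (z - z₀) ≤ r ^ 2 → z ∈ (F.e c).target ∧
      F.f ((F.e c).symm z) ∈ (F.b j).source ∧ nsq (F.b j (F.f ((F.e c).symm z))) < 16 ∧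
      (∀ u, nsq u ≤ C₁ * lev (F.ψ c) u (0, z)) ∧ (cHess (F.ψ c) (t, z)).det.re ≤ D₁)
    (hmin : ∀ z, nsq (z - z₀) ≤ r ^ 2 →
      F.Phi t ((F.e c).symm z₀) - G (F.b j (F.f ((F.e c).symm z₀))) ≤
        F.Phi t ((F.e c).symm z) - G (F.b j (F.f ((F.e c).symm z)))) :
    ∃ S ⊆ {z | nsq (z - z₀) ≤ r ^ 2}, MeasurableSet S ∧
      ENNReal.ofReal (((1 - t / T) * r / (2 * C₁)) ^ (2 * n) / (Ca * D₁ ^ 2)) ≤ volume S ∧
      ∀ z ∈ S, F.Phi t ((F.e c).symm z) - G (F.b j (F.f ((F.e c).symm z))) ≤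
        F.Phi t ((F.e c).symm z₀) - G (F.b j (F.f ((F.e c).symm z₀))) +
          (1 - t / T) / C₁ * r ^ 2 := by
  have hT : 0 < T := ht.1.trans_lt ht.2
  have h0T : (0 : ℝ) ∈ Ico 0 T := ⟨le_rfl, hT⟩
  have hd0 : 0 < 1 - t / T := by
    rw [sub_pos, div_lt_one hT]
    exact ht.2
  set y : Cn n → Cn m := fun z => F.b j (F.f ((F.e c).symm z)) with hydef
  set S₀ : Set (Cn n) := {z | z ∈ (F.e c).target ∧ F.f ((F.e c).symm z) ∈ (F.b j).source} with hS₀
  have hfs : ContinuousOn (fun z => F.f ((F.e c).symm z)) (F.e c).target :=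
    F.hol.cont.comp_continuousOn (F.e c).continuousOn_symm
  have hS₀o : IsOpen S₀ := hfs.isOpen_inter_preimage (F.e c).open_target (F.b j).open_source
  have hyhol : HolOn y S₀ := F.hol.holo c j
  have hycont : ContinuousOn y S₀ := hyhol.1.continuousOn
  have hyS : ContDiffOn ℝ ∞ y S₀ := hyhol.1
  set Λ : ℝ := (1 - t / T) / C₁ with hΛ
  have hΛ0 : 0 < Λ := by positivity
  set ε : ℝ := Λ * r ^ 2 / 2 with hε
  set δ : ℝ := Λ * r ^ 2 / 4 with hδ
  have hε0 : 0 < ε := by positivity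
  have hδ0 : 0 < δ := by positivity
  obtain ⟨u', V', hV', hsubV, hu', hpsh, hclose⟩ := hG δ hδ0
  set B : Set (Cn n) := {z | nsq (z - z₀) ≤ r ^ 2} with hB
  have hz₀B : z₀ ∈ B := by
    simp only [hB, mem_ofPred_eq, sub_self, Gap.nsq_zero]
    positivity
  have hBS : ∀ z ∈ B, z ∈ S₀ := fun z hz => ⟨(hball z hz).1, (hball z hz).2.1⟩
  have hBy : ∀ z ∈ B, nsq (y z) < 16 := fun z hz => (hball z hz).2.2.1
  set S₁ : Set (Cn n) := S₀ ∩ y ⁻¹' V' with hS₁
  have hS₁o : IsOpen S₁ := hycont.isOpen_inter_preimage hS₀o hV'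
  have hBS₁ : B ⊆ S₁ := fun z hz => ⟨hBS z hz, hsubV (hBy z hz).le⟩
  obtain ⟨Uφ, hUφ, hUφs, hφ⟩ := F.toFlow.phi_isFun.smooth c
  have hSφ : ContDiffOn ℝ ∞ (fun z => F.phi c (t, z)) S₁ :=
    hφ.comp (contDiff_const.prodMk contDiff_id).contDiffOn fun z hz => hUφs ⟨ht, hz.1.1⟩
  have hSK : ContDiffOn ℝ ∞ (fun z => F.K j (y z)) S₁ :=
    ((F.lim.smooth j).comp hyS fun z hz => (F.b j).map_source hz.2).mono inter_subset_left
  have hu'y : ContDiffOn ℝ ∞ (fun z => u' (y z)) S₁ :=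
    hu'.comp (hyS.mono inter_subset_left) fun z hz => hz.2
  have hSn : ContDiffOn ℝ ∞ (fun z => nsq (z - z₀)) S₁ :=
    (Gap.contDiff_nsq'.comp (contDiff_id.sub contDiff_const)).contDiffOn
  set v : Cn n → ℝ := fun z => F.phi c (t, z) + t / T * F.K j (y z) - u' (y z) +
    Λ * nsq (z - z₀) with hv
  have hvs : ContDiffOn ℝ ∞ v S₁ :=
    ((hSφ.add (contDiffOn_const.mul hSK)).sub hu'y).add (contDiffOn_const.mul hSn)
  have hPhi : ∀ z ∈ B, F.Phi t ((F.e c).symm z) = F.phi c (t, z) := fun z hz => by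
    rw [F.toFlow.Phi_eq ht ((F.e c).map_target (hBS z hz).1), (F.e c).right_inv (hBS z hz).1]
  -- comparison of `v`
  have hvle : ∀ z ∈ B, v z ≤ F.Phi t ((F.e c).symm z) - G (y z) + δ + Λ * nsq (z - z₀) := by
    intro z hz
    have h1 := (abs_le.1 (hclose (y z) (hsubV (hBy z hz).le))).1
    rw [hPhi z hz]
    simp only [hv]
    linarith
  have hlev : ∀ z ∈ B, F.Phi t ((F.e c).symm z) - G (y z) - δ + Λ * nsq (z - z₀) ≤ v z := by
    intro z hz
    have h1 := (abs_le.1 (hclose (y z) (hsubV (hBy z hz).le))).2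
    rw [hPhi z hz]
    simp only [hv]
    linarith
  have hv0 : v z₀ ≤ F.Phi t ((F.e c).symm z₀) - G (y z₀) + δ := by
    have h1 := hvle z₀ hz₀B
    rw [sub_self, Gap.nsq_zero] at h1
    linarith
  obtain ⟨U, hU, hUsub, hψU⟩ := F.krf.smooth c
  have hABP := habp v (F.ψ c) t S₁ U z₀ r ε D₁ hS₁o hvs hU hψU hr hε0 hBS₁
    (by
      intro z hz
      have hzS₁ := hBS₁ hz
      have hzt := hzS₁.1.1
      obtain ⟨-, -, -, g1, g2⟩ := hball z hz
      refine ⟨hUsub ⟨ht, hzt⟩, F.krf.pos c t ht z hzt, g2, fun u => ?_⟩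
      have hn : S₁ ∈ 𝓝 z := hS₁o.mem_nhds hzS₁
      have a1 : ContDiffAt ℝ 2 (fun z => F.phi c (t, z)) z :=
        (hSφ.contDiffAt hn).of_le two_le_infty
      have a2 : ContDiffAt ℝ 2 (fun z => F.K j (y z)) z := (hSK.contDiffAt hn).of_le two_le_infty
      have a3 : ContDiffAt ℝ 2 (fun z => u' (y z)) z := (hu'y.contDiffAt hn).of_le two_le_infty
      have a5 : ContDiffAt ℝ 2 (fun z => nsq (z - z₀)) z := (hSn.contDiffAt hn).of_le two_le_infty
      have a2' : ContDiffAt ℝ 2 (fun z => t / T * F.K j (y z)) z := contDiffAt_const.mul a2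
      have a5' : ContDiffAt ℝ 2 (fun z => Λ * nsq (z - z₀)) z := contDiffAt_const.mul a5
      have e0 : levz v u z = levz (fun z => F.phi c (t, z)) u z +
          t / T * levz (fun z => F.K j (y z)) u z - levz (fun z => u' (y z)) u z +
          Λ * nsq u := by
        rw [hv, Bd.levz_add ((a1.add a2').sub a3) a5', Bd.levz_sub (a1.add a2') a3,
          Bd.levz_add a1 a2', Bd.levz_const_mul _ a2, Bd.levz_const_mul _ a5, Gap.levz_nsq]
      rw [e0, levz_slice hUφ hφ (hUφs ⟨ht, hzt⟩), F.toFlow.lev_phi ht hzt]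
      have e1 : levz (fun z => F.K j (y z)) u z = levz (F.Θ c) u z := by
        rw [← F.theta c z hzt u]
        exact (F.lim.eq c j z hzt hzS₁.1.2 u).symm
      have e2 : 0 ≤ levz (fun z => u' (y z)) u z := by
        rw [levz_comp hV' hu' hS₀o hyhol hzS₁.1 hzS₁.2]
        exact hpsh _ hzS₁.2 _
      have e3 : Λ * nsq u ≤ (1 - t / T) * lev (F.ψ c) u (0, z) := by
        have g5 := g1 u
        rw [hΛ, div_mul_eq_mul_div, div_le_iff₀ hC₁]
        calc (1 - t / T) * nsq u ≤ (1 - t / T) * (C₁ * lev (F.ψ c) u (0, z)) :=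
              mul_le_mul_of_nonneg_left g5 hd0.le
          _ = (1 - t / T) * lev (F.ψ c) u (0, z) * C₁ := by ring
      rw [e1]
      linarith)
    (by
      intro z hz
      have h1 := hlev z hz.le
      have h2 := hmin z hz.le
      rw [hz] at h1
      have h3 : ε + 2 * δ = Λ * r ^ 2 := by
        rw [hε, hδ]
        ring
      linarith)
  refine ⟨{z | nsq (z - z₀) ≤ r ^ 2 ∧ v z ≤ v z₀ + ε}, fun z hz => hz.1, ?_, ?_, ?_⟩
  · have hBcl : IsClosed B := isClosed_le (continuous_nsq_sub z₀) continuous_const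
    have hvc : ContinuousOn v B := hvs.continuousOn.mono hBS₁
    have h1 : IsClosed (B ∩ v ⁻¹' Iic (v z₀ + ε)) :=
      hvc.preimage_isClosed_of_isClosed hBcl isClosed_Iic
    exact h1.measurableSet
  · have hpos : 0 < Ca * D₁ ^ 2 := by positivity
    have h1 : ε / r = (1 - t / T) * r / (2 * C₁) := by
      rw [hε, hΛ]
      field_simp
    rw [h1] at hABP
    rw [ENNReal.ofReal_div_of_pos hpos]
    exact ENNReal.div_le_of_le_mul' hABP
  · intro z hz
    have h1 := hlev z hz.1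
    have h2 := hz.2
    have h3 : ε + 2 * δ = Λ * r ^ 2 := by
      rw [hε, hδ]
      ring
    have h4 : 0 ≤ Λ * nsq (z - z₀) := mul_nonneg hΛ0.le (Gap.nsq_nonneg _)
    linarith

end Mod

end Pool.Agent.KRFG

end
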