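import Pool.Agent.Work.MP_a2bf38_gt.Fu.I.PshMean
import Pool.Agent.Work.MP_a2bf38_gt.Fu.I.Coord
import Pool.Agent.Work.MP_a2bf38_gt.Fu.L.Defs
import Pool.Agent.Work.MP_a2bf38_gt.Fu.K.PshCOf
import Pool.Agent.Work.MP_a2bf38_gt.Fu.K.EmReach
import Pool.Agent.Work.MP_a2bf38_gt.Fu.I.FibBasic

section

/-!
# The mean value inequality for plurisubharmonic functions
-/

open scoped ContDiff ENNReal ComplexOrder Topology Pointwise
open Set MeasureTheory Filter Pool.Agent.ToricKRF Pool.Agent.ToricKRF.G Pool.Agent.KRFS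

namespace Pool.Agent.KRFF

namespace PshG

theorem norm_cc_le {a b x y : ℝ} {r s : ℝ} (hr : 0 ≤ r) (hs : 0 ≤ s) (h1 : a ^ 2 + b ^ 2 ≤ r ^ 2)
    (h2 : x ^ 2 + y ^ 2 ≤ s ^ 2) : (a + x) ^ 2 + (b + y) ^ 2 ≤ (r + s) ^ 2 := by
  have h3 : (a * x + b * y) ^ 2 ≤ (r * s) ^ 2 := by
    have e1 : (a * x + b * y) ^ 2 ≤ (a ^ 2 + b ^ 2) * (x ^ 2 + y ^ 2) := by
      nlinarith [sq_nonneg (a * y - b * x)]
    have e2 : (a ^ 2 + b ^ 2) * (x ^ 2 + y ^ 2) ≤ r ^ 2 * s ^ 2 :=
      mul_le_mul h1 h2 (by positivity) (by positivity)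
    calc (a * x + b * y) ^ 2 ≤ _ := e1
      _ ≤ _ := e2
      _ = (r * s) ^ 2 := by ring
  have h4 : a * x + b * y ≤ r * s := (abs_le_of_sq_le_sq' h3 (by positivity)).2
  nlinarith

theorem add_mem_cpd {k : ℕ} {r s : ℝ} (hr : 0 ≤ r) (hs : 0 ≤ s) {u v : Cn k} (hu : u ∈ cpd r)
    (hv : v ∈ cpd s) : u + v ∈ cpd (r + s) := fun i => norm_cc_le hr hs (hu i) (hv i)

theorem neg_mem_cpd {k : ℕ} {r : ℝ} {u : Cn k} (hu : u ∈ cpd r) : -u ∈ cpd r := by
  intro i
  have := hu i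
  simpa using this

theorem smul_mem_cpd {k : ℕ} {r c : ℝ} {u : Cn k} (hu : u ∈ cpd r) : c • u ∈ cpd (c * r) := by
  intro i
  have h := mul_le_mul_of_nonneg_left (hu i) (sq_nonneg c)
  simp only [Prod.smul_fst, Prod.smul_snd, Pi.smul_apply, smul_eq_mul]
  nlinarith

theorem mem_smul_cpd {k : ℕ} {c : ℝ} (hc : 0 < c) {u : Cn k} (hu : u ∈ cpd c) :
    u ∈ c • cpd (k := k) 1 := by
  refine ⟨c⁻¹ • u, ?_, ?_⟩
  · have := smul_mem_cpd (c := c⁻¹) hu
    rwa [inv_mul_cancel₀ hc.ne'] at this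
  · change c • c⁻¹ • u = u
    rw [smul_smul, mul_inv_cancel₀ hc.ne', one_smul]

theorem cpd_mono' {k : ℕ} {r s : ℝ} (hr : 0 ≤ r) (h : r ≤ s) : cpd (k := k) r ⊆ cpd s := by
  intro u hu i
  have := hu i
  have h2 : r ^ 2 ≤ s ^ 2 := by nlinarith
  exact this.trans h2

theorem isAddHaar_Cn (k : ℕ) : (volume : Measure (Cn k)).IsAddHaarMeasure :=
  Measure.prod.instIsAddHaarMeasure (G := Fin k → ℝ) (H := Fin k → ℝ) volume volume

theorem finrank_Cn (k : ℕ) : Module.finrank ℝ (Cn k) = 2 * k := by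
  rw [Module.finrank_prod, Module.finrank_fin_fun]
  ring

/-- the volume of a ball -/
theorem volume_nball (k : ℕ) (z : Cn k) {r : ℝ} (hr : 0 < r) :
    volume {z' : Cn k | nsq (z' - z) ≤ r ^ 2} =
      ENNReal.ofReal (r ^ (2 * k)) * volume {z' : Cn k | nsq z' ≤ 1} := by
  have := isAddHaar_Cn k
  have h1 : {z' : Cn k | nsq (z' - z) ≤ r ^ 2} =
      (fun x => z + x) '' (r • {z' : Cn k | nsq z' ≤ 1}) := by
    ext x
    simp only [mem_ofPred_eq, mem_image]
    have hs : ∀ (c : ℝ) (y : Cn k), nsq (c • y) = c ^ 2 * nsq y := by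
      intro c y
      simp only [nsq, Prod.smul_fst, Prod.smul_snd, dotProduct_smul, smul_dotProduct, smul_eq_mul]
      ring
    constructor
    · intro hx
      refine ⟨x - z, ⟨r⁻¹ • (x - z), ?_, ?_⟩, by simp⟩
      · change nsq (r⁻¹ • (x - z)) ≤ 1
        rw [hs, inv_pow, inv_mul_le_iff₀ (by positivity), mul_one]
        exact hx
      · change r • r⁻¹ • (x - z) = x - z
        rw [smul_smul, mul_inv_cancel₀ hr.ne', one_smul]
    · rintro ⟨_, ⟨y, hy, rfl⟩, rfl⟩
      have hy' : nsq y ≤ 1 := hy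
      change nsq (z + r • y - z) ≤ r ^ 2
      rw [add_sub_cancel_left, hs]
      nlinarith [sq_nonneg r]
  rw [h1, image_add_left]
  rw [show (fun x => -z + x) ⁻¹' (r • {z' : Cn k | nsq z' ≤ 1}) =
    (fun x => -z + x) ⁻¹' (r • {z' : Cn k | nsq z' ≤ 1}) from rfl, measure_preimage_add,
    Measure.addHaar_smul, finrank_Cn, abs_of_pos (by positivity)]

end PshG

open PshG

/-- mean value inequality -/
theorem psh_integral (k : ℕ) : ∃ C : ℝ, 0 < C ∧ ∀ (g : Cn k → ℝ) (L : ℝ) (z₁ : Cn k),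
    ContDiffOn ℝ ∞ g (opd 9) → (∀ z ∈ opd (k := k) 9, g z ≤ 0) →
    (∀ z ∈ opd (k := k) 9, ∀ u, 0 ≤ levz g u z) → z₁ ∈ cpd 2 → -L ≤ g z₁ →
    ∫ z in cpd (k := k) (9 / 2), -g z ≤ C * L := by
  have := isAddHaar_Cn k
  set V : ℝ := (volume (cpd (k := k) 1)).toReal with hV
  have hV0 : 0 ≤ V := ENNReal.toReal_nonneg
  refine ⟨(13 / 2) ^ (2 * k) * V + 1, by positivity, fun g L z₁ hg h0 hp hz₁ hL => ?_⟩
  have hsub := psh_submean hg hp (by norm_num : (0 : ℝ) ≤ 2) (by norm_num : (0 : ℝ) < 13 / 2)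
    (by norm_num) hz₁
  have hL0 : 0 ≤ L := by
    have := h0 z₁ (cpd_subset_opd (by norm_num) (by norm_num) hz₁)
    linarith
  -- change of variables
  have hρ : (0 : ℝ) < 13 / 2 := by norm_num
  have e1 : ∫ w in cpd (k := k) 1, -g (z₁ + (13 / 2 : ℝ) • w) =
      ((13 / 2 : ℝ) ^ (2 * k))⁻¹ * ∫ x in (13 / 2 : ℝ) • cpd (k := k) 1, -g (z₁ + x) := by
    have := Measure.setIntegral_comp_smul (volume : Measure (Cn k)) (fun x => -g (z₁ + x))
      (cpd (k := k) 1) hρ.ne'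
    rw [this, finrank_Cn, abs_of_pos (by positivity), smul_eq_mul]
  have e2 : ∫ x in (13 / 2 : ℝ) • cpd (k := k) 1, -g (z₁ + x) =
      ∫ x in (fun x => z₁ + x) '' ((13 / 2 : ℝ) • cpd (k := k) 1), -g x :=
    ((measurePreserving_add_left (volume : Measure (Cn k)) z₁).setIntegral_image_emb
      (measurableEmbedding_addLeft z₁) (fun x => -g x) _).symm
  have hin : cpd (k := k) (9 / 2) ⊆ (fun x => z₁ + x) '' ((13 / 2 : ℝ) • cpd (k := k) 1) := by
    intro z hz
    refine ⟨-z₁ + z, mem_smul_cpd hρ ?_, by simp⟩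
    have := add_mem_cpd (by norm_num) (by norm_num) (neg_mem_cpd hz₁) hz
    norm_num at this
    exact this
  have hout : (fun x => z₁ + x) '' ((13 / 2 : ℝ) • cpd (k := k) 1) ⊆ cpd (k := k) (17 / 2) := by
    rintro _ ⟨_, ⟨w, hw, rfl⟩, rfl⟩
    have h1 := smul_mem_cpd (c := (13 / 2 : ℝ)) hw
    have h2 := add_mem_cpd (by norm_num) (by norm_num) hz₁ h1
    norm_num at h2
    exact h2
  have h17 : cpd (k := k) (17 / 2) ⊆ opd 9 := cpd_subset_opd (by norm_num) (by norm_num)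
  have hint : IntegrableOn (fun z => -g z)
      ((fun x => z₁ + x) '' ((13 / 2 : ℝ) • cpd (k := k) 1)) := by
    refine IntegrableOn.mono_set ?_ hout
    exact (hg.continuousOn.neg.mono h17).integrableOn_compact (isCompact_cpd _)
  have hmeas : MeasurableSet ((fun x => z₁ + x) '' ((13 / 2 : ℝ) • cpd (k := k) 1)) := by
    refine IsClosed.measurableSet (IsCompact.isClosed ?_)
    exact ((isCompact_cpd 1).smul (13 / 2 : ℝ)).image (by fun_prop)
  have e3 : ∫ z in cpd (k := k) (9 / 2), -g z ≤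
      ∫ z in (fun x => z₁ + x) '' ((13 / 2 : ℝ) • cpd (k := k) 1), -g z := by
    refine setIntegral_mono_set hint ?_ hin.eventuallyLE
    refine (ae_restrict_iff' hmeas).2 (Eventually.of_forall fun z hz => ?_)
    have := h0 z (h17 (hout hz))
    simpa using this
  have e4 : ∫ w in cpd (k := k) 1, -g (z₁ + (13 / 2 : ℝ) • w) ≤ V * L := by
    rw [integral_neg]
    have : V * -L ≤ V * g z₁ := mul_le_mul_of_nonneg_left hL hV0
    linarith
  rw [e1, e2] at e4
  have hpow : (0 : ℝ) < (13 / 2) ^ (2 * k) := by positivity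
  rw [inv_mul_le_iff₀ hpow] at e4
  calc _ ≤ _ := e3
    _ ≤ (13 / 2) ^ (2 * k) * (V * L) := e4
    _ ≤ ((13 / 2) ^ (2 * k) * V + 1) * L := by nlinarith

theorem psh_good (k : ℕ) : ∃ C : ℝ, 0 < C ∧ ∀ (g : Cn k → ℝ) (L : ℝ) (z₁ : Cn k),
    ContDiffOn ℝ ∞ g (opd 9) → (∀ z ∈ opd (k := k) 9, g z ≤ 0) →
    (∀ z ∈ opd (k := k) 9, ∀ u, 0 ≤ levz g u z) → z₁ ∈ cpd 2 → -L ≤ g z₁ →
    ∀ z ∈ cpd (k := k) 2, ∀ r ∈ Ioc (0 : ℝ) 1,
      ∃ z', nsq (z' - z) ≤ r ^ 2 ∧ -(C * L * (1 / r) ^ (2 * k)) ≤ g z' := by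
  have := isAddHaar_Cn k
  obtain ⟨C, hC, h⟩ := psh_integral k
  set b : ℝ≥0∞ := volume {z' : Cn k | nsq z' ≤ 1} with hb
  have hsubb : ∀ r ∈ Ioc (0 : ℝ) 1, ∀ z ∈ cpd (k := k) 2,
      {z' : Cn k | nsq (z' - z) ≤ r ^ 2} ⊆ cpd (9 / 2) := by
    intro r hr z hz x hx i
    have h1 : (x - z).1 i ^ 2 + (x - z).2 i ^ 2 ≤ 1 ^ 2 := by
      have h2 : nsq (x - z) ≤ r ^ 2 := hx
      unfold nsq dotProduct at h2
      have h3 : (x - z).1 i * (x - z).1 i ≤ ∑ j, (x - z).1 j * (x - z).1 j :=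
        Finset.single_le_sum (f := fun j => (x - z).1 j * (x - z).1 j)
          (fun j _ => mul_self_nonneg _) (Finset.mem_univ i)
      have h4 : (x - z).2 i * (x - z).2 i ≤ ∑ j, (x - z).2 j * (x - z).2 j :=
        Finset.single_le_sum (f := fun j => (x - z).2 j * (x - z).2 j)
          (fun j _ => mul_self_nonneg _) (Finset.mem_univ i)
      have h5 : r ^ 2 ≤ 1 := by nlinarith [hr.1, hr.2]
      nlinarith
    have h2 := norm_cc_le (by norm_num : (0 : ℝ) ≤ 1) (by norm_num : (0 : ℝ) ≤ 2) h1 (hz i)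
    have h3 : (x - z).1 i + z.1 i = x.1 i := by simp
    have h4 : (x - z).2 i + z.2 i = x.2 i := by simp
    rw [h3, h4] at h2
    nlinarith
  have hclosed : ∀ (z : Cn k) (r : ℝ), IsClosed {z' : Cn k | nsq (z' - z) ≤ r ^ 2} := by
    intro z r
    refine isClosed_le ?_ continuous_const
    unfold nsq dotProduct
    fun_prop
  have hb1 : b ≠ ⊤ := by
    have h1 := hsubb 1 ⟨one_pos, le_rfl⟩ 0 (by intro i; norm_num)
    simp only [sub_zero, one_pow] at h1
    exact (lt_of_le_of_lt (measure_mono h1) (isCompact_cpd _).measure_lt_top).ne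
  have hb0 : b ≠ 0 := by
    have h1 : IsOpen {z' : Cn k | nsq z' < 1} := by
      refine isOpen_lt ?_ continuous_const
      unfold nsq dotProduct
      fun_prop
    have h2 : (0 : Cn k) ∈ {z' : Cn k | nsq z' < 1} := by
      simp [nsq]
    have h3 := h1.measure_pos volume ⟨0, h2⟩
    exact (lt_of_lt_of_le h3 (measure_mono fun x hx => (le_of_lt hx : nsq x ≤ 1))).ne'
  have hbr : 0 < b.toReal := ENNReal.toReal_pos hb0 hb1
  refine ⟨C / b.toReal, by positivity, fun g L z₁ hg h0 hp hz₁ hL z hz r hr => ?_⟩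
  have hI := h g L z₁ hg h0 hp hz₁ hL
  have h92 : cpd (k := k) (9 / 2) ⊆ opd 9 := cpd_subset_opd (by norm_num) (by norm_num)
  have hvol := volume_nball k z hr.1
  rw [← hb] at hvol
  have hrk : 0 < r ^ (2 * k) := pow_pos hr.1 _
  have hvol0 : volume {z' : Cn k | nsq (z' - z) ≤ r ^ 2} ≠ 0 := by
    rw [hvol]
    exact mul_ne_zero (by simpa using hrk) hb0
  have hvol1 : volume {z' : Cn k | nsq (z' - z) ≤ r ^ 2} ≠ ⊤ := by
    rw [hvol]
    exact ENNReal.mul_ne_top ENNReal.ofReal_ne_top hb1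
  have hint92 : IntegrableOn (fun z => -g z) (cpd (k := k) (9 / 2)) :=
    (hg.continuousOn.neg.mono h92).integrableOn_compact (isCompact_cpd _)
  have hint : IntegrableOn (fun z => -g z) {z' : Cn k | nsq (z' - z) ≤ r ^ 2} :=
    hint92.mono_set (hsubb r hr z hz)
  obtain ⟨x, hx, hx'⟩ := exists_le_setAverage hvol0 hvol1 hint
  refine ⟨x, hx, ?_⟩
  have e1 : ∫ a in {z' : Cn k | nsq (z' - z) ≤ r ^ 2}, -g a ≤ C * L := by
    refine (setIntegral_mono_set hint92 ?_ (hsubb r hr z hz).eventuallyLE).trans hI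
    refine (ae_restrict_iff' (isClosed_cpd _).measurableSet).2 (Eventually.of_forall fun y hy => ?_)
    have := h0 y (h92 hy)
    simpa using this
  rw [setAverage_eq, smul_eq_mul, measureReal_def, hvol, ENNReal.toReal_mul,
    ENNReal.toReal_ofReal hrk.le] at hx'
  have e2 : (r ^ (2 * k) * b.toReal)⁻¹ * ∫ a in {z' : Cn k | nsq (z' - z) ≤ r ^ 2}, -g a ≤
      (r ^ (2 * k) * b.toReal)⁻¹ * (C * L) := mul_le_mul_of_nonneg_left e1 (by positivity)
  have e3 : (r ^ (2 * k) * b.toReal)⁻¹ * (C * L) = C / b.toReal * L * (1 / r) ^ (2 * k) := by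
    rw [one_div, inv_pow]
    field_simp
  rw [e3] at e2
  linarith

end Pool.Agent.KRFF

end

section

/-!
# The mean value inequality over balls
-/

open scoped ContDiff ENNReal ComplexOrder Topology
open Set MeasureTheory Filter Pool.Agent.ToricKRF Pool.Agent.ToricKRF.G Pool.Agent.KRFS
  Pool.Agent.KRFF Pool.Agent.KRFG

namespace Pool.Agent.KRFH

namespace BallM

variable {n : ℕ}

theorem continuous_nsq : Continuous (nsq : Cn n → ℝ) := Fb.contDiff_nsq.continuous

/-- smooth functions with non-negative Levi form -/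
theorem pshC_of_levz {G : Cn n → ℝ} {V : Set (Cn n)} (hV : IsOpen V) (hG : ContDiffOn ℝ ∞ G V)
    (hp : ∀ z ∈ V, ∀ u, 0 ≤ levz G u z) : PshC G V := by
  refine pshC_of_touch hV hG.continuousOn fun z hz _ v => ?_
  have hl : line z v 0 = z := by simp [line]
  refine ⟨fun ζ => G (line z v ζ), ?_, by simp only [hl], Eventually.of_forall fun ζ => le_rfl, ?_⟩
  · have h1 : ContDiffAt ℝ ∞ G (line z v 0) := by
      rw [hl]
      exact hG.contDiffAt (hV.mem_nhds hz)
    exact (h1.comp (0 : ℂ) (contDiff_line z v).contDiffAt).of_le two_le_infty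
  · have hU : IsOpen ((univ : Set ℝ) ×ˢ V) := isOpen_univ.prod hV
    have hf : ContDiffOn ℝ ∞ (fun q : ℝ × Cn n => G q.2) (univ ×ˢ V) :=
      hG.comp contDiffOn_snd fun q hq => hq.2
    have hz' : line z v 0 ∈ V := by
      rw [hl]
      exact hz
    have h1 := lapC_line hU hf (t := 0) (z := z) (v := v) (ζ := 0) ⟨mem_univ _, hz'⟩
    rw [lev_snd hV hG hz'] at h1
    have h2 : lapC (fun ζ => G (line z v ζ)) 0 = 4 * levz G v (line z v 0) := h1
    rw [h2]
    have := hp _ hz' v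
    linarith

theorem nsq_eq_sum (u : Cn n) : nsq u = ∑ j, (u.1 j ^ 2 + u.2 j ^ 2) := by
  simp only [nsq, dotProduct, ← Finset.sum_add_distrib]
  exact Finset.sum_congr rfl fun j _ => by ring

theorem nsq_mulC {a : Fin n → ℂ} (ha : ∀ j, ‖a j‖ = 1) (w : Cn n) : nsq (mulC a w) = nsq w := by
  rw [nsq_eq_sum, nsq_eq_sum]
  refine Finset.sum_congr rfl fun j _ => ?_
  rw [normSq_mulC, Complex.normSq_eq_norm_sq, ha j]
  ring

theorem nsq_mulC_const (ζ : ℂ) (w : Cn n) : nsq (mulC (fun _ => ζ) w) = ‖ζ‖ ^ 2 * nsq w := by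
  rw [nsq_eq_sum, nsq_eq_sum, Finset.mul_sum]
  refine Finset.sum_congr rfl fun j _ => ?_
  rw [normSq_mulC, Complex.normSq_eq_norm_sq]

/-- mean value inequality over balls with centre `0` -/
theorem mean_zero {G : Cn n → ℝ} {r : ℝ} (hB : IsCompact {w : Cn n | nsq w ≤ r ^ 2})
    (hG : ContinuousOn G {w : Cn n | nsq w ≤ r ^ 2})
    (h : ∀ w, nsq w ≤ r ^ 2 → G 0 ≤ cavg (fun ζ => G (line 0 w ζ)) 1) :
    (volume {w : Cn n | nsq w ≤ r ^ 2}).toReal * G 0 ≤ ∫ w in {w : Cn n | nsq w ≤ r ^ 2}, G w := by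
  set B : Set (Cn n) := {w : Cn n | nsq w ≤ r ^ 2} with hBdef
  set a : ℝ → Fin n → ℂ := fun θ _ => Complex.exp (θ * Complex.I) with ha
  have hac : Continuous a := by
    rw [ha]
    fun_prop
  have han : ∀ θ j, ‖a θ j‖ = 1 := fun θ j => Complex.norm_exp_ofReal_mul_I θ
  have hinv : ∀ θ, ∫ w in B, G (mulC (a θ) w) = ∫ w in B, G w := by
    intro θ
    have h1 := (measurePreserving_mulC (han θ)).setIntegral_preimage_emb
      (measurableEmbedding_mulC (han θ)) G B
    have h2 : (mulC (a θ) : Cn n → Cn n) ⁻¹' B = B := by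
      ext w
      change nsq (mulC (a θ) w) ≤ r ^ 2 ↔ nsq w ≤ r ^ 2
      rw [nsq_mulC (han θ)]
    rwa [h2] at h1
  have hpi : (0 : ℝ) < 2 * Real.pi := by positivity
  have hK : IsCompact (Icc (0 : ℝ) (2 * Real.pi) ×ˢ B) := isCompact_Icc.prod hB
  have hcont : ContinuousOn (fun q : ℝ × Cn n => G (mulC (a q.1) q.2))
      (Icc (0 : ℝ) (2 * Real.pi) ×ˢ B) := by
    refine hG.comp (f := fun q : ℝ × Cn n => mulC (a q.1) q.2) ?_ fun q hq => ?_
    · exact (continuous_mulC.comp ((hac.comp continuous_fst).prodMk continuous_snd)).continuousOn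
    · change nsq (mulC (a q.1) q.2) ≤ r ^ 2
      rw [nsq_mulC (han _)]
      exact hq.2
  have hint : Integrable (fun q : ℝ × Cn n => G (mulC (a q.1) q.2))
      ((volume.restrict (Icc (0 : ℝ) (2 * Real.pi))).prod (volume.restrict B)) := by
    rw [Measure.prod_restrict]
    exact hcont.integrableOn_compact hK
  have h1 := integral_integral_swap (f := fun θ w => G (mulC (a θ) w)) hint
  have h2 : ∫ θ in Icc (0 : ℝ) (2 * Real.pi), ∫ w in B, G (mulC (a θ) w) =
      2 * Real.pi * ∫ w in B, G w := by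
    simp only [hinv]
    rw [setIntegral_const]
    simp [hpi.le]
  rw [h2] at h1
  have h3 : ∫ w in B, 2 * Real.pi * G 0 ≤
      ∫ w in B, ∫ θ in Icc (0 : ℝ) (2 * Real.pi), G (mulC (a θ) w) := by
    refine setIntegral_mono_on ?_ ?_ hB.measurableSet fun w hw => ?_
    · exact integrableOn_const hB.measure_lt_top.ne
    · exact hint.integral_prod_right
    · have h4 := h w hw
      have h5 : ∀ θ : ℝ, line 0 w (((1 : ℝ) : ℂ) * Complex.exp (θ * Complex.I)) =
          mulC (a θ) w := by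
        intro θ
        rw [line_eq_mulC, Complex.ofReal_one, one_mul, zero_add]
      have h6 := cavg_mul (fun ζ => G (line 0 w ζ)) 1
      simp only [h5] at h6
      rw [intervalIntegral.integral_of_le hpi.le, ← integral_Icc_eq_integral_Ioc] at h6
      rw [← h6]
      exact mul_le_mul_of_nonneg_left h4 hpi.le
  rw [setIntegral_const, ← h1, smul_eq_mul] at h3
  have h7 : volume.real B * (2 * Real.pi * G 0) = 2 * Real.pi * ((volume B).toReal * G 0) := by
    rw [Measure.real]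
    ring
  rw [h7] at h3
  exact le_of_mul_le_mul_left h3 hpi

/-- mean value inequality over balls -/
theorem mean_ball {G : Cn n → ℝ} {V : Set (Cn n)} (hG : PshC G V) {z : Cn n} {r : ℝ} (hr : 0 ≤ r)
    (hsub : {w | nsq (w - z) ≤ r ^ 2} ⊆ V) :
    (volume {w : Cn n | nsq (w - z) ≤ r ^ 2}).toReal * G z ≤
      ∫ w in {w : Cn n | nsq (w - z) ≤ r ^ 2}, G w := by
  have := PshG.isAddHaar_Cn n
  have hB : IsCompact {w : Cn n | nsq w ≤ r ^ 2} := by
    refine Metric.isCompact_of_isClosed_isBounded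
      (isClosed_le continuous_nsq continuous_const)
      ((Metric.isBounded_closedBall (x := (0 : Cn n)) (r := r)).subset fun w hw => ?_)
    rw [mem_closedBall_zero_iff]
    exact norm_le_of_nsq_le hr hw
  have hm : ∀ w : Cn n, nsq w ≤ r ^ 2 → z + w ∈ V := fun w hw => hsub (by
    change nsq (z + w - z) ≤ r ^ 2
    rwa [add_sub_cancel_left])
  have hline : ∀ (w : Cn n) (ζ : ℂ), z + line 0 w ζ = line z w ζ := by
    intro w ζ
    rw [line_eq_mulC, line_eq_mulC, zero_add]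
  have h1 := mean_zero (G := fun w => G (z + w)) hB
    (hG.1.comp (by fun_prop) fun w hw => hm w hw) (by
      intro w hw
      have h2 := hG.2 z w (by
        intro ζ hζ
        rw [line_eq_mulC]
        refine hm _ ?_
        rw [nsq_mulC_const]
        have h3 : ‖ζ‖ ^ 2 ≤ 1 := by nlinarith [norm_nonneg ζ]
        have h4 := Fb.nsq_nonneg w
        nlinarith)
      simp only [hline, add_zero]
      exact h2)
  have hset : {w : Cn n | nsq (w - z) ≤ r ^ 2} = (fun x => z + x) '' {w : Cn n | nsq w ≤ r ^ 2} := by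
    ext w
    constructor
    · intro hw
      exact ⟨w - z, hw, by simp⟩
    · rintro ⟨x, hx, rfl⟩
      change nsq (z + x - z) ≤ r ^ 2
      rwa [add_sub_cancel_left]
  have e1 : ∫ x in {w : Cn n | nsq w ≤ r ^ 2}, G (z + x) =
      ∫ x in (fun x => z + x) '' {w : Cn n | nsq w ≤ r ^ 2}, G x :=
    ((measurePreserving_add_left (volume : Measure (Cn n)) z).setIntegral_image_emb
      (measurableEmbedding_addLeft z) (fun x => G x) _).symm
  have e2 : volume ((fun x => z + x) '' {w : Cn n | nsq w ≤ r ^ 2}) =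
      volume {w : Cn n | nsq w ≤ r ^ 2} := by
    rw [image_add_left, measure_preimage_add]
  rw [hset, ← e1, e2]
  simpa using h1

end BallM

section Flow

variable {n : ℕ} {M : Type} [TopologicalSpace M] [CompactSpace M] [T2Space M] {κ : Type} {T : ℝ}
  (F : Flow n M κ T)

open BallM

/-- `φ` in a chart -/
theorem BallM.phi_slice {n : ℕ} {M : Type} [TopologicalSpace M] {κ : Type} {T : ℝ}
    (F : Flow n M κ T) (c : κ) {t : ℝ} (ht : t ∈ Ico 0 T) :
    ContDiffOn ℝ ∞ (fun z => F.phi c (t, z)) (F.e c).target := by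
  obtain ⟨U, hU, hsub, hs⟩ := F.phi_isFun.smooth c
  exact hs.comp (contDiff_const.prodMk contDiff_id).contDiffOn fun z hz => hsub ⟨ht, hz⟩

/-- lower bound of the Levi form of `φ` on a compact subset of a chart -/
theorem BallM.levz_phi_ge {n : ℕ} {M : Type} [TopologicalSpace M] {κ : Type} {T : ℝ}
    (F : Flow n M κ T) (hT : 0 < T) (c : κ) {A : Set (Cn n)} (hA : IsCompact A)
    (hAt : A ⊆ (F.e c).target) : ∃ C : ℝ, 0 ≤ C ∧ ∀ t ∈ Ico 0 T, ∀ z ∈ A, ∀ v,
      -(C * nsq v) ≤ levz (fun z => F.phi c (t, z)) v z := by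
  have h0 : (0 : ℝ) ∈ Ico 0 T := ⟨le_rfl, hT⟩
  obtain ⟨U, hU, hsub, hs⟩ := F.krf.smooth c
  have hsl : ContDiffOn ℝ ∞ (fun z => F.ψ c (0, z)) (F.e c).target :=
    hs.comp (contDiff_const.prodMk contDiff_id).contDiffOn fun z hz => hsub ⟨h0, hz⟩
  have key : ∀ f : Cn n → ℝ, ContDiffOn ℝ ∞ f (F.e c).target → ∃ C : ℝ, 0 ≤ C ∧
      ∀ z ∈ A, ∀ v, levz f v z ≤ C * nsq v := by
    intro f hf
    exact quad_le hA (fun x v => levz f v x) (fun _ v => nsq v)
      ((levz_continuousOn (F.e c).open_target hf).mono (prod_mono hAt le_rfl))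
      ((continuous_nsq.comp continuous_snd).continuousOn)
      (fun x hx r v => Bd.levz_smul (F.e c).open_target hf (hAt hx) r v)
      (fun x _ r v => by
        simp only [nsq, Prod.smul_fst, Prod.smul_snd, dotProduct_smul, smul_dotProduct, smul_eq_mul]
        ring)
      (fun x _ v hv => Fb.nsq_pos hv)
  obtain ⟨C₁, hC₁, h₁⟩ := key _ hsl
  obtain ⟨C₂, hC₂, h₂⟩ := key _ (F.smooth c)
  refine ⟨C₁ + C₂, by positivity, fun t ht z hz v => ?_⟩
  obtain ⟨U', hU', hsub', hs'⟩ := F.phi_isFun.smooth c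
  have hzt := hAt hz
  have e1 : levz (fun z => F.phi c (t, z)) v z = lev (F.phi c) v (t, z) :=
    levz_slice hU' hs' (hsub' ⟨ht, hzt⟩) v
  have e2 : levz (fun z => F.ψ c (0, z)) v z = lev (F.ψ c) v (0, z) :=
    levz_slice hU hs (hsub ⟨h0, hzt⟩) v
  rw [e1, F.lev_phi ht hzt]
  have h3 : 0 ≤ lev (F.ψ c) v (t, z) := Fb.lev_nonneg F ht hzt v
  have h4 := h₁ z hz v
  have h5 := h₂ z hz v
  rw [e2] at h4
  have h6 : 0 ≤ t / T := div_nonneg ht.1 hT.le
  have h7 : t / T ≤ 1 := (div_le_one hT).2 ht.2.le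
  have h8 := Fb.nsq_nonneg v
  have h9 : (1 - t / T) * lev (F.ψ c) v (0, z) ≤ C₁ * nsq v := by
    calc (1 - t / T) * lev (F.ψ c) v (0, z) ≤ (1 - t / T) * (C₁ * nsq v) :=
          mul_le_mul_of_nonneg_left h4 (by linarith)
      _ ≤ 1 * (C₁ * nsq v) := mul_le_mul_of_nonneg_right (by linarith) (by positivity)
      _ = C₁ * nsq v := one_mul _
  have h10 : t / T * levz (F.Θ c) v z ≤ C₂ * nsq v := by
    calc t / T * levz (F.Θ c) v z ≤ t / T * (C₂ * nsq v) := mul_le_mul_of_nonneg_left h5 h6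
      _ ≤ 1 * (C₂ * nsq v) := mul_le_mul_of_nonneg_right h7 (by positivity)
      _ = C₂ * nsq v := one_mul _
  linarith

/-- `L/BallM.lean`: from the mean value inequality for `φ + C |z|^2` -/
theorem Flow.ball_good {c : κ} {z₀ : Cn n} (hz₀ : z₀ ∈ (F.e c).target) : ∃ C r₀ δ : ℝ, 0 < C ∧
    0 < r₀ ∧ 0 < δ ∧ {z | nsq (z - z₀) ≤ (2 * r₀) ^ 2} ⊆ (F.e c).target ∧
    ∀ t ∈ Ico 0 T, T - t < δ → ∀ z, nsq (z - z₀) ≤ r₀ ^ 2 → ∀ r ∈ Ioc (0 : ℝ) r₀,
      C * r ^ 2 ≤ √(T - t) → ENNReal.ofReal (C⁻¹ * √(T - t) * r ^ (2 * n)) ≤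
        volume {w | nsq (w - z) ≤ r ^ 2 ∧
          F.Phi t ((F.e c).symm z) - √(T - t) ≤ F.Phi t ((F.e c).symm w)} := by
  have := PshG.isAddHaar_Cn n
  obtain ⟨R, hR, hRc, hRt⟩ := exists_ball ((F.e c).open_target.mem_nhds hz₀)
  have hsub2 : {z | nsq (z - z₀) ≤ (2 * (R / 3)) ^ 2} ⊆ (F.e c).target := by
    refine Subset.trans (fun z hz => ?_) hRt
    have hz' : nsq (z - z₀) ≤ (2 * (R / 3)) ^ 2 := hz
    change nsq (z - z₀) ≤ R ^ 2
    nlinarith
  by_cases hT : 0 < T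
  swap
  · exact ⟨1, R / 3, 1, one_pos, by positivity, one_pos, hsub2,
      fun t ht => absurd (lt_of_le_of_lt ht.1 ht.2) hT⟩
  obtain ⟨C₃, hC₃, hlev⟩ := BallM.levz_phi_ge F hT c hRc hRt
  obtain ⟨K₀, hK₀, hK⟩ := F.Phi_bound
  have hcpt : IsCompact {z' : Cn n | nsq z' ≤ 1} := by
    refine Metric.isCompact_of_isClosed_isBounded
      (isClosed_le continuous_nsq continuous_const)
      ((Metric.isBounded_closedBall (x := (0 : Cn n)) (r := 1)).subset fun w hw => ?_)
    rw [mem_closedBall_zero_iff]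
    exact norm_le_of_nsq_le zero_le_one (by rw [one_pow]; exact hw)
  set w₀ : ℝ := (volume {z' : Cn n | nsq z' ≤ 1}).toReal with hw₀
  have hw₀0 : 0 < w₀ := by
    refine ENNReal.toReal_pos ?_ hcpt.measure_lt_top.ne
    have h1 : IsOpen {z' : Cn n | nsq z' < 1} := isOpen_lt continuous_nsq continuous_const
    have h2 : 0 < volume {z' : Cn n | nsq z' < 1} := h1.measure_pos volume ⟨0, by
      change nsq (0 : Cn n) < 1
      simp [nsq]⟩
    exact (lt_of_lt_of_le h2 (measure_mono fun x (hx : nsq x < 1) => (le_of_lt hx : nsq x ≤ 1))).ne'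
  set C : ℝ := 2 * C₃ + 1 + 2 * (2 * K₀ + 1) / w₀ with hC
  have hC0 : 0 < C := by positivity
  refine ⟨C, R / 3, 1, hC0, by positivity, one_pos, hsub2, ?_⟩
  intro t ht ht1 z hz r hr hCr
  set ε : ℝ := √(T - t) with hε
  have hTt : 0 < T - t := by linarith [ht.2]
  have hε0 : 0 < ε := Real.sqrt_pos.2 hTt
  have hε1 : ε ≤ 1 := by
    rw [hε]
    exact Real.sqrt_le_one.2 ht1.le
  have hr0 : 0 < r := hr.1
  set V : Set (Cn n) := {w | nsq (w - z₀) < R ^ 2} with hV
  have hVo : IsOpen V := isOpen_lt (continuous_nsq.comp (by fun_prop)) continuous_const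
  have hVR : V ⊆ {w | nsq (w - z₀) ≤ R ^ 2} := fun w (hw : nsq (w - z₀) < R ^ 2) =>
    (le_of_lt hw : nsq (w - z₀) ≤ R ^ 2)
  have hVt : V ⊆ (F.e c).target := hVR.trans hRt
  set B : Set (Cn n) := {w | nsq (w - z) ≤ r ^ 2} with hB
  have hin : ∀ w ∈ B, nsq (w - z₀) ≤ (2 * (R / 3)) ^ 2 := by
    intro w hw
    have h1 : nsq (w - z) ≤ r ^ 2 := hw
    have h2 : nsq (w - z) ≤ (R / 3) ^ 2 := by
      have := hr.2
      nlinarith
    have h3 : nsq (w - z₀) ≤ 2 * nsq (w - z) + 2 * nsq (z - z₀) := by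
      have h4 : ∀ a b : Cn n, nsq (a + b) ≤ 2 * nsq a + 2 * nsq b := by
        intro a b
        rw [nsq_eq_sum, nsq_eq_sum, nsq_eq_sum, Finset.mul_sum, Finset.mul_sum,
          ← Finset.sum_add_distrib]
        refine Finset.sum_le_sum fun i _ => ?_
        simp only [Prod.fst_add, Prod.snd_add, Pi.add_apply]
        nlinarith [sq_nonneg (a.1 i - b.1 i), sq_nonneg (a.2 i - b.2 i)]
      have := h4 (w - z) (z - z₀)
      rwa [sub_add_sub_cancel] at this
    nlinarith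
  have hBV : B ⊆ V := by
    intro w hw
    have h1 := hin w hw
    change nsq (w - z₀) < R ^ 2
    nlinarith
  have hBc : IsCompact B := hRc.of_isClosed_subset
    (isClosed_le (continuous_nsq.comp (by fun_prop)) continuous_const) (hBV.trans hVR)
  -- the plurisubharmonic function
  have hφs : ContDiffOn ℝ ∞ (fun w => F.phi c (t, w)) (F.e c).target := BallM.phi_slice F c ht
  have hnz : ContDiff ℝ ∞ (fun w : Cn n => C₃ * nsq (w - z)) :=
    contDiff_const.mul (Fb.contDiff_nsq.comp (contDiff_id.sub contDiff_const))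
  have hpsh : PshC (fun w => F.phi c (t, w) + C₃ * nsq (w - z)) V := by
    refine pshC_of_levz hVo ((hφs.mono hVt).add hnz.contDiffOn) fun w hw u => ?_
    have d1 : ContDiffAt ℝ 2 (fun w => F.phi c (t, w)) w :=
      (hφs.contDiffAt ((F.e c).open_target.mem_nhds (hVt hw))).of_le two_le_infty
    have d2 : ContDiffAt ℝ 2 (fun w : Cn n => nsq (w - z)) w :=
      ((Fb.contDiff_nsq.comp (contDiff_id.sub contDiff_const)).contDiffAt).of_le two_le_infty
    rw [Bd.levz_add d1 (contDiffAt_const.mul d2), Bd.levz_const_mul _ d2, Gap.levz_nsq]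
    have := hlev t ht w (hVR hw) u
    linarith
  have hmean := mean_ball hpsh hr0.le hBV
  have hvol : (volume B).toReal = r ^ (2 * n) * w₀ := by
    rw [hB, PshG.volume_nball n z hr0, ENNReal.toReal_mul, ENNReal.toReal_ofReal (by positivity)]
  have hz' : z ∈ B := by
    change nsq (z - z) ≤ r ^ 2
    simp only [sub_self, nsq, Prod.fst_zero, Prod.snd_zero, dotProduct_zero, add_zero]
    positivity
  have hPhi : ∀ w ∈ B, F.Phi t ((F.e c).symm w) = F.phi c (t, w) := by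
    intro w hw
    have hwt := hVt (hBV hw)
    rw [F.Phi_eq ht ((F.e c).map_target hwt), (F.e c).right_inv hwt]
  set A : Set (Cn n) := {w | nsq (w - z) ≤ r ^ 2 ∧
    F.Phi t ((F.e c).symm z) - ε ≤ F.Phi t ((F.e c).symm w)} with hA
  have hAB : A ⊆ B := fun w hw => hw.1
  have hφc : ContinuousOn (fun w => F.phi c (t, w)) B :=
    hφs.continuousOn.mono (hBV.trans hVt)
  have hAe : A = B ∩ (fun w => F.phi c (t, w)) ⁻¹' Ici (F.phi c (t, z) - ε) := by
    ext w
    constructor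
    · rintro ⟨h1, h2⟩
      rw [hPhi z hz', hPhi w h1] at h2
      exact ⟨h1, h2⟩
    · rintro ⟨h1, h2⟩
      refine ⟨h1, ?_⟩
      rw [hPhi z hz', hPhi w h1]
      exact h2
  have hAm : MeasurableSet A := by
    rw [hAe]
    exact (hφc.preimage_isClosed_of_isClosed hBc.isClosed isClosed_Ici).measurableSet
  have hAfin : volume A ≠ ⊤ := (lt_of_le_of_lt (measure_mono hAB) hBc.measure_lt_top).ne
  have hK' : ∀ w ∈ B, |F.phi c (t, w)| ≤ K₀ := by
    intro w hw
    rw [← hPhi w hw]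
    exact hK t ht _
  -- the upper bound of the integral
  have hup : ∫ w in B, (F.phi c (t, w) + C₃ * nsq (w - z)) ≤
      ∫ w in B, ((F.phi c (t, z) - ε + C₃ * r ^ 2) + A.indicator (fun _ => 2 * K₀ + 1) w) := by
    refine setIntegral_mono_on ?_ ?_ hBc.measurableSet fun w hw => ?_
    · exact (hφc.add hnz.continuous.continuousOn).integrableOn_compact hBc
    · refine (integrableOn_const hBc.measure_lt_top.ne).add ?_
      exact ((integrableOn_const (C := 2 * K₀ + 1) hBc.measure_lt_top.ne).indicator hAm)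
    · have h1 : nsq (w - z) ≤ r ^ 2 := hw
      have h2 : C₃ * nsq (w - z) ≤ C₃ * r ^ 2 := mul_le_mul_of_nonneg_left h1 hC₃
      have h3 := abs_le.1 (hK' w hw)
      have h4 := abs_le.1 (hK' z hz')
      by_cases hwA : w ∈ A
      · rw [indicator_of_mem hwA]
        linarith
      · rw [indicator_of_notMem hwA]
        have h5 : F.phi c (t, w) < F.phi c (t, z) - ε := by
          by_contra h6
          rw [not_lt] at h6
          exact hwA (by rw [hAe]; exact ⟨hw, h6⟩)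
        linarith
  have hint2 : ∫ w in B, ((F.phi c (t, z) - ε + C₃ * r ^ 2) + A.indicator (fun _ => 2 * K₀ + 1) w) =
      (volume B).toReal * (F.phi c (t, z) - ε + C₃ * r ^ 2) + (volume A).toReal * (2 * K₀ + 1) := by
    have i1 : Integrable (fun _ : Cn n => F.phi c (t, z) - ε + C₃ * r ^ 2)
        (volume.restrict B) := integrableOn_const hBc.measure_lt_top.ne
    have i2 : Integrable (fun w => A.indicator (fun _ => 2 * K₀ + 1) w) (volume.restrict B) :=
      (integrableOn_const (C := 2 * K₀ + 1) hBc.measure_lt_top.ne).indicator hAm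
    rw [integral_add i1 i2, setIntegral_const, setIntegral_indicator hAm, setIntegral_const, inter_eq_right.2 hAB]
    rfl
  have hz0 : nsq (z - z) = 0 := by simp [nsq]
  have hfin : (volume B).toReal * (ε - C₃ * r ^ 2) ≤ (volume A).toReal * (2 * K₀ + 1) := by
    have h1 := hmean.trans (hup.trans_eq hint2)
    simp only [hz0, mul_zero, add_zero] at h1
    have h2 : (volume B).toReal * (F.phi c (t, z) - ε + C₃ * r ^ 2) =
      (volume B).toReal * F.phi c (t, z) - (volume B).toReal * (ε - C₃ * r ^ 2) := by ring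
    rw [h2] at h1
    linarith
  have hε2 : ε / 2 ≤ ε - C₃ * r ^ 2 := by
    have h1 : 2 * C₃ * r ^ 2 ≤ C * r ^ 2 := by
      refine mul_le_mul_of_nonneg_right ?_ (by positivity)
      have : 0 ≤ 2 * (2 * K₀ + 1) / w₀ := by positivity
      linarith
    linarith
  have hfin2 : C⁻¹ * ε * r ^ (2 * n) ≤ (volume A).toReal := by
    have h1 : r ^ (2 * n) * w₀ * (ε / 2) ≤ (volume A).toReal * (2 * K₀ + 1) := by
      rw [← hvol]
      exact (mul_le_mul_of_nonneg_left hε2 ENNReal.toReal_nonneg).trans hfin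
    have h2 : 2 * (2 * K₀ + 1) / w₀ ≤ C := by linarith
    have h3 : 2 * (2 * K₀ + 1) ≤ C * w₀ := by
      rwa [div_le_iff₀ hw₀0] at h2
    rw [mul_assoc, inv_mul_le_iff₀ hC0]
    have h4 : 0 < 2 * (2 * K₀ + 1) := by positivity
    have h5 : 0 ≤ ε * r ^ (2 * n) := by positivity
    have h6 : ε * r ^ (2 * n) * (2 * (2 * K₀ + 1)) ≤ C * (volume A).toReal * (2 * (2 * K₀ + 1)) := by
      calc ε * r ^ (2 * n) * (2 * (2 * K₀ + 1)) ≤ ε * r ^ (2 * n) * (C * w₀) :=
            mul_le_mul_of_nonneg_left h3 h5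
        _ = 2 * C * (r ^ (2 * n) * w₀ * (ε / 2)) := by ring
        _ ≤ 2 * C * ((volume A).toReal * (2 * K₀ + 1)) :=
            mul_le_mul_of_nonneg_left h1 (by positivity)
        _ = C * (volume A).toReal * (2 * (2 * K₀ + 1)) := by ring
    exact le_of_mul_le_mul_right h6 h4
  calc ENNReal.ofReal (C⁻¹ * ε * r ^ (2 * n)) ≤ ENNReal.ofReal (volume A).toReal :=
        ENNReal.ofReal_le_ofReal hfin2
    _ = volume A := ENNReal.ofReal_toReal hAfin

end Flow

end Pool.Agent.KRFH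

end
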