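import Mathlib
import Pool.Agent.Work.MP_a2bf38_gt.Fu.X.LocComp
import Pool.Agent.Work.MP_a2bf38_gt.Fu.Q.Wirt
import Pool.Agent.Work.MP_a2bf38_gt.Fu.I.FBound

section

/-!
# KRF III, contact set lemma: linear algebra

For a positive semidefinite real form `H` on `ℂ^k = ℝ^k × ℝ^k` with `(1,1)`-part `h`,
`det H ≤ 4^k (det h)^2`.
-/

open scoped ComplexOrder Matrix

namespace Pool.Agent.KRFS

variable {k : ℕ}

/-- The `(1,1)`-part of a real form on `ℂ^k = ℝ^k × ℝ^k`. -/
noncomputable def cpart (H : Matrix (Fin k ⊕ Fin k) (Fin k ⊕ Fin k) ℝ) :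
    Matrix (Fin k) (Fin k) ℂ :=
  Matrix.of fun i j => ⟨(H (.inl i) (.inl j) + H (.inr i) (.inr j)) / 4,
    (H (.inl i) (.inr j) - H (.inr i) (.inl j)) / 4⟩

/-- The real matrix of the complex linear map `P`. -/
noncomputable def realify (P : Matrix (Fin k) (Fin k) ℂ) :
    Matrix (Fin k ⊕ Fin k) (Fin k ⊕ Fin k) ℝ :=
  Matrix.fromBlocks (P.map Complex.re) (-(P.map Complex.im)) (P.map Complex.im) (P.map Complex.re)

theorem det_realify (P : Matrix (Fin k) (Fin k) ℂ) :
    (realify P).det = Complex.normSq P.det := by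
  set A : Matrix (Fin k) (Fin k) ℂ := P.map fun z => (z.re : ℂ) with hA
  set B : Matrix (Fin k) (Fin k) ℂ := P.map fun z => (z.im : ℂ) with hB
  have h1 : (realify P).map (fun x : ℝ => (x : ℂ)) = Matrix.fromBlocks A (-B) B A := by
    unfold realify
    rw [Matrix.fromBlocks_map]
    congr 1
    ext i j
    simp [hB]
  have h2 : Matrix.fromBlocks 1 (Complex.I • (1 : Matrix (Fin k) (Fin k) ℂ)) 0 1 *
      Matrix.fromBlocks A (-B) B A *
      Matrix.fromBlocks 1 (-(Complex.I • (1 : Matrix (Fin k) (Fin k) ℂ))) 0 1 =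
      Matrix.fromBlocks (A + Complex.I • B) 0 B (A - Complex.I • B) := by
    rw [Matrix.fromBlocks_multiply, Matrix.fromBlocks_multiply]
    congr 1
    · simp
    · simp only [Matrix.one_mul, Matrix.mul_one, Matrix.mul_neg, smul_mul_assoc,
        Matrix.mul_smul, smul_add, smul_smul, Complex.I_mul_I]
      rw [neg_one_smul]
      abel
    · simp
    · simp only [Matrix.zero_mul, Matrix.one_mul, Matrix.mul_one, Matrix.mul_neg,
        Matrix.mul_smul, zero_add]
      abel
  have h3 : A + Complex.I • B = P := by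
    ext i j
    simp only [hA, hB, Matrix.add_apply, Matrix.smul_apply, Matrix.map_apply, smul_eq_mul]
    rw [mul_comm]
    exact Complex.re_add_im _
  have h4 : A - Complex.I • B = P.map (starRingEnd ℂ) := by
    ext i j
    simp only [hA, hB, Matrix.sub_apply, Matrix.smul_apply, Matrix.map_apply, smul_eq_mul]
    apply Complex.ext <;> simp
  have h5 : (Matrix.fromBlocks A (-B) B A).det = P.det * (P.map (starRingEnd ℂ)).det := by
    have h6 := congrArg Matrix.det h2
    rw [Matrix.det_mul, Matrix.det_mul, Matrix.det_fromBlocks_zero₂₁,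
      Matrix.det_fromBlocks_zero₂₁, Matrix.det_fromBlocks_zero₁₂, h3, h4] at h6
    simpa using h6
  have h7 : (P.map (starRingEnd ℂ)).det = starRingEnd ℂ P.det := by
    exact (RingHom.map_det (starRingEnd ℂ) P).symm
  have h8 : (((realify P).det : ℝ) : ℂ) = (Complex.normSq P.det : ℂ) := by
    have h9 : (((realify P).det : ℝ) : ℂ) =
        ((realify P).map (fun x : ℝ => (x : ℂ))).det := RingHom.map_det Complex.ofRealHom _
    rw [h9, h1, h5, h7, Complex.mul_conj]
  exact_mod_cast h8

/-- `E z = (z, i z)` -/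
noncomputable def emb (k : ℕ) : Matrix (Fin k ⊕ Fin k) (Fin k) ℂ :=
  Matrix.fromRows 1 (Complex.I • (1 : Matrix (Fin k) (Fin k) ℂ))

theorem cpart_eq (H : Matrix (Fin k ⊕ Fin k) (Fin k ⊕ Fin k) ℝ) :
    (4 : ℂ) • cpart H = (emb k)ᴴ * H.map (fun x : ℝ => (x : ℂ)) * emb k := by
  ext i j
  rw [Matrix.mul_assoc]
  simp only [Matrix.smul_apply, cpart, Matrix.of_apply, Matrix.mul_apply,
    Matrix.conjTranspose_apply, Fintype.sum_sum_type, emb, Matrix.fromRows_apply_inl,
    Matrix.fromRows_apply_inr, Matrix.one_apply, Matrix.smul_apply, smul_eq_mul,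
    Matrix.map_apply]
  simp only [mul_ite, mul_one, mul_zero, RCLike.star_def, apply_ite (starRingEnd ℂ), map_one,
    map_zero, map_mul, Complex.conj_I, ite_mul, zero_mul, one_mul, Finset.sum_ite_eq',
    Finset.sum_ite_eq, Finset.mem_univ, if_true]
  apply Complex.ext
  · simp
    ring
  · simp
    ring

theorem realify_mul_emb (Q : Matrix (Fin k) (Fin k) ℂ) :
    (realify Q).map (fun x : ℝ => (x : ℂ)) * emb k = emb k * Q.map (starRingEnd ℂ) := by
  ext i j
  rcases i with i | i
  · simp only [realify, emb, Matrix.mul_apply, Fintype.sum_sum_type, Matrix.map_apply,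
      Matrix.fromBlocks_apply₁₁, Matrix.fromBlocks_apply₁₂, Matrix.fromRows_apply_inl,
      Matrix.fromRows_apply_inr, Matrix.one_apply, Matrix.smul_apply, smul_eq_mul,
      Matrix.neg_apply, mul_ite, mul_one, mul_zero, Finset.sum_ite_eq', Finset.mem_univ, if_true,
      ite_mul, one_mul, zero_mul, Finset.sum_ite_eq]
    apply Complex.ext <;> simp
  · simp only [realify, emb, Matrix.mul_apply, Fintype.sum_sum_type, Matrix.map_apply,
      Matrix.fromBlocks_apply₂₁, Matrix.fromBlocks_apply₂₂, Matrix.fromRows_apply_inl,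
      Matrix.fromRows_apply_inr, Matrix.one_apply, Matrix.smul_apply, smul_eq_mul,
      mul_ite, mul_one, mul_zero, Finset.sum_ite_eq', Finset.mem_univ, if_true,
      ite_mul, zero_mul, Finset.sum_ite_eq]
    apply Complex.ext <;> simp

theorem cpart_conj (H : Matrix (Fin k ⊕ Fin k) (Fin k ⊕ Fin k) ℝ)
    (P : Matrix (Fin k) (Fin k) ℂ) :
    cpart ((realify (P.map (starRingEnd ℂ)))ᵀ * H * realify (P.map (starRingEnd ℂ))) =
      Pᴴ * cpart H * P := by
  set R := realify (P.map (starRingEnd ℂ)) with hR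
  have h1 : (R.map fun x : ℝ => (x : ℂ)) * emb k = emb k * P := by
    rw [hR, realify_mul_emb]
    congr 1
    ext i j
    simp
  have h2 : (Rᵀ * H * R).map (fun x : ℝ => (x : ℂ)) =
      (R.map fun x : ℝ => (x : ℂ))ᴴ * H.map (fun x : ℝ => (x : ℂ)) *
        (R.map fun x : ℝ => (x : ℂ)) := by
    have e1 : ∀ X Y : Matrix (Fin k ⊕ Fin k) (Fin k ⊕ Fin k) ℝ,
        (X * Y).map (fun x : ℝ => (x : ℂ)) =
          X.map (fun x : ℝ => (x : ℂ)) * Y.map (fun x : ℝ => (x : ℂ)) :=
      fun X Y => Matrix.map_mul (f := Complex.ofRealHom)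
    rw [e1, e1]
    congr 2
    ext i j
    simp
  have h3 : (4 : ℂ) • cpart (Rᵀ * H * R) = (4 : ℂ) • (Pᴴ * cpart H * P) := by
    rw [cpart_eq, h2]
    have h4 : ((emb k)ᴴ : Matrix (Fin k) (Fin k ⊕ Fin k) ℂ) * (R.map fun x : ℝ => (x : ℂ))ᴴ =
        Pᴴ * (emb k)ᴴ := by
      rw [← Matrix.conjTranspose_mul, h1, Matrix.conjTranspose_mul]
    calc ((emb k)ᴴ : Matrix (Fin k) (Fin k ⊕ Fin k) ℂ) * ((R.map fun x : ℝ => (x : ℂ))ᴴ *
          H.map (fun x : ℝ => (x : ℂ)) * (R.map fun x : ℝ => (x : ℂ))) * emb k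
        = ((emb k)ᴴ * (R.map fun x : ℝ => (x : ℂ))ᴴ) * H.map (fun x : ℝ => (x : ℂ)) *
          ((R.map fun x : ℝ => (x : ℂ)) * emb k) := by
          simp only [Matrix.mul_assoc]
      _ = Pᴴ * ((emb k)ᴴ * H.map (fun x : ℝ => (x : ℂ)) * emb k) * P := by
          rw [h4, h1]
          simp only [Matrix.mul_assoc]
      _ = (4 : ℂ) • (Pᴴ * cpart H * P) := by
          rw [← cpart_eq]
          simp
  exact smul_right_injective _ (by norm_num : (4 : ℂ) ≠ 0) h3

theorem emb_injective : Function.Injective (emb k).mulVec := by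
  intro x y h
  funext i
  have h1 := congrFun h (Sum.inl i)
  simpa [emb, Matrix.fromRows_mulVec] using h1

theorem exists_factor {𝕜 ι : Type*} [RCLike 𝕜] [Fintype ι] [DecidableEq ι] {H : Matrix ι ι 𝕜}
    (hH : H.PosSemidef) : ∃ B : Matrix ι ι 𝕜, H = Bᴴ * B := by
  open scoped MatrixOrder in
  obtain ⟨y, hy⟩ := CStarAlgebra.nonneg_iff_eq_star_mul_self.mp hH.nonneg
  exact ⟨y, by rw [hy, Matrix.star_eq_conjTranspose]⟩

theorem cpart_posDef {H : Matrix (Fin k ⊕ Fin k) (Fin k ⊕ Fin k) ℝ} (hH : H.PosDef) :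
    (cpart H).PosDef := by
  have h1 : (H.map fun x : ℝ => (x : ℂ)).PosDef := by
    obtain ⟨B, hB⟩ := exists_factor hH.posSemidef
    have hdet : IsUnit B.det := by
      have h2 : IsUnit H.det := (Matrix.isUnit_iff_isUnit_det _).mp hH.isUnit
      rw [hB, Matrix.det_mul] at h2
      exact isUnit_of_mul_isUnit_right h2
    have h3 : (H.map fun x : ℝ => (x : ℂ)) =
        (B.map fun x : ℝ => (x : ℂ))ᴴ * 1 * (B.map fun x : ℝ => (x : ℂ)) := by
      rw [Matrix.mul_one]
      have e1 : ∀ X Y : Matrix (Fin k ⊕ Fin k) (Fin k ⊕ Fin k) ℝ,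
          (X * Y).map (fun x : ℝ => (x : ℂ)) =
            X.map (fun x : ℝ => (x : ℂ)) * Y.map (fun x : ℝ => (x : ℂ)) :=
        fun X Y => Matrix.map_mul (f := Complex.ofRealHom)
      conv_lhs => rw [hB, e1]
      congr 1
      ext i j
      simp
    rw [h3]
    refine Matrix.PosDef.one.conjTranspose_mul_mul_same ?_
    have h4 : IsUnit (B.map fun x : ℝ => (x : ℂ)) := by
      rw [Matrix.isUnit_iff_isUnit_det]
      have : (B.map fun x : ℝ => (x : ℂ)).det = ((B.det : ℝ) : ℂ) :=
        (RingHom.map_det Complex.ofRealHom _).symm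
      rw [this]
      exact hdet.map Complex.ofRealHom
    exact Matrix.mulVec_injective_of_isUnit h4
  have h2 : cpart H = ((1 / 4 : ℝ) : ℂ) • ((emb k)ᴴ * H.map (fun x : ℝ => (x : ℂ)) * emb k) := by
    rw [← cpart_eq, smul_smul]
    norm_num
  rw [h2]
  have h3 := h1.conjTranspose_mul_mul_same emb_injective
  exact h3.smul (by norm_num)

/-- arithmetic-geometric mean inequality for the determinant -/
theorem det_le_of_trace {ι : Type*} [Fintype ι] [DecidableEq ι] {H : Matrix ι ι ℝ}
    (hH : H.PosSemidef) (htr : H.trace = 2 * Fintype.card ι) : H.det ≤ 2 ^ Fintype.card ι := by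
  have h1 := hH.isHermitian.det_eq_prod_eigenvalues
  have h2 := hH.isHermitian.trace_eq_sum_eigenvalues
  simp only [RCLike.ofReal_real_eq_id, id] at h1 h2
  rw [h1]
  calc ∏ i, hH.isHermitian.eigenvalues i
      ≤ ∏ i, (2 * Real.exp (hH.isHermitian.eigenvalues i / 2 - 1)) := by
        refine Finset.prod_le_prod (fun i _ => hH.eigenvalues_nonneg i) fun i _ => ?_
        have := Real.add_one_le_exp (hH.isHermitian.eigenvalues i / 2 - 1)
        linarith
    _ = 2 ^ Fintype.card ι * Real.exp (∑ i, (hH.isHermitian.eigenvalues i / 2 - 1)) := by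
        rw [Finset.prod_mul_distrib, Real.exp_sum]
        simp
    _ = 2 ^ Fintype.card ι := by
        have h3 : ∑ i, (hH.isHermitian.eigenvalues i / 2 - 1) = 0 := by
          rw [Finset.sum_sub_distrib, ← Finset.sum_div, ← h2, htr]
          simp
        rw [h3, Real.exp_zero, mul_one]

theorem det_le_cpart {H : Matrix (Fin k ⊕ Fin k) (Fin k ⊕ Fin k) ℝ} (hH : H.PosSemidef) :
    H.det ≤ 4 ^ k * (cpart H).det.re ^ 2 := by
  by_cases hd : H.det = 0
  · rw [hd]
    positivity
  have hpd : H.PosDef := (hH.posDef_iff_det_ne_zero).2 hd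
  have hc := cpart_posDef hpd
  obtain ⟨y, hy⟩ := exists_factor hc.posSemidef
  have hydet : IsUnit y.det := by
    have h2 : IsUnit (cpart H).det := (Matrix.isUnit_iff_isUnit_det _).mp hc.isUnit
    rw [hy, Matrix.det_mul] at h2
    exact isUnit_of_mul_isUnit_right h2
  set P := y⁻¹ with hP
  have hyP : y * P = 1 := Matrix.mul_nonsing_inv _ hydet
  have h1 : Pᴴ * cpart H * P = 1 := by
    rw [hy, ← Matrix.mul_assoc, ← Matrix.conjTranspose_mul, hyP, Matrix.mul_assoc, hyP]
    simp
  set R := realify (P.map (starRingEnd ℂ)) with hR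
  set K := Rᵀ * H * R with hK
  have h2 : cpart K = 1 := by rw [hK, hR, cpart_conj, h1]
  have hKpos : K.PosSemidef := by
    have := hH.conjTranspose_mul_mul_same R
    rwa [Matrix.conjTranspose_eq_transpose_of_trivial] at this
  have htr : K.trace = 2 * Fintype.card (Fin k ⊕ Fin k) := by
    rw [Matrix.trace, Fintype.sum_sum_type, ← Finset.sum_add_distrib]
    have h3 : ∀ i : Fin k, K.diag (.inl i) + K.diag (.inr i) = 4 := by
      intro i
      have h4 := congrFun (congrFun h2 i) i
      simp only [cpart, Matrix.of_apply, Matrix.one_apply_eq] at h4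
      have h5 := congrArg Complex.re h4
      simp only [Complex.one_re] at h5
      simp only [Matrix.diag_apply]
      linarith
    rw [Finset.sum_congr rfl fun i _ => h3 i]
    simp
    ring
  have h3 := det_le_of_trace hKpos htr
  have h4 : K.det = Complex.normSq P.det ^ 2 * H.det := by
    rw [hK, Matrix.det_mul, Matrix.det_mul, Matrix.det_transpose, hR, det_realify]
    have : (P.map (starRingEnd ℂ)).det = starRingEnd ℂ P.det :=
      (RingHom.map_det (starRingEnd ℂ) P).symm
    rw [this, Complex.normSq_conj]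
    ring
  have h5 : Complex.normSq P.det * (cpart H).det.re = 1 := by
    have h6 := congrArg Matrix.det h1
    rw [Matrix.det_mul, Matrix.det_mul, Matrix.det_conjTranspose, Matrix.det_one,
      RCLike.star_def] at h6
    have h7 : (starRingEnd ℂ) P.det * (cpart H).det * P.det =
        (Complex.normSq P.det : ℂ) * (cpart H).det := by
      rw [← Complex.mul_conj]
      ring
    rw [h7] at h6
    have h8 := congrArg Complex.re h6
    rwa [Complex.re_ofReal_mul, Complex.one_re] at h8
  have h6 : (Fintype.card (Fin k ⊕ Fin k)) = 2 * k := by simp; ring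
  rw [h4, h6, pow_mul] at h3
  norm_num at h3
  calc H.det = (Complex.normSq P.det * (cpart H).det.re) ^ 2 * H.det := by rw [h5]; ring
    _ = (cpart H).det.re ^ 2 * (Complex.normSq P.det ^ 2 * H.det) := by ring
    _ ≤ (cpart H).det.re ^ 2 * 4 ^ k := mul_le_mul_of_nonneg_left h3 (sq_nonneg _)
    _ = 4 ^ k * (cpart H).det.re ^ 2 := by ring

end Pool.Agent.KRFS

end

section

/-!
# The volume form `Ω` has the densities `Ω c`: change of charts and the measure
-/

open scoped ContDiff ENNReal ComplexOrder Topology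
open Set MeasureTheory Filter Pool.Agent.ToricKRF Pool.Agent.ToricKRF.G Pool.Agent.KRFS
  Pool.Agent.KRFF Pool.Agent.KRFG

namespace Pool.Agent.KRFZ

/-- the real determinant of a complex linear map -/
theorem abs_det_eq {n : ℕ} (L : Cn n →L[ℝ] Cn n) (hL : ∀ u, L (J u) = J (L u)) :
    |L.det| = Complex.normSq
      (Matrix.of fun k a => cc (L ((Pi.single k 1, 0) : Cn n)) a).det := by
  set B : Matrix (Fin n) (Fin n) ℂ := Matrix.of fun k a => cc (L ((Pi.single k 1, 0) : Cn n)) a
    with hB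
  set b : Module.Basis (Fin n ⊕ Fin n) ℝ (Cn n) := (Pi.basisFun ℝ (Fin n)).prod
    (Pi.basisFun ℝ (Fin n)) with hb
  have h1 : LinearMap.toMatrix b b (L : Cn n →ₗ[ℝ] Cn n) = realify B.transpose := by
    ext i k
    have hJ : ∀ k, L ((0, Pi.single k 1) : Cn n) = J (L ((Pi.single k 1, 0) : Cn n)) := by
      intro k
      rw [← hL]
      congr 1
      ext j <;> simp [J]
    rcases i with i | i <;> rcases k with k | k
    · simp [LinearMap.toMatrix_apply, hb, realify, hB, cc]
    · simp [LinearMap.toMatrix_apply, hb, realify, hB, cc, hJ]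
      simp [J]
    · simp [LinearMap.toMatrix_apply, hb, realify, hB, cc]
    · simp only [LinearMap.toMatrix_apply, hb, realify, hB]
      simp [cc, hJ, J]
  have h2 : L.det = (realify B.transpose).det := by
    rw [← h1, LinearMap.det_toMatrix]
  rw [h2, det_realify, Matrix.det_transpose, abs_of_nonneg (Complex.normSq_nonneg _)]

section

variable {n : ℕ} {M : Type} [TopologicalSpace M] {κ : Type} {T : ℝ} (F : Flow n M κ T)

/-- The densities `Ω c` under changes of charts. -/
theorem Omega_compat (hT : 0 < T) (c c' : κ) : ∀ z ∈ dom F.e c c',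
    F.Ω c z = |(fderiv ℝ (tr F.e c c') z).det| * F.Ω c' (tr F.e c c' z) := by
  intro z hz
  have hz' : tr F.e c c' z ∈ (F.e c').target := (F.e c').map_source hz.2
  have h0 : (0 : ℝ) ∈ Ico 0 T := ⟨le_rfl, hT⟩
  obtain ⟨U, hU, hsub, hs⟩ := F.krf.smooth c
  obtain ⟨U', hU', hsub', hs'⟩ := F.krf.smooth c'
  have hL : ∀ u, fderiv ℝ (tr F.e c c') z (J u) = J (fderiv ℝ (tr F.e c c') z u) :=
    fun u => (F.atlas.holo c c').2 z hz u
  have h1 := Bd.det_transform hU hs hU' hs' (hsub ⟨h0, hz.1⟩) (hsub' ⟨h0, hz'⟩)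
    (fderiv ℝ (tr F.e c c') z) hL (F.krf.compat c c' 0 h0 z hz)
  have h2 := F.vol.compat c c' z hz
  have h3 : 0 < (cHess (F.ψ c') (0, tr F.e c c' z)).det.re :=
    det_re_pos (F.krf.pos c' 0 h0 _ hz')
  rw [h1, ← abs_det_eq _ hL] at h2
  refine mul_right_cancel₀ h3.ne' ?_
  rw [h2]
  ring

/-- the charts of `M`, the volume form `Ω` and the metric `ω(0)` -/
theorem l2d_flow (hT : 0 < T) : KRFQ.L2D F.e univ F.Ω (fun c z => F.ψ c (0, z)) where
  sub := fun _ _ _ => mem_univ _
  cover := fun p _ => F.atlas.cover p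
  holo := F.atlas.holo
  w_smooth := F.vol.smooth
  w_pos := F.vol.pos
  w_compat := Omega_compat F hT
  w_lev := by
    intro c c' z hz u
    have hz' : tr F.e c c' z ∈ (F.e c').target := (F.e c').map_source hz.2
    have key : ∀ (c : κ) (z : Cn n), z ∈ (F.e c).target → ∀ u,
        levz (fun x => -Real.log (F.Ω c x)) u z =
          -levz (fun x => Real.log (F.Ω c x)) u z := by
      intro c z hz u
      have h1 : ContDiffAt ℝ 2 (fun x => Real.log (F.Ω c x)) z :=
        ((((F.vol.smooth c).contDiffAt ((F.e c).open_target.mem_nhds hz))).log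
          (F.vol.pos c z hz).ne').of_le (WithTop.coe_le_coe.2 le_top)
      have h2 := Bd.levz_const_mul (-1) h1 u
      simpa using h2
    rw [key c z hz.1, key c' _ hz', Bd.levz_logOmega_transform F hT hz]
  g_smooth := fun c => Bd.smooth_psi0 F hT c
  g_pos := by
    intro c z hz u hu
    rw [Bd.levz_psi0 F hT hz]
    exact Bd.lev_psi_pos F ⟨le_rfl, hT⟩ hz hu
  g_compat := by
    intro c c' z hz u
    rw [Bd.levz_psi0 F hT hz.1,
      Bd.levz_psi0 F hT (z := tr F.e c c' z) ((F.e c').map_source hz.2)]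
    exact F.krf.compat c c' 0 ⟨le_rfl, hT⟩ z hz u

/-- the measure of the volume form `Ω` -/
theorem exists_hasDens [MeasurableSpace M] [BorelSpace M] [Countable κ] (hT : 0 < T) :
    ∃ μ : Measure M, HasDens F.e F.Ω μ := by
  rcases isEmpty_or_nonempty κ with hκ | hκ
  · exact ⟨0, fun c => isEmptyElim c⟩
  · obtain ⟨s, hs⟩ := exists_surjective_nat κ
    obtain ⟨μ, -, hμ⟩ := KRFQ.exists_measure (e := F.e) s (V := univ)
      (eq_comm.1 (eq_univ_of_forall fun p => by
        obtain ⟨c, hc⟩ := F.atlas.cover p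
        obtain ⟨i, rfl⟩ := hs c
        exact mem_iUnion.2 ⟨i, hc⟩)) (fun _ _ _ => mem_univ _) F.atlas.holo
      (w := F.Ω) (Omega_compat F hT)
    exact ⟨μ, hμ⟩

theorem isDens_of_hasDens [MeasurableSpace M] {μ : Measure M} (hμ : HasDens F.e F.Ω μ) :
    KRFQ.IsDens F.e F.Ω μ := ⟨hμ⟩

/-- the volume of `M` is finite -/
theorem measure_lt_top_of_hasDens [MeasurableSpace M] [BorelSpace M] [CompactSpace M]
    (hT : 0 < T) {μ : Measure M} (hμ : HasDens F.e F.Ω μ) : μ univ < ⊤ :=
  (isDens_of_hasDens F hμ).measure_lt_top (l2d_flow F hT) isCompact_univ subset_rfl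

end

end Pool.Agent.KRFZ

end
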