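import Pool.Agent.Work.MP_a2bf38_gt.Fu.I.Split
import Pool.Agent.Work.MP_a2bf38_gt.Fu.I.PshMean
import Pool.Agent.Work.MP_a2bf38_gt.Fu.I.FibBasic

section

/-!
# The cut-off argument
-/

open scoped ContDiff ENNReal ComplexOrder Topology
open Set MeasureTheory Filter Pool.Agent.ToricKRF Pool.Agent.ToricKRF.G Pool.Agent.KRFS

namespace Pool.Agent.KRFF

namespace Cut

variable {k : ℕ}

theorem haar (k : ℕ) : (volume : Measure (Cn k)).IsAddHaarMeasure :=
  Measure.prod.instIsAddHaarMeasure (G := Fin k → ℝ) (H := Fin k → ℝ) volume volume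

theorem norm_le_of_cpd {w : Cn k} (hw : w ∈ cpd (k := k) 1) : ‖w‖ ≤ 1 := by
  rw [Prod.norm_def]
  refine max_le ?_ ?_
  · refine (pi_norm_le_iff_of_nonneg zero_le_one).2 fun i => ?_
    rw [Real.norm_eq_abs, abs_le_one_iff_mul_self_le_one]
    have := hw i
    nlinarith [sq_nonneg (w.2 i)]
  · refine (pi_norm_le_iff_of_nonneg zero_le_one).2 fun i => ?_
    rw [Real.norm_eq_abs, abs_le_one_iff_mul_self_le_one]
    have := hw i
    nlinarith [sq_nonneg (w.1 i)]

/-- the cut-off function -/
noncomputable def chi (z : Cn k) : ℝ := max 0 (1 - Metric.infDist z (cpd (k := k) 2))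

theorem chi_nonneg (z : Cn k) : 0 ≤ chi z := le_max_left _ _

theorem chi_le_one (z : Cn k) : chi z ≤ 1 := by
  refine max_le zero_le_one ?_
  have := Metric.infDist_nonneg (x := z) (s := cpd (k := k) 2)
  linarith

theorem chi_eq_one {z : Cn k} (hz : z ∈ cpd (k := k) 2) : chi z = 1 := by
  unfold chi
  rw [Metric.infDist_zero_of_mem hz]
  norm_num

theorem chi_lip (z z' : Cn k) : |chi z - chi z'| ≤ dist z z' := by
  have h1 := (Metric.lipschitz_infDist_pt (cpd (k := k) 2)).dist_le_mul z z'
  rw [NNReal.coe_one, one_mul, Real.dist_eq] at h1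
  unfold chi
  rw [max_comm 0, max_comm 0]
  refine (abs_max_sub_max_le_abs _ _ _).trans ?_
  rw [show 1 - Metric.infDist z (cpd (k := k) 2) - (1 - Metric.infDist z' (cpd (k := k) 2)) =
    -(Metric.infDist z (cpd (k := k) 2) - Metric.infDist z' (cpd (k := k) 2)) by ring, abs_neg]
  exact h1

theorem continuous_chi : Continuous (chi : Cn k → ℝ) := by
  unfold chi
  exact continuous_const.max (continuous_const.sub (Metric.continuous_infDist_pt _))

theorem chi_eq_zero {z : Cn k} (hz : z ∉ cpd (k := k) (7 / 2)) : chi z = 0 := by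
  by_contra hne
  apply hz
  have h1 : Metric.infDist z (cpd (k := k) 2) < 1 := by
    by_contra h
    push Not at h
    exact hne (max_eq_left (by linarith))
  have h0 : (cpd (k := k) 2).Nonempty := ⟨0, fun i => by norm_num⟩
  obtain ⟨y, hy, hd⟩ := (Metric.infDist_lt_iff h0).1 h1
  rw [dist_eq_norm, Prod.norm_def, max_lt_iff] at hd
  intro i
  have h2 : |(z - y).1 i| ≤ 1 := by
    have := norm_le_pi_norm (z - y).1 i
    rw [Real.norm_eq_abs] at this
    linarith [hd.1]
  have h3 : |(z - y).2 i| ≤ 1 := by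
    have := norm_le_pi_norm (z - y).2 i
    rw [Real.norm_eq_abs] at this
    linarith [hd.2]
  have h4 : z.1 i = y.1 i + (z - y).1 i := by simp
  have h5 : z.2 i = y.2 i + (z - y).2 i := by simp
  have h6 := hy i
  rw [h4, h5]
  set a := (z - y).1 i
  set b := (z - y).2 i
  set x := y.1 i
  set x' := y.2 i
  have ha : a ^ 2 ≤ 1 := by
    rw [← sq_abs]
    nlinarith [abs_nonneg a]
  have hb : b ^ 2 ≤ 1 := by
    rw [← sq_abs]
    nlinarith [abs_nonneg b]
  have h7 : (x * a + x' * b) ^ 2 ≤ 3 ^ 2 := by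
    have e1 : (x * a + x' * b) ^ 2 ≤ (x ^ 2 + x' ^ 2) * (a ^ 2 + b ^ 2) := by
      nlinarith [sq_nonneg (x * b - x' * a)]
    have e2 : (x ^ 2 + x' ^ 2) * (a ^ 2 + b ^ 2) ≤ 2 ^ 2 * 2 :=
      mul_le_mul h6 (by linarith) (by positivity) (by positivity)
    linarith
  have h8 : x * a + x' * b ≤ 3 := (abs_le_of_sq_le_sq' h7 (by norm_num)).2
  nlinarith

end Cut

open Cut in
theorem cut_bound {k : ℕ} {H : Cn k → ℝ} (hm : Measurable H) {B : ℝ} (hB : ∀ z, |H z| ≤ B)
    (hs : ∀ z, z ∉ cpd (9 / 2) → H z = 0) (hneg : ∀ z, H z ≤ 0) {ρ : ℝ} (hρ : ρ ∈ Ioc (0 : ℝ) 1)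
    (hpos : ∀ z ∈ cpd (k := k) (7 / 2), (volume (cpd (k := k) 1)).toReal * H z ≤
      ∫ w in cpd (k := k) 1, H (z + ρ • w)) :
    ∫ z in cpd (k := k) 2, ((∫ w in cpd (k := k) 1, H (z + ρ • w)) -
      (volume (cpd (k := k) 1)).toReal * H z) ≤
      (volume (cpd (k := k) 1)).toReal * (ρ * ∫ z in cpd (k := k) (9 / 2), -H z) := by
  have := haar k
  set V : ℝ := (volume (cpd (k := k) 1)).toReal with hV
  have hcm : ∀ r, MeasurableSet (cpd (k := k) r) := fun r => (isCompact_cpd r).isClosed.measurableSet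
  have hfin : ∀ r, volume (cpd (k := k) r) < ⊤ := fun r => (isCompact_cpd r).measure_lt_top
  have hfm : IsFiniteMeasure ((volume : Measure (Cn k)).restrict (cpd (k := k) 1)) :=
    ⟨by rw [Measure.restrict_apply_univ]; exact hfin 1⟩
  -- integrability of `H`
  have hHi : Integrable H := by
    have h1 : IntegrableOn H (cpd (k := k) (9 / 2)) :=
      Measure.integrableOn_of_bounded (hfin _).ne hm.aestronglyMeasurable
        (Eventually.of_forall fun z => by simpa using hB z)
    exact h1.integrable_of_forall_notMem_eq_zero hs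
  have hHint : ∫ z, -H z = ∫ z in cpd (k := k) (9 / 2), -H z :=
    (setIntegral_eq_integral_of_forall_compl_eq_zero fun z hz => by rw [hs z hz, neg_zero]).symm
  -- the inner integral
  set S : Cn k → ℝ := fun z => (∫ w in cpd (k := k) 1, H (z + ρ • w)) - V * H z with hS
  have hmw : ∀ z, Measurable fun w => H (z + ρ • w) := fun z => hm.comp (by fun_prop)
  have hiw : ∀ z, IntegrableOn (fun w => H (z + ρ • w)) (cpd (k := k) 1) := fun z =>
    Measure.integrableOn_of_bounded (hfin _).ne (hmw z).aestronglyMeasurable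
      (Eventually.of_forall fun w => by simpa using hB _)
  have hSeq : ∀ z, chi z * S z = ∫ w in cpd (k := k) 1, chi z * (H (z + ρ • w) - H z) := by
    intro z
    rw [integral_const_mul, integral_sub (hiw z) (integrable_const _)]
    simp only [hS, integral_const, smul_eq_mul, hV, measureReal_def, Measure.restrict_apply_univ]
  -- integrability on the product
  set G : Cn k → Cn k → ℝ := fun z w => chi z * (H (z + ρ • w) - H z) with hG
  have hGi : Integrable (Function.uncurry G)
      ((volume : Measure (Cn k)).prod (volume.restrict (cpd (k := k) 1))) := by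
    have h1 : IntegrableOn (Function.uncurry G) (cpd (k := k) (7 / 2) ×ˢ univ)
        ((volume : Measure (Cn k)).prod (volume.restrict (cpd (k := k) 1))) := by
      refine Measure.integrableOn_of_bounded (M := 2 * B) ?_ ?_ (Eventually.of_forall fun q => ?_)
      · rw [Measure.prod_prod, Measure.restrict_apply_univ]
        exact ENNReal.mul_ne_top (hfin _).ne (hfin _).ne
      · refine Measurable.aestronglyMeasurable ?_
        change Measurable fun q : Cn k × Cn k => chi q.1 * (H (q.1 + ρ • q.2) - H q.1)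
        exact (continuous_chi.measurable.comp measurable_fst).mul
          ((hm.comp (by fun_prop)).sub (hm.comp measurable_fst))
      · change |chi q.1 * (H (q.1 + ρ • q.2) - H q.1)| ≤ 2 * B
        rw [abs_mul, abs_of_nonneg (chi_nonneg _)]
        have e1 : |H (q.1 + ρ • q.2) - H q.1| ≤ 2 * B := by
          have := abs_sub (H (q.1 + ρ • q.2)) (H q.1)
          linarith [hB (q.1 + ρ • q.2), hB q.1]
        calc chi q.1 * |H (q.1 + ρ • q.2) - H q.1| ≤ 1 * (2 * B) :=
              mul_le_mul (chi_le_one _) e1 (abs_nonneg _) zero_le_one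
          _ = 2 * B := one_mul _
    refine h1.integrable_of_forall_notMem_eq_zero fun q hq => ?_
    have h2 : q.1 ∉ cpd (k := k) (7 / 2) := fun h => hq ⟨h, mem_univ _⟩
    change chi q.1 * (H (q.1 + ρ • q.2) - H q.1) = 0
    rw [chi_eq_zero h2, zero_mul]
  -- the first inequality
  have hSi : Integrable fun z => chi z * S z := by
    have h1 := hGi.integral_prod_left
    refine h1.congr (Eventually.of_forall fun z => ?_)
    exact (hSeq z).symm
  have hS0 : ∀ z, 0 ≤ chi z * S z := by
    intro z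
    by_cases hz : z ∈ cpd (k := k) (7 / 2)
    · exact mul_nonneg (chi_nonneg z) (sub_nonneg.2 (hpos z hz))
    · rw [chi_eq_zero hz, zero_mul]
  have hfirst : ∫ z in cpd (k := k) 2, S z ≤ ∫ z, chi z * S z := by
    have e1 : ∫ z in cpd (k := k) 2, S z = ∫ z in cpd (k := k) 2, chi z * S z :=
      setIntegral_congr_fun (hcm 2) fun z hz => by
        rw [chi_eq_one hz, one_mul]
    rw [e1]
    exact setIntegral_le_integral hSi (Eventually.of_forall hS0)
  -- Fubini
  have hswap : ∫ z, chi z * S z = ∫ w in cpd (k := k) 1, ∫ z, chi z * (H (z + ρ • w) - H z) := by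
    have e1 : ∫ z, chi z * S z = ∫ z, ∫ w in cpd (k := k) 1, G z w :=
      integral_congr_ae (Eventually.of_forall hSeq)
    rw [e1]
    exact integral_integral_swap hGi
  -- the bound for fixed `w`
  have hchiH : ∀ v v' : Cn k, Integrable fun z => chi (z + v') * H (z + v) := by
    intro v v'
    have h1 : Integrable fun z => H (z + v) := hHi.comp_add_right v
    refine h1.mono (((continuous_chi.measurable.comp (by fun_prop)).mul
      (hm.comp (by fun_prop))).aestronglyMeasurable) (Eventually.of_forall fun z => ?_)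
    rw [norm_mul, Real.norm_eq_abs (chi (z + v')), abs_of_nonneg (chi_nonneg _)]
    exact mul_le_of_le_one_left (norm_nonneg _) (chi_le_one _)
  have hw : ∀ w ∈ cpd (k := k) 1, ∫ z, chi z * (H (z + ρ • w) - H z) ≤
      ρ * ∫ z in cpd (k := k) (9 / 2), -H z := by
    intro w hw
    have i1 : Integrable fun z => chi z * H (z + ρ • w) := by
      simpa using hchiH (ρ • w) 0
    have i2 : Integrable fun z => chi z * H z := by
      simpa using hchiH 0 0
    have i3 : Integrable fun z => chi (z + -(ρ • w)) * H z := by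
      simpa using hchiH 0 (-(ρ • w))
    have e1 : ∫ z, chi z * (H (z + ρ • w) - H z) =
        (∫ z, chi z * H (z + ρ • w)) - ∫ z, chi z * H z := by
      rw [← integral_sub i1 i2]
      refine integral_congr_ae (Eventually.of_forall fun z => ?_)
      ring
    have e2 : ∫ z, chi z * H (z + ρ • w) = ∫ z, chi (z + -(ρ • w)) * H z := by
      rw [← integral_add_right_eq_self (fun z => chi (z + -(ρ • w)) * H z) (ρ • w)]
      refine integral_congr_ae (Eventually.of_forall fun z => ?_)
      simp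
    rw [e1, e2, ← integral_sub i3 i2, ← hHint, ← integral_const_mul]
    refine integral_mono (i3.sub i2) (hHi.neg.const_mul ρ) fun z => ?_
    change chi (z + -(ρ • w)) * H z - chi z * H z ≤ ρ * -H z
    have h1 := chi_lip (z + -(ρ • w)) z
    have h2 : dist (z + -(ρ • w)) z ≤ ρ := by
      rw [dist_eq_norm, add_sub_cancel_left, norm_neg, norm_smul, Real.norm_eq_abs,
        abs_of_pos hρ.1]
      exact mul_le_of_le_one_right hρ.1.le (norm_le_of_cpd hw)
    have h3 : -ρ ≤ chi (z + -(ρ • w)) - chi z := (abs_le.1 (h1.trans h2)).1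
    have h4 := mul_le_mul_of_nonneg_right h3 (neg_nonneg.2 (hneg z))
    nlinarith
  have hlast : ∫ w in cpd (k := k) 1, ∫ z, chi z * (H (z + ρ • w) - H z) ≤
      ∫ _w in cpd (k := k) 1, ρ * ∫ z in cpd (k := k) (9 / 2), -H z := by
    refine setIntegral_mono_on ?_ (integrable_const _) (hcm 1) hw
    exact hGi.integral_prod_right
  rw [integral_const, measureReal_def, Measure.restrict_apply_univ, smul_eq_mul] at hlast
  calc _ ≤ _ := hfirst
    _ = _ := hswap
    _ ≤ _ := hlast

end Pool.Agent.KRFF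

end

section

/-!
# Decay of the volume of the sublevel sets of a plurisubharmonic function
-/

open scoped ContDiff ENNReal ComplexOrder Topology
open Set MeasureTheory Filter Pool.Agent.ToricKRF Pool.Agent.ToricKRF.G Pool.Agent.KRFS

namespace Pool.Agent.KRFF

theorem add_smul_mem_cpd {k : ℕ} {z w : Cn k} {a ρ : ℝ} (ha : 0 ≤ a) (hρ : 0 ≤ ρ)
    (hz : z ∈ cpd (k := k) a) (hw : w ∈ cpd (k := k) 1) : z + ρ • w ∈ cpd (k := k) (a + ρ) := by
  intro j
  have e : ∀ x y : ℝ, ‖(⟨x, y⟩ : ℂ)‖ ^ 2 = x ^ 2 + y ^ 2 := fun x y => by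
    rw [← Complex.normSq_eq_norm_sq, Complex.normSq_mk]
    ring
  have h2 : ‖(⟨z.1 j, z.2 j⟩ : ℂ)‖ ≤ a := abs_le_of_sq_le_sq' (by rw [e]; exact hz j) ha |>.2
  have h3 : ‖(⟨w.1 j, w.2 j⟩ : ℂ)‖ ≤ 1 :=
    abs_le_of_sq_le_sq' (by rw [e]; exact hw j) zero_le_one |>.2
  have h4 : (⟨(z + ρ • w).1 j, (z + ρ • w).2 j⟩ : ℂ) =
      ⟨z.1 j, z.2 j⟩ + (ρ : ℂ) * ⟨w.1 j, w.2 j⟩ := by
    apply Complex.ext <;> simp
  rw [← e, h4]
  have h5 : ‖(⟨z.1 j, z.2 j⟩ + (ρ : ℂ) * ⟨w.1 j, w.2 j⟩ : ℂ)‖ ≤ a + ρ := by
    refine (norm_add_le _ _).trans (add_le_add h2 ?_)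
    rw [norm_mul, Complex.norm_real, Real.norm_of_nonneg hρ]
    exact mul_le_of_le_one_right hρ h3
  exact pow_le_pow_left₀ (norm_nonneg _) h5 2

/-- `I/Psh.lean` -/
theorem psh_decay_of_integral (k : ℕ) : ∃ C : ℝ, 0 < C ∧ ∀ (g : Cn k → ℝ) (L : ℝ),
    ContDiffOn ℝ ∞ g (opd 5) → (∀ z ∈ opd (k := k) 5, g z ≤ 0) →
    (∀ z ∈ opd (k := k) 5, ∀ u, 0 ≤ levz g u z) → ∫ z in cpd (k := k) (9 / 2), -g z ≤ L →
    ∀ ρ ∈ Ioc (0 : ℝ) 1, ∀ N > 0, C * L * (1 + Real.log (1 / ρ)) ^ k ≤ N →
      volume {z | z ∈ cpd (k := k) 2 ∧ g z < -N} ≤ ENNReal.ofReal (C * L * ρ / N) := by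
  classical
  set V : ℝ := (volume (cpd (k := k) 1)).toReal with hV
  have hV0 : 0 < V := ENNReal.toReal_pos (volume_cpd_pos zero_lt_one).ne' (volume_cpd_ne_top 1)
  refine ⟨2 + 2 / V, by positivity, fun g L hg hneg hpsh hL ρ hρ N hN hCN => ?_⟩
  set C : ℝ := 2 + 2 / V with hC
  have hC0 : 0 < C := by positivity
  -- the cut off function
  set K : Set (Cn k) := cpd (9 / 2) with hK
  have hKm : MeasurableSet K := (isCompact_cpd _).measurableSet
  have hK5 : K ⊆ opd (k := k) 5 := cpd_subset_opd (by norm_num) (by norm_num)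
  have hgc : ContinuousOn g K := hg.continuousOn.mono hK5
  set H : Cn k → ℝ := K.piecewise g 0 with hH
  have hHK : ∀ z ∈ K, H z = g z := fun z hz => Set.piecewise_eq_of_mem _ _ _ hz
  have hHn : ∀ z, z ∉ K → H z = 0 := fun z hz => Set.piecewise_eq_of_notMem _ _ _ hz
  have hm : Measurable H := hgc.measurable_piecewise continuousOn_const hKm
  obtain ⟨B, hB⟩ := (isCompact_cpd (k := k) (9 / 2)).exists_bound_of_continuousOn hgc
  have hB0 : 0 ≤ B := (norm_nonneg _).trans (hB 0 (fun j => by simp; norm_num))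
  have hHB : ∀ z, |H z| ≤ B := by
    intro z
    by_cases hz : z ∈ K
    · rw [hHK z hz]
      exact hB z hz
    · rw [hHn z hz, abs_zero]
      exact hB0
  have hHneg : ∀ z, H z ≤ 0 := by
    intro z
    by_cases hz : z ∈ K
    · rw [hHK z hz]
      exact hneg z (hK5 hz)
    · rw [hHn z hz]
  have hHint : Integrable H := by
    have h1 : IntegrableOn H K :=
      (hgc.congr fun z hz => hHK z hz).integrableOn_compact (isCompact_cpd _)
    refine (integrableOn_iff_integrable_of_support_subset fun z hz => ?_).1 h1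
    by_contra hcon
    exact hz (hHn z hcon)
  have hIL : ∫ z in K, -H z ≤ L := by
    refine le_trans (le_of_eq ?_) hL
    exact setIntegral_congr_fun hKm fun z hz => by simp only [hHK z hz]
  have hItot : ∫ z, -H z = ∫ z in K, -H z :=
    (setIntegral_eq_integral_of_forall_compl_eq_zero fun z hz => by rw [hHn z hz, neg_zero]).symm
  have hL0 : 0 ≤ L := by
    refine le_trans ?_ hIL
    exact setIntegral_nonneg hKm fun z _ => by linarith [hHneg z]
  have hcut := cut_bound hm hHB hHn hHneg hρ fun z hz => by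
    have h1 := psh_submean hg hpsh (a := 7 / 2) (ρ := ρ) (by norm_num) hρ.1
      (by linarith [hρ.2]) hz
    rw [hHK z (cpd_mono (by norm_num) (by norm_num) hz)]
    refine h1.trans (le_of_eq ?_)
    refine setIntegral_congr_fun (isCompact_cpd 1).measurableSet fun w hw => ?_
    exact (hHK _ (cpd_mono (by linarith [hρ.1]) (by linarith [hρ.2])
      (add_smul_mem_cpd (by norm_num) hρ.1.le hz hw))).symm
  set S : Cn k → ℝ := fun z => (∫ w in cpd (k := k) 1, H (z + ρ • w)) - V * H z with hS
  have hVtop : volume (cpd (k := k) 1) ≠ ⊤ := volume_cpd_ne_top 1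
  have hSi : IntegrableOn S (cpd (k := k) 2) := by
    have hm2 : StronglyMeasurable fun z => ∫ w in cpd (k := k) 1, H (z + ρ • w) := by
      have : StronglyMeasurable fun q : Cn k × Cn k => H (q.1 + ρ • q.2) :=
        (hm.comp (by fun_prop)).stronglyMeasurable
      exact this.integral_prod_right'
    refine Measure.integrableOn_of_bounded (M := B * V + V * B) (volume_cpd_ne_top 2)
      (hm2.sub (hm.const_mul V).stronglyMeasurable).aestronglyMeasurable ?_
    refine Eventually.of_forall fun z => ?_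
    have h1 : ‖∫ w in cpd (k := k) 1, H (z + ρ • w)‖ ≤ B * V := by
      exact norm_setIntegral_le_of_norm_le_const (lt_top_iff_ne_top.2 hVtop) fun w _ => hHB _
    have h2 : ‖V * H z‖ ≤ V * B := by
      rw [norm_mul, Real.norm_of_nonneg hV0.le]
      exact mul_le_mul_of_nonneg_left (hHB z) hV0.le
    exact (norm_sub_le _ _).trans (add_le_add h1 h2)
  have hSint : ∫ z in cpd (k := k) 2, S z ≤ V * (ρ * L) := by
    refine hcut.trans ?_
    exact mul_le_mul_of_nonneg_left (mul_le_mul_of_nonneg_left hIL hρ.1.le) hV0.le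
  have hmem2 : ∀ z ∈ cpd (k := k) 2, ∀ w ∈ cpd (k := k) 1, z + ρ • w ∈ K := fun z hz w hw =>
    cpd_mono (by linarith [hρ.1]) (by linarith [hρ.2])
      (add_smul_mem_cpd (by norm_num) hρ.1.le hz hw)
  have hmem1 : ∀ z ∈ cpd (k := k) 2, z ∈ K := fun z hz => cpd_mono (by norm_num) (by norm_num) hz
  have hSeq : ∀ z ∈ cpd (k := k) 2, S z = (∫ w in cpd (k := k) 1, g (z + ρ • w)) - V * g z := by
    intro z hz
    simp only [hS]
    rw [hHK z (hmem1 z hz)]
    congr 1
    exact setIntegral_congr_fun (isCompact_cpd 1).measurableSet fun w hw => hHK _ (hmem2 z hz w hw)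
  have hS0 : ∀ z ∈ cpd (k := k) 2, 0 ≤ S z := by
    intro z hz
    rw [hSeq z hz]
    have := psh_submean hg hpsh (a := 2) (ρ := ρ) (by norm_num) hρ.1 (by linarith [hρ.2]) hz
    linarith
  set Λ : ℝ := (1 + Real.log (1 / ρ)) ^ k with hΛ
  have hlog : 0 ≤ 1 + Real.log (1 / ρ) := by
    have : 0 ≤ Real.log (1 / ρ) := Real.log_nonneg (by
      rw [le_div_iff₀ hρ.1]
      linarith [hρ.2])
    linarith
  have hΛ0 : 0 ≤ Λ := pow_nonneg hlog k
  have hSbig : ∀ z ∈ cpd (k := k) 2, g z < -N → V * N / 2 ≤ S z := by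
    intro z hz hgz
    rw [hSeq z hz]
    have h1 := psh_dil hg hneg hpsh hz hρ
    have h2 : -L ≤ ∫ w in cpd (k := k) 1, g (z + w) := by
      have h3 : ∫ w in cpd (k := k) 1, -H (z + w) ≤ ∫ w, -H (z + w) := by
        refine setIntegral_le_integral (hHint.comp_add_left z).neg (Eventually.of_forall fun w => ?_)
        simp only [Pi.zero_apply]
        linarith [hHneg (z + w)]
      have h3' : ∫ w, -H (z + w) = ∫ w, -H w :=
        integral_add_left_eq_self (μ := volume) (fun w => -H w) z
      rw [h3', hItot] at h3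
      have h4 : ∫ w in cpd (k := k) 1, -H (z + w) = -∫ w in cpd (k := k) 1, g (z + w) := by
        rw [← integral_neg]
        refine setIntegral_congr_fun (isCompact_cpd 1).measurableSet fun w hw => ?_
        have h5 : z + w ∈ K := by
          have := cpd_mono (k := k) (s := 9 / 2) (by norm_num) (by norm_num)
            (add_smul_mem_cpd (ρ := 1) (by norm_num) zero_le_one hz hw)
          rwa [one_smul] at this
        simp only [hHK _ h5]
      linarith
    have h6 := mul_le_mul_of_nonneg_left h2 hΛ0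
    -- `Λ L ≤ V N / 2`
    have h7 : Λ * L ≤ V * N / 2 := by
      have h8 : 2 / V * (L * Λ) ≤ N := by
        refine le_trans ?_ hCN
        have h9 : 0 ≤ L * Λ := mul_nonneg hL0 hΛ0
        have : (2 / V) * (L * Λ) ≤ C * (L * Λ) := mul_le_mul_of_nonneg_right (by linarith) h9
        linarith
      have h10 := mul_le_mul_of_nonneg_left h8 hV0.le
      have h11 : V * (2 / V * (L * Λ)) = 2 * (Λ * L) := by field_simp
      linarith
    have h12 : V * N ≤ -(V * g z) := by
      have := mul_le_mul_of_nonneg_left hgz.le hV0.le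
      linarith
    linarith
  -- Chebyshev
  set A : Set (Cn k) := {z | z ∈ cpd (k := k) 2 ∧ g z < -N} with hA
  have hA2 : A ⊆ cpd (k := k) 2 := fun z hz => hz.1
  have hAm : MeasurableSet A := by
    have : A = cpd (k := k) 2 ∩ H ⁻¹' Iio (-N) := by
      ext z
      constructor
      · rintro ⟨h1, h2⟩
        exact ⟨h1, by rw [mem_preimage, hHK z (hmem1 z h1)]; exact h2⟩
      · rintro ⟨h1, h2⟩
        rw [mem_preimage, hHK z (hmem1 z h1)] at h2
        exact ⟨h1, h2⟩
    rw [this]
    exact (isCompact_cpd 2).measurableSet.inter (hm measurableSet_Iio)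
  have hAtop : volume A ≠ ⊤ := ((measure_mono hA2).trans_lt
    (lt_top_iff_ne_top.2 (volume_cpd_ne_top 2))).ne
  have h1 : V * N / 2 * (volume A).toReal ≤ V * (ρ * L) := by
    have e1 : ∫ z in A, V * N / 2 = V * N / 2 * (volume A).toReal := by
      rw [setIntegral_const, smul_eq_mul, mul_comm]
      rfl
    have e2 : ∫ z in A, V * N / 2 ≤ ∫ z in A, S z :=
      setIntegral_mono_on (integrableOn_const hAtop) (hSi.mono_set hA2) hAm
        fun z hz => hSbig z hz.1 hz.2
    have e3 : ∫ z in A, S z ≤ ∫ z in cpd (k := k) 2, S z := by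
      refine setIntegral_mono_set hSi ?_ (Eventually.of_forall hA2)
      exact (ae_restrict_iff' (isCompact_cpd 2).measurableSet).2 (Eventually.of_forall hS0)
    linarith
  have h2 : (volume A).toReal ≤ C * L * ρ / N := by
    rw [le_div_iff₀ hN]
    have h3 : (volume A).toReal * N ≤ 2 * (ρ * L) := by
      have h4 : V * ((volume A).toReal * N) ≤ V * (2 * (ρ * L)) := by linarith
      exact le_of_mul_le_mul_left h4 hV0
    have h5 : 2 * (ρ * L) ≤ C * (ρ * L) := by
      have : 0 ≤ 2 / V := by positivity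
      exact mul_le_mul_of_nonneg_right (by linarith) (mul_nonneg hρ.1.le hL0)
    linarith
  rw [← ENNReal.ofReal_toReal hAtop]
  exact ENNReal.ofReal_le_ofReal h2

end Pool.Agent.KRFF

end
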