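import Pool.Agent.Work.MP_a2bf38_gt.Fu.I.PshGood
import Pool.Agent.Work.MP_a2bf38_gt.Fu.I.PshCut
import Pool.Agent.Work.MP_a2bf38_gt.Fu.K.PshCOf
import Pool.Agent.Work.MP_a2bf38_gt.Fu.I.Coord
import Pool.Agent.Work.MP_a2bf38_gt.Fu.I.ModulusCore
import Pool.Agent.Work.MP_a2bf38_gt.Fu.K.PropCore
import Pool.Agent.Work.MP_a2bf38_gt.Fu.I.PshMean
import Pool.Agent.Work.MP_a2bf38_gt.Fu.H.BoundLin

section

/-!
# The decay of the sublevel sets of plurisubharmonic functions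
-/

open scoped ContDiff ENNReal ComplexOrder Topology
open Set MeasureTheory Filter Pool.Agent.ToricKRF Pool.Agent.ToricKRF.G Pool.Agent.KRFS

namespace Pool.Agent.KRFF

theorem psh_decay (k : ℕ) : ∃ C : ℝ, 0 < C ∧ ∀ (g : Cn k → ℝ) (L : ℝ) (z₁ : Cn k),
    ContDiffOn ℝ ∞ g (opd 9) → (∀ z ∈ opd (k := k) 9, g z ≤ 0) →
    (∀ z ∈ opd (k := k) 9, ∀ u, 0 ≤ levz g u z) → z₁ ∈ cpd 2 → -L ≤ g z₁ →
    ∀ ρ ∈ Ioc (0 : ℝ) 1, ∀ N > 0, C * L * (1 + Real.log (1 / ρ)) ^ k ≤ N →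
      volume {z | z ∈ cpd (k := k) 2 ∧ g z < -N} ≤ ENNReal.ofReal (C * L * ρ / N) := by
  obtain ⟨C₁, hC₁, h₁⟩ := psh_integral k
  obtain ⟨C₂, hC₂, h₂⟩ := psh_decay_of_integral k
  have h59 : opd (k := k) 5 ⊆ opd 9 := fun u hu i => lt_of_lt_of_le (hu i) (by norm_num)
  refine ⟨C₂ * C₁, by positivity, fun g L z₁ hg h0 hp hz₁ hL ρ hρ N hN hCN => ?_⟩
  have := h₂ g (C₁ * L) (hg.mono h59) (fun z hz => h0 z (h59 hz)) (fun z hz => hp z (h59 hz))
    (h₁ g L z₁ hg h0 hp hz₁ hL) ρ hρ N hN (by rwa [← mul_assoc])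
  rwa [← mul_assoc] at this

end Pool.Agent.KRFF

end

section

/-!
# The estimate of John and Nirenberg for plurisubharmonic functions (helper52)

If `u` is plurisubharmonic and `≤ M₀` on the ball of radius `9 r` around `x₀` and
`u x₀ ≥ M₀ - A`, then the integral of `exp (-p (u - M₀))` over the ball of radius `r` is at most
`K r ^ (2 n)` for all `0 ≤ p ≤ c / A`.
-/

open scoped ContDiff ENNReal ComplexOrder Topology Pointwise
open Set MeasureTheory Filter Pool.Agent.ToricKRF Pool.Agent.ToricKRF.G Pool.Agent.KRFS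
  Pool.Agent.KRFF Pool.Agent.KRFG Pool.Agent.KRFH

namespace Pool.Agent.KRFZ.JN

variable {n : ℕ}

/-! ### Complex lines -/

/-- the complex line through `x₀` in the direction `w` -/
noncomputable def Ln (x₀ w : Cn n) (z : Cn 1) : Cn n := line x₀ w (cc z 0)

theorem Ln_eq (x₀ w : Cn n) (z : Cn 1) : Ln x₀ w z = x₀ + (z.1 0 • w + z.2 0 • J w) := by
  rw [Ln, line, add_assoc]
  rfl

/-- the linear part of `Ln` -/
noncomputable def LnL (w : Cn n) : Cn 1 →L[ℝ] Cn n :=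
  ((ContinuousLinearMap.proj (R := ℝ) (φ := fun _ : Fin 1 => ℝ) 0).comp
    (ContinuousLinearMap.fst ℝ (Fin 1 → ℝ) (Fin 1 → ℝ))).smulRight w +
  ((ContinuousLinearMap.proj (R := ℝ) (φ := fun _ : Fin 1 => ℝ) 0).comp
    (ContinuousLinearMap.snd ℝ (Fin 1 → ℝ) (Fin 1 → ℝ))).smulRight (J w)

theorem LnL_apply (w : Cn n) (z : Cn 1) : LnL w z = z.1 0 • w + z.2 0 • J w := rfl

theorem hasFDerivAt_Ln (x₀ w : Cn n) (z : Cn 1) : HasFDerivAt (Ln x₀ w) (LnL w) z := by
  have h := (LnL w).hasFDerivAt (x := z)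
  have h2 := h.const_add x₀
  exact h2.congr_of_eventuallyEq (Eventually.of_forall fun x => Ln_eq x₀ w x)

theorem contDiff_Ln (x₀ w : Cn n) : ContDiff ℝ ∞ (Ln x₀ w) := by
  have h : Ln x₀ w = fun z => x₀ + LnL w z := funext fun z => Ln_eq x₀ w z
  rw [h]
  exact contDiff_const.add (LnL w).contDiff

theorem holOn_Ln (x₀ w : Cn n) : HolOn (Ln x₀ w) univ := by
  refine ⟨(contDiff_Ln x₀ w).contDiffOn, fun z _ u => ?_⟩
  rw [(hasFDerivAt_Ln x₀ w z).fderiv, LnL_apply, LnL_apply, J_add, J_smul, J_smul, J_J]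
  have h1 : (J u).1 0 = -u.2 0 := rfl
  have h2 : (J u).2 0 = u.1 0 := rfl
  rw [h1, h2, neg_smul, smul_neg]
  abel

theorem nsq_Ln (x₀ w : Cn n) (z : Cn 1) : nsq (Ln x₀ w z - x₀) =
    (z.1 0 ^ 2 + z.2 0 ^ 2) * nsq w := by
  rw [Ln, line_eq, add_sub_cancel_left, Three.nsq_lineL, ← Complex.normSq_eq_norm_sq,
    Complex.normSq_apply]
  simp only [cc]
  ring

/-! ### One variable -/

theorem one_var : ∃ (c : ℝ) (K : ℝ≥0∞), 0 < c ∧ K ≠ ⊤ ∧ ∀ (g : Cn 1 → ℝ) (L : ℝ), 0 < L →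
    ContDiffOn ℝ ∞ g (opd 9) → (∀ z ∈ opd (k := 1) 9, g z ≤ 0) →
    (∀ z ∈ opd (k := 1) 9, ∀ u, 0 ≤ levz g u z) → -L ≤ g 0 →
    ∫⁻ z in cpd (k := 1) 2, ENNReal.ofReal (Real.exp (-(c / L) * g z)) ≤ K := by
  obtain ⟨C, hC, h⟩ := psh_decay 1
  set b : ℕ → ℝ≥0∞ := fun k => ENNReal.ofReal (Real.exp ((k + 2 : ℝ) / 2)) with hb
  set a : ℝ≥0∞ := ENNReal.ofReal (Real.exp (1 / 2)) with ha
  have hKsum : ∑' k : ℕ, b k * ENNReal.ofReal (Real.exp (-(k : ℝ))) ≠ ⊤ := by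
    have h1 : ∀ k : ℕ, b k * ENNReal.ofReal (Real.exp (-(k : ℝ))) =
        ENNReal.ofReal (Real.exp 1 * Real.exp (-(1 / 2)) ^ k) := by
      intro k
      rw [hb, ← ENNReal.ofReal_mul (Real.exp_pos _).le, ← Real.exp_add, ← Real.exp_nat_mul,
        ← Real.exp_add]
      congr 2
      ring
    simp only [h1]
    have h2 : Summable fun k : ℕ => Real.exp 1 * Real.exp (-(1 / 2)) ^ k := by
      refine (summable_geometric_of_lt_one (Real.exp_pos _).le ?_).mul_left _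
      rw [Real.exp_lt_one_iff]
      norm_num
    rw [← ENNReal.ofReal_tsum_of_nonneg (fun k => by positivity) h2]
    exact ENNReal.ofReal_ne_top
  refine ⟨1 / (2 * C), a * volume (cpd (k := 1) 2) +
    ∑' k : ℕ, b k * ENNReal.ofReal (Real.exp (-(k : ℝ))), by positivity, ?_, ?_⟩
  · exact ENNReal.add_ne_top.2 ⟨ENNReal.mul_ne_top ENNReal.ofReal_ne_top (volume_cpd_ne_top 2),
      hKsum⟩
  intro g L hL hg h0 hp hgL
  have hCL : 0 < C * L := mul_pos hC hL
  have hopd : IsOpen (opd (k := 1) 9) := Decay.isOpen_opd 9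
  set A : ℕ → Set (Cn 1) := fun k => opd (k := 1) 9 ∩ g ⁻¹' (Iio (-((k + 1 : ℝ) * (C * L))))
    with hA
  have hAo : ∀ k, IsOpen (A k) := fun k => hg.continuousOn.isOpen_inter_preimage hopd isOpen_Iio
  have hAv : ∀ k, volume (A k ∩ cpd 2) ≤ ENNReal.ofReal (Real.exp (-(k : ℝ))) := by
    intro k
    have hk : (0 : ℝ) < k + 1 := by positivity
    have h1 := h g L 0 hg h0 hp (fun i => by simp) hgL (Real.exp (-(k : ℝ)))
      ⟨Real.exp_pos _, by rw [Real.exp_le_one_iff]; simp⟩ ((k + 1 : ℝ) * (C * L)) (by positivity)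
      (by
        rw [one_div, ← Real.exp_neg, neg_neg, Real.log_exp, pow_one]
        linarith)
    have h2 : A k ∩ cpd 2 ⊆ {z | z ∈ cpd (k := 1) 2 ∧ g z < -((k + 1 : ℝ) * (C * L))} :=
      fun z hz => ⟨hz.2, hz.1.2⟩
    refine (measure_mono h2).trans (h1.trans (ENNReal.ofReal_le_ofReal ?_))
    rw [div_le_iff₀ (by positivity)]
    have h3 := Real.exp_pos (-(k : ℝ))
    nlinarith [mul_pos hCL h3, mul_nonneg (Nat.cast_nonneg (α := ℝ) k) (mul_pos hCL h3).le]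
  have hpt : ∀ z ∈ cpd (k := 1) 2, ENNReal.ofReal (Real.exp (-(1 / (2 * C) / L) * g z)) ≤
      a + ∑' k : ℕ, b k * (A k).indicator 1 z := by
    intro z hz
    have hz9 : z ∈ opd (k := 1) 9 := Decay.cpd_sub_opd (by norm_num) (by norm_num) hz
    have hgz := h0 z hz9
    set y : ℝ := -g z / (C * L) with hy
    have hy0 : 0 ≤ y := div_nonneg (by linarith) hCL.le
    have he : -(1 / (2 * C) / L) * g z = y / 2 := by
      rw [hy]
      field_simp
    rw [he]
    rcases le_or_gt y 1 with h1 | h1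
    · refine le_add_of_le_of_nonneg (ENNReal.ofReal_le_ofReal (Real.exp_le_exp.2 ?_)) zero_le
      linarith
    · obtain ⟨k, hk⟩ : ∃ k : ℕ, ⌈y⌉₊ = k + 2 := by
        refine ⟨⌈y⌉₊ - 2, ?_⟩
        have h2 : 1 < ⌈y⌉₊ := Nat.lt_ceil.2 (by simpa using h1)
        omega
      have hk1 : y ≤ k + 2 := by
        have h2 := Nat.le_ceil y
        rw [hk] at h2
        push_cast at h2
        exact h2
      have hk2 : (k + 1 : ℝ) < y := by
        have h2 : k + 1 < ⌈y⌉₊ := by omega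
        have h3 := Nat.lt_ceil.1 h2
        push_cast at h3
        exact h3
      have hmem : z ∈ A k := by
        refine ⟨hz9, ?_⟩
        rw [mem_preimage, mem_Iio]
        rw [hy, lt_div_iff₀ hCL] at hk2
        linarith
      refine le_trans ?_ (le_add_left (ENNReal.le_tsum k))
      rw [indicator_of_mem hmem, Pi.one_apply, mul_one, hb]
      refine ENNReal.ofReal_le_ofReal (Real.exp_le_exp.2 ?_)
      linarith
  have hcm : MeasurableSet (cpd (k := 1) 2) := (isCompact_cpd 2).measurableSet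
  calc ∫⁻ z in cpd (k := 1) 2, ENNReal.ofReal (Real.exp (-(1 / (2 * C) / L) * g z))
      ≤ ∫⁻ z in cpd (k := 1) 2, (a + ∑' k : ℕ, b k * (A k).indicator 1 z) :=
        setLIntegral_mono' hcm hpt
    _ = a * volume (cpd (k := 1) 2) + ∑' k : ℕ, b k * volume (A k ∩ cpd 2) := by
        rw [lintegral_add_left measurable_const, lintegral_tsum, setLIntegral_const]
        · congr 2
          funext k
          rw [lintegral_const_mul _ (measurable_one.indicator (hAo k).measurableSet),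
            lintegral_indicator_one (hAo k).measurableSet,
            Measure.restrict_apply (hAo k).measurableSet]
        · intro k
          exact ((measurable_one.indicator (hAo k).measurableSet).const_mul _).aemeasurable
    _ ≤ _ := by
        refine add_le_add le_rfl (ENNReal.tsum_le_tsum fun k => ?_)
        exact mul_le_mul_right (hAv k) _

/-! ### Polar coordinates -/

/-- the closed ball -/
def Bl (n : ℕ) (r : ℝ) : Set (Cn n) := {w | nsq w ≤ r ^ 2}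

theorem isClosed_Bl (r : ℝ) : IsClosed (Bl n r) := isClosed_le BallM.continuous_nsq continuous_const

theorem measurableSet_Bl (r : ℝ) : MeasurableSet (Bl n r) := (isClosed_Bl r).measurableSet

theorem nsq_smul (s : ℝ) (w : Cn n) : nsq (s • w) = s ^ 2 * nsq w := by
  simp only [nsq, Prod.smul_fst, Prod.smul_snd, smul_dotProduct, dotProduct_smul, smul_eq_mul]
  ring

theorem finrank_Cn (n : ℕ) : Module.finrank ℝ (Cn n) = 2 * n := by
  rw [Module.finrank_prod, Module.finrank_fin_fun]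
  ring

theorem lintegral_smul {F : Cn n → ℝ≥0∞} (hF : Measurable F) {s : ℝ} (hs : 0 < s) :
    ∫⁻ w, F w = ENNReal.ofReal (s ^ (2 * n)) * ∫⁻ w, F (s • w) := by
  have hinv : (volume : Measure (Cn n)).IsAddHaarMeasure := haar_Cn n
  have h1 := Measure.map_addHaar_smul (volume : Measure (Cn n)) hs.ne'
  have h2 : ∫⁻ w, F (s • w) = ∫⁻ w, F w ∂(Measure.map (s • ·) (volume : Measure (Cn n))) :=
    (lintegral_map hF (by fun_prop)).symm
  rw [h2, h1, lintegral_smul_measure, finrank_Cn, smul_eq_mul, ← mul_assoc,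
    ← ENNReal.ofReal_mul (by positivity), abs_of_pos (by positivity),
    mul_inv_cancel₀ (by positivity), ENNReal.ofReal_one, one_mul]

theorem smul_eq_mulC (s : ℝ) (w : Cn n) : s • w = mulC (fun _ => (s : ℂ)) w := by
  refine Prod.ext ?_ ?_ <;> funext j <;> simp [mulC]

theorem Ln_eq_smul {s : ℝ} (hs : 0 < s) (w : Cn n) {z : Cn 1}
    (hz : z.1 0 ^ 2 + z.2 0 ^ 2 = s ^ 2) :
    Ln 0 w z = s • mulC (fun _ => cc z 0 / s) w ∧ ∀ j : Fin n, ‖(fun _ => cc z 0 / (s : ℂ)) j‖ = 1 := by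
  have hs' : (s : ℂ) ≠ 0 := by exact_mod_cast hs.ne'
  constructor
  · rw [Ln, line_eq_mulC, zero_add, smul_eq_mulC, mulC_mulC]
    congr 1
    funext j
    rw [Pi.mul_apply, mul_div_cancel₀ _ hs']
  · intro j
    have h1 : ‖cc z 0‖ = s := by
      refine (sq_eq_sq₀ (norm_nonneg _) hs.le).1 ?_
      rw [← hz, ← Complex.normSq_eq_norm_sq, Complex.normSq_apply]
      simp only [cc]
      ring
    rw [norm_div, h1, Complex.norm_real, Real.norm_of_nonneg hs.le, div_self hs.ne']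

/-- one rotation and one dilation -/
theorem lintegral_Ln {F : Cn n → ℝ≥0∞} (hF : Measurable F) {r s : ℝ} (hs1 : 1 ≤ s) (hs2 : s ≤ 2)
    {z : Cn 1} (hz : z.1 0 ^ 2 + z.2 0 ^ 2 = s ^ 2) :
    ∫⁻ w in Bl n r, F w ≤ ENNReal.ofReal (2 ^ (2 * n)) * ∫⁻ w in Bl n r, F (Ln 0 w z) := by
  have hs : 0 < s := by linarith
  set a : Fin n → ℂ := fun _ => cc z 0 / (s : ℂ) with ha
  have hL : ∀ w : Cn n, Ln 0 w z = s • mulC a w := fun w => (Ln_eq_smul hs w hz).1
  have ha1 : ∀ j, ‖a j‖ = 1 := (Ln_eq_smul hs (0 : Cn n) hz).2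
  set F₁ : Cn n → ℝ≥0∞ := (Bl n (s * r)).indicator F with hF₁
  have hF₁m : Measurable F₁ := hF.indicator (measurableSet_Bl _)
  have h1 : ∫⁻ w in Bl n r, F w ≤ ∫⁻ w, F₁ w := by
    rw [hF₁, lintegral_indicator (measurableSet_Bl _)]
    refine lintegral_mono_set fun w hw => ?_
    have h2 : nsq w ≤ r ^ 2 := hw
    show nsq w ≤ (s * r) ^ 2
    have h3 : r ^ 2 ≤ (s * r) ^ 2 := by
      rw [mul_pow]
      have : 1 ≤ s ^ 2 := by nlinarith
      nlinarith [sq_nonneg r]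
    exact h2.trans h3
  have h2 : ∫⁻ w, F₁ (s • w) = ∫⁻ w, F₁ (s • mulC a w) :=
    ((measurePreserving_mulC ha1).lintegral_comp (f := fun w => F₁ (s • w))
      (hF₁m.comp (by fun_prop))).symm
  have h3 : ∀ w, F₁ (s • mulC a w) = (Bl n r).indicator (fun w => F (Ln 0 w z)) w := by
    intro w
    have h4 : (s • mulC a w ∈ Bl n (s * r)) ↔ w ∈ Bl n r := by
      show nsq (s • mulC a w) ≤ (s * r) ^ 2 ↔ nsq w ≤ r ^ 2
      rw [nsq_smul, BallM.nsq_mulC ha1, mul_pow]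
      exact mul_le_mul_iff_of_pos_left (by positivity)
    by_cases hw : w ∈ Bl n r
    · rw [indicator_of_mem hw, hF₁, indicator_of_mem (h4.2 hw), hL]
    · rw [indicator_of_notMem hw, hF₁, indicator_of_notMem fun h => hw (h4.1 h)]
  refine h1.trans ?_
  rw [lintegral_smul hF₁m hs, h2]
  simp only [h3]
  rw [lintegral_indicator (measurableSet_Bl r)]
  exact mul_le_mul' (ENNReal.ofReal_le_ofReal (pow_le_pow_left₀ hs.le hs2 _)) le_rfl

/-- polar coordinates -/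
theorem polar (n : ℕ) : ∃ K : ℝ≥0∞, K ≠ ⊤ ∧ ∀ {F : Cn n → ℝ≥0∞} (_ : Measurable F) (r : ℝ),
    ∫⁻ w in Bl n r, F w ≤ K * ∫⁻ w in Bl n r, ∫⁻ z in cpd (k := 1) 2, F (Ln 0 w z) := by
  set A : Set (Cn 1) := {z | 1 ≤ z.1 0 ^ 2 + z.2 0 ^ 2} ∩ cpd 2 with hA
  have hAm : MeasurableSet A :=
    (isClosed_le continuous_const (by fun_prop)).measurableSet.inter (isCompact_cpd 2).measurableSet
  have hA0 : 0 < volume A := by
    have hc : Continuous fun z : Cn 1 => z.1 0 ^ 2 + z.2 0 ^ 2 := by fun_prop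
    have h1 : IsOpen {z : Cn 1 | 1 < z.1 0 ^ 2 + z.2 0 ^ 2 ∧ z.1 0 ^ 2 + z.2 0 ^ 2 < 4} :=
      (isOpen_lt continuous_const hc).inter (isOpen_lt hc continuous_const)
    refine lt_of_lt_of_le (h1.measure_pos volume ⟨(fun _ => 3 / 2, 0), ?_, ?_⟩)
      (measure_mono fun z hz => ⟨hz.1.le, fun i => ?_⟩)
    · simp only [Pi.zero_apply]
      norm_num
    · simp only [Pi.zero_apply]
      norm_num
    · have : i = 0 := Subsingleton.elim _ _
      subst this
      have := hz.2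
      norm_num at this ⊢
      exact this.le
  have hAt : volume A ≠ ⊤ := ((measure_mono inter_subset_right).trans_lt
    (volume_cpd_ne_top 2).lt_top).ne
  refine ⟨ENNReal.ofReal (2 ^ (2 * n)) * (volume A)⁻¹,
    ENNReal.mul_ne_top ENNReal.ofReal_ne_top (ENNReal.inv_ne_top.2 hA0.ne'), ?_⟩
  intro F hF r
  have hmeas : Measurable fun q : Cn n × Cn 1 => F (Ln 0 q.1 q.2) := by
    refine hF.comp ?_
    have h2 : Continuous fun q : Cn n × Cn 1 => Ln 0 q.1 q.2 := by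
      have h3 : (fun q : Cn n × Cn 1 => Ln 0 q.1 q.2) =
          fun q => 0 + (q.2.1 0 • q.1 + q.2.2 0 • J q.1) := funext fun q => Ln_eq 0 q.1 q.2
      rw [h3]
      have h4 : Continuous fun q : Cn n × Cn 1 => J q.1 := by
        unfold J
        fun_prop
      fun_prop
    exact h2.measurable
  have h1 : ∀ z ∈ A, ∫⁻ w in Bl n r, F w ≤
      ENNReal.ofReal (2 ^ (2 * n)) * ∫⁻ w in Bl n r, F (Ln 0 w z) := by
    intro z hz
    have h0 : 0 ≤ z.1 0 ^ 2 + z.2 0 ^ 2 := by positivity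
    refine lintegral_Ln hF (s := Real.sqrt (z.1 0 ^ 2 + z.2 0 ^ 2)) ?_ ?_ (Real.sq_sqrt h0).symm
    · exact Real.one_le_sqrt.2 hz.1
    · rw [Real.sqrt_le_left (by norm_num)]
      exact hz.2 0
  have h2 : (∫⁻ w in Bl n r, F w) * volume A ≤ ENNReal.ofReal (2 ^ (2 * n)) *
      ∫⁻ z in A, ∫⁻ w in Bl n r, F (Ln 0 w z) := by
    rw [← setLIntegral_const, ← lintegral_const_mul]
    · exact setLIntegral_mono' hAm h1
    · exact (hmeas.comp measurable_swap).lintegral_prod_right'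
  have h3 : ∫⁻ z in A, ∫⁻ w in Bl n r, F (Ln 0 w z) ≤
      ∫⁻ w in Bl n r, ∫⁻ z in cpd (k := 1) 2, F (Ln 0 w z) := by
    have h4 : Measurable (Function.uncurry fun (z : Cn 1) (w : Cn n) => F (Ln 0 w z)) :=
      hmeas.comp measurable_swap
    rw [lintegral_lintegral_swap h4.aemeasurable]
    exact lintegral_mono fun w => lintegral_mono_set inter_subset_right
  rw [mul_assoc, mul_comm (volume A)⁻¹, ← mul_assoc, ← div_eq_mul_inv,
    ENNReal.le_div_iff_mul_le (Or.inl hA0.ne') (Or.inl hAt)]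
  exact h2.trans (mul_le_mul' le_rfl h3)

/-! ### The theorem -/

theorem volume_Bl (n : ℕ) {r : ℝ} (hr : 0 < r) :
    volume (Bl n r) = ENNReal.ofReal (r ^ (2 * n)) * volume (Bl n 1) := by
  have hinv : (volume : Measure (Cn n)).IsAddHaarMeasure := haar_Cn n
  have h1 : Bl n r = r • Bl n 1 := by
    ext w
    rw [mem_smul_set_iff_inv_smul_mem₀ hr.ne']
    show nsq w ≤ r ^ 2 ↔ nsq (r⁻¹ • w) ≤ 1 ^ 2
    rw [nsq_smul, inv_pow, one_pow, inv_mul_le_iff₀ (by positivity), mul_one]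
  rw [h1, Measure.addHaar_smul, finrank_Cn, abs_of_pos (by positivity)]

theorem isCompact_Bl (n : ℕ) (r : ℝ) : IsCompact (Bl n r) := by
  refine (isCompact_cpd (k := n) r).of_isClosed_subset (isClosed_Bl r) fun w hw i => ?_
  have h : nsq w ≤ r ^ 2 := hw
  rw [BallM.nsq_eq_sum] at h
  exact (Finset.single_le_sum (f := fun j => w.1 j ^ 2 + w.2 j ^ 2)
    (fun j _ => by positivity) (Finset.mem_univ i)).trans h

theorem volume_Bl_ne_top (n : ℕ) (r : ℝ) : volume (Bl n r) ≠ ⊤ := (isCompact_Bl n r).measure_ne_top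

/-- John and Nirenberg on balls with centre `0` -/
theorem main_zero (n : ℕ) : ∃ (c : ℝ) (K : ℝ≥0∞), 0 < c ∧ K ≠ ⊤ ∧ ∀ (u : Cn n → ℝ)
    (r M₀ A p : ℝ), 0 < r → 0 < A → 0 ≤ p → p ≤ c / A →
    ContDiffOn ℝ ∞ u {x | nsq x < (9 * r) ^ 2} →
    (∀ x, nsq x < (9 * r) ^ 2 → ∀ v, 0 ≤ levz u v x) → (∀ x, nsq x < (9 * r) ^ 2 → u x ≤ M₀) →
    M₀ - A ≤ u 0 →
    ∫⁻ x in Bl n r, ENNReal.ofReal (Real.exp (-p * (u x - M₀))) ≤
      K * ENNReal.ofReal (r ^ (2 * n)) := by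
  obtain ⟨c, K₁, hc, hK₁, h1⟩ := one_var
  obtain ⟨K₂, hK₂, h2⟩ := polar n
  refine ⟨c, K₂ * K₁ * volume (Bl n 1), hc,
    ENNReal.mul_ne_top (ENNReal.mul_ne_top hK₂ hK₁) (volume_Bl_ne_top n 1), ?_⟩
  intro u r M₀ A p hr hA hp hpA hu hpsh hle hu0
  have hSo : IsOpen {x : Cn n | nsq x < (9 * r) ^ 2} :=
    isOpen_lt BallM.continuous_nsq continuous_const
  have hsub : Bl n r ⊆ {x : Cn n | nsq x < (9 * r) ^ 2} := fun x hx => by
    have h3 : nsq x ≤ r ^ 2 := hx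
    show nsq x < (9 * r) ^ 2
    nlinarith [pow_pos hr 2]
  set F : Cn n → ℝ≥0∞ := {x : Cn n | nsq x < (9 * r) ^ 2}.piecewise
    (fun x => ENNReal.ofReal (Real.exp (-p * (u x - M₀)))) (fun _ => 0) with hF
  have hFm : Measurable F := by
    refine ContinuousOn.measurable_piecewise ?_ continuousOn_const hSo.measurableSet
    refine ENNReal.continuous_ofReal.comp_continuousOn ?_
    refine Real.continuous_exp.comp_continuousOn ?_
    exact continuousOn_const.mul (hu.continuousOn.sub continuousOn_const)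
  have hFx : ∀ x, nsq x < (9 * r) ^ 2 → F x = ENNReal.ofReal (Real.exp (-p * (u x - M₀))) :=
    fun x hx => piecewise_eq_of_mem _ _ _ hx
  have h3 : ∀ w ∈ Bl n r, ∫⁻ z in cpd (k := 1) 2, F (Ln 0 w z) ≤ K₁ := by
    intro w hw
    have hw' : nsq w ≤ r ^ 2 := hw
    have hw0 : 0 ≤ nsq w := Decay.nsq_nonneg w
    have hmem : ∀ z ∈ opd (k := 1) 9, nsq (Ln 0 w z) < (9 * r) ^ 2 := by
      intro z hz
      have h4 := nsq_Ln (0 : Cn n) w z
      rw [sub_zero] at h4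
      rw [h4, mul_pow]
      have h5 := hz 0
      have h6 : 0 ≤ z.1 0 ^ 2 + z.2 0 ^ 2 := by positivity
      have h7 : 0 < r ^ 2 := by positivity
      nlinarith
    set g : Cn 1 → ℝ := fun z => u (Ln 0 w z) - M₀ with hg
    have hgs : ContDiffOn ℝ ∞ g (opd 9) :=
      (hu.comp (contDiff_Ln 0 w).contDiffOn fun z hz => hmem z hz).sub contDiffOn_const
    have hg0 : ∀ z ∈ opd (k := 1) 9, g z ≤ 0 := fun z hz => sub_nonpos.2 (hle _ (hmem z hz))
    have hgp : ∀ z ∈ opd (k := 1) 9, ∀ v, 0 ≤ levz g v z := by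
      intro z hz v
      have h4 : ContDiffOn ℝ ∞ (fun x => u x - M₀) {x : Cn n | nsq x < (9 * r) ^ 2} :=
        hu.sub contDiffOn_const
      have h5 := levz_comp hSo h4 isOpen_univ (holOn_Ln (0 : Cn n) w) (mem_univ z) (hmem z hz) v
      show 0 ≤ levz (fun z => u (Ln 0 w z) - M₀) v z
      rw [h5]
      have h6 : levz (fun x => u x - M₀) (fderiv ℝ (Ln 0 w) z v) (Ln 0 w z) =
          levz u (fderiv ℝ (Ln 0 w) z v) (Ln 0 w z) := by
        rw [Bd.levz_sub ((hu.contDiffAt (hSo.mem_nhds (hmem z hz))).of_le two_le_infty)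
          contDiffAt_const, Fb.levz_const, sub_zero]
      rw [h6]
      exact hpsh _ (hmem z hz) _
    have hg00 : -A ≤ g 0 := by
      have h4 : Ln 0 w (0 : Cn 1) = (0 : Cn n) := by simp [Ln_eq]
      simp only [hg, h4]
      linarith
    refine le_trans (setLIntegral_mono' (isCompact_cpd 2).measurableSet fun z hz => ?_)
      (h1 g A hA hgs hg0 hgp hg00)
    have hz9 : z ∈ opd (k := 1) 9 := Decay.cpd_sub_opd (by norm_num) (by norm_num) hz
    rw [hFx _ (hmem z hz9)]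
    refine ENNReal.ofReal_le_ofReal (Real.exp_le_exp.2 ?_)
    have h4 := hg0 z hz9
    show -p * g z ≤ -(c / A) * g z
    nlinarith
  calc ∫⁻ x in Bl n r, ENNReal.ofReal (Real.exp (-p * (u x - M₀)))
      = ∫⁻ x in Bl n r, F x := by
        refine setLIntegral_congr_fun (measurableSet_Bl r) fun x hx => ?_
        rw [hFx x (hsub hx)]
    _ ≤ K₂ * ∫⁻ w in Bl n r, ∫⁻ z in cpd (k := 1) 2, F (Ln 0 w z) := h2 hFm r
    _ ≤ K₂ * ∫⁻ w in Bl n r, K₁ := by
        gcongr 1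
        exact setLIntegral_mono' (measurableSet_Bl r) h3
    _ = K₂ * K₁ * volume (Bl n 1) * ENNReal.ofReal (r ^ (2 * n)) := by
        rw [setLIntegral_const, volume_Bl n hr]
        ring

/-- the closed ball with centre `x₀` -/
def Ba (x₀ : Cn n) (r : ℝ) : Set (Cn n) := {x | nsq (x - x₀) ≤ r ^ 2}

theorem isClosed_Ba (x₀ : Cn n) (r : ℝ) : IsClosed (Ba x₀ r) :=
  isClosed_le (BallM.continuous_nsq.comp (by fun_prop)) continuous_const

theorem measurableSet_Ba (x₀ : Cn n) (r : ℝ) : MeasurableSet (Ba x₀ r) :=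
  (isClosed_Ba x₀ r).measurableSet

theorem preimage_Ba (x₀ : Cn n) (r : ℝ) : (fun w => x₀ + w) ⁻¹' Ba x₀ r = Bl n r := by
  ext w
  show nsq (x₀ + w - x₀) ≤ r ^ 2 ↔ nsq w ≤ r ^ 2
  rw [add_sub_cancel_left]

theorem lintegral_Ba (x₀ : Cn n) (r : ℝ) (F : Cn n → ℝ≥0∞) :
    ∫⁻ x in Ba x₀ r, F x = ∫⁻ w in Bl n r, F (x₀ + w) := by
  have hinv : (volume : Measure (Cn n)).IsAddHaarMeasure := haar_Cn n
  have h1 := (measurePreserving_add_left (volume : Measure (Cn n)) x₀).setLIntegral_comp_preimage_emb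
    (MeasurableEquiv.addLeft x₀).measurableEmbedding F (Ba x₀ r)
  rw [preimage_Ba] at h1
  exact h1.symm

theorem volume_Ba (x₀ : Cn n) {r : ℝ} (hr : 0 < r) :
    volume (Ba x₀ r) = ENNReal.ofReal (r ^ (2 * n)) * volume (Bl n 1) := by
  have hinv : (volume : Measure (Cn n)).IsAddHaarMeasure := haar_Cn n
  rw [← volume_Bl n hr, ← preimage_Ba x₀ r]
  exact (measure_preimage_add volume x₀ _).symm

/-- **John and Nirenberg**: if `u` is plurisubharmonic and `≤ M₀` on the open ball of radius `9 r`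
around `x₀` and `u x₀ ≥ M₀ - A`, then `∫ exp (-p (u - M₀)) ≤ K r ^ (2 n)` over the closed ball of
radius `r` for `0 ≤ p ≤ c / A`. -/
theorem main (n : ℕ) : ∃ (c : ℝ) (K : ℝ≥0∞), 0 < c ∧ K ≠ ⊤ ∧ ∀ (u : Cn n → ℝ) (x₀ : Cn n)
    (r M₀ A p : ℝ), 0 < r → 0 < A → 0 ≤ p → p ≤ c / A →
    ContDiffOn ℝ ∞ u {x | nsq (x - x₀) < (9 * r) ^ 2} →
    (∀ x, nsq (x - x₀) < (9 * r) ^ 2 → ∀ v, 0 ≤ levz u v x) →
    (∀ x, nsq (x - x₀) < (9 * r) ^ 2 → u x ≤ M₀) → M₀ - A ≤ u x₀ →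
    ∫⁻ x in Ba x₀ r, ENNReal.ofReal (Real.exp (-p * (u x - M₀))) ≤
      K * ENNReal.ofReal (r ^ (2 * n)) := by
  obtain ⟨c, K, hc, hK, h⟩ := main_zero n
  refine ⟨c, K, hc, hK, ?_⟩
  intro u x₀ r M₀ A p hr hA hp hpA hu hpsh hle hu0
  rw [lintegral_Ba]
  refine h (fun w => u (x₀ + w)) r M₀ A p hr hA hp hpA ?_ ?_ ?_ ?_
  · refine hu.comp (by fun_prop) fun w hw => ?_
    show nsq (x₀ + w - x₀) < (9 * r) ^ 2
    rw [add_sub_cancel_left]
    exact hw
  · intro w hw v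
    rw [Har.levz_translate]
    exact hpsh _ (by rwa [add_sub_cancel_left]) v
  · intro w hw
    exact hle _ (by rwa [add_sub_cancel_left])
  · simpa using hu0

/-- from balls to sets: if the integral of `F` over the part of `S` in each ball of radius `r` is at
most `K`, then the integral over `S` is at most `K * volume T / volume (ball)` when `T` contains the
points at distance `≤ r` from `S`. -/
theorem lintegral_le_of_local {S T : Set (Cn n)} (hS : MeasurableSet S) {F : Cn n → ℝ≥0∞}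
    (hF : AEMeasurable F (volume.restrict S)) {r : ℝ} (hr : 0 < r) {K : ℝ≥0∞}
    (hT : ∀ x ∈ S, ∀ y, nsq (x - y) ≤ r ^ 2 → y ∈ T)
    (hK : ∀ y ∈ T, ∫⁻ x in S ∩ Ba y r, F x ≤ K) :
    ENNReal.ofReal (r ^ (2 * n)) * volume (Bl n 1) * ∫⁻ x in S, F x ≤ K * volume T := by
  set D : Set (Cn n × Cn n) := {q | nsq (q.1 - q.2) ≤ r ^ 2} with hD
  have hDm : MeasurableSet D := by
    have hc : Continuous fun q : Cn n × Cn n => nsq (q.1 - q.2) :=
      BallM.continuous_nsq.comp (by fun_prop)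
    exact (isClosed_le hc continuous_const).measurableSet
  have hsymm : ∀ x y : Cn n, nsq (x - y) = nsq (y - x) := by
    intro x y
    rw [← neg_sub, ← neg_one_smul ℝ, nsq_smul]
    norm_num
  set f : Cn n → Cn n → ℝ≥0∞ := fun x y => F x * D.indicator 1 (x, y) with hf
  have hfm : AEMeasurable (Function.uncurry f) ((volume.restrict S).prod volume) := by
    have h1 : AEMeasurable (fun q : Cn n × Cn n => F q.1) ((volume.restrict S).prod volume) :=
      hF.comp_quasiMeasurePreserving Measure.quasiMeasurePreserving_fst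
    exact h1.mul (measurable_one.indicator hDm).aemeasurable
  have h1 : ∀ x, ∫⁻ y, f x y = F x * (ENNReal.ofReal (r ^ (2 * n)) * volume (Bl n 1)) := by
    intro x
    have h2 : ∀ y, f x y = F x * (Ba x r).indicator 1 y := by
      intro y
      simp only [hf, hD]
      congr 1
      have h3 : y ∈ Ba x r ↔ nsq (x - y) ≤ r ^ 2 := by
        rw [hsymm x y]
        rfl
      by_cases hy : nsq (x - y) ≤ r ^ 2
      · rw [indicator_of_mem (show (x, y) ∈ {q : Cn n × Cn n | nsq (q.1 - q.2) ≤ r ^ 2} from hy),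
          indicator_of_mem (h3.2 hy)]
        rfl
      · rw [indicator_of_notMem (show (x, y) ∉ {q : Cn n × Cn n | nsq (q.1 - q.2) ≤ r ^ 2} from hy),
          indicator_of_notMem (fun h => hy (h3.1 h))]
    simp only [h2]
    rw [lintegral_const_mul _ (measurable_one.indicator (measurableSet_Ba x r)),
      lintegral_indicator_one (measurableSet_Ba x r), volume_Ba x hr]
  have h2 : ∀ y, ∫⁻ x in S, f x y ≤ T.indicator (fun _ => K) y := by
    intro y
    have h3 : ∫⁻ x in S, f x y = ∫⁻ x in S ∩ Ba y r, F x := by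
      have h4 : ∀ x, f x y = (Ba y r).indicator F x := by
        intro x
        simp only [hf, hD]
        by_cases hy : nsq (x - y) ≤ r ^ 2
        · rw [indicator_of_mem (show (x, y) ∈ {q : Cn n × Cn n | nsq (q.1 - q.2) ≤ r ^ 2} from hy),
            indicator_of_mem (show x ∈ Ba y r from hy), Pi.one_apply, mul_one]
        · rw [indicator_of_notMem (show (x, y) ∉ {q : Cn n × Cn n | nsq (q.1 - q.2) ≤ r ^ 2}
            from hy), indicator_of_notMem (show x ∉ Ba y r from hy), mul_zero]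
      simp only [h4]
      rw [lintegral_indicator (measurableSet_Ba y r), Measure.restrict_restrict
        (measurableSet_Ba y r), inter_comm]
    rw [h3]
    by_cases hy : y ∈ T
    · rw [indicator_of_mem hy]
      exact hK y hy
    · rw [indicator_of_notMem hy]
      have h4 : S ∩ Ba y r = ∅ := by
        rw [eq_empty_iff_forall_notMem]
        rintro x ⟨hx1, hx2⟩
        exact hy (hT x hx1 y hx2)
      rw [h4, Measure.restrict_empty, lintegral_zero_measure]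
  calc ENNReal.ofReal (r ^ (2 * n)) * volume (Bl n 1) * ∫⁻ x in S, F x
      = ∫⁻ x in S, ∫⁻ y, f x y := by
        simp only [h1]
        rw [lintegral_mul_const'' _ hF, mul_comm]
    _ = ∫⁻ y, ∫⁻ x in S, f x y := lintegral_lintegral_swap hfm
    _ ≤ ∫⁻ y, T.indicator (fun _ => K) y := lintegral_mono h2
    _ ≤ K * volume T := lintegral_indicator_const_le _ _

end Pool.Agent.KRFZ.JN

end

section

/-!
# The integral over a neighbourhood of a set (helper52)

`tube`: the integral of `exp (-p (φ - m))` over the `ρ`-neighbourhood of a set `P` is at most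
`K exp (p E)` if the psh functions `φ + Θ` have maxima over the balls of radius `ρ` and `28 ρ`
around the points of `P` which differ by at most `A`, `p ≤ c / A`.
-/

open scoped ContDiff ENNReal ComplexOrder Topology
open Set MeasureTheory Filter Pool.Agent.ToricKRF Pool.Agent.ToricKRF.G Pool.Agent.KRFS
  Pool.Agent.KRFF Pool.Agent.KRFG Pool.Agent.KRFH

namespace Pool.Agent.KRFZ.JN

variable {n : ℕ}

theorem nsq_tri {x y : Cn n} {a b : ℝ} (ha : 0 ≤ a) (hb : 0 ≤ b) (hx : nsq x ≤ a ^ 2)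
    (hy : nsq y ≤ b ^ 2) : nsq (x + y) ≤ (a + b) ^ 2 := by
  have e : nsq (x + y) = nsq x + 2 * ∑ i, (x.1 i * y.1 i + x.2 i * y.2 i) + nsq y := by
    simp only [nsq, dotProduct, ← Finset.sum_add_distrib, Finset.mul_sum]
    apply Finset.sum_congr rfl
    intro i _
    simp
    ring
  have cs : (∑ i, (x.1 i * y.1 i + x.2 i * y.2 i)) ^ 2 ≤ nsq x * nsq y := by
    have k1 := Finset.sum_mul_sq_le_sq_mul_sq (Finset.univ : Finset (Fin n ⊕ Fin n))
      (Sum.elim x.1 x.2) (Sum.elim y.1 y.2)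
    simp only [Fintype.sum_sum_type, Sum.elim_inl, Sum.elim_inr] at k1
    simp only [nsq, dotProduct, Finset.sum_add_distrib]
    simpa only [pow_two] using k1
  have h1 : ∑ i, (x.1 i * y.1 i + x.2 i * y.2 i) ≤ a * b := by
    refine (abs_le_of_sq_le_sq' ?_ (mul_nonneg ha hb)).2
    refine cs.trans ?_
    rw [mul_pow]
    exact mul_le_mul hx hy (Decay.nsq_nonneg y) (by positivity)
  rw [e]
  nlinarith

theorem nsq_comm (x y : Cn n) : nsq (x - y) = nsq (y - x) := by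
  rw [← neg_sub, ← neg_one_smul ℝ, nsq_smul]
  norm_num

/-- three points -/
theorem nsq_three {x y z : Cn n} {a b : ℝ} (ha : 0 ≤ a) (hb : 0 ≤ b) (hx : nsq (x - y) ≤ a ^ 2)
    (hy : nsq (y - z) ≤ b ^ 2) : nsq (x - z) ≤ (a + b) ^ 2 := by
  have h := nsq_tri ha hb hx hy
  rwa [sub_add_sub_cancel] at h

/-- `main` for a point near which the function is large -/
theorem two_scale (n : ℕ) : ∃ (c : ℝ) (K : ℝ≥0∞), 0 < c ∧ K ≠ ⊤ ∧ ∀ (u : Cn n → ℝ) (q : Cn n)
    (ρ M₀ A p : ℝ), 0 < ρ → 0 < A → 0 ≤ p → p ≤ c / A →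
    ContDiffOn ℝ ∞ u {x | nsq (x - q) < (29 * ρ) ^ 2} →
    (∀ x, nsq (x - q) < (29 * ρ) ^ 2 → ∀ v, 0 ≤ levz u v x) →
    (∀ x, nsq (x - q) < (29 * ρ) ^ 2 → u x ≤ M₀) →
    (∃ x₀, nsq (x₀ - q) ≤ ρ ^ 2 ∧ M₀ - A ≤ u x₀) →
    ∫⁻ x in Ba q (2 * ρ), ENNReal.ofReal (Real.exp (-p * (u x - M₀))) ≤
      K * ENNReal.ofReal (ρ ^ (2 * n)) := by
  obtain ⟨c, K, hc, hK, h⟩ := main n
  refine ⟨c, K * ENNReal.ofReal (3 ^ (2 * n)), hc, ENNReal.mul_ne_top hK ENNReal.ofReal_ne_top, ?_⟩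
  intro u q ρ M₀ A p hρ hA hp hpA hu hpsh hle ⟨x₀, hx₀, hux⟩
  have hsub : ∀ x, nsq (x - x₀) < (9 * (3 * ρ)) ^ 2 → nsq (x - q) < (29 * ρ) ^ 2 := by
    intro x hx
    have h1 := nsq_three (x := x) (y := x₀) (z := q) (a := 9 * (3 * ρ)) (b := ρ) (by positivity)
      hρ.le hx.le hx₀
    refine lt_of_le_of_lt h1 ?_
    nlinarith [pow_pos hρ 2]
  have h1 := h u x₀ (3 * ρ) M₀ A p (by positivity) hA hp hpA (hu.mono fun x hx => hsub x hx)
    (fun x hx => hpsh x (hsub x hx)) (fun x hx => hle x (hsub x hx)) hux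
  have h2 : Ba q (2 * ρ) ⊆ Ba x₀ (3 * ρ) := by
    intro x hx
    have h3 := nsq_three (x := x) (y := q) (z := x₀) (a := 2 * ρ) (b := ρ) (by positivity)
      hρ.le hx (by rwa [nsq_comm])
    show nsq (x - x₀) ≤ (3 * ρ) ^ 2
    refine h3.trans_eq ?_
    ring
  refine (lintegral_mono_set h2).trans (h1.trans_eq ?_)
  rw [mul_assoc, ← ENNReal.ofReal_mul (by positivity), mul_pow]

/-- the open neighbourhood of radius `ρ` -/
def Nb (P : Set (Cn n)) (ρ : ℝ) : Set (Cn n) := {x | ∃ q ∈ P, nsq (x - q) < ρ ^ 2}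

theorem isOpen_Nb (P : Set (Cn n)) (ρ : ℝ) : IsOpen (Nb P ρ) := by
  have h : Nb P ρ = ⋃ q ∈ P, {x | nsq (x - q) < ρ ^ 2} := by
    ext x
    simp [Nb]
  rw [h]
  exact isOpen_biUnion fun q _ => isOpen_lt (BallM.continuous_nsq.comp (by fun_prop))
    continuous_const

/-- **the integral over a neighbourhood** -/
theorem tube (n : ℕ) (R : ℝ) (hR : 0 ≤ R) : ∃ (c : ℝ) (K : ℝ≥0∞), 0 < c ∧ K ≠ ⊤ ∧
    ∀ (φ Θ : Cn n → ℝ) (P : Set (Cn n)) (ρ m A E p : ℝ), 0 < ρ → ρ ≤ 1 → 0 < A → 0 ≤ p →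
    p ≤ c / A → (∀ q ∈ P, nsq q ≤ R ^ 2) →
    (∀ q ∈ P, ContDiffOn ℝ ∞ φ {x | nsq (x - q) < (29 * ρ) ^ 2} ∧
      ContDiffOn ℝ ∞ (fun x => φ x + Θ x) {x | nsq (x - q) < (29 * ρ) ^ 2} ∧
      (∀ x, nsq (x - q) < (29 * ρ) ^ 2 → ∀ v, 0 ≤ levz (fun x => φ x + Θ x) v x) ∧
      ∃ M₀, (∀ x, nsq (x - q) < (29 * ρ) ^ 2 → φ x + Θ x ≤ M₀) ∧
        (∃ x₀, nsq (x₀ - q) ≤ ρ ^ 2 ∧ M₀ - A ≤ φ x₀ + Θ x₀) ∧
        ∀ x, nsq (x - q) ≤ (2 * ρ) ^ 2 → Θ x - M₀ + m ≤ E) →
    ∫⁻ x in Nb P ρ, ENNReal.ofReal (Real.exp (-p * (φ x - m))) ≤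
      K * ENNReal.ofReal (Real.exp (p * E)) := by
  obtain ⟨c, K, hc, hK, h⟩ := two_scale n
  set V₁ : ℝ≥0∞ := volume (Bl n 1) with hV₁
  set V₂ : ℝ≥0∞ := volume (Bl n (R + 2)) with hV₂
  have hV1 : V₁ ≠ ⊤ := volume_Bl_ne_top n 1
  have hV2 : V₂ ≠ ⊤ := volume_Bl_ne_top n _
  have hV0 : V₁ ≠ 0 := by
    have h1 : IsOpen {w : Cn n | nsq w < 1 ^ 2} := isOpen_lt BallM.continuous_nsq continuous_const
    have h2 : {w : Cn n | nsq w < 1 ^ 2} ⊆ Bl n 1 := fun w hw => by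
      have h3 : nsq w < 1 ^ 2 := hw
      exact h3.le
    have hinv : (volume : Measure (Cn n)).IsAddHaarMeasure := haar_Cn n
    refine (lt_of_lt_of_le (h1.measure_pos volume ⟨0, ?_⟩) (measure_mono h2)).ne'
    show nsq (0 : Cn n) < 1 ^ 2
    simp [nsq]
  refine ⟨c, K * ENNReal.ofReal (2 ^ (2 * n)) * V₂ / V₁, hc,
    ENNReal.div_ne_top (ENNReal.mul_ne_top (ENNReal.mul_ne_top hK ENNReal.ofReal_ne_top) hV2) hV0,
    ?_⟩
  intro φ Θ P ρ m A E p hρ hρ1 hA hp hpA hPR hP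
  set F : Cn n → ℝ≥0∞ := fun x => ENNReal.ofReal (Real.exp (-p * (φ x - m))) with hF
  have hSo := isOpen_Nb P ρ
  have hFm : AEMeasurable F (volume.restrict (Nb P ρ)) := by
    refine ContinuousOn.aemeasurable ?_ hSo.measurableSet
    refine ENNReal.continuous_ofReal.comp_continuousOn ?_
    refine Real.continuous_exp.comp_continuousOn ?_
    refine continuousOn_const.mul (ContinuousOn.sub ?_ continuousOn_const)
    rintro x ⟨q, hq, hxq⟩
    have hx29 : nsq (x - q) < (29 * ρ) ^ 2 := by nlinarith [pow_pos hρ 2]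
    exact ((hP q hq).1.continuousOn.continuousAt ((isOpen_lt (BallM.continuous_nsq.comp
      (by fun_prop)) continuous_const).mem_nhds hx29)).continuousWithinAt
  -- one ball
  have hball : ∀ q ∈ P, ∫⁻ x in Ba q (2 * ρ), F x ≤
      K * ENNReal.ofReal (ρ ^ (2 * n)) * ENNReal.ofReal (Real.exp (p * E)) := by
    intro q hq
    obtain ⟨-, hs, hpsh, M₀, hM₀, hx₀, hE⟩ := hP q hq
    have h1 := h (fun x => φ x + Θ x) q ρ M₀ A p hρ hA hp hpA hs hpsh hM₀ hx₀
    calc ∫⁻ x in Ba q (2 * ρ), F x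
        ≤ ∫⁻ x in Ba q (2 * ρ), ENNReal.ofReal (Real.exp (-p * (φ x + Θ x - M₀))) *
            ENNReal.ofReal (Real.exp (p * E)) := by
          refine setLIntegral_mono' (measurableSet_Ba q _) fun x hx => ?_
          rw [← ENNReal.ofReal_mul (Real.exp_pos _).le, ← Real.exp_add]
          refine ENNReal.ofReal_le_ofReal (Real.exp_le_exp.2 ?_)
          have h2 := mul_le_mul_of_nonneg_left (hE x hx) hp
          linarith
      _ = (∫⁻ x in Ba q (2 * ρ), ENNReal.ofReal (Real.exp (-p * (φ x + Θ x - M₀)))) *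
            ENNReal.ofReal (Real.exp (p * E)) := lintegral_mul_const' _ _ ENNReal.ofReal_ne_top
      _ ≤ _ := mul_le_mul_left h1 _
  -- all balls
  have h1 := lintegral_le_of_local (S := Nb P ρ) (T := Bl n (R + 2)) hSo.measurableSet hFm
    (r := ρ / 2) (by positivity)
    (K := K * ENNReal.ofReal (ρ ^ (2 * n)) * ENNReal.ofReal (Real.exp (p * E)))
    (by
      rintro x ⟨q, hq, hxq⟩ y hxy
      have h2 := nsq_three (x := y) (y := x) (z := q) (a := ρ / 2) (b := ρ) (by positivity) hρ.le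
        (by rwa [nsq_comm]) hxq.le
      have h3 := nsq_tri (x := y - q) (y := q) (a := ρ / 2 + ρ) (b := R) (by positivity) hR h2
        (hPR q hq)
      rw [sub_add_cancel] at h3
      show nsq y ≤ (R + 2) ^ 2
      refine h3.trans (pow_le_pow_left₀ (by positivity) ?_ 2)
      linarith)
    (by
      intro y _
      by_cases hne : (Nb P ρ ∩ Ba y (ρ / 2)).Nonempty
      · obtain ⟨x, ⟨q, hq, hxq⟩, hxy⟩ := hne
        have hxy' : nsq (x - y) ≤ (ρ / 2) ^ 2 := hxy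
        refine (lintegral_mono_set ?_).trans (hball q hq)
        rintro x' ⟨-, hx'⟩
        have hx'y : nsq (x' - y) ≤ (ρ / 2) ^ 2 := hx'
        have h2 := nsq_three (x := x') (y := y) (z := x) (a := ρ / 2) (b := ρ / 2) (by positivity)
          (by positivity) hx'y (by rwa [nsq_comm])
        have h3 := nsq_three (x := x') (y := x) (z := q) (a := ρ / 2 + ρ / 2) (b := ρ)
          (by positivity) hρ.le h2 hxq.le
        show nsq (x' - q) ≤ (2 * ρ) ^ 2
        refine h3.trans_eq ?_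
        ring
      · rw [not_nonempty_iff_eq_empty.1 hne, Measure.restrict_empty, lintegral_zero_measure]
        exact zero_le)
  have h2 : ENNReal.ofReal ((ρ / 2) ^ (2 * n)) * ENNReal.ofReal (2 ^ (2 * n)) =
      ENNReal.ofReal (ρ ^ (2 * n)) := by
    rw [← ENNReal.ofReal_mul (by positivity), ← mul_pow, div_mul_cancel₀ _ two_ne_zero]
  have hr0 : ENNReal.ofReal ((ρ / 2) ^ (2 * n)) ≠ 0 := by
    rw [ne_eq, ENNReal.ofReal_eq_zero, not_le]
    positivity
  rw [ENNReal.div_eq_inv_mul, mul_assoc, mul_comm V₁⁻¹, ← div_eq_mul_inv] 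
  rw [ENNReal.le_div_iff_mul_le (Or.inl hV0) (Or.inl hV1)]
  rw [← ENNReal.mul_le_mul_iff_right hr0 ENNReal.ofReal_ne_top]
  calc _ = ENNReal.ofReal ((ρ / 2) ^ (2 * n)) * V₁ * ∫⁻ x in Nb P ρ, F x := by ring
    _ ≤ K * ENNReal.ofReal (ρ ^ (2 * n)) * ENNReal.ofReal (Real.exp (p * E)) * V₂ := h1
    _ = _ := by
      rw [← h2]
      ring

end Pool.Agent.KRFZ.JN

end
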